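import Pool.Agent.LibDimB.BDefs

/-! Row ALG: algebra of the layer operators (graph level). -/

namespace LibDim

open Finset Matrix

variable {V E : Type} [Fintype V] [DecidableEq V] [Fintype E] [DecidableEq E]

theorem balg_upM (y : V) (a b : V → Bool) :
    upM y a b = if a y = false ∧ Function.update a y true = b then 1 else 0 := by
  unfold upM
  exact if_congr (and_congr Iff.rfl eq_comm) rfl rfl

theorem balg_iff (y : V) (a b : V → Bool) :
    (a y = false ∧ Function.update a y true = b) ↔ (b y = true ∧ Function.update b y false = a) := by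
  constructor
  · rintro ⟨h, rfl⟩
    refine ⟨by simp, ?_⟩
    rw [Function.update_idem, ← h, Function.update_eq_self]
  · rintro ⟨h, rfl⟩
    refine ⟨by simp, ?_⟩
    rw [Function.update_idem, ← h, Function.update_eq_self]

theorem balg_upM' (y : V) (a b : V → Bool) :
    upM y a b = if b y = true ∧ Function.update b y false = a then 1 else 0 := by
  rw [balg_upM]
  exact if_congr (balg_iff y a b) rfl rfl

theorem balg_upM_mul (y : V) (M : Matrix (V → Bool) (V → Bool) ℝ) (a b : V → Bool) :
    (upM y * M) a b = if a y = false then M (Function.update a y true) b else 0 := by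
  rw [Matrix.mul_apply]
  simp only [balg_upM]
  by_cases h : a y = false
  · rw [Finset.sum_eq_single (Function.update a y true)]
    · simp [h]
    · intro c _ hc
      rw [if_neg (fun h' => hc h'.2.symm), zero_mul]
    · simp
  · simp [h]

theorem balg_okC_symm (g : Gr V E) (c : V → ℕ) (a : V → Bool) (η : E → Bool) (b : V → Bool) :
    okC g c a η b ↔ okC g c b η a := by
  unfold okC
  constructor
  · intro h y
    rw [add_comm (b y).toNat]
    exact h y
  · intro h y
    rw [add_comm (a y).toNat]
    exact h y

theorem balg_opC_symm (g : Gr V E) (c : V → ℕ) : (opC g c).transpose = opC g c := by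
  classical
  ext a b
  rw [Matrix.transpose_apply]
  unfold opC
  exact Finset.sum_congr rfl fun η _ => if_congr (balg_okC_symm g c b η a) rfl rfl

theorem balg_UM_mul (u : V → ℝ) (M : Matrix (V → Bool) (V → Bool) ℝ) :
    UM u * M = ∑ y, u y • (upM y * M) := by
  unfold UM
  rw [Finset.sum_mul]
  exact Finset.sum_congr rfl fun y _ => Matrix.smul_mul _ _ _

theorem balg_mul_UM (u : V → ℝ) (M : Matrix (V → Bool) (V → Bool) ℝ) :
    M * (UM u).transpose = ∑ y, u y • (M * (upM y).transpose) := by
  unfold UM
  rw [Matrix.transpose_sum, Finset.mul_sum]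
  refine Finset.sum_congr rfl fun y _ => ?_
  rw [Matrix.transpose_smul, Matrix.mul_smul]

theorem balg_mul_UM' (u : V → ℝ) (M : Matrix (V → Bool) (V → Bool) ℝ) :
    M * UM u = ∑ y, u y • (M * upM y) := by
  unfold UM
  rw [Finset.mul_sum]
  refine Finset.sum_congr rfl fun y _ => ?_
  rw [Matrix.mul_smul]

theorem balg_up_up (y z : V) (a b : V → Bool) :
    (upM y * (upM z).transpose) a b =
      if (a y = false ∧ b z = false) ∧ Function.update a y true = Function.update b z true
        then 1 else 0 := by
  rw [balg_upM_mul, Matrix.transpose_apply, balg_upM]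
  by_cases h : a y = false
  · by_cases h' : b z = false
    · simp [h, h', eq_comm]
    · simp [h, h']
  · simp [h]

theorem balg_dn_up (y z : V) (a b : V → Bool) :
    ((upM z).transpose * upM y) a b =
      if (a z = true ∧ b y = true) ∧ Function.update a z false = Function.update b y false
        then 1 else 0 := by
  rw [Matrix.mul_apply]
  simp only [Matrix.transpose_apply, balg_upM']
  by_cases h : a z = true
  · by_cases h' : b y = true
    · rw [Finset.sum_eq_single (Function.update a z false)]
      · simp [h, h', eq_comm]
      · intro c _ hc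
        rw [if_neg (fun h'' => hc h''.2.symm), zero_mul]
      · simp
    · simp [h']
  · simp [h]

theorem balg_comm_ne (y z : V) (h : y ≠ z) :
    upM y * (upM z).transpose = (upM z).transpose * upM y := by
  ext a b
  rw [balg_up_up, balg_dn_up]
  refine if_congr ?_ rfl rfl
  constructor
  · rintro ⟨⟨h1, h2⟩, h3⟩
    have e : ∀ x, Function.update a y true x = Function.update b z true x := congrFun h3
    have e1 := e z
    have e2 := e y
    rw [Function.update_of_ne h.symm, Function.update_self] at e1
    rw [Function.update_self, Function.update_of_ne h] at e2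
    refine ⟨⟨e1, e2.symm⟩, ?_⟩
    funext x
    by_cases hz : x = z
    · subst hz
      rw [Function.update_self, Function.update_of_ne h.symm, h2]
    · by_cases hy : x = y
      · subst hy
        rw [Function.update_self, Function.update_of_ne hz, h1]
      · have := e x
        rw [Function.update_of_ne hy, Function.update_of_ne hz] at this
        rw [Function.update_of_ne hz, Function.update_of_ne hy, this]
  · rintro ⟨⟨h1, h2⟩, h3⟩
    have e : ∀ x, Function.update a z false x = Function.update b y false x := congrFun h3
    have e1 := e z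
    have e2 := e y
    rw [Function.update_self, Function.update_of_ne h.symm] at e1
    rw [Function.update_of_ne h, Function.update_self] at e2
    refine ⟨⟨e2, e1.symm⟩, ?_⟩
    funext x
    by_cases hz : x = z
    · subst hz
      rw [Function.update_self, Function.update_of_ne h.symm, h1]
    · by_cases hy : x = y
      · subst hy
        rw [Function.update_self, Function.update_of_ne hz, h2]
      · have := e x
        rw [Function.update_of_ne hz, Function.update_of_ne hy] at this
        rw [Function.update_of_ne hz, Function.update_of_ne hy, this]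

theorem balg_comm_eq (y : V) :
    upM y * (upM y).transpose - (upM y).transpose * upM y
      = Matrix.diagonal (fun a : V → Bool => 1 - 2 * ((a y).toNat : ℝ)) := by
  ext a b
  rw [Matrix.sub_apply, balg_up_up, balg_dn_up, Matrix.diagonal_apply]
  have key : ∀ (c : Bool), a y = c → b y = c → ∀ c' : Bool,
      (Function.update a y c' = Function.update b y c' ↔ a = b) := by
    intro c h1 h2 c'
    constructor
    · intro h
      funext x
      by_cases hx : x = y
      · rw [hx, h1, h2]
      · have := congrFun h x
        rwa [Function.update_of_ne hx, Function.update_of_ne hx] at this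
    · intro h
      rw [h]
  by_cases hab : a = b
  · subst hab
    cases h : a y
    · simp
    · simp
      norm_num
  · rw [if_neg hab, if_neg, if_neg, sub_zero]
    · rintro ⟨⟨h1, h2⟩, h3⟩
      exact hab ((key true h1 h2 false).1 h3)
    · rintro ⟨⟨h1, h2⟩, h3⟩
      exact hab ((key false h1 h2 true).1 h3)

theorem lS_symm (g : Gr V E) : (lS g).transpose = lS g := by
  exact (opL_symm g _).eq

theorem lS_pow_symm (g : Gr V E) (k : ℕ) : (lS g ^ k).transpose = lS g ^ k := by
  exact comm_pow_symm g k

/-- no sources: the transfer matrix -/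
theorem opC_zero (g : Gr V E) : opC g (0 : V → ℕ) = lS g := by
  classical
  ext a b
  unfold opC lS opL wgt
  refine Finset.sum_congr rfl fun η _ => ?_
  rw [mul_one]
  refine if_congr ?_ rfl rfl
  unfold okC okL
  simp

/-- raising from the left adds a monomer: `(up_y M)(a,b) = [a y = false] M(a ∪ y, b)`, and the vertex
equation at `y` is the same for `(c, a ∪ y)` and `(c + δ_y, a)`. -/
theorem up_opC (g : Gr V E) (c : V → ℕ) (y : V) :
    upM y * opC g c = opC g (fun z => c z + if z = y then 1 else 0) := by
  classical
  ext a b
  rw [balg_upM_mul]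
  by_cases h : a y = false
  · rw [if_pos h]
    unfold opC
    refine Finset.sum_congr rfl fun η _ => if_congr ?_ rfl rfl
    unfold okC
    refine forall_congr' fun z => ?_
    by_cases hz : z = y
    · subst hz
      rw [Function.update_self, h]
      simp only [Bool.toNat_true, Bool.toNat_false, if_true]
      omega
    · rw [Function.update_of_ne hz]
      simp only [if_neg hz, add_zero]
  · rw [if_neg h]
    unfold opC
    symm
    refine Finset.sum_eq_zero fun η _ => if_neg ?_
    intro hk
    have h1 := hk y
    rw [Bool.not_eq_false] at h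
    rw [h] at h1
    simp only [Bool.toNat_true, if_true] at h1
    omega

/-- lowering from the right adds a monomer -/
theorem opC_up (g : Gr V E) (c : V → ℕ) (y : V) :
    opC g c * (upM y).transpose = opC g (fun z => c z + if z = y then 1 else 0) := by
  have h := congrArg Matrix.transpose (up_opC g c y)
  rw [Matrix.transpose_mul, balg_opC_symm, balg_opC_symm] at h
  exact h

/-- `U(u) S = S U(u)^T` -/
theorem UM_lS (g : Gr V E) (u : V → ℝ) : UM u * lS g = lS g * (UM u).transpose := by
  rw [balg_UM_mul, balg_mul_UM]
  refine Finset.sum_congr rfl fun y _ => ?_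
  rw [← opC_zero, up_opC, opC_up]

/-- one monomer in a layer -/
theorem opC_one (g : Gr V E) (y : V) :
    opC g (fun z => if z = y then 1 else 0) = upM y * lS g := by
  rw [← opC_zero, up_opC]
  simp

/-- two monomers in the same layer -/
theorem opC_two (g : Gr V E) (y y' : V) :
    opC g (fun z => (if z = y then 1 else 0) + (if z = y' then 1 else 0))
      = upM y * lS g * (upM y').transpose := by
  rw [← opC_one, opC_up]

/-- canonical (anti)commutation: `[U(u), U(v)^T] = diag (∑ u v (1 - 2 a))` -/
theorem UM_comm (u v : V → ℝ) :
    UM u * (UM v).transpose - (UM v).transpose * UM u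
      = Matrix.diagonal (fun a : V → Bool => ∑ y, u y * v y * (1 - 2 * ((a y).toNat : ℝ))) := by
  have e1 : UM u * (UM v).transpose = ∑ y, ∑ z, (u y * v z) • (upM y * (upM z).transpose) := by
    rw [balg_UM_mul]
    refine Finset.sum_congr rfl fun y _ => ?_
    rw [balg_mul_UM, Finset.smul_sum]
    exact Finset.sum_congr rfl fun z _ => smul_smul _ _ _
  have e2 : (UM v).transpose * UM u = ∑ y, ∑ z, (u y * v z) • ((upM z).transpose * upM y) := by
    rw [balg_mul_UM']
    refine Finset.sum_congr rfl fun y _ => ?_
    have e3 : (UM v).transpose * upM y = ∑ z, v z • ((upM z).transpose * upM y) := by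
      unfold UM
      rw [Matrix.transpose_sum, Finset.sum_mul]
      refine Finset.sum_congr rfl fun z _ => ?_
      rw [Matrix.transpose_smul, Matrix.smul_mul]
    rw [e3, Finset.smul_sum]
    exact Finset.sum_congr rfl fun z _ => smul_smul _ _ _
  rw [e1, e2, ← Finset.sum_sub_distrib]
  have e4 : ∀ y : V, ((∑ z, (u y * v z) • (upM y * (upM z).transpose))
      - ∑ z, (u y * v z) • ((upM z).transpose * upM y))
      = (u y * v y) • Matrix.diagonal (fun a : V → Bool => 1 - 2 * ((a y).toNat : ℝ)) := by
    intro y
    rw [← Finset.sum_sub_distrib, Finset.sum_eq_single y]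
    · rw [← smul_sub, balg_comm_eq]
    · intro z _ hz
      rw [balg_comm_ne y z hz.symm, sub_self]
    · simp
  rw [Finset.sum_congr rfl fun y _ => e4 y]
  ext a b
  rw [Matrix.sum_apply, Matrix.diagonal_apply]
  by_cases h : a = b
  · subst h
    rw [if_pos rfl]
    refine Finset.sum_congr rfl fun y _ => ?_
    rw [Matrix.smul_apply, Matrix.diagonal_apply_eq, smul_eq_mul]
  · rw [if_neg h]
    refine Finset.sum_eq_zero fun y _ => ?_
    rw [Matrix.smul_apply, Matrix.diagonal_apply_ne _ h, smul_zero]

/-- `[D(w), U(u)] = - U(w u)` -/
theorem DM_UM (w u : V → ℝ) : DM w * UM u - UM u * DM w = - UM (fun y => w y * u y) := by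
  ext a b
  rw [Matrix.sub_apply, Matrix.neg_apply]
  unfold DM
  rw [Matrix.diagonal_mul, Matrix.mul_diagonal]
  unfold UM
  simp only [Matrix.sum_apply, Matrix.smul_apply, smul_eq_mul]
  rw [Finset.mul_sum, Finset.sum_mul, ← Finset.sum_sub_distrib, ← Finset.sum_neg_distrib]
  refine Finset.sum_congr rfl fun y _ => ?_
  rw [balg_upM]
  by_cases h : a y = false ∧ Function.update a y true = b
  · rw [if_pos h]
    obtain ⟨h1, rfl⟩ := h
    have e : ∑ z, w z * ((Function.update a y true z).toNat : ℝ)
        = ∑ z, w z * ((a z).toNat : ℝ) + w y := by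
      have : ∀ z, w z * ((Function.update a y true z).toNat : ℝ)
          = w z * ((a z).toNat : ℝ) + if z = y then w y else 0 := by
        intro z
        by_cases hz : z = y
        · subst hz
          rw [Function.update_self, h1, if_pos rfl]
          simp
        · rw [Function.update_of_ne hz, if_neg hz, add_zero]
      simp only [this, Finset.sum_add_distrib]
      simp
    rw [e]
    ring
  · rw [if_neg h]
    simp

/-- `up_y` is a partial permutation matrix; the average of the `up_y` has nonnegative entries and row and
column sums at most one -/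
theorem UM_avg_sub (hV : 0 < Fintype.card V) :
    comm_sub (UM (fun _ : V => (1 : ℝ) / Fintype.card V)) := by
  have hpos : (0 : ℝ) < Fintype.card V := by exact_mod_cast hV
  have hent : ∀ (y : V) (a b : V → Bool), 0 ≤ upM y a b := by
    intro y a b
    rw [balg_upM]
    split_ifs <;> norm_num
  have hrow : ∀ (y : V) (a : V → Bool), ∑ b, upM y a b ≤ 1 := by
    intro y a
    simp only [balg_upM]
    by_cases h : a y = false
    · simp [h]
    · simp [h]
  have hcol : ∀ (y : V) (b : V → Bool), ∑ a, upM y a b ≤ 1 := by
    intro y b
    simp only [balg_upM']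
    by_cases h : b y = true
    · simp [h]
    · simp [h]
  have hap : ∀ a b, UM (fun _ : V => (1 : ℝ) / Fintype.card V) a b
      = (1 / Fintype.card V) * ∑ y, upM y a b := by
    intro a b
    unfold UM
    simp only [Matrix.sum_apply, Matrix.smul_apply, smul_eq_mul]
    rw [Finset.mul_sum]
  refine ⟨fun a b => ?_, fun a => ?_, fun b => ?_⟩
  · rw [hap]
    exact mul_nonneg (by positivity) (Finset.sum_nonneg fun y _ => hent y a b)
  · simp only [hap]
    rw [← Finset.mul_sum, Finset.sum_comm]
    have h1 : ∑ y, ∑ b, upM y a b ≤ ∑ _y : V, (1 : ℝ) := Finset.sum_le_sum fun y _ => hrow y a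
    have h2 : ∑ _y : V, (1 : ℝ) = Fintype.card V := by simp
    rw [h2] at h1
    calc (1 / (Fintype.card V : ℝ)) * ∑ y, ∑ b, upM y a b
        ≤ (1 / (Fintype.card V : ℝ)) * Fintype.card V :=
          mul_le_mul_of_nonneg_left h1 (by positivity)
      _ = 1 := by field_simp
  · simp only [hap]
    rw [← Finset.mul_sum, Finset.sum_comm]
    have h1 : ∑ y, ∑ a, upM y a b ≤ ∑ _y : V, (1 : ℝ) := Finset.sum_le_sum fun y _ => hcol y b
    have h2 : ∑ _y : V, (1 : ℝ) = Fintype.card V := by simp
    rw [h2] at h1
    calc (1 / (Fintype.card V : ℝ)) * ∑ y, ∑ a, upM y a b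
        ≤ (1 / (Fintype.card V : ℝ)) * Fintype.card V :=
          mul_le_mul_of_nonneg_left h1 (by positivity)
      _ = 1 := by field_simp

/-- trace bound for a sub-stochastic matrix: `tr (R M M^T) ≤ tr (M M^T)` (`comm_tr_le`) -/
theorem sub_tr_le {α : Type} [Fintype α] [DecidableEq α] (R M : Matrix α α ℝ) (h : comm_sub R) :
    (R * (M * M.transpose)).trace ≤ (M * M.transpose).trace := by
  refine comm_tr_le h (fun a => ?_) (fun a b => ?_)
  · rw [Matrix.mul_apply]
    exact Finset.sum_nonneg fun c _ => by
      rw [Matrix.transpose_apply]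
      exact mul_self_nonneg _
  · rw [Matrix.mul_apply, Matrix.mul_apply, Matrix.mul_apply, ← Finset.sum_add_distrib,
      Finset.sum_div]
    refine Finset.sum_le_sum fun c _ => ?_
    simp only [Matrix.transpose_apply]
    nlinarith [sq_nonneg (M a c - M b c)]

theorem UM_add (u v : V → ℝ) : UM (fun y => u y + v y) = UM u + UM v := by
  unfold UM
  rw [← Finset.sum_add_distrib]
  exact Finset.sum_congr rfl fun y _ => add_smul _ _ _

theorem UM_smul (c : ℝ) (u : V → ℝ) : UM (fun y => c * u y) = c • UM u := by
  unfold UM
  rw [Finset.smul_sum]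
  exact Finset.sum_congr rfl fun y _ => mul_smul _ _ _

/-- expansion of `fN` in the vertices -/
theorem fN_expand (g : Gr V E) (n : ℕ) (u v : V → ℝ) (s : ℕ) :
    fN g n u v s = ∑ y, ∑ y', u y * v y'
      * (upM y * lS g ^ s * (upM y').transpose * lS g ^ (n - s)).trace := by
  unfold fN
  rw [balg_UM_mul, balg_mul_UM, Finset.sum_mul, Matrix.trace_sum, Finset.sum_comm]
  refine Finset.sum_congr rfl fun y' _ => ?_
  rw [Finset.sum_mul, Matrix.smul_mul, Finset.sum_mul, Finset.smul_sum, Matrix.trace_sum]
  refine Finset.sum_congr rfl fun y _ => ?_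
  rw [Matrix.smul_mul, Matrix.smul_mul, Matrix.trace_smul, Matrix.trace_smul, smul_eq_mul,
    smul_eq_mul]
  ring

/-- the value at `0` minus the value at `n` is the trace of the commutator -/
theorem fN_Q (g : Gr V E) (n : ℕ) (u v : V → ℝ) :
    fN g n u v 0 - fN g n u v n
      = ((Matrix.diagonal (fun a : V → Bool => ∑ y, u y * v y * (1 - 2 * ((a y).toNat : ℝ))))
          * lS g ^ n).trace := by
  rw [← UM_comm]
  unfold fN
  rw [pow_zero, Matrix.mul_one, Nat.sub_zero, Nat.sub_self, pow_zero, Matrix.mul_one,
    Matrix.sub_mul, Matrix.trace_sub]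
  congr 1
  rw [Matrix.trace_mul_comm, ← Matrix.mul_assoc]

end LibDim
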