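import Pool.Agent.LibDimB.BDefs

/-! Row SYM: symmetries of the monomer counts, parity, sum rule. -/

namespace LibDim

open Finset

variable {d n : ℕ}

theorem cnt_nonneg [NeZero n] (s : Vtx d n → ℕ) : 0 ≤ cnt s := by
  unfold cnt
  positivity

theorem bsym_equiv [NeZero n] (s s' : Vtx d n → ℕ)
    (e : (Vtx d n → Fin d → Bool) ≃ (Vtx d n → Fin d → Bool))
    (h : ∀ E, CovC s E ↔ CovC s' (e E)) : cnt s = cnt s' := by
  classical
  unfold cnt
  congr 1
  exact Finset.card_equiv e (by
    intro E
    simp [h E])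

/-- translation: `E ↦ E (x + v, i)` -/
theorem cnt_shift [NeZero n] (s : Vtx d n → ℕ) (v : Vtx d n) :
    cnt (fun x => s (x + v)) = cnt s := by
  refine bsym_equiv _ _ ⟨fun E x => E (x - v), fun E x => E (x + v), fun E => ?_, fun E => ?_⟩ ?_
  · funext x
    simp
  · funext x
    simp
  · intro E
    unfold CovC
    constructor
    · intro h x
      have h1 := h (x - v)
      simp only [sub_add_cancel] at h1
      rw [← h1]
      congr 1
      refine sum_congr rfl fun i _ => ?_
      simp only [Equiv.coe_fn_mk]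
      rw [show x - stp i - v = x - v - stp i by abel]
    · intro h x
      have h1 := h (x + v)
      rw [← h1]
      congr 1
      refine sum_congr rfl fun i _ => ?_
      simp only [Equiv.coe_fn_mk, add_sub_cancel_right]
      rw [show x + v - stp i - v = x - stp i by abel]

theorem bsym_stp_perm (σ : Equiv.Perm (Fin d)) (i : Fin d) (x : Vtx d n) :
    (fun k => (x - stp (σ i) : Vtx d n) (σ k)) = (fun k => x (σ k)) - stp i := by
  funext k
  simp only [Pi.sub_apply, stp]
  congr 1
  by_cases h : k = i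
  · subst h
    simp
  · rw [Pi.single_eq_of_ne h, Pi.single_eq_of_ne]
    intro h2
    exact h (σ.injective h2)

/-- permutation of the coordinates: `E ↦ E (x ∘ σ⁻¹, σ i)`; `stp i ∘ σ⁻¹ = stp (σ i)` -/
theorem cnt_perm [NeZero n] (s : Vtx d n → ℕ) (σ : Equiv.Perm (Fin d)) :
    cnt (fun x => s (fun i => x (σ i))) = cnt s := by
  symm
  refine bsym_equiv _ _ ⟨fun E x i => E (fun k => x (σ k)) (σ.symm i),
    fun E x i => E (fun k => x (σ.symm k)) (σ i), fun E => ?_, fun E => ?_⟩ ?_
  · funext x i
    simp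
  · funext x i
    simp
  · intro E
    have key : ∀ x : Vtx d n, ∑ i, ((E (fun k => x (σ k)) (σ.symm i)).toNat +
        (E (fun k => (x - stp i : Vtx d n) (σ k)) (σ.symm i)).toNat) =
        ∑ i, ((E (fun k => x (σ k)) i).toNat + (E ((fun k => x (σ k)) - stp i) i).toNat) := by
      intro x
      rw [← Equiv.sum_comp σ]
      refine sum_congr rfl fun i _ => ?_
      rw [bsym_stp_perm, Equiv.symm_apply_apply]
    unfold CovC
    constructor
    · intro h x
      have h1 := h (fun k => x (σ k))
      rw [← key x] at h1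
      exact h1
    · intro h x
      have h1 := h (fun k => x (σ.symm k))
      have h2 := key (fun k => x (σ.symm k))
      simp only [Equiv.coe_fn_mk] at h1
      rw [show (fun k => (fun k => x (σ.symm k)) (σ k)) = x from by funext k; simp] at h2
      have h3 : (fun i => x (σ.symm (σ i))) = x := by funext k; simp
      rw [h3] at h1
      rw [← h2]
      exact h1

/-- reflection of the coordinate `j` -/
def rfl1 (j : Fin d) (x : Vtx d n) : Vtx d n := Function.update x j (-(x j))

theorem bsym_rfl (j : Fin d) (x : Vtx d n) : rfl1 j (rfl1 j x) = x := by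
  unfold rfl1
  funext k
  by_cases h : k = j
  · subst h
    simp
  · simp [h]

theorem bsym_rfl_same (j : Fin d) (x : Vtx d n) : rfl1 j (x - stp j) = rfl1 j x + stp j := by
  unfold rfl1 stp
  funext k
  by_cases h : k = j
  · subst h
    simp
    ring
  · simp [h]

theorem bsym_rfl_ne (j i : Fin d) (h : i ≠ j) (x : Vtx d n) :
    rfl1 j (x - stp i) = rfl1 j x - stp i := by
  unfold rfl1 stp
  funext k
  by_cases hk : k = j
  · subst hk
    simp [Ne.symm h]
  · simp [hk]

/-- reflection: `E ↦ E (R x, i)` for `i ≠ j` and `E (R x - e_j, j)` for `i = j` -/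
theorem cnt_refl [NeZero n] (s : Vtx d n → ℕ) (j : Fin d) :
    cnt (fun x => s (rfl1 j x)) = cnt s := by
  have hinv : ∀ E : Vtx d n → Fin d → Bool, (fun (x : Vtx d n) (i : Fin d) =>
      if i = j then (fun (x : Vtx d n) (i : Fin d) =>
        if i = j then E (rfl1 j x - stp j) j else E (rfl1 j x) i) (rfl1 j x - stp j) j
      else (fun (x : Vtx d n) (i : Fin d) =>
        if i = j then E (rfl1 j x - stp j) j else E (rfl1 j x) i) (rfl1 j x) i) = E := by
    intro E
    funext x i
    by_cases h : i = j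
    · subst h
      simp only [if_true]
      rw [bsym_rfl_same, bsym_rfl]
      simp
    · simp only [if_neg h]
      rw [bsym_rfl]
  refine bsym_equiv _ _ ⟨fun E x i => if i = j then E (rfl1 j x - stp j) j else E (rfl1 j x) i,
    fun E x i => if i = j then E (rfl1 j x - stp j) j else E (rfl1 j x) i, hinv, hinv⟩ ?_
  intro E
  have key : ∀ x : Vtx d n, ∑ i, ((if i = j then E (rfl1 j x - stp j) j else E (rfl1 j x) i).toNat +
      (if i = j then E (rfl1 j (x - stp i) - stp j) j else E (rfl1 j (x - stp i)) i).toNat) =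
      ∑ i, ((E (rfl1 j x) i).toNat + (E (rfl1 j x - stp i) i).toNat) := by
    intro x
    refine sum_congr rfl fun i _ => ?_
    by_cases h : i = j
    · subst h
      simp only [if_true]
      rw [bsym_rfl_same, add_sub_cancel_right, add_comm]
    · simp only [if_neg h]
      rw [bsym_rfl_ne _ _ h]
  unfold CovC
  constructor
  · intro h x
    have h1 := h (rfl1 j x)
    simp only [bsym_rfl] at h1
    simp only [Equiv.coe_fn_mk]
    rw [key x]
    exact h1
  · intro h x
    have h1 := h (rfl1 j x)
    simp only [Equiv.coe_fn_mk] at h1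
    rw [key, bsym_rfl] at h1
    exact h1

/-- no monomers: perfect matchings (`splitA_sum_pm` with `G = 1`) -/
theorem cnt_zero [NeZero n] (hn : 4 ≤ n) : cnt (0 : Vtx d n → ℕ) = ZP d n := by
  classical
  have h := splitA_sum_pm (d := d) (n := n) hn (fun _ => 1)
  unfold cnt ZP
  simp only [sum_const, nsmul_eq_mul, mul_one] at h
  rw [h]
  congr 2
  ext E
  simp [CovC, Cov]

theorem ZP_pos [NeZero n] (hd : 0 < d) (hn : 4 ≤ n) (he : Even n) : 0 < ZP d n :=
  Nat.cast_pos.2 (pm_pos d n hd hn he)

/-- parity: multiply the covering equation at `x` by `sgnV x` and sum over `x`; `sgnV (x + e_i) = - sgnV x`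
(`MainA_sgn_step`) and the alternating sum of `1` is zero (`d ≥ 1`, `n` even) -/
theorem cnt_parity [NeZero n] (hd : 0 < d) (hn : 4 ≤ n) (he : Even n) (s : Vtx d n → ℕ)
    (h : ∑ x, sgnV x * (s x : ℝ) ≠ 0) : cnt s = 0 := by
  classical
  unfold cnt
  rw [Nat.cast_eq_zero, Finset.card_eq_zero, Finset.filter_eq_empty_iff]
  intro E _ hE
  apply h
  have h0 : ∑ x : Vtx d n, sgnV x = 0 := by
    have h1 := MainA_shift (fun x : Vtx d n => sgnV x) ⟨0, hd⟩
    have h2 : ∑ x : Vtx d n, sgnV (x + stp ⟨0, hd⟩) = -∑ x : Vtx d n, sgnV x := by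
      rw [← sum_neg_distrib]
      exact sum_congr rfl fun x _ => MainA_sgn_step he x _
    linarith
  have h3 : ∀ i : Fin d, ∑ x : Vtx d n, sgnV x * ((E x i).toNat + (E (x - stp i) i).toNat : ℝ) = 0 := by
    intro i
    have h4 := MainA_shift (fun x : Vtx d n => sgnV x * ((E (x - stp i) i).toNat : ℝ)) i
    have h5 : ∑ x : Vtx d n, sgnV (x + stp i) * ((E (x + stp i - stp i) i).toNat : ℝ) =
        -∑ x : Vtx d n, sgnV x * ((E x i).toNat : ℝ) := by
      rw [← sum_neg_distrib]
      refine sum_congr rfl fun x _ => ?_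
      rw [MainA_sgn_step he x i, add_sub_cancel_right, neg_mul]
    simp only [mul_add, sum_add_distrib]
    linarith
  have h6 : ∑ x : Vtx d n, sgnV x * ((s x : ℝ) + ∑ i, ((E x i).toNat + (E (x - stp i) i).toNat : ℝ)) = 0 := by
    rw [← h0]
    refine sum_congr rfl fun x _ => ?_
    have h7 := hE x
    have h8 : (s x : ℝ) + ∑ i, ((E x i).toNat + (E (x - stp i) i).toNat : ℝ) = 1 := by
      exact_mod_cast h7
    rw [h8, mul_one]
  simp only [mul_add, sum_add_distrib, mul_sum] at h6
  have h9 : ∑ x : Vtx d n, ∑ i, sgnV x * ((E x i).toNat : ℝ) +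
      ∑ x : Vtx d n, ∑ i, sgnV x * ((E (x - stp i) i).toNat : ℝ) = 0 := by
    rw [sum_comm, sum_comm (f := fun (x : Vtx d n) i => sgnV x * ((E (x - stp i) i).toNat : ℝ)),
      ← sum_add_distrib]
    refine sum_eq_zero fun i _ => ?_
    rw [← h3 i, ← sum_add_distrib]
    refine sum_congr rfl fun x _ => ?_
    ring
  linarith

end LibDim
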