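import Pool.Agent.LibDimB.BFour
import Pool.Agent.LibDimB.BSym

/-! Row CONT: continuity equation for the modes. -/

namespace LibDim

open Finset

variable {d n : ℕ}

theorem EE_nonneg [NeZero n] (b : Fin d → ℂ) (k : Vtx d n) : 0 ≤ EE b k := by
  unfold EE
  exact Finset.sum_nonneg fun τ _ => by positivity

theorem bcont_mem [NeZero n] {τ : Vtx d n → Vtx d n} (hτ : τ ∈ PMs d n) : IsPM τ := by
  classical
  unfold PMs at hτ
  simpa using hτ

theorem bcont_shift [NeZero n] (f : Vtx d n → ℂ) (j : Fin d) :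
    ∑ x, f (x + stp j) = ∑ x, f x :=
  Fintype.sum_equiv (Equiv.addRight (stp j)) _ _ (fun _ => rfl)

theorem bcont_char [NeZero n] (a : ZMod n) (ha : a ≠ ((n / 2 : ℕ) : ZMod n)) :
    (ZMod.stdAddChar a : ℂ) ≠ -1 := by
  intro h
  have h1 : (ZMod.stdAddChar (a + a) : ℂ) = ZMod.stdAddChar (0 : ZMod n) := by
    rw [AddChar.map_add_eq_mul, h, AddChar.map_zero_eq_one]
    norm_num
  have h2 : a + a = 0 := ZMod.injective_stdAddChar h1
  have hn0 : n ≠ 0 := NeZero.ne n
  have h3 : ((a.val + a.val : ℕ) : ZMod n) = 0 := by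
    push_cast
    rw [ZMod.natCast_zmod_val]
    exact h2
  rw [ZMod.natCast_eq_zero_iff] at h3
  have h4 : a.val < n := ZMod.val_lt a
  obtain ⟨c, hc⟩ := h3
  have h5 : c < 2 := by
    by_contra h6
    have h7 : n * 2 ≤ n * c := Nat.mul_le_mul_left n (not_lt.1 h6)
    omega
  interval_cases c
  · have h6 : a.val = 0 := by omega
    have h7 : a = 0 := by rw [← ZMod.natCast_zmod_val a, h6]; simp
    rw [h7, AddChar.map_zero_eq_one] at h
    norm_num at h
  · apply ha
    have h6 : a.val = n / 2 := by omega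
    rw [← h6, ZMod.natCast_zmod_val]

theorem bcont_alt [NeZero n] (he : Even n) (k : Vtx d n) (i₀ : Fin d)
    (hk : k i₀ ≠ ((n / 2 : ℕ) : ZMod n)) : ∑ x : Vtx d n, (sgnV x : ℂ) * chr k x = 0 := by
  have h1 := bcont_shift (fun x : Vtx d n => (sgnV x : ℂ) * chr k x) i₀
  have h2 : ∑ x : Vtx d n, (sgnV (x + stp i₀) : ℂ) * chr k (x + stp i₀) =
      - chr k (stp i₀) * ∑ x : Vtx d n, (sgnV x : ℂ) * chr k x := by
    rw [Finset.mul_sum]
    refine Finset.sum_congr rfl fun x _ => ?_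
    rw [MainA_sgn_step he x i₀, chr_add]
    push_cast
    ring
  rw [h2] at h1
  have h3 : (1 + chr k (stp i₀)) * ∑ x : Vtx d n, (sgnV x : ℂ) * chr k x = 0 := by
    linear_combination -h1
  rcases mul_eq_zero.1 h3 with h4 | h4
  · exfalso
    have h5 := bcont_char (k i₀) hk
    rw [← chr_stp] at h5
    exact h5 (by linear_combination h4)
  · exact h4

theorem bcont_mul [NeZero n] (he : Even n) (k : Vtx d n) (i : Fin d) (τ : Vtx d n → Vtx d n)
    (hτ : IsPM τ) : chr k (stp i) * Jh k i τ =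
      - ∑ x : Vtx d n, (sgnV x : ℂ) * chr k x * (if τ x = x - stp i then 1 else 0) := by
  classical
  unfold Jh
  rw [← bcont_shift (fun x : Vtx d n => (sgnV x : ℂ) * chr k x * (if τ x = x - stp i then 1 else 0)) i,
    Finset.mul_sum, ← Finset.sum_neg_distrib]
  refine Finset.sum_congr rfl fun x _ => ?_
  have h2 : (τ (x + stp i) = x + stp i - stp i) ↔ τ x = x + stp i := by
    rw [add_sub_cancel_right]
    exact MainA_pm τ hτ x i
  rw [MainA_sgn_step he x i, chr_add]
  by_cases h : τ x = x + stp i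
  · rw [if_pos h, if_pos (h2.2 h)]
    push_cast
    ring
  · rw [if_neg h, if_neg (fun h3 => h (h2.1 h3))]
    ring

/-- Continuity: `∑_i (J_i(x) - J_i(x - e_i)) = sgnV x` (every vertex has exactly one matching edge, `MainA_one`-like), sum
against `chr k`; `∑_x sgnV x chr k x = 0` unless `k = (n/2, ..., n/2)`. -/
theorem contin [NeZero n] (hn : 4 ≤ n) (he : Even n) (k : Vtx d n) (i₀ : Fin d)
    (hk : k i₀ ≠ ((n / 2 : ℕ) : ZMod n)) (τ : Vtx d n → Vtx d n) (hτ : IsPM τ) :
    ∑ i, (1 - chr k (stp i)) * Jh k i τ = 0 := by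
  classical
  have h1 : ∀ i : Fin d, (1 - chr k (stp i)) * Jh k i τ = ∑ x : Vtx d n, (sgnV x : ℂ) * chr k x *
      (((if τ x = x + stp i then (1 : ℝ) else 0) + (if τ x = x - stp i then (1 : ℝ) else 0) : ℝ) : ℂ) := by
    intro i
    rw [sub_mul, one_mul, bcont_mul he k i τ hτ, sub_neg_eq_add]
    unfold Jh
    rw [← Finset.sum_add_distrib]
    refine Finset.sum_congr rfl fun x _ => ?_
    split_ifs <;> push_cast <;> ring
  simp only [h1]
  rw [Finset.sum_comm]
  have h2 : ∀ x : Vtx d n, ∑ i : Fin d, (sgnV x : ℂ) * chr k x *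
      (((if τ x = x + stp i then (1 : ℝ) else 0) + (if τ x = x - stp i then (1 : ℝ) else 0) : ℝ) : ℂ) =
      (sgnV x : ℂ) * chr k x := by
    intro x
    rw [← Finset.mul_sum, ← Complex.ofReal_sum, MainA_one hn τ hτ x]
    simp
  simp only [h2]
  exact bcont_alt he k i₀ hk

/-- hence a multiple of `1 - ζ` can be subtracted from `b` -/
theorem EE_sub [NeZero n] (hn : 4 ≤ n) (he : Even n) (k : Vtx d n) (i₀ : Fin d)
    (hk : k i₀ ≠ ((n / 2 : ℕ) : ZMod n)) (b : Fin d → ℂ) (c : ℂ) :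
    EE (fun i => b i - c * (1 - chr k (stp i))) k = EE b k := by
  unfold EE
  refine Finset.sum_congr rfl fun τ hτ => ?_
  have hτ' : IsPM τ := bcont_mem hτ
  have h1 := contin hn he k i₀ hk τ hτ'
  have h2 : ∑ i, (b i - c * (1 - chr k (stp i))) * Jh k i τ = ∑ i, b i * Jh k i τ := by
    have h3 : ∑ i, (b i - c * (1 - chr k (stp i))) * Jh k i τ =
        ∑ i, b i * Jh k i τ - c * ∑ i, (1 - chr k (stp i)) * Jh k i τ := by
      rw [Finset.mul_sum, ← Finset.sum_sub_distrib]
      refine Finset.sum_congr rfl fun i _ => ?_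
      ring
    rw [h3, h1, mul_zero, sub_zero]
  rw [h2]

/-- scaling of the coefficients -/
theorem EE_smul [NeZero n] (b : Fin d → ℂ) (c : ℂ) (k : Vtx d n) :
    EE (fun i => c * b i) k = ‖c‖ ^ 2 * EE b k := by
  unfold EE
  rw [Finset.mul_sum]
  refine Finset.sum_congr rfl fun τ _ => ?_
  have h1 : ∑ i, c * b i * Jh k i τ = c * ∑ i, b i * Jh k i τ := by
    rw [Finset.mul_sum]
    refine Finset.sum_congr rfl fun i _ => ?_
    ring
  rw [h1, norm_mul, mul_pow]

/-- two components which are proportional: `D_i Jh_i + D_l Jh_l = 0` on perfect matchings by `contin` (`k` static in all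
other directions), so `‖D_i‖² EE (b_i e_i + b_l e_l) = ‖b_l D_i - b_i D_l‖² EE (e_l)` -/
theorem EE_pair [NeZero n] (hn : 4 ≤ n) (he : Even n) (k : Vtx d n) (i l : Fin d) (hil : i ≠ l)
    (hk : ∀ m, m ≠ i → m ≠ l → k m = 0) (i₀ : Fin d) (hk2 : k i₀ ≠ ((n / 2 : ℕ) : ZMod n))
    (b : Fin d → ℂ) (hb : ∀ m, m ≠ i → m ≠ l → b m = 0) :
    ‖1 - chr k (stp i)‖ ^ 2 * EE b k
      = ‖b l * (1 - chr k (stp i)) - b i * (1 - chr k (stp l))‖ ^ 2 * EE (Pi.single l 1) k := by
  unfold EE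
  rw [Finset.mul_sum, Finset.mul_sum]
  refine Finset.sum_congr rfl fun τ hτ => ?_
  have hτ' : IsPM τ := bcont_mem hτ
  have two : ∀ f : Fin d → ℂ, (∀ m, m ≠ i → m ≠ l → f m = 0) → ∑ m, f m = f i + f l := by
    intro f hf
    rw [← Finset.sum_pair hil]
    refine (Finset.sum_subset (Finset.subset_univ _) fun m _ hm => ?_).symm
    rw [Finset.mem_insert, Finset.mem_singleton, not_or] at hm
    exact hf m hm.1 hm.2
  have h1 := contin hn he k i₀ hk2 τ hτ'
  rw [two _ (fun m h2 h3 => by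
    rw [chr_stp, hk m h2 h3, AddChar.map_zero_eq_one, sub_self, zero_mul])] at h1
  rw [two (fun m => b m * Jh k m τ) (fun m h2 h3 => by rw [hb m h2 h3, zero_mul])]
  have h4 : ∑ m, (Pi.single l (1 : ℂ) : Fin d → ℂ) m * Jh k m τ = Jh k l τ := by
    rw [Finset.sum_eq_single l]
    · simp
    · intro m _ hm
      rw [Pi.single_eq_of_ne hm, zero_mul]
    · intro h
      exact absurd (mem_univ l) h
  rw [h4, ← mul_pow, ← mul_pow, ← norm_mul, ← norm_mul]
  congr 2
  linear_combination b i * h1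

end LibDim
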