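import Pool.Agent.LibDimB.BFour

/-! Row FOURB: Fourier transform on the discrete torus. -/

namespace LibDim

open Finset

variable {d n : ℕ}

/-- orthogonality -/
theorem chr_sum [NeZero n] (x : Vtx d n) :
    ∑ k : Vtx d n, chr k x = if x = 0 then ((n : ℂ) ^ d) else 0 := by
  classical
  unfold chr
  have h := (Finset.prod_univ_sum (fun _ : Fin d => (univ : Finset (ZMod n)))
    (fun i k => (ZMod.stdAddChar (k * x i) : ℂ))).symm
  rw [Fintype.piFinset_univ] at h
  rw [h]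
  have h1 : ∀ i : Fin d, ∑ k : ZMod n, (ZMod.stdAddChar (k * x i) : ℂ)
      = if x i = 0 then (n : ℂ) else 0 := fun i => four_orth n (x i)
  rw [Finset.prod_congr rfl fun i _ => h1 i]
  by_cases hx : x = 0
  · rw [if_pos hx, hx]
    simp
  · rw [if_neg hx]
    obtain ⟨i, hi⟩ : ∃ i, x i ≠ 0 := by
      by_contra hc
      push Not at hc
      exact hx (funext hc)
    exact Finset.prod_eq_zero (mem_univ i) (if_neg hi)

theorem chr_sum' [NeZero n] (k : Vtx d n) :
    ∑ x : Vtx d n, chr k x = if k = 0 then ((n : ℂ) ^ d) else 0 := by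
  rw [← chr_sum k]
  exact Finset.sum_congr rfl fun x _ => chr_comm k x

/-- Fourier transform of a complex function -/
noncomputable def FT [NeZero n] (f : Vtx d n → ℂ) (k : Vtx d n) : ℂ := ∑ x, f x * chr k x

/-- shift -/
theorem FT_shift [NeZero n] (f : Vtx d n → ℂ) (v k : Vtx d n) :
    FT (fun x => f (x - v)) k = chr k v * FT f k := by
  unfold FT
  rw [Finset.mul_sum]
  rw [← Equiv.sum_comp (Equiv.addRight v)]
  refine Finset.sum_congr rfl fun x _ => ?_
  simp only [Equiv.coe_addRight, add_sub_cancel_right]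
  rw [chr_add]
  ring

theorem bfourb_conj [NeZero n] (f : Vtx d n → ℂ) (k : Vtx d n) :
    (starRingEnd ℂ) (FT f k) = ∑ x, (starRingEnd ℂ) (f x) * chr k (-x) := by
  unfold FT
  rw [map_sum]
  refine Finset.sum_congr rfl fun x _ => ?_
  rw [map_mul, chr_neg]

/-- the sesquilinear Parseval identity -/
theorem bfourb_pars [NeZero n] (f g : Vtx d n → ℂ) :
    ((n : ℂ) ^ d) * ∑ x, f x * (starRingEnd ℂ) (g x)
      = ∑ k, FT f k * (starRingEnd ℂ) (FT g k) := by
  classical
  symm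
  calc ∑ k, FT f k * (starRingEnd ℂ) (FT g k)
      = ∑ k, ∑ x, ∑ y, (f x * (starRingEnd ℂ) (g y)) * chr k (x + -y) := by
        refine Finset.sum_congr rfl fun k _ => ?_
        rw [bfourb_conj, FT, Finset.sum_mul_sum]
        refine Finset.sum_congr rfl fun x _ => ?_
        refine Finset.sum_congr rfl fun y _ => ?_
        rw [chr_add]
        ring
    _ = ∑ x, ∑ y, ∑ k, (f x * (starRingEnd ℂ) (g y)) * chr k (x + -y) := by
        rw [Finset.sum_comm]
        refine Finset.sum_congr rfl fun x _ => ?_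
        rw [Finset.sum_comm]
    _ = ((n : ℂ) ^ d) * ∑ x, f x * (starRingEnd ℂ) (g x) := by
        rw [Finset.mul_sum]
        refine Finset.sum_congr rfl fun x _ => ?_
        rw [Finset.sum_eq_single x]
        · rw [← Finset.mul_sum, chr_sum, if_pos (add_neg_cancel x)]
          ring
        · intro y _ hy
          rw [← Finset.mul_sum, chr_sum, if_neg, mul_zero]
          intro h0
          exact hy (by rw [add_eq_zero_iff_eq_neg, neg_neg] at h0; exact h0.symm)
        · intro h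
          exact absurd (mem_univ _) h

theorem FT_parseval [NeZero n] (f : Vtx d n → ℂ) :
    (n : ℝ) ^ d * ∑ x, ‖f x‖ ^ 2 = ∑ k, ‖FT f k‖ ^ 2 := by
  have h := bfourb_pars f f
  have h1 : ∀ z : ℂ, z * (starRingEnd ℂ) z = ((‖z‖ ^ 2 : ℝ) : ℂ) := by
    intro z
    rw [Complex.mul_conj, Complex.normSq_eq_norm_sq]
  simp only [h1] at h
  have h2 : ((((n : ℝ) ^ d * ∑ x, ‖f x‖ ^ 2 : ℝ)) : ℂ) = ((∑ k, ‖FT f k‖ ^ 2 : ℝ) : ℂ) := by
    push_cast
    push_cast at h
    exact h
  exact_mod_cast h2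

/-- quadratic form of a translation invariant even kernel -/
theorem FT_quad [NeZero n] (c : Vtx d n → ℝ) (hc : ∀ x, c (-x) = c x) (f : Vtx d n → ℝ) :
    (n : ℝ) ^ d * ∑ x, ∑ y, f x * f y * c (y - x)
      = ∑ k, (∑ x, c x * (chr k x).re) * ‖FT (fun x => (f x : ℂ)) k‖ ^ 2 := by
  classical
  -- apply the sesquilinear identity to `f` and the convolution `x ↦ ∑ y, f y c (y - x)`
  have hpar := bfourb_pars (fun x => (f x : ℂ)) (fun x => ((∑ y, f y * c (y - x) : ℝ) : ℂ))
  have hconv : ∀ k, FT (fun x => ((∑ y, f y * c (y - x) : ℝ) : ℂ)) k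
      = FT (fun x => (f x : ℂ)) k * ((∑ x, c x * (chr k x).re : ℝ) : ℂ) := by
    intro k
    have h1 : FT (fun x => ((∑ y, f y * c (y - x) : ℝ) : ℂ)) k
        = ∑ y, ∑ x, ((f y : ℂ) * c (y - x)) * chr k x := by
      unfold FT
      rw [Finset.sum_comm]
      refine Finset.sum_congr rfl fun x _ => ?_
      rw [← Finset.sum_mul]
      push_cast
      rfl
    have h2 : ∀ y, ∑ x, ((f y : ℂ) * c (y - x)) * chr k x
        = (f y : ℂ) * chr k y * ∑ x, (c x : ℂ) * chr k x := by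
      intro y
      rw [← Equiv.sum_comp (Equiv.subLeft y), Finset.mul_sum]
      rw [← Equiv.sum_comp (Equiv.neg (Vtx d n))]
      refine Finset.sum_congr rfl fun x _ => ?_
      simp only [Equiv.subLeft_apply, Equiv.neg_apply, sub_neg_eq_add]
      have h3 : y - (y + x) = -x := by abel
      rw [h3, hc, chr_add]
      ring
    have h3 : (∑ x, (c x : ℂ) * chr k x) = ((∑ x, c x * (chr k x).re : ℝ) : ℂ) := by
      have h4 : (∑ x, (c x : ℂ) * chr k x) = ∑ x, (c x : ℂ) * chr k (-x) := by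
        rw [← Equiv.sum_comp (Equiv.neg (Vtx d n))]
        refine Finset.sum_congr rfl fun x _ => ?_
        simp only [Equiv.neg_apply]
        rw [hc]
      have h5 : (starRingEnd ℂ) (∑ x, (c x : ℂ) * chr k x) = ∑ x, (c x : ℂ) * chr k x := by
        conv_rhs => rw [h4]
        rw [map_sum]
        refine Finset.sum_congr rfl fun x _ => ?_
        rw [map_mul, Complex.conj_ofReal, chr_neg]
      have h6 := Complex.conj_eq_iff_re.1 h5
      rw [← h6, Complex.re_sum]
      congr 1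
      refine Finset.sum_congr rfl fun x _ => ?_
      rw [Complex.re_ofReal_mul]
    rw [h1, Finset.sum_congr rfl fun y _ => h2 y, ← Finset.sum_mul, h3]
    rfl
  have h7 : ∀ k, FT (fun x => (f x : ℂ)) k * (starRingEnd ℂ)
        (FT (fun x => ((∑ y, f y * c (y - x) : ℝ) : ℂ)) k)
      = (((∑ x, c x * (chr k x).re) * ‖FT (fun x => (f x : ℂ)) k‖ ^ 2 : ℝ) : ℂ) := by
    intro k
    rw [hconv, map_mul, Complex.conj_ofReal, ← mul_assoc, Complex.mul_conj,
      Complex.normSq_eq_norm_sq]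
    push_cast
    ring
  rw [Finset.sum_congr rfl fun k _ => h7 k] at hpar
  simp only [Complex.conj_ofReal] at hpar
  have h8 : ((((n : ℝ) ^ d * ∑ x, ∑ y, f x * f y * c (y - x) : ℝ)) : ℂ)
      = ((∑ k, (∑ x, c x * (chr k x).re) * ‖FT (fun x => (f x : ℂ)) k‖ ^ 2 : ℝ) : ℂ) := by
    rw [Complex.ofReal_sum, ← hpar]
    push_cast
    congr 1
    refine Finset.sum_congr rfl fun x _ => ?_
    rw [Finset.mul_sum]
    refine Finset.sum_congr rfl fun y _ => ?_
    ring
  exact_mod_cast h8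

/-- convolution and Parseval: for `w, J` with values in `ℂ`, `∑_v ‖∑_i ∑_x w_i (x - v) J_i x‖² = n^{-d} ∑_k ‖∑_i conj(FT w_i k) FT J_i k‖²`
for real `w` -/
theorem FT_conv [NeZero n] (w : Fin d → Vtx d n → ℝ) (J : Fin d → Vtx d n → ℝ) :
    (n : ℝ) ^ d * ∑ v, (∑ i, ∑ x, w i (x - v) * J i x) ^ 2
      = ∑ k, ‖∑ i, (starRingEnd ℂ) (FT (fun x => (w i x : ℂ)) k) * FT (fun x => (J i x : ℂ)) k‖ ^ 2 := by
  classical
  have hpar := FT_parseval (fun v => ((∑ i, ∑ x, w i (x - v) * J i x : ℝ) : ℂ))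
  have h1 : ∀ v, ‖(fun v => ((∑ i, ∑ x, w i (x - v) * J i x : ℝ) : ℂ)) v‖ ^ 2
      = (∑ i, ∑ x, w i (x - v) * J i x) ^ 2 := by
    intro v
    show ‖((∑ i, ∑ x, w i (x - v) * J i x : ℝ) : ℂ)‖ ^ 2 = _
    rw [Complex.norm_real, Real.norm_eq_abs, sq_abs]
  rw [Finset.sum_congr rfl fun v _ => h1 v] at hpar
  rw [hpar]
  refine Finset.sum_congr rfl fun k _ => ?_
  congr 2
  have h2 : FT (fun v => ((∑ i, ∑ x, w i (x - v) * J i x : ℝ) : ℂ)) k
      = ∑ i, ∑ x, ∑ v, ((w i (x - v) : ℂ) * J i x) * chr k v := by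
    unfold FT
    have h3 : ∀ v, ((∑ i, ∑ x, w i (x - v) * J i x : ℝ) : ℂ) * chr k v
        = ∑ i, ∑ x, ((w i (x - v) : ℂ) * J i x) * chr k v := by
      intro v
      push_cast
      rw [Finset.sum_mul]
      refine Finset.sum_congr rfl fun i _ => ?_
      rw [Finset.sum_mul]
    rw [Finset.sum_congr rfl fun v _ => h3 v, Finset.sum_comm]
    refine Finset.sum_congr rfl fun i _ => ?_
    rw [Finset.sum_comm]
  rw [h2]
  refine Finset.sum_congr rfl fun i _ => ?_
  have h4 : ∀ x, ∑ v, ((w i (x - v) : ℂ) * J i x) * chr k v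
      = (starRingEnd ℂ) (FT (fun x => (w i x : ℂ)) k) * ((J i x : ℂ) * chr k x) := by
    intro x
    rw [← Equiv.sum_comp (Equiv.subLeft x), bfourb_conj, Finset.sum_mul]
    refine Finset.sum_congr rfl fun v _ => ?_
    simp only [Equiv.subLeft_apply, Complex.conj_ofReal]
    have h5 : x - (x - v) = v := by abel
    have h6 : x - v = x + -v := by abel
    rw [h5, h6, chr_add]
    ring
  rw [Finset.sum_congr rfl fun x _ => h4 x, ← Finset.mul_sum]
  rfl

/-- the gap of the torus: `16 / n² ≤ EL k` for `k ≠ 0` -/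
theorem EL_gap [NeZero n] (k : Vtx d n) (h : k ≠ 0) : 16 / (n : ℝ) ^ 2 ≤ EL k := by
  obtain ⟨i, hi⟩ : ∃ i, k i ≠ 0 := by
    by_contra hc
    push Not at hc
    exact h (funext hc)
  unfold EL
  exact (eps_gap (k i) hi).trans
    (Finset.single_le_sum (f := fun i => eps (k i)) (fun j _ => eps_nonneg (k j)) (mem_univ i))

theorem EL_nonneg [NeZero n] (k : Vtx d n) : 0 ≤ EL k := by
  unfold EL
  exact Finset.sum_nonneg fun i _ => eps_nonneg _

/-- `EL k = ∑_i ‖1 - ζ_i‖²` -/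
theorem EL_norm [NeZero n] (k : Vtx d n) : EL k = ∑ i, ‖1 - chr k (stp i)‖ ^ 2 := by
  unfold EL
  refine Finset.sum_congr rfl fun i _ => ?_
  rw [eps_norm, chr_stp]

/-- gradient: `∑_i ∑_x (w (x + e_i) - w x)² = n^{-d} ∑_k EL k ‖FT w k‖²` -/
theorem FT_grad [NeZero n] (w : Vtx d n → ℝ) :
    (n : ℝ) ^ d * ∑ i, ∑ x, (w (x + stp i) - w x) ^ 2
      = ∑ k, EL k * ‖FT (fun x => (w x : ℂ)) k‖ ^ 2 := by
  rw [Finset.mul_sum]
  have h1 : ∀ i : Fin d, (n : ℝ) ^ d * ∑ x, (w (x + stp i) - w x) ^ 2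
      = ∑ k, ‖1 - chr k (stp i)‖ ^ 2 * ‖FT (fun x => (w x : ℂ)) k‖ ^ 2 := by
    intro i
    have hp := FT_parseval (fun x => ((w (x + stp i) - w x : ℝ) : ℂ))
    have h2 : ∀ x, ‖(fun x => ((w (x + stp i) - w x : ℝ) : ℂ)) x‖ ^ 2
        = (w (x + stp i) - w x) ^ 2 := by
      intro x
      show ‖((w (x + stp i) - w x : ℝ) : ℂ)‖ ^ 2 = _
      rw [Complex.norm_real, Real.norm_eq_abs, sq_abs]
    rw [Finset.sum_congr rfl fun x _ => h2 x] at hp
    rw [hp]
    refine Finset.sum_congr rfl fun k _ => ?_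
    have h3 : FT (fun x => ((w (x + stp i) - w x : ℝ) : ℂ)) k
        = (chr k (-stp i) - 1) * FT (fun x => (w x : ℂ)) k := by
      have h4 := FT_shift (fun x => (w x : ℂ)) (-stp i) k
      have h5 : FT (fun x => ((w (x + stp i) - w x : ℝ) : ℂ)) k
          = FT (fun x => (w (x - -stp i) : ℂ)) k - FT (fun x => (w x : ℂ)) k := by
        unfold FT
        rw [← Finset.sum_sub_distrib]
        refine Finset.sum_congr rfl fun x _ => ?_
        simp only [sub_neg_eq_add]
        push_cast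
        ring
      rw [h5, h4]
      ring
    rw [h3, norm_mul, mul_pow]
    congr 1
    rw [chr_neg]
    have h6 : ‖(starRingEnd ℂ) (chr k (stp i)) - 1‖ = ‖1 - chr k (stp i)‖ := by
      have h7 : (starRingEnd ℂ) (chr k (stp i)) - 1 = (starRingEnd ℂ) (-(1 - chr k (stp i))) := by
        rw [map_neg, map_sub, map_one]
        ring
      rw [h7, RCLike.norm_conj, norm_neg]
    rw [h6]
  rw [Finset.sum_congr rfl fun i _ => h1 i, Finset.sum_comm]
  refine Finset.sum_congr rfl fun k _ => ?_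
  rw [EL_norm, Finset.sum_mul]

end LibDim
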