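import Pool.Agent.LibDimB.BCont
import Pool.Agent.LibDimB.BFourB

/-! Row CONTB: reflection, upper bound and translation invariance for the modes. -/

namespace LibDim

open Finset

variable {d n : ℕ}

theorem bcontb_val_add [NeZero n] (he : Even n) (a b : ZMod n) :
    (-1 : ℝ) ^ (a + b).val = (-1) ^ a.val * (-1) ^ b.val := by
  rw [ZMod.val_add, ← pow_add]
  conv_rhs => rw [← Nat.div_add_mod (a.val + b.val) n]
  rw [pow_add, pow_mul, he.neg_one_pow, one_pow, one_mul]

theorem bcontb_val_neg [NeZero n] (he : Even n) (a : ZMod n) :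
    (-1 : ℝ) ^ (-a).val = (-1) ^ a.val := by
  have h := bcontb_val_add he a (-a)
  rw [add_neg_cancel, ZMod.val_zero, pow_zero] at h
  rcases neg_one_pow_eq_or ℝ a.val with h1 | h1 <;> rcases neg_one_pow_eq_or ℝ (-a).val with h2 | h2 <;>
    rw [h1, h2] at h <;> rw [h1, h2] <;> norm_num at h

theorem bcontb_sgn_prod (x : Vtx d n) : sgnV x = ∏ i, (-1 : ℝ) ^ (x i).val := by
  unfold sgnV
  rw [Finset.prod_pow_eq_pow_sum]

theorem bcontb_sgn_add [NeZero n] (he : Even n) (x v : Vtx d n) :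
    sgnV (x + v) = sgnV x * sgnV v := by
  rw [bcontb_sgn_prod, bcontb_sgn_prod, bcontb_sgn_prod, ← Finset.prod_mul_distrib]
  refine Finset.prod_congr rfl fun i _ => ?_
  rw [Pi.add_apply, bcontb_val_add he]

theorem bcontb_sgn_sub [NeZero n] (he : Even n) (x v : Vtx d n) :
    sgnV (x - v) = sgnV x * sgnV v := by
  have h := bcontb_sgn_add he (x - v) v
  rw [sub_add_cancel] at h
  have h2 := MainA_sgn_sq v
  rw [h, mul_assoc, ← pow_two, h2, mul_one]

theorem bcontb_sgn_rfl [NeZero n] (he : Even n) (j : Fin d) (x : Vtx d n) :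
    sgnV (rfl1 j x) = sgnV x := by
  rw [bcontb_sgn_prod, bcontb_sgn_prod]
  refine Finset.prod_congr rfl fun i _ => ?_
  unfold rfl1
  rcases eq_or_ne i j with rfl | hij
  · rw [Function.update_self, bcontb_val_neg he]
  · rw [Function.update_of_ne hij]

theorem bcontb_rfl_rfl (j : Fin d) (x : Vtx d n) : rfl1 j (rfl1 j x) = x := by
  funext i
  unfold rfl1
  rcases eq_or_ne i j with rfl | hij
  · simp
  · simp [hij]

theorem bcontb_rfl_add (j : Fin d) (x y : Vtx d n) : rfl1 j (x + y) = rfl1 j x + rfl1 j y := by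
  funext i
  unfold rfl1
  rcases eq_or_ne i j with rfl | hij
  · simp [add_comm]
  · simp [hij]

theorem bcontb_rfl_neg (j : Fin d) (x : Vtx d n) : rfl1 j (-x) = -rfl1 j x := by
  funext i
  unfold rfl1
  rcases eq_or_ne i j with rfl | hij
  · simp
  · simp [hij]

theorem bcontb_rfl_sub (j : Fin d) (x y : Vtx d n) : rfl1 j (x - y) = rfl1 j x - rfl1 j y := by
  rw [sub_eq_add_neg, bcontb_rfl_add, bcontb_rfl_neg, ← sub_eq_add_neg]

theorem bcontb_rfl_stp (j i : Fin d) (hij : i ≠ j) : rfl1 j (stp i : Vtx d n) = stp i := by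
  funext l
  unfold rfl1
  rcases eq_or_ne l j with rfl | hlj
  · simp [stp, Pi.single_eq_of_ne hij.symm]
  · simp [hlj]

theorem bcontb_rfl_stp_same (j : Fin d) : rfl1 j (stp j : Vtx d n) = -stp j := by
  funext l
  unfold rfl1
  rcases eq_or_ne l j with rfl | hlj
  · simp
  · simp [stp, hlj]

theorem bcontb_chr_rfl [NeZero n] (k : Vtx d n) (j : Fin d) (hk : k j = 0) (x : Vtx d n) :
    chr k (rfl1 j x) = chr k x := by
  unfold chr
  refine Finset.prod_congr rfl fun i _ => ?_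
  unfold rfl1
  rcases eq_or_ne i j with rfl | hij
  · rw [hk, zero_mul, zero_mul]
  · rw [Function.update_of_ne hij]

/-- the reflected matching -/
def bcontbR (j : Fin d) (τ : Vtx d n → Vtx d n) : Vtx d n → Vtx d n :=
  fun x => rfl1 j (τ (rfl1 j x))

theorem bcontb_R_R (j : Fin d) (τ : Vtx d n → Vtx d n) : bcontbR j (bcontbR j τ) = τ := by
  funext x
  unfold bcontbR
  rw [bcontb_rfl_rfl, bcontb_rfl_rfl]

theorem bcontb_R_pm (j : Fin d) (τ : Vtx d n → Vtx d n) (h : IsPM τ) : IsPM (bcontbR j τ) := by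
  refine ⟨fun x => ?_, fun x => ?_⟩
  · unfold bcontbR
    rw [bcontb_rfl_rfl, h.1, bcontb_rfl_rfl]
  · obtain ⟨i, hi⟩ := h.2 (rfl1 j x)
    refine ⟨i, ?_⟩
    unfold bcontbR
    rcases eq_or_ne i j with rfl | hij
    · rcases hi with hi | hi
      · right
        rw [hi, bcontb_rfl_add, bcontb_rfl_rfl, bcontb_rfl_stp_same, ← sub_eq_add_neg]
      · left
        rw [hi, bcontb_rfl_sub, bcontb_rfl_rfl, bcontb_rfl_stp_same, sub_neg_eq_add]
    · rcases hi with hi | hi
      · left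
        rw [hi, bcontb_rfl_add, bcontb_rfl_rfl, bcontb_rfl_stp j i hij]
      · right
        rw [hi, bcontb_rfl_sub, bcontb_rfl_rfl, bcontb_rfl_stp j i hij]

theorem bcontb_mem [NeZero n] (τ : Vtx d n → Vtx d n) : τ ∈ PMs d n ↔ IsPM τ := by
  unfold PMs
  simp

theorem bcontb_R_sum [NeZero n] (j : Fin d) (F : (Vtx d n → Vtx d n) → ℝ) :
    ∑ τ ∈ PMs d n, F (bcontbR j τ) = ∑ τ ∈ PMs d n, F τ := by
  refine Finset.sum_nbij' (bcontbR j) (bcontbR j) ?_ ?_ ?_ ?_ ?_
  · intro τ h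
    rw [bcontb_mem] at h ⊢
    exact bcontb_R_pm j τ h
  · intro τ h
    rw [bcontb_mem] at h ⊢
    exact bcontb_R_pm j τ h
  · intro τ _
    exact bcontb_R_R j τ
  · intro τ _
    exact bcontb_R_R j τ
  · intro τ _
    rfl

/-- the reflection as an equivalence -/
def bcontbE (j : Fin d) : Vtx d n ≃ Vtx d n where
  toFun := rfl1 j
  invFun := rfl1 j
  left_inv := bcontb_rfl_rfl j
  right_inv := bcontb_rfl_rfl j

theorem bcontb_J_ne [NeZero n] (he : Even n) (k : Vtx d n) (j : Fin d) (hk : k j = 0)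
    (i : Fin d) (hij : i ≠ j) (τ : Vtx d n → Vtx d n) :
    Jh k i (bcontbR j τ) = Jh k i τ := by
  classical
  unfold Jh
  refine Fintype.sum_equiv (bcontbE j) _ _ fun x => ?_
  show _ = ((sgnV (rfl1 j x) : ℝ) : ℂ) * chr k (rfl1 j x)
    * (if τ (rfl1 j x) = rfl1 j x + stp i then 1 else 0)
  rw [bcontb_sgn_rfl he, bcontb_chr_rfl k j hk]
  have h : (bcontbR j τ x = x + stp i) ↔ (τ (rfl1 j x) = rfl1 j x + stp i) := by
    unfold bcontbR
    constructor
    · intro h
      have h2 := congrArg (rfl1 j) h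
      rw [bcontb_rfl_rfl, bcontb_rfl_add, bcontb_rfl_stp j i hij] at h2
      exact h2
    · intro h
      rw [h, bcontb_rfl_add, bcontb_rfl_rfl, bcontb_rfl_stp j i hij]
  by_cases h1 : bcontbR j τ x = x + stp i
  · rw [if_pos h1, if_pos (h.1 h1)]
  · rw [if_neg h1, if_neg (fun h2 => h1 (h.2 h2))]

theorem bcontb_chr_step [NeZero n] (k : Vtx d n) (j : Fin d) (hk : k j = 0) (x : Vtx d n) :
    chr k (x + stp j) = chr k x := by
  rw [chr_add, chr_stp, hk, AddChar.map_zero_eq_one, mul_one]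

theorem bcontb_shift [NeZero n] (f : Vtx d n → ℂ) (j : Fin d) :
    ∑ x, f (x + stp j) = ∑ x, f x :=
  Fintype.sum_equiv (Equiv.addRight (stp j)) _ _ (fun _ => rfl)

theorem bcontb_J_same [NeZero n] (he : Even n) (k : Vtx d n) (j : Fin d) (hk : k j = 0)
    (τ : Vtx d n → Vtx d n) (hτ : IsPM τ) :
    Jh k j (bcontbR j τ) = - Jh k j τ := by
  classical
  unfold Jh
  have e1 : ∑ x, ((sgnV x : ℝ) : ℂ) * chr k x * (if bcontbR j τ x = x + stp j then 1 else 0)
      = ∑ y, ((sgnV y : ℝ) : ℂ) * chr k y * (if τ y = y - stp j then 1 else 0) := by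
    refine Fintype.sum_equiv (bcontbE j) _ _ fun x => ?_
    show _ = ((sgnV (rfl1 j x) : ℝ) : ℂ) * chr k (rfl1 j x)
      * (if τ (rfl1 j x) = rfl1 j x - stp j then 1 else 0)
    rw [bcontb_sgn_rfl he, bcontb_chr_rfl k j hk]
    have h : (bcontbR j τ x = x + stp j) ↔ (τ (rfl1 j x) = rfl1 j x - stp j) := by
      unfold bcontbR
      constructor
      · intro h
        have h2 := congrArg (rfl1 j) h
        rw [bcontb_rfl_rfl, bcontb_rfl_add, bcontb_rfl_stp_same, ← sub_eq_add_neg] at h2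
        exact h2
      · intro h
        rw [h, bcontb_rfl_sub, bcontb_rfl_rfl, bcontb_rfl_stp_same, sub_neg_eq_add]
    by_cases h1 : bcontbR j τ x = x + stp j
    · rw [if_pos h1, if_pos (h.1 h1)]
    · rw [if_neg h1, if_neg (fun h2 => h1 (h.2 h2))]
  have e2 : ∑ y, ((sgnV y : ℝ) : ℂ) * chr k y * (if τ y = y - stp j then 1 else 0)
      = ∑ z, (-(((sgnV z : ℝ) : ℂ) * chr k z * (if τ z = z + stp j then 1 else 0))) := by
    rw [← bcontb_shift (fun y => ((sgnV y : ℝ) : ℂ) * chr k y * (if τ y = y - stp j then 1 else 0)) j]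
    refine Finset.sum_congr rfl fun z _ => ?_
    rw [MainA_sgn_step he, bcontb_chr_step k j hk]
    have h := MainA_pm τ hτ z j
    by_cases h1 : τ z = z + stp j
    · rw [if_pos h1, if_pos (by rw [h.2 h1, add_sub_cancel_right])]
      push_cast
      ring
    · rw [if_neg h1, if_neg (fun h2 => h1 (h.1 (by rw [h2, add_sub_cancel_right])))]
      push_cast
      ring
  rw [e1, e2, Finset.sum_neg_distrib]

theorem bcontb_par (A B : ℂ) : ‖A‖ ^ 2 ≤ (‖A + B‖ ^ 2 + ‖A - B‖ ^ 2) / 2 := by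
  have h := parallelogram_law_with_norm ℝ A B
  have h2 := norm_nonneg B
  nlinarith [sq_nonneg ‖B‖]

theorem bcontb_split [NeZero n] (j : Fin d) (b : Fin d → ℂ) (J : Fin d → ℂ) :
    ∑ i, b i * J i = ∑ i, Function.update b j 0 i * J i + b j * J j := by
  classical
  have h1 : ∑ i, Function.update b j 0 i * J i
      = Function.update b j 0 j * J j + ∑ i ∈ univ.erase j, Function.update b j 0 i * J i :=
    (Finset.add_sum_erase univ _ (mem_univ j)).symm
  have h2 : ∑ i, b i * J i = b j * J j + ∑ i ∈ univ.erase j, b i * J i :=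
    (Finset.add_sum_erase univ _ (mem_univ j)).symm
  have h3 : ∑ i ∈ univ.erase j, Function.update b j 0 i * J i = ∑ i ∈ univ.erase j, b i * J i := by
    refine Finset.sum_congr rfl fun i hi => ?_
    rw [Function.update_of_ne (Finset.ne_of_mem_erase hi)]
  rw [h1, h2, h3, Function.update_self]
  ring

/-- Reflection in direction `j`, `k j = 0`: `τ' = R τ R` is a perfect matching, `Jh k i τ' = Jh k i τ` for `i ≠ j` and
`Jh k j τ' = - Jh k j τ`. Parallelogram identity. -/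
theorem refl_le [NeZero n] (hn : 4 ≤ n) (he : Even n) (k : Vtx d n) (j : Fin d) (hk : k j = 0)
    (b : Fin d → ℂ) : EE (Function.update b j 0) k ≤ EE b k := by
  have h1 : EE b k = (∑ τ ∈ PMs d n, ‖∑ i, b i * Jh k i τ‖ ^ 2
      + ∑ τ ∈ PMs d n, ‖∑ i, b i * Jh k i (bcontbR j τ)‖ ^ 2) / 2 := by
    rw [bcontb_R_sum j (fun τ => ‖∑ i, b i * Jh k i τ‖ ^ 2)]
    unfold EE
    ring
  rw [h1, ← Finset.sum_add_distrib, Finset.sum_div]
  unfold EE
  refine Finset.sum_le_sum fun τ hτ => ?_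
  rw [bcontb_mem] at hτ
  have e1 : ∑ i, b i * Jh k i τ
      = ∑ i, Function.update b j 0 i * Jh k i τ + b j * Jh k j τ :=
    bcontb_split (n := n) j b (fun i => Jh k i τ)
  have e2 : ∑ i, b i * Jh k i (bcontbR j τ)
      = ∑ i, Function.update b j 0 i * Jh k i τ - b j * Jh k j τ := by
    rw [bcontb_split (n := n) j b (fun i => Jh k i (bcontbR j τ)), bcontb_J_same he k j hk τ hτ]
    have e3 : ∑ i, Function.update b j 0 i * Jh k i (bcontbR j τ)
        = ∑ i, Function.update b j 0 i * Jh k i τ := by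
      refine Finset.sum_congr rfl fun i _ => ?_
      rcases eq_or_ne i j with rfl | hij
      · rw [Function.update_self, zero_mul, zero_mul]
      · rw [bcontb_J_ne he k j hk i hij]
    rw [e3]
    ring
  rw [e1, e2]
  exact bcontb_par _ _

theorem bcontb_J_re [NeZero n] (k : Vtx d n) (i : Fin d) (τ : Vtx d n → Vtx d n) :
    Jh k i τ = (edgeSum i (cosV k) τ : ℂ) + (edgeSum i (sinV k) τ : ℂ) * Complex.I := by
  classical
  unfold Jh edgeSum
  push_cast
  rw [Finset.sum_mul, ← Finset.sum_add_distrib]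
  refine Finset.sum_congr rfl fun x _ => ?_
  unfold cosV sinV
  have h : chr k x = ((chr k x).re : ℂ) + ((chr k x).im : ℂ) * Complex.I := (Complex.re_add_im _).symm
  nth_rewrite 1 [h]
  split_ifs
  · simp only [Complex.ofReal_one]
    ring
  · simp only [Complex.ofReal_zero]
    ring

theorem bcontb_J_sq [NeZero n] (k : Vtx d n) (i : Fin d) (τ : Vtx d n → Vtx d n) :
    ‖Jh k i τ‖ ^ 2 = edgeSum i (cosV k) τ ^ 2 + edgeSum i (sinV k) τ ^ 2 := by
  rw [bcontb_J_re, ← Complex.normSq_eq_norm_sq, Complex.normSq_add_mul_I]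

/-- upper bound for a mode static in a transversal direction: `edge_moment` with `m = 1` for the real and the imaginary
part of the character -/
theorem mode_upper [NeZero n] (hn : 4 ≤ n) (he : Even n) (k : Vtx d n) (i j : Fin d) (hij : i ≠ j)
    (hk : k j = 0) : EE (Pi.single i 1) k ≤ 15 / 2 * (n : ℝ) ^ d * ZP d n := by
  classical
  have h0 : EE (Pi.single i 1) k
      = ∑ τ ∈ PMs d n, (edgeSum i (cosV k) τ ^ 2 + edgeSum i (sinV k) τ ^ 2) := by
    unfold EE
    refine Finset.sum_congr rfl fun τ _ => ?_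
    rw [← bcontb_J_sq]
    congr 2
    rw [Finset.sum_eq_single i]
    · rw [Pi.single_eq_same, one_mul]
    · intro l _ hl
      rw [Pi.single_eq_of_ne hl, zero_mul]
    · intro h
      exact absurd (mem_univ i) h
  have h1 := edge_moment d n hn he i j hij (cosV k) 1
  have h2 := edge_moment d n hn he i j hij (sinV k) 1
  have d1 : ∀ x, (difV j)^[1] (cosV k) x = 0 := by
    intro x
    rw [Function.iterate_one]
    unfold difV cosV
    rw [bcontb_chr_step k j hk, sub_self]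
  have d2 : ∀ x, (difV j)^[1] (sinV k) x = 0 := by
    intro x
    rw [Function.iterate_one]
    unfold difV sinV
    rw [bcontb_chr_step k j hk, sub_self]
  have s1 : ∑ x, ((difV j)^[1] (cosV k) x) ^ 2 = 0 :=
    Finset.sum_eq_zero fun x _ => by rw [d1 x]; norm_num
  have s2 : ∑ x, ((difV j)^[1] (sinV k) x) ^ 2 = 0 :=
    Finset.sum_eq_zero fun x _ => by rw [d2 x]; norm_num
  rw [s1, mul_zero, add_zero] at h1
  rw [s2, mul_zero, add_zero] at h2
  have h3 : ∑ x : Vtx d n, cosV k x ^ 2 + ∑ x : Vtx d n, sinV k x ^ 2 = (n : ℝ) ^ d := by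
    rw [← Finset.sum_add_distrib, Finset.sum_congr rfl (fun x _ => cosV_sinV k x),
      Finset.sum_const, Finset.card_univ, Fintype.card_fun, ZMod.card, Fintype.card_fin,
      nsmul_eq_mul, mul_one]
    push_cast
    rfl
  rw [h0, Finset.sum_add_distrib]
  calc ∑ τ ∈ PMs d n, edgeSum i (cosV k) τ ^ 2 + ∑ τ ∈ PMs d n, edgeSum i (sinV k) τ ^ 2
      ≤ 15 / 2 * ∑ x, cosV k x ^ 2 * (PMs d n).card + 15 / 2 * ∑ x, sinV k x ^ 2 * (PMs d n).card := by
        rw [← Finset.sum_mul, ← Finset.sum_mul, ← mul_assoc, ← mul_assoc]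
        exact add_le_add h1 h2
    _ = 15 / 2 * (n : ℝ) ^ d * ZP d n := by
        unfold ZP
        rw [← Finset.sum_mul, ← Finset.sum_mul, ← h3]
        ring

/-- the translated matching -/
def bcontbT (v : Vtx d n) (τ : Vtx d n → Vtx d n) : Vtx d n → Vtx d n :=
  fun x => τ (x + v) - v

theorem bcontb_T_T (v : Vtx d n) (τ : Vtx d n → Vtx d n) : bcontbT (-v) (bcontbT v τ) = τ := by
  funext x
  unfold bcontbT
  rw [neg_add_cancel_right, sub_neg_eq_add, sub_add_cancel]

theorem bcontb_T_T' (v : Vtx d n) (τ : Vtx d n → Vtx d n) : bcontbT v (bcontbT (-v) τ) = τ := by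
  funext x
  unfold bcontbT
  rw [add_neg_cancel_right, sub_neg_eq_add, add_sub_cancel_right]

theorem bcontb_T_pm (v : Vtx d n) (τ : Vtx d n → Vtx d n) (h : IsPM τ) : IsPM (bcontbT v τ) := by
  refine ⟨fun x => ?_, fun x => ?_⟩
  · unfold bcontbT
    rw [sub_add_cancel, h.1, add_sub_cancel_right]
  · obtain ⟨i, hi⟩ := h.2 (x + v)
    refine ⟨i, ?_⟩
    unfold bcontbT
    rcases hi with hi | hi
    · left
      rw [hi]
      abel
    · right
      rw [hi]
      abel

theorem bcontb_T_sum [NeZero n] (v : Vtx d n) (F : (Vtx d n → Vtx d n) → ℝ) :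
    ∑ τ ∈ PMs d n, F (bcontbT v τ) = ∑ τ ∈ PMs d n, F τ := by
  refine Finset.sum_nbij' (bcontbT v) (bcontbT (-v)) ?_ ?_ ?_ ?_ ?_
  · intro τ h
    rw [bcontb_mem] at h ⊢
    exact bcontb_T_pm v τ h
  · intro τ h
    rw [bcontb_mem] at h ⊢
    exact bcontb_T_pm (-v) τ h
  · intro τ _
    exact bcontb_T_T v τ
  · intro τ _
    exact bcontb_T_T' v τ
  · intro τ _
    rfl

open Classical in
/-- the signed occupation of the edges -/
noncomputable def bcontbJ (τ : Vtx d n → Vtx d n) (i : Fin d) (x : Vtx d n) : ℝ :=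
  sgnV x * (if τ x = x + stp i then 1 else 0)

theorem bcontb_T_edge [NeZero n] (he : Even n) (v : Vtx d n) (i : Fin d) (w : Vtx d n → ℝ)
    (τ : Vtx d n → Vtx d n) :
    edgeSum i w (bcontbT v τ) = sgnV v * ∑ x, w (x - v) * bcontbJ τ i x := by
  classical
  unfold edgeSum
  rw [Finset.mul_sum]
  refine Fintype.sum_equiv (Equiv.addRight v) _ _ fun x => ?_
  show _ = sgnV v * (w (x + v - v) * bcontbJ τ i (x + v))
  unfold bcontbJ
  rw [add_sub_cancel_right, bcontb_sgn_add he]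
  have h : (bcontbT v τ x = x + stp i) ↔ (τ (x + v) = x + v + stp i) := by
    unfold bcontbT
    rw [sub_eq_iff_eq_add, add_right_comm]
  have h2 : sgnV v * sgnV v = 1 := by
    rw [← pow_two]
    exact MainA_sgn_sq v
  by_cases h1 : bcontbT v τ x = x + stp i
  · rw [if_pos h1, if_pos (h.1 h1)]
    calc sgnV x * w x * 1 = (sgnV v * sgnV v) * (sgnV x * w x) := by rw [h2]; ring
      _ = _ := by ring
  · rw [if_neg h1, if_neg (fun h3 => h1 (h.2 h3))]
    ring

theorem bcontb_T_sq [NeZero n] (he : Even n) (v : Vtx d n) (w : Fin d → Vtx d n → ℝ)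
    (τ : Vtx d n → Vtx d n) :
    (∑ i, edgeSum i (w i) (bcontbT v τ)) ^ 2 = (∑ i, ∑ x, w i (x - v) * bcontbJ τ i x) ^ 2 := by
  rw [Finset.sum_congr rfl (fun i _ => bcontb_T_edge he v i (w i) τ), ← Finset.mul_sum, mul_pow,
    MainA_sgn_sq, one_mul]

theorem bcontb_FT_J [NeZero n] (k : Vtx d n) (i : Fin d) (τ : Vtx d n → Vtx d n) :
    FT (fun x => (bcontbJ τ i x : ℂ)) k = Jh k i τ := by
  classical
  unfold FT Jh bcontbJ
  refine Finset.sum_congr rfl fun x _ => ?_
  push_cast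
  split_ifs
  · push_cast
    ring
  · push_cast
    ring

/-- the second moment of the edge sums through the modes: translation invariance of the uniform matching
(`τ' x = τ (x + v) - v`), `FT_conv` -/
theorem EE_disc [NeZero n] (hn : 4 ≤ n) (he : Even n) (w : Fin d → Vtx d n → ℝ) :
    ((n : ℝ) ^ d) ^ 2 * ∑ τ ∈ PMs d n, (∑ i, edgeSum i (w i) τ) ^ 2
      = ∑ k, EE (fun i => (starRingEnd ℂ) (FT (fun x => (w i x : ℂ)) k)) k := by
  classical
  have h1 : ∀ v : Vtx d n, ∑ τ ∈ PMs d n, (∑ i, edgeSum i (w i) τ) ^ 2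
      = ∑ τ ∈ PMs d n, (∑ i, ∑ x, w i (x - v) * bcontbJ τ i x) ^ 2 := by
    intro v
    rw [← bcontb_T_sum v (fun τ => (∑ i, edgeSum i (w i) τ) ^ 2)]
    refine Finset.sum_congr rfl fun τ _ => ?_
    exact bcontb_T_sq he v w τ
  have h2 : (n : ℝ) ^ d * ∑ τ ∈ PMs d n, (∑ i, edgeSum i (w i) τ) ^ 2
      = ∑ v : Vtx d n, ∑ τ ∈ PMs d n, (∑ i, ∑ x, w i (x - v) * bcontbJ τ i x) ^ 2 := by
    rw [← Finset.sum_congr rfl (fun v _ => h1 v), Finset.sum_const, Finset.card_univ,
      Fintype.card_fun, ZMod.card, Fintype.card_fin, nsmul_eq_mul]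
    push_cast
    rfl
  rw [pow_two, mul_assoc, h2, Finset.sum_comm, Finset.mul_sum]
  have h3 : ∀ τ ∈ PMs d n, (n : ℝ) ^ d * ∑ v : Vtx d n, (∑ i, ∑ x, w i (x - v) * bcontbJ τ i x) ^ 2
      = ∑ k, ‖∑ i, (starRingEnd ℂ) (FT (fun x => (w i x : ℂ)) k) * Jh k i τ‖ ^ 2 := by
    intro τ _
    rw [FT_conv w (fun i x => bcontbJ τ i x)]
    refine Finset.sum_congr rfl fun k _ => ?_
    congr 2
    refine Finset.sum_congr rfl fun i _ => ?_
    rw [bcontb_FT_J]
  rw [Finset.sum_congr rfl h3, Finset.sum_comm]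
  rfl

end LibDim
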