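import Pool.Agent.LibDimB.BScalB

/-! Row SPEC: matrix level consequences of the scalar symbol inequalities (through `spec_diag`, `spec_trace`). -/

namespace LibDim

open Finset

variable {α : Type*} [Fintype α] [DecidableEq α]

theorem BSpec_ker_sum (n : ℕ) [NeZero n] (Q : Matrix α α ℝ) (l : α → ℝ) (h1 : Q * Q.transpose = 1)
    (h2 : Q.transpose * Q = 1) (U : Matrix α α ℝ) (hU : U.IsSymm) (w : ZMod n → ℝ) :
    ∑ r : ZMod n, w r * kerTr n (Q * Matrix.diagonal l * Q.transpose) U U r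
      = ∑ i, ∑ j, (∑ r : ZMod n, w r * ker n (l i) (l j) r) * (Q.transpose * U * Q) i j ^ 2 := by
  have e1 : ∑ r : ZMod n, w r * kerTr n (Q * Matrix.diagonal l * Q.transpose) U U r
      = ∑ r : ZMod n, ∑ i, ∑ j, w r * ker n (l i) (l j) r * (Q.transpose * U * Q) i j ^ 2 := by
    refine Finset.sum_congr rfl fun r _ => ?_
    rw [spec_kerTr n Q l h1 h2 U U hU, Finset.mul_sum]
    refine Finset.sum_congr rfl fun i _ => ?_
    rw [Finset.mul_sum]
    refine Finset.sum_congr rfl fun j _ => ?_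
    ring
  rw [e1, Finset.sum_comm]
  refine Finset.sum_congr rfl fun i _ => ?_
  rw [Finset.sum_comm]
  refine Finset.sum_congr rfl fun j _ => ?_
  rw [Finset.sum_mul]

theorem BSpec_ker_le (n : ℕ) [NeZero n] (S U : Matrix α α ℝ)
    (hS : S.IsSymm) (hU : U.IsSymm) (w w' : ZMod n → ℝ)
    (h : ∀ x y : ℝ, ∑ r : ZMod n, w r * ker n x y r ≤ ∑ r : ZMod n, w' r * ker n x y r) :
    ∑ r : ZMod n, w r * kerTr n S U U r ≤ ∑ r : ZMod n, w' r * kerTr n S U U r := by
  obtain ⟨Q, l, h1, h2, rfl⟩ := spec_diag S hS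
  rw [BSpec_ker_sum n Q l h1 h2 U hU w, BSpec_ker_sum n Q l h1 h2 U hU w']
  refine Finset.sum_le_sum fun i _ => Finset.sum_le_sum fun j _ => ?_
  exact mul_le_mul_of_nonneg_right (h _ _) (sq_nonneg _)

/-- from `ksym_min`, `spec_kerTr` -/
theorem ker_min (n : ℕ) [NeZero n] (hn : 4 ≤ n) (he : Even n) (S U : Matrix α α ℝ)
    (hS : S.IsSymm) (hU : U.IsSymm) (k : ZMod n) :
    ∑ r : ZMod n, kerTr n S U U r ≤ ∑ r : ZMod n, cr (k * r) * kerTr n S U U r := by
  have h := BSpec_ker_le n S U hS hU (fun _ => 1) (fun r => cr (k * r)) (fun x y => by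
    simpa using ksym_min n hn he x y k)
  simpa using h

/-- from `ksym_max`, `spec_kerTr` -/
theorem ker_max (n : ℕ) [NeZero n] (hn : 4 ≤ n) (he : Even n) (S U : Matrix α α ℝ)
    (hS : S.IsSymm) (hU : U.IsSymm) (k : ZMod n) :
    ∑ r : ZMod n, cr (k * r) * kerTr n S U U r
      ≤ ∑ r : ZMod n, (-1) ^ r.val * kerTr n S U U r := by
  exact BSpec_ker_le n S U hS hU (fun r => cr (k * r)) (fun r => (-1) ^ r.val) (fun x y =>
    ksym_max n hn he x y k)

/-- the two point function of a diagonal (or symmetric) matrix on the cycle -/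
noncomputable def psT (n : ℕ) [NeZero n] (S D : Matrix α α ℝ) (k : ZMod n) : ℝ :=
  ∑ r : ZMod n, (-1) ^ r.val * cr (k * r) * (D * S ^ r.val * D * S ^ (n - r.val)).trace

theorem BSpec_psT_eq (n : ℕ) [NeZero n] (Q : Matrix α α ℝ) (l : α → ℝ) (h1 : Q * Q.transpose = 1)
    (h2 : Q.transpose * Q = 1) (D : Matrix α α ℝ) (hD : D.IsSymm) (k : ZMod n) :
    psT n (Q * Matrix.diagonal l * Q.transpose) D k
      = ∑ i, ∑ j, qf n (l i) (l j) k * (Q.transpose * D * Q) i j ^ 2 := by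
  unfold psT
  have e1 : ∀ r : ZMod n, (D * (Q * Matrix.diagonal l * Q.transpose) ^ r.val * D
        * (Q * Matrix.diagonal l * Q.transpose) ^ (n - r.val)).trace
      = ∑ i, ∑ j, (l i ^ r.val * l j ^ (n - r.val) + l j ^ r.val * l i ^ (n - r.val)) / 2
          * (Q.transpose * D * Q) i j ^ 2 := by
    intro r
    rw [spec_trace Q l h1 h2]
    have hs : ∀ i j, (Q.transpose * D * Q) j i = (Q.transpose * D * Q) i j :=
      fun i j => spec_conj_symm Q D hD i j
    have a1 : ∑ i, ∑ j, (Q.transpose * D * Q) j i * l i ^ r.val * (Q.transpose * D * Q) i j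
          * l j ^ (n - r.val)
        = ∑ i, ∑ j, l i ^ r.val * l j ^ (n - r.val) * (Q.transpose * D * Q) i j ^ 2 := by
      refine Finset.sum_congr rfl fun i _ => Finset.sum_congr rfl fun j _ => ?_
      rw [hs i j]; ring
    have a2 : ∑ i, ∑ j, l i ^ r.val * l j ^ (n - r.val) * (Q.transpose * D * Q) i j ^ 2
        = ∑ i, ∑ j, l j ^ r.val * l i ^ (n - r.val) * (Q.transpose * D * Q) i j ^ 2 := by
      rw [Finset.sum_comm]
      refine Finset.sum_congr rfl fun i _ => Finset.sum_congr rfl fun j _ => ?_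
      rw [hs i j]
    have a3 : ∑ i, ∑ j, (l i ^ r.val * l j ^ (n - r.val) + l j ^ r.val * l i ^ (n - r.val)) / 2
          * (Q.transpose * D * Q) i j ^ 2
        = (∑ i, ∑ j, l i ^ r.val * l j ^ (n - r.val) * (Q.transpose * D * Q) i j ^ 2) / 2
          + (∑ i, ∑ j, l j ^ r.val * l i ^ (n - r.val) * (Q.transpose * D * Q) i j ^ 2) / 2 := by
      rw [Finset.sum_div, Finset.sum_div, ← Finset.sum_add_distrib]
      refine Finset.sum_congr rfl fun i _ => ?_
      rw [Finset.sum_div, Finset.sum_div, ← Finset.sum_add_distrib]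
      refine Finset.sum_congr rfl fun j _ => ?_
      ring
    rw [a1, a3, ← a2]
    ring
  have e2 : ∑ r : ZMod n, (-1 : ℝ) ^ r.val * cr (k * r)
        * (D * (Q * Matrix.diagonal l * Q.transpose) ^ r.val * D
        * (Q * Matrix.diagonal l * Q.transpose) ^ (n - r.val)).trace
      = ∑ r : ZMod n, ∑ i, ∑ j, (-1 : ℝ) ^ r.val * cr (k * r)
          * ((l i ^ r.val * l j ^ (n - r.val) + l j ^ r.val * l i ^ (n - r.val)) / 2)
          * (Q.transpose * D * Q) i j ^ 2 := by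
    refine Finset.sum_congr rfl fun r _ => ?_
    rw [e1 r, Finset.mul_sum]
    refine Finset.sum_congr rfl fun i _ => ?_
    rw [Finset.mul_sum]
    refine Finset.sum_congr rfl fun j _ => ?_
    ring
  rw [e2, Finset.sum_comm]
  refine Finset.sum_congr rfl fun i _ => ?_
  rw [Finset.sum_comm]
  refine Finset.sum_congr rfl fun j _ => ?_
  unfold qf
  rw [Finset.sum_mul]

/-- `psT = ∑_ij (Q^T D Q)_ij² qf (l_i, l_j)` -/
theorem psT_nonneg (n : ℕ) [NeZero n] (hn : 4 ≤ n) (he : Even n) (S D : Matrix α α ℝ)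
    (hS : S.IsSymm) (hD : D.IsSymm) (k : ZMod n) : 0 ≤ psT n S D k := by
  obtain ⟨Q, l, h1, h2, rfl⟩ := spec_diag S hS
  rw [BSpec_psT_eq n Q l h1 h2 D hD k]
  exact Finset.sum_nonneg fun i _ => Finset.sum_nonneg fun j _ =>
    mul_nonneg (qf_nonneg n hn he _ _ k) (sq_nonneg _)

theorem psT_mono (n : ℕ) [NeZero n] (hn : 4 ≤ n) (he : Even n) (S D : Matrix α α ℝ)
    (hS : S.IsSymm) (hD : D.IsSymm) (k k' : ZMod n) (h : eps k ≤ eps k') :
    psT n S D k' - psT n S D ((n / 2 : ℕ) : ZMod n) ≤ psT n S D k := by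
  obtain ⟨Q, l, h1, h2, rfl⟩ := spec_diag S hS
  rw [BSpec_psT_eq n Q l h1 h2 D hD k, BSpec_psT_eq n Q l h1 h2 D hD k',
    BSpec_psT_eq n Q l h1 h2 D hD _, ← Finset.sum_sub_distrib]
  refine Finset.sum_le_sum fun i _ => ?_
  rw [← Finset.sum_sub_distrib]
  refine Finset.sum_le_sum fun j _ => ?_
  rw [← sub_mul]
  refine mul_le_mul_of_nonneg_right (qf_mono n hn he _ _ k k' ?_) (sq_nonneg _)
  unfold eps at h
  linarith

theorem psT_sum (n : ℕ) [NeZero n] (S D : Matrix α α ℝ) :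
    ∑ k : ZMod n, psT n S D k = n * (D * D * S ^ n).trace := by
  unfold psT
  rw [Finset.sum_comm]
  have e : ∀ r : ZMod n, ∑ k : ZMod n, (-1 : ℝ) ^ r.val * cr (k * r)
        * (D * S ^ r.val * D * S ^ (n - r.val)).trace
      = if r = 0 then (n : ℝ) * (D * D * S ^ n).trace else 0 := by
    intro r
    rw [← Finset.sum_mul, ← Finset.mul_sum, cr_sum]
    by_cases hr : r = 0
    · subst hr
      simp [ZMod.val_zero]
    · simp [hr]
  rw [Finset.sum_congr rfl fun r _ => e r]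
  simp

/-- two point function of a general matrix with its transpose -/
noncomputable def hT (n : ℕ) (S U : Matrix α α ℝ) (s : ℕ) : ℝ :=
  (U * S ^ s * U.transpose * S ^ (n - s)).trace

theorem BSpec_hT_eq (n : ℕ) (Q : Matrix α α ℝ) (l : α → ℝ) (h1 : Q * Q.transpose = 1)
    (h2 : Q.transpose * Q = 1) (U : Matrix α α ℝ) (s : ℕ) :
    hT n (Q * Matrix.diagonal l * Q.transpose) U s
      = ∑ i, ∑ j, (Q.transpose * U * Q) j i ^ 2 * (l i ^ s * l j ^ (n - s)) := by
  unfold hT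
  rw [spec_trace Q l h1 h2]
  refine Finset.sum_congr rfl fun i _ => Finset.sum_congr rfl fun j _ => ?_
  have e : (Q.transpose * U.transpose * Q) i j = (Q.transpose * U * Q) j i := by
    have h : (Q.transpose * U * Q).transpose = Q.transpose * U.transpose * Q := by
      rw [Matrix.transpose_mul, Matrix.transpose_mul, Matrix.transpose_transpose,
        Matrix.mul_assoc]
    rw [← h, Matrix.transpose_apply]
  rw [e]
  ring

theorem BSpec_even_pow (x : ℝ) (m : ℕ) (h : Even m) : 0 ≤ x ^ m := Even.pow_nonneg h x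

theorem BSpec_convex_end (a : ℕ → ℝ) (N : ℕ)
    (h : ∀ m, m + 2 ≤ N → 2 * a (m + 1) ≤ a m + a (m + 2)) (h0 : a N ≤ a 0) :
    ∀ m, m ≤ N → a m ≤ a 0 := by
  classical
  by_contra hc
  have hex : ∃ m, m ≤ N ∧ a 0 < a m := by
    simp only [not_forall] at hc
    obtain ⟨m, hm, hm2⟩ := hc
    exact ⟨m, hm, not_le.mp hm2⟩
  set m := Nat.find hex with hm
  have hs : m ≤ N ∧ a 0 < a m := Nat.find_spec hex
  have hpos : m ≠ 0 := by
    intro h00
    rw [h00] at hs
    exact lt_irrefl _ hs.2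
  obtain ⟨p, hp⟩ := Nat.exists_eq_succ_of_ne_zero hpos
  have hmin : a p ≤ a 0 := by
    have h3 : ¬ (p ≤ N ∧ a 0 < a p) := Nat.find_min hex (by omega)
    by_contra h4
    exact h3 ⟨by omega, not_le.mp h4⟩
  have key : ∀ j, m + j ≤ N → a 0 < a (m + j) ∧ a (p + j) < a (m + j) := by
    intro j
    induction j with
    | zero =>
      intro _
      exact ⟨hs.2, lt_of_le_of_lt hmin hs.2⟩
    | succ j ih =>
      intro hj
      have h5 := ih (by omega)
      have h6 := h (p + j) (by omega)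
      have e1 : p + j + 1 = m + j := by omega
      have e2 : p + j + 2 = m + (j + 1) := by omega
      have e3 : p + (j + 1) = m + j := by omega
      rw [e1, e2] at h6
      rw [e3]
      constructor
      · linarith [h5.1, h5.2]
      · linarith [h5.1, h5.2]
  have h7 := key (N - m) (by omega)
  have e4 : m + (N - m) = N := by omega
  rw [e4] at h7
  linarith [h7.1]

/-- `hT s = ∑_ij w_ij l_i^s l_j^(n-s)` with `w_ij = (Q^T U Q)_ji² ≥ 0` (`spec_trace`); for even `s` all terms are `≥ 0` -/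
theorem hT_nonneg (n : ℕ) (he : Even n) (S U : Matrix α α ℝ) (hS : S.IsSymm) (s : ℕ)
    (hs : Even s) (hsn : s ≤ n) : 0 ≤ hT n S U s := by
  obtain ⟨Q, l, h1, h2, rfl⟩ := spec_diag S hS
  rw [BSpec_hT_eq n Q l h1 h2 U s]
  have hns : Even (n - s) := by
    rcases he with ⟨v, hv⟩
    rcases hs with ⟨u, hu⟩
    exact ⟨v - u, by omega⟩
  exact Finset.sum_nonneg fun i _ => Finset.sum_nonneg fun j _ =>
    mul_nonneg (sq_nonneg _) (mul_nonneg (BSpec_even_pow _ _ hs) (BSpec_even_pow _ _ hns))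

/-- `2 X Y ≤ X² + Y²` -/
theorem hT_conv (n : ℕ) (he : Even n) (S U : Matrix α α ℝ) (hS : S.IsSymm) (s : ℕ)
    (hs : Even s) (hsn : s + 4 ≤ n) : 2 * hT n S U (s + 2) ≤ hT n S U s + hT n S U (s + 4) := by
  obtain ⟨Q, l, h1, h2, rfl⟩ := spec_diag S hS
  rw [BSpec_hT_eq n Q l h1 h2 U, BSpec_hT_eq n Q l h1 h2 U, BSpec_hT_eq n Q l h1 h2 U,
    Finset.mul_sum, ← Finset.sum_add_distrib]
  refine Finset.sum_le_sum fun i _ => ?_
  rw [Finset.mul_sum, ← Finset.sum_add_distrib]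
  refine Finset.sum_le_sum fun j _ => ?_
  obtain ⟨q, hq⟩ : ∃ q, n = s + 4 + q := ⟨n - (s + 4), by omega⟩
  have hqe : Even q := by
    have : Even (s + 4 + q) := hq ▸ he
    rcases hs with ⟨u, hu⟩
    rcases this with ⟨v, hv⟩
    exact ⟨v - u - 2, by omega⟩
  have e1 : n - (s + 2) = q + 2 := by omega
  have e2 : n - s = q + 4 := by omega
  have e3 : n - (s + 4) = q := by omega
  rw [e1, e2, e3]
  have hp : 0 ≤ l i ^ s := BSpec_even_pow _ _ hs
  have hqq : 0 ≤ l j ^ q := BSpec_even_pow _ _ hqe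
  have h3 : 0 ≤ (Q.transpose * U * Q) j i ^ 2 * (l i ^ s * l j ^ q) := by positivity
  have h4 : 0 ≤ (Q.transpose * U * Q) j i ^ 2 * (l i ^ s * l j ^ q) * (l i ^ 2 - l j ^ 2) ^ 2 :=
    mul_nonneg h3 (sq_nonneg _)
  have e4 : (Q.transpose * U * Q) j i ^ 2 * (l i ^ s * l j ^ q) * (l i ^ 2 - l j ^ 2) ^ 2
      = (Q.transpose * U * Q) j i ^ 2 * (l i ^ s * l j ^ (q + 4))
        + (Q.transpose * U * Q) j i ^ 2 * (l i ^ (s + 4) * l j ^ q)
        - 2 * ((Q.transpose * U * Q) j i ^ 2 * (l i ^ (s + 2) * l j ^ (q + 2))) := by ring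
  linarith

theorem hT_odd (n : ℕ) (he : Even n) (S U : Matrix α α ℝ) (hS : S.IsSymm) (s : ℕ)
    (hs : Even s) (hsn : s + 2 ≤ n) :
    |hT n S U (s + 1)| ≤ (hT n S U s + hT n S U (s + 2)) / 2 := by
  obtain ⟨Q, l, h1, h2, rfl⟩ := spec_diag S hS
  rw [BSpec_hT_eq n Q l h1 h2 U, BSpec_hT_eq n Q l h1 h2 U, BSpec_hT_eq n Q l h1 h2 U]
  obtain ⟨q, hq⟩ : ∃ q, n = s + 2 + q := ⟨n - (s + 2), by omega⟩
  have hqe : Even q := by
    have : Even (s + 2 + q) := hq ▸ he
    rcases hs with ⟨u, hu⟩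
    rcases this with ⟨v, hv⟩
    exact ⟨v - u - 1, by omega⟩
  have e1 : n - (s + 1) = q + 1 := by omega
  have e2 : n - s = q + 2 := by omega
  have e3 : n - (s + 2) = q := by omega
  rw [e1, e2, e3, ← Finset.sum_add_distrib, Finset.sum_div]
  refine le_trans (Finset.abs_sum_le_sum_abs _ _) (Finset.sum_le_sum fun i _ => ?_)
  rw [← Finset.sum_add_distrib, Finset.sum_div]
  refine le_trans (Finset.abs_sum_le_sum_abs _ _) (Finset.sum_le_sum fun j _ => ?_)
  have hp : 0 ≤ l i ^ s := BSpec_even_pow _ _ hs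
  have hqq : 0 ≤ l j ^ q := BSpec_even_pow _ _ hqe
  have h3 : 0 ≤ (Q.transpose * U * Q) j i ^ 2 * (l i ^ s * l j ^ q) := by positivity
  rw [abs_le]
  constructor
  · have h4 := mul_nonneg h3 (sq_nonneg (l i + l j))
    have e4 : (Q.transpose * U * Q) j i ^ 2 * (l i ^ s * l j ^ q) * (l i + l j) ^ 2
        = (Q.transpose * U * Q) j i ^ 2 * (l i ^ s * l j ^ (q + 2))
          + (Q.transpose * U * Q) j i ^ 2 * (l i ^ (s + 2) * l j ^ q)
          + 2 * ((Q.transpose * U * Q) j i ^ 2 * (l i ^ (s + 1) * l j ^ (q + 1))) := by ring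
    linarith
  · have h4 := mul_nonneg h3 (sq_nonneg (l i - l j))
    have e4 : (Q.transpose * U * Q) j i ^ 2 * (l i ^ s * l j ^ q) * (l i - l j) ^ 2
        = (Q.transpose * U * Q) j i ^ 2 * (l i ^ s * l j ^ (q + 2))
          + (Q.transpose * U * Q) j i ^ 2 * (l i ^ (s + 2) * l j ^ q)
          - 2 * ((Q.transpose * U * Q) j i ^ 2 * (l i ^ (s + 1) * l j ^ (q + 1))) := by ring
    linarith

/-- hence everything is bounded by the value at `0` if the value at `n` is -/
theorem hT_le (n : ℕ) (he : Even n) (S U : Matrix α α ℝ) (hS : S.IsSymm)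
    (h0 : hT n S U n ≤ hT n S U 0) (s : ℕ) (hs : s ≤ n) : hT n S U s ≤ hT n S U 0 := by
  obtain ⟨N, hN⟩ := he
  have he' : Even n := ⟨N, hN⟩
  have key := BSpec_convex_end (fun m => hT n S U (2 * m)) N
    (fun m hm => by
      have h1 := hT_conv n he' S U hS (2 * m) (even_two_mul m) (by omega)
      have e1 : 2 * (m + 1) = 2 * m + 2 := by ring
      have e2 : 2 * (m + 2) = 2 * m + 4 := by ring
      simp only [e1, e2]
      exact h1)
    (by
      have e1 : 2 * N = n := by omega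
      simp only [e1, mul_zero]
      exact h0)
  have hev : ∀ m, m ≤ N → hT n S U (2 * m) ≤ hT n S U 0 := by
    intro m hm
    have h1 := key m hm
    simpa using h1
  rcases Nat.even_or_odd' s with ⟨m, hm | hm⟩
  · rw [hm]
    exact hev m (by omega)
  · have h1 := hT_odd n he' S U hS (2 * m) (even_two_mul m) (by omega)
    have h2 := hev m (by omega)
    have h3 := hev (m + 1) (by omega)
    have e1 : 2 * (m + 1) = 2 * m + 2 := by ring
    rw [e1] at h3
    rw [hm]
    have h4 := le_abs_self (hT n S U (2 * m + 1))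
    linarith

end LibDim
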