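import Pool.Agent.LibDimB.BIrT
import Pool.Agent.LibDimB.BSpec

/-! Row CONV: convexity in the layer distance, bound on `fN 1 1 0`. -/

namespace LibDim

open Finset Matrix

theorem bconv_dec (m : ℕ) (e : ℕ → ℝ) (K : ℝ)
    (hc : ∀ j, j + 2 ≤ m → 2 * e (j + 1) ≤ e j + e (j + 2)) (h01 : e 0 - e 1 ≤ K) :
    ∀ j, j + 1 ≤ m → e j - e (j + 1) ≤ K := by
  intro j
  induction j with
  | zero => intro _; exact h01
  | succ j ih =>
    intro hj
    have h1 := ih (by omega)
    have h2 := hc j (by omega)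
    linarith

theorem bconv_lin (m : ℕ) (e : ℕ → ℝ) (K : ℝ)
    (hc : ∀ j, j + 2 ≤ m → 2 * e (j + 1) ≤ e j + e (j + 2)) (h01 : e 0 - e 1 ≤ K) :
    ∀ j, j ≤ m → e 0 - K * j ≤ e j := by
  intro j
  induction j with
  | zero => intro _; simp
  | succ j ih =>
    intro hj
    have h1 := ih (by omega)
    have h2 := bconv_dec m e K hc h01 j hj
    push_cast
    linarith

/-- a convex nonnegative sequence with small total sum and small first decrement has a small first term -/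
theorem seq_bound (m : ℕ) (e : ℕ → ℝ) (K T : ℝ)
    (hc : ∀ j, j + 2 ≤ m → 2 * e (j + 1) ≤ e j + e (j + 2)) (hn : ∀ j, j ≤ m → 0 ≤ e j)
    (h01 : e 0 - e 1 ≤ K) (hs : ∑ j ∈ range m, e (j + 1) ≤ T) (J : ℕ) (hJ : J ≤ m) (hm : 1 ≤ m) :
    J * e 0 ≤ T + K * (J * (J + 1) / 2) := by
  have h1 : ∑ j ∈ range J, e (j + 1) ≤ T := by
    refine le_trans (sum_le_sum_of_subset_of_nonneg (range_mono hJ) ?_) hs
    intro j hj _
    exact hn (j + 1) (by rw [mem_range] at hj; omega)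
  have h2 : ∑ j ∈ range J, (e 0 - K * ((j : ℝ) + 1)) ≤ ∑ j ∈ range J, e (j + 1) := by
    refine sum_le_sum fun j hj => ?_
    rw [mem_range] at hj
    have := bconv_lin m e K hc h01 (j + 1) (by omega)
    push_cast at this
    exact this
  have h3 : ∀ J : ℕ, ∑ j ∈ range J, (e 0 - K * ((j : ℝ) + 1)) = J * e 0 - K * (J * (J + 1) / 2) := by
    intro J
    induction J with
    | zero => simp
    | succ J ih =>
      rw [sum_range_succ, ih]
      push_cast
      ring
  rw [h3 J] at h2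
  linarith

variable {d n : ℕ}

theorem fN_hT (g : Gr (Vtx d n) (Vtx d n × Fin d)) [NeZero n] (u : Vtx d n → ℝ) (s : ℕ) :
    fN g n u u s = hT n (lS g) (UM u) s := rfl

/-- `fN u u n ≤ fN u u 0` on the torus (`fN_kappa`) -/
theorem fN_end [NeZero n] (hn : 4 ≤ n) (u : Vtx d n → ℝ) :
    fN (layG d n hn) n u u n ≤ fN (layG d n hn) n u u 0 := by
  have h1 := fN_kappa hn u
  have h2 : 0 ≤ (1 - 1 / ((d : ℝ) + 1)) := by
    have hd : (0 : ℝ) ≤ d := Nat.cast_nonneg d
    rw [sub_nonneg, div_le_one (by linarith)]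
    linarith
  have h3 : 0 ≤ ZP (d + 1) n := Nat.cast_nonneg _
  have h4 : 0 ≤ ∑ y, u y ^ 2 := sum_nonneg fun _ _ => sq_nonneg _
  have h5 : 0 ≤ (1 - 1 / ((d : ℝ) + 1)) * ZP (d + 1) n * ∑ y, u y ^ 2 := by positivity
  linarith

/-- long range order of the layer sum: from `Gh_zero_layer` and `hT_le` -/
theorem f11_low [NeZero n] (hn : 4 ≤ n) (he : Even n) :
    (n : ℝ) ^ d * ZP (d + 1) n * Gh (0 : Vtx (d + 1) n)
      ≤ n * fN (layG d n hn) n (fun _ => 1) (fun _ => 1) 0 := by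
  have h0 := Gh_zero_layer (d := d) hn
  rw [cnt_zero hn] at h0
  rw [← h0]
  have hS : (lS (layG d n hn)).IsSymm := opL_symm _ _
  have h1 : ∀ r : ZMod n, fN (layG d n hn) n (fun _ => 1) (fun _ => 1) (r.val + 1) ≤
      fN (layG d n hn) n (fun _ => 1) (fun _ => 1) 0 := by
    intro r
    rw [fN_hT, fN_hT]
    refine hT_le n he _ _ hS ?_ _ (by have := ZMod.val_lt r; omega)
    have := fN_end hn (fun _ : Vtx d n => (1 : ℝ))
    rwa [fN_hT, fN_hT] at this
  calc ∑ r : ZMod n, fN (layG d n hn) n (fun _ => 1) (fun _ => 1) (r.val + 1) ≤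
        ∑ r : ZMod n, fN (layG d n hn) n (fun _ => 1) (fun _ => 1) 0 :=
        sum_le_sum fun r _ => h1 r
    _ = n * fN (layG d n hn) n (fun _ => 1) (fun _ => 1) 0 := by
        rw [sum_const, card_univ, ZMod.card, nsmul_eq_mul]

end LibDim
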