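import Pool.Agent.LibDimB.BAlg
import Pool.Agent.LibDimB.BSpec

/-! Row IR: the infrared bound for one layer function (graph level). -/

namespace LibDim

open Finset Matrix

variable {V E : Type} [Fintype V] [DecidableEq V] [Fintype E] [DecidableEq E]

theorem bir_pow {α : Type*} [Fintype α] [DecidableEq α] (S : Matrix α α ℝ) (m : ℕ) :
    S ^ (m + 2) = S * S ^ m * S := by
  rw [← pow_succ', ← pow_succ]

/-- reflection at the matrix level -/
theorem bir_refl {α : Type*} [Fintype α] [DecidableEq α] (S U W : Matrix α α ℝ)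
    (hU : U * S = S * Uᵀ) (hW : W * S = S * Wᵀ) (m q : ℕ) :
    (U * S ^ (m + 2) * Wᵀ * S ^ q).trace = (W * S ^ (q + 2) * Uᵀ * S ^ m).trace := by
  have e1 : U * S ^ (m + 2) * Wᵀ * S ^ q = (S * Uᵀ * S ^ m) * (W * S * S ^ q) := by
    calc U * S ^ (m + 2) * Wᵀ * S ^ q = (U * S) * S ^ m * (S * Wᵀ) * S ^ q := by
          rw [bir_pow]; simp only [Matrix.mul_assoc]
      _ = _ := by rw [hU, ← hW]; simp only [Matrix.mul_assoc]
  rw [e1, Matrix.trace_mul_comm]
  have e2 : W * S * S ^ q * (S * Uᵀ * S ^ m) = W * S ^ (q + 2) * Uᵀ * S ^ m := by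
    rw [bir_pow]; simp only [Matrix.mul_assoc]
  rw [e2]

/-- symmetry under reflection of the cycle -/
theorem fN_refl (g : Gr V E) (n : ℕ) (u v : V → ℝ) (s : ℕ) (h2 : 2 ≤ s) (hs : s ≤ n) :
    fN g n u v s = fN g n v u (n + 2 - s) := by
  obtain ⟨m, rfl⟩ : ∃ m, s = m + 2 := ⟨s - 2, by omega⟩
  obtain ⟨q, rfl⟩ : ∃ q, n = m + 2 + q := ⟨n - (m + 2), by omega⟩
  unfold fN
  rw [show m + 2 + q - (m + 2) = q by omega, show m + 2 + q + 2 - (m + 2) = q + 2 by omega,
    show m + 2 + q - (q + 2) = m by omega]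
  exact bir_refl (lS g) (UM u) (UM v) (UM_lS g u) (UM_lS g v) m q

section Mat

variable {α : Type*} [Fintype α] [DecidableEq α] (S U : Matrix α α ℝ)

theorem bir_x1 (hU : U * S = S * Uᵀ) (p q : ℕ) :
    (U * S ^ p * U * S ^ (q + 1)).trace = (U * S ^ (p + 1) * Uᵀ * S ^ q).trace := by
  congr 1
  rw [pow_succ' S q, pow_succ S p]
  calc U * S ^ p * U * (S * S ^ q) = U * S ^ p * (U * S) * S ^ q := by simp only [Matrix.mul_assoc]
    _ = _ := by rw [hU]; simp only [Matrix.mul_assoc]

theorem bir_x0 (hU : U * S = S * Uᵀ) (p : ℕ) :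
    (U * S ^ (p + 1) * U * S ^ 0).trace = (U * S ^ 1 * Uᵀ * S ^ p).trace := by
  rw [pow_zero, Matrix.mul_one, Matrix.trace_mul_comm, pow_one, Matrix.mul_assoc U S, ← hU,
    pow_succ']
  congr 1
  simp only [Matrix.mul_assoc]

/-- expansion of the two point function of `L` -/
theorem bir_exp (hU : U * S = S * Uᵀ) (hS : Sᵀ = S) (ω : ℝ) (p q : ℕ) :
    ((ω • (U * S) - (1 / 2 : ℝ) • (Uᵀ * S + S * U)) * S ^ p
        * (ω • (U * S) - (1 / 2 : ℝ) • (Uᵀ * S + S * U)) * S ^ q).trace
      = ω ^ 2 * (U * S ^ (p + 2) * Uᵀ * S ^ q).trace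
        - ω * ((U * S ^ (p + 1) * Uᵀ * S ^ (q + 1)).trace + (U * S ^ (p + 2) * U * S ^ q).trace)
        + 1 / 4 * (2 * (U * S ^ (p + 2) * Uᵀ * S ^ q).trace + (U * S ^ p * Uᵀ * S ^ (q + 2)).trace
          + (U * S ^ q * Uᵀ * S ^ (p + 2)).trace) := by
  have hSp : ∀ k : ℕ, (S ^ k)ᵀ = S ^ k := fun k => by rw [Matrix.transpose_pow, hS]
  have eAA : ((U * S) * S ^ p * (U * S) * S ^ q).trace = (U * S ^ (p + 2) * Uᵀ * S ^ q).trace := by
    congr 1
    rw [hU, ← hU, bir_pow]
    calc U * S * S ^ p * (U * S) * S ^ q = U * S * S ^ p * (S * Uᵀ) * S ^ q := by rw [hU]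
      _ = _ := by simp only [Matrix.mul_assoc]
  have eAB : ((U * S) * S ^ p * (Uᵀ * S) * S ^ q).trace
      = (U * S ^ (p + 1) * Uᵀ * S ^ (q + 1)).trace := by
    congr 1
    rw [pow_succ', pow_succ']
    simp only [Matrix.mul_assoc]
  have eAC : ((U * S) * S ^ p * (S * U) * S ^ q).trace = (U * S ^ (p + 2) * U * S ^ q).trace := by
    congr 1
    rw [bir_pow]
    simp only [Matrix.mul_assoc]
  have eBA : ((Uᵀ * S) * S ^ p * (U * S) * S ^ q).trace = (U * S ^ (p + 2) * U * S ^ q).trace := by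
    have e1 : (Uᵀ * S) * S ^ p * (U * S) * S ^ q = Uᵀ * S ^ (p + 2) * Uᵀ * S ^ q := by
      rw [hU, bir_pow]
      simp only [Matrix.mul_assoc]
    rw [e1, ← Matrix.trace_transpose]
    rw [Matrix.transpose_mul, Matrix.transpose_mul, Matrix.transpose_mul, Matrix.transpose_transpose,
      hSp, hSp, Matrix.trace_mul_comm]
    congr 1
    simp only [Matrix.mul_assoc]
  have eCA : ((S * U) * S ^ p * (U * S) * S ^ q).trace
      = (U * S ^ (p + 1) * Uᵀ * S ^ (q + 1)).trace := by
    have e1 : (S * U) * S ^ p * (U * S) * S ^ q = S * (U * S ^ p * (U * S) * S ^ q) := by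
      simp only [Matrix.mul_assoc]
    rw [e1, Matrix.trace_mul_comm, hU]
    congr 1
    rw [pow_succ, pow_succ]
    simp only [Matrix.mul_assoc]
  have eBB : ((Uᵀ * S) * S ^ p * (Uᵀ * S) * S ^ q).trace
      = (U * S ^ (p + 2) * Uᵀ * S ^ q).trace := by
    have e1 : (Uᵀ * S) * S ^ p * (Uᵀ * S) * S ^ q = Uᵀ * S ^ (p + 1) * Uᵀ * S ^ (q + 1) := by
      rw [pow_succ', pow_succ']
      simp only [Matrix.mul_assoc]
    rw [e1, ← Matrix.trace_transpose]
    rw [Matrix.transpose_mul, Matrix.transpose_mul, Matrix.transpose_mul, Matrix.transpose_transpose,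
      hSp, hSp, Matrix.trace_mul_comm]
    have e2 : U * (S ^ (p + 1) * U) * S ^ (q + 1) = U * S ^ (p + 1) * U * S ^ (q + 1) := by
      simp only [Matrix.mul_assoc]
    rw [e2, bir_x1 S U hU]
  have eBC : ((Uᵀ * S) * S ^ p * (S * U) * S ^ q).trace
      = (U * S ^ q * Uᵀ * S ^ (p + 2)).trace := by
    have e1 : (Uᵀ * S) * S ^ p * (S * U) * S ^ q = (Uᵀ * S ^ (p + 2)) * (U * S ^ q) := by
      rw [bir_pow]
      simp only [Matrix.mul_assoc]
    rw [e1, Matrix.trace_mul_comm]
    congr 1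
    simp only [Matrix.mul_assoc]
  have eCB : ((S * U) * S ^ p * (Uᵀ * S) * S ^ q).trace
      = (U * S ^ p * Uᵀ * S ^ (q + 2)).trace := by
    have e1 : (S * U) * S ^ p * (Uᵀ * S) * S ^ q = S * (U * S ^ p * (Uᵀ * S) * S ^ q) := by
      simp only [Matrix.mul_assoc]
    rw [e1, Matrix.trace_mul_comm, bir_pow]
    congr 1
    simp only [Matrix.mul_assoc]
  have eCC : ((S * U) * S ^ p * (S * U) * S ^ q).trace
      = (U * S ^ (p + 2) * Uᵀ * S ^ q).trace := by
    have e1 : (S * U) * S ^ p * (S * U) * S ^ q = S * (U * S ^ p * (S * U) * S ^ q) := by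
      simp only [Matrix.mul_assoc]
    have e2 : (U * S ^ p * (S * U) * S ^ q) * S = U * S ^ (p + 1) * U * S ^ (q + 1) := by
      rw [pow_succ, pow_succ]
      simp only [Matrix.mul_assoc]
    rw [e1, Matrix.trace_mul_comm, e2, bir_x1 S U hU]
  simp only [Matrix.mul_add, Matrix.add_mul, Matrix.mul_sub, Matrix.sub_mul, Matrix.smul_mul,
    Matrix.mul_smul, smul_add, smul_sub, smul_smul, Matrix.trace_add, Matrix.trace_sub,
    Matrix.trace_smul, smul_eq_mul] at *
  rw [eAA, eAB, eAC, eBA, eCA, eBB, eBC, eCB, eCC]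
  ring

end Mat

theorem bir_cr_add {n : ℕ} [NeZero n] (a b : ZMod n) :
    cr (a + b) + cr (a - b) = 2 * cr a * cr b := by
  have h : (ZMod.stdAddChar b : ℂ) * (ZMod.stdAddChar (-b) : ℂ) = 1 := by
    rw [← AddChar.map_add_eq_mul, add_neg_cancel, AddChar.map_zero_eq_one]
  have hn : ∀ b : ZMod n, ‖(ZMod.stdAddChar b : ℂ)‖ = 1 := fun b => by
    rw [ZMod.stdAddChar_apply]
    simp
  have hc : (ZMod.stdAddChar (-b) : ℂ) = (starRingEnd ℂ) (ZMod.stdAddChar b : ℂ) := by
    have h2 : (ZMod.stdAddChar b : ℂ) * (starRingEnd ℂ) (ZMod.stdAddChar b : ℂ) = 1 := by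
      rw [Complex.mul_conj, Complex.normSq_eq_norm_sq, hn]
      simp
    have h0 : (ZMod.stdAddChar b : ℂ) ≠ 0 := by
      intro h0
      rw [h0, zero_mul] at h
      exact zero_ne_one h
    exact mul_left_cancel₀ h0 (h.trans h2.symm)
  unfold cr
  rw [sub_eq_add_neg, AddChar.map_add_eq_mul, AddChar.map_add_eq_mul, hc]
  simp only [Complex.mul_re, Complex.conj_re, Complex.conj_im]
  ring

theorem bir_sum_shift {n : ℕ} [NeZero n] (a : ZMod n → ℝ) (k c : ZMod n) :
    ∑ r : ZMod n, cr (k * r) * (a (r - c) + a (r + c))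
      = 2 * cr (k * c) * ∑ r : ZMod n, cr (k * r) * a r := by
  have e1 : ∑ r : ZMod n, cr (k * r) * a (r - c) = ∑ r : ZMod n, cr (k * (r + c)) * a r := by
    refine Fintype.sum_equiv (Equiv.subRight c) _ _ fun r => ?_
    simp
  have e2 : ∑ r : ZMod n, cr (k * r) * a (r + c) = ∑ r : ZMod n, cr (k * (r - c)) * a r := by
    refine Fintype.sum_equiv (Equiv.addRight c) _ _ fun r => ?_
    simp
  simp only [mul_add] at *
  rw [Finset.sum_add_distrib, e1, e2, ← Finset.sum_add_distrib, Finset.mul_sum]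
  refine Finset.sum_congr rfl fun r _ => ?_
  have h := bir_cr_add (k * r) (k * c)
  rw [show k * (r - c) = k * r - k * c by ring]
  linear_combination a r * h

/-- the pointwise expansion -/
theorem bir_point (g : Gr V E) (n : ℕ) [NeZero n] (hn : 4 ≤ n) (u : V → ℝ) (ω : ℝ)
    (a : ZMod n → ℝ) (ha : ∀ r, a r = fN g n u u (r.val + 1)) (r : ZMod n) (hr : r ≠ 0) :
    ((ω • (UM u * lS g) - (1 / 2 : ℝ) • ((UM u)ᵀ * lS g + lS g * UM u)) * lS g ^ (r.val - 1)
        * (ω • (UM u * lS g) - (1 / 2 : ℝ) • ((UM u)ᵀ * lS g + lS g * UM u))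
        * lS g ^ (n - 1 - r.val)).trace
      = ω ^ 2 * a r - ω * (a (r - 1) + a (r + 1)) + 1 / 4 * (2 * a r + (a (r - 2) + a (r + 2)))
        + 1 / 4 * ((if r = 1 then fN g n u u 0 - fN g n u u n else 0)
          + (if r = -1 then fN g n u u 0 - fN g n u u n else 0)) := by
  have hU := UM_lS g u
  have hS := lS_symm g
  have hrn : r.val < n := ZMod.val_lt r
  have hr0 : 0 < r.val := Nat.pos_of_ne_zero fun h => hr ((ZMod.val_eq_zero r).1 h)
  obtain ⟨p, hp⟩ : ∃ p, r.val = p + 1 := ⟨r.val - 1, by omega⟩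
  obtain ⟨q, hq⟩ : ∃ q, n = p + 2 + q := ⟨n - (p + 2), by omega⟩
  have hcast : ∀ m : ℕ, a (m : ZMod n) = fN g n u u (m % n + 1) := fun m => by
    rw [ha, ZMod.val_natCast]
  have hrc : r = ((p + 1 : ℕ) : ZMod n) := by rw [← hp, ZMod.natCast_zmod_val]
  rw [show r.val - 1 = p by omega, show n - 1 - r.val = q by omega, bir_exp (lS g) (UM u) hU hS]
  have hF : ∀ s t : ℕ, s + t = n → (UM u * lS g ^ s * (UM u)ᵀ * lS g ^ t).trace = fN g n u u s :=
    fun s t h => by
      unfold fN
      rw [show n - s = t by omega]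
  rw [hF (p + 2) q (by omega), hF (p + 1) (q + 1) (by omega), hF p (q + 2) (by omega),
    hF q (p + 2) (by omega)]
  -- values of `a`
  have a0 : a r = fN g n u u (p + 2) := by rw [ha, hp]
  have a1 : a (r - 1) = fN g n u u (p + 1) := by
    have : r - 1 = ((p : ℕ) : ZMod n) := by rw [hrc]; push_cast; ring
    rw [this, hcast, Nat.mod_eq_of_lt (by omega)]
  have a2 : a (r + 1) = (UM u * lS g ^ (p + 2) * UM u * lS g ^ q).trace := by
    have h1 : r + 1 = ((p + 2 : ℕ) : ZMod n) := by rw [hrc]; push_cast; ring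
    rw [h1, hcast]
    rcases Nat.eq_zero_or_pos q with h | h
    · subst h
      rw [bir_x0 (lS g) (UM u) hU (p + 1), hF 1 (p + 1) (by omega),
        show (p + 2) % n = 0 by rw [hq]; simp]
    · obtain ⟨q', rfl⟩ : ∃ q', q = q' + 1 := ⟨q - 1, by omega⟩
      rw [bir_x1 (lS g) (UM u) hU, hF (p + 2 + 1) q' (by omega), Nat.mod_eq_of_lt (by omega)]
  have e1n : fN g n u u 2 = fN g n u u n := by
    have := fN_refl g n u u 2 le_rfl (by omega)
    rw [this]
    congr 1
  have a3 : a (r - 2) + (if r = 1 then fN g n u u 0 - fN g n u u n else 0) = fN g n u u p := by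
    rcases Nat.eq_zero_or_pos p with h | h
    · subst h
      have h1 : r = 1 := by rw [hrc]; simp
      have h2 : r - 2 = ((n - 1 : ℕ) : ZMod n) := by
        rw [h1, Nat.cast_sub (by omega), ZMod.natCast_self]; push_cast; ring
      rw [h2, hcast, Nat.mod_eq_of_lt (by omega), if_pos h1, show n - 1 + 1 = n by omega]
      ring
    · have h1 : r ≠ 1 := by
        intro h1
        have : r.val = 1 := by
          rw [h1]
          have : Fact (1 < n) := ⟨by omega⟩
          exact ZMod.val_one n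
        omega
      obtain ⟨p', rfl⟩ : ∃ p', p = p' + 1 := ⟨p - 1, by omega⟩
      have h2 : r - 2 = ((p' : ℕ) : ZMod n) := by rw [hrc]; push_cast; ring
      rw [h2, hcast, Nat.mod_eq_of_lt (by omega), if_neg h1, add_zero]
  have a4 : a (r + 2) + (if r = -1 then fN g n u u 0 - fN g n u u n else 0) = fN g n u u q := by
    have h1 : r + 2 = ((p + 3 : ℕ) : ZMod n) := by rw [hrc]; push_cast; ring
    have hm1 : r = -1 ↔ q = 0 := by
      have : r = -1 ↔ ((p + 2 : ℕ) : ZMod n) = 0 := by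
        rw [hrc]
        push_cast
        constructor
        · intro h; linear_combination h
        · intro h; linear_combination h
      rw [this, ZMod.natCast_eq_zero_iff]
      constructor
      · intro h
        have := Nat.le_of_dvd (by omega) h
        omega
      · intro h
        rw [hq, h, add_zero]
    rcases Nat.lt_or_ge q 1 with h | h
    · have hq0 : q = 0 := by omega
      rw [if_pos (hm1.2 hq0), h1, hcast]
      have : (p + 3) % n = 1 := by
        have : p + 3 = n + 1 := by omega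
        rw [this, Nat.add_mod_left, Nat.mod_eq_of_lt (by omega)]
      rw [this, hq0, e1n]
      ring
    · rw [if_neg (fun h' => by have := hm1.1 h'; omega), add_zero, h1, hcast]
      rcases Nat.lt_or_ge q 2 with h2 | h2
      · have hq1 : q = 1 := by omega
        have : (p + 3) % n = 0 := by
          have : p + 3 = n := by omega
          rw [this, Nat.mod_self]
        rw [this, hq1]
      · rw [Nat.mod_eq_of_lt (by omega), fN_refl g n u u q h2 (by omega)]
        congr 1
        omega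
  rw [a0, a1, a2, ← a3, ← a4]
  ring

/-- the Fourier transform of the two point function of `L` -/
theorem bir_fourier (g : Gr V E) (n : ℕ) [NeZero n] (hn : 4 ≤ n) (u : V → ℝ) (ω : ℝ)
    (k : ZMod n) (L : Matrix (V → Bool) (V → Bool) ℝ)
    (hL : L = ω • (UM u * lS g) - (1 / 2 : ℝ) • ((UM u)ᵀ * lS g + lS g * UM u))
    (a : ZMod n → ℝ) (ha : ∀ r, a r = fN g n u u (r.val + 1)) :
    ∑ r : ZMod n, cr (k * r) * ((-1) ^ r.val * kerTr n (lS g) L L r)
      = (ω - cr k) ^ 2 * (∑ r : ZMod n, cr (k * r) * a r)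
        + 1 / 2 * cr k * (fN g n u u 0 - fN g n u u n)
        - (ω ^ 2 * a 0 - ω * (a (0 - 1) + a (0 + 1))
          + 1 / 4 * (2 * a 0 + (a (0 - 2) + a (0 + 2)))) := by
  have : Fact (1 < n) := ⟨by omega⟩
  set Q := fN g n u u 0 - fN g n u u n with hQ
  set b : ZMod n → ℝ := fun r => ω ^ 2 * a r - ω * (a (r - 1) + a (r + 1))
    + 1 / 4 * (2 * a r + (a (r - 2) + a (r + 2))) with hb
  have hne1 : (0 : ZMod n) ≠ 1 := zero_ne_one
  have hne2 : (0 : ZMod n) ≠ -1 := fun h => hne1 (neg_eq_zero.1 h.symm).symm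
  have hp : ∀ r : ZMod n, cr (k * r) * ((-1) ^ r.val * kerTr n (lS g) L L r)
      = cr (k * r) * b r + (if r = 1 then 1 / 4 * cr k * Q else 0)
        + (if r = -1 then 1 / 4 * cr k * Q else 0) - (if r = 0 then b 0 else 0) := by
    intro r
    by_cases hr : r = 0
    · subst hr
      rw [if_neg hne1, if_neg hne2, if_pos rfl, mul_zero, cr_zero]
      unfold kerTr
      rw [if_pos rfl]
      ring
    · have hpt := bir_point g n hn u ω a ha r hr
      rw [← hL] at hpt
      have hk : (-1 : ℝ) ^ r.val * kerTr n (lS g) L L r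
          = (L * lS g ^ (r.val - 1) * L * lS g ^ (n - 1 - r.val)).trace := by
        unfold kerTr
        rw [if_neg hr, ← mul_assoc, ← mul_pow]
        norm_num
      rw [hk, hpt, if_neg hr]
      have h1 : cr (k * r) * (if r = 1 then Q else 0) = if r = 1 then cr k * Q else 0 := by
        split_ifs with h
        · rw [h, mul_one]
        · rw [mul_zero]
      have h2 : cr (k * r) * (if r = -1 then Q else 0) = if r = -1 then cr k * Q else 0 := by
        split_ifs with h
        · rw [h, mul_neg, mul_one, cr_neg]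
        · rw [mul_zero]
      have h3 : (if r = 1 then 1 / 4 * cr k * Q else 0) = 1 / 4 * (if r = 1 then cr k * Q else 0) := by
        split_ifs <;> ring
      have h4 : (if r = -1 then 1 / 4 * cr k * Q else 0)
          = 1 / 4 * (if r = -1 then cr k * Q else 0) := by
        split_ifs <;> ring
      rw [h3, h4, ← h1, ← h2, hb]
      ring
  rw [Finset.sum_congr rfl fun r _ => hp r, Finset.sum_sub_distrib, Finset.sum_add_distrib,
    Finset.sum_add_distrib]
  simp only [Finset.sum_ite_eq', Finset.mem_univ, if_true]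
  have hs : ∑ r : ZMod n, cr (k * r) * b r
      = (ω - cr k) ^ 2 * (∑ r : ZMod n, cr (k * r) * a r) := by
    have e1 := bir_sum_shift a k 1
    have e2 := bir_sum_shift a k 2
    have e3 : cr (k * 2) = 2 * cr k ^ 2 - 1 := by
      have := bir_cr_add k k
      rw [sub_self, cr_zero] at this
      rw [mul_two]
      linear_combination this
    rw [mul_one] at e1
    have e4 : ∑ r : ZMod n, cr (k * r) * b r
        = (ω ^ 2 + 1 / 2) * (∑ r : ZMod n, cr (k * r) * a r)
          - ω * (∑ r : ZMod n, cr (k * r) * (a (r - 1) + a (r + 1)))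
          + 1 / 4 * (∑ r : ZMod n, cr (k * r) * (a (r - 2) + a (r + 2))) := by
      rw [Finset.mul_sum, Finset.mul_sum, Finset.mul_sum, ← Finset.sum_sub_distrib,
        ← Finset.sum_add_distrib]
      refine Finset.sum_congr rfl fun r _ => ?_
      rw [hb]
      ring
    rw [e4, e1, e2, e3]
    ring
  rw [hs]
  ring

/-- The infrared bound. Put `S = lS g`, `U = UM u`, `a r = fN g n u u (r.val + 1)` for `r : ZMod n`,
`L = ω U S - (1/2) (Uᵀ S + S U)` (symmetric). By cyclicity, transposition and `U S = S Uᵀ`, for `r ≠ 0`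
`tr (L S^(r-1) L S^(n-1-r)) = ω² a_r - ω (a_{r-1} + a_{r+1}) + (1/4) (2 a_r + a_{r+2} + a_{r-2})
   + (1/4) Q [r = 1] + (1/4) Q [r = -1]`, `Q = fN 0 - fN n`.
`ker_max` for `L` (with `k + n/2`) says `∑_{r ≠ 0} cr (k r) tr(L S^(r-1) L S^(n-1-r))` is maximal at `k = 0`. -/
theorem ir_layer (g : Gr V E) (n : ℕ) [NeZero n] (hn : 4 ≤ n) (he : Even n) (u : V → ℝ) (ω : ℝ)
    (k : ZMod n) :
    (ω - cr k) ^ 2 * (∑ r : ZMod n, cr (k * r) * fN g n u u (r.val + 1))
        + 1 / 2 * cr k * (fN g n u u 0 - fN g n u u n)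
      ≤ (ω - 1) ^ 2 * (∑ r : ZMod n, fN g n u u (r.val + 1))
        + 1 / 2 * (fN g n u u 0 - fN g n u u n) := by
  set L : Matrix (V → Bool) (V → Bool) ℝ :=
    ω • (UM u * lS g) - (1 / 2 : ℝ) • ((UM u)ᵀ * lS g + lS g * UM u) with hL
  have hU := UM_lS g u
  have hS := lS_symm g
  have hLs : L.IsSymm := by
    rw [Matrix.IsSymm, hL, Matrix.transpose_sub, Matrix.transpose_smul, Matrix.transpose_smul,
      Matrix.transpose_add, Matrix.transpose_mul, Matrix.transpose_mul, Matrix.transpose_mul,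
      Matrix.transpose_transpose, hS, ← hU, add_comm (lS g * UM u)]
  have key := ker_max n hn he (lS g) L hS hLs (k + ((n / 2 : ℕ) : ZMod n))
  have f1 := bir_fourier g n hn u ω k L hL (fun r => fN g n u u (r.val + 1)) (fun _ => rfl)
  have f0 := bir_fourier g n hn u ω 0 L hL (fun r => fN g n u u (r.val + 1)) (fun _ => rfl)
  have g1 : ∑ r : ZMod n, cr ((k + ((n / 2 : ℕ) : ZMod n)) * r) * kerTr n (lS g) L L r
      = ∑ r : ZMod n, cr (k * r) * ((-1) ^ r.val * kerTr n (lS g) L L r) := by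
    refine Finset.sum_congr rfl fun r _ => ?_
    rw [cr_add_half he]
    ring
  have g0 : ∑ r : ZMod n, (-1) ^ r.val * kerTr n (lS g) L L r
      = ∑ r : ZMod n, cr (0 * r) * ((-1) ^ r.val * kerTr n (lS g) L L r) := by
    refine Finset.sum_congr rfl fun r _ => ?_
    rw [zero_mul, cr_zero, one_mul]
  rw [g1, g0, f1, f0] at key
  have z : ∑ r : ZMod n, cr (0 * r) * fN g n u u (r.val + 1)
      = ∑ r : ZMod n, fN g n u u (r.val + 1) := by
    refine Finset.sum_congr rfl fun r _ => ?_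
    rw [zero_mul, cr_zero, one_mul]
  rw [z, cr_zero] at key
  linarith

end LibDim
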