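import Pool.Agent.LibDimB.BIrT
import Pool.Agent.LibDimB.BIr

/-! Row IRU: the infrared bound on the torus and the flow inequality. -/

namespace LibDim

open Finset Matrix

variable {d n : ℕ}

theorem biru_card [NeZero n] : (Fintype.card (Vtx d n) : ℝ) = (n : ℝ) ^ d := by
  have : Fintype.card (Vtx d n) = n ^ d := by
    unfold Vtx
    rw [Fintype.card_fun, ZMod.card, Fintype.card_fin]
  rw [this]
  push_cast
  ring

theorem biru_sum_sq [NeZero n] (p : Vtx d n) :
    ∑ y, cosV p y ^ 2 + ∑ y, sinV p y ^ 2 = (n : ℝ) ^ d := by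
  rw [← sum_add_distrib, sum_congr rfl (fun y _ => cosV_sinV p y), sum_const, card_univ,
    nsmul_eq_mul, mul_one, biru_card]

/-- `ir_layer` for `u = cosV p`, `sinV p` and `ω = 1 + EL p / 2`: `2 (ω - cr κ) = EL k`, `2 (ω - 1) = EL p` -/
theorem ir_step [NeZero n] (hn : 4 ≤ n) (he : Even n) (j : Fin (d + 1)) (k : Vtx (d + 1) n) :
    EL k ^ 2 * Gh k ≤ EL (Function.update k j 0) ^ 2 * Gh (Function.update k j 0)
      + (1 - 1 / ((d : ℝ) + 1)) * eps (k j) := by
  set p : Vtx d n := fun i => k (j.succAbove i) with hp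
  set κ : ZMod n := k j with hκ
  have hk : insV j κ p = k := insV_self j k
  have hk0 : insV j 0 p = Function.update k j 0 := by
    refine insV_ext j ?_ fun i => ?_
    · rw [insV_same, Function.update_self]
    · rw [insV_succ, Function.update_of_ne (Fin.succAbove_ne j i)]
  have hn0 : (0 : ℝ) < n := by
    have : 0 < n := by omega
    exact_mod_cast this
  have hZ : 0 < ZP (d + 1) n := ZP_pos (Nat.succ_pos d) hn he
  have hcnt : cnt (0 : Vtx (d + 1) n → ℕ) = ZP (d + 1) n := cnt_zero hn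
  have h1 := ir_layer (layG d n hn) n hn he (cosV p) (1 + EL p / 2) κ
  have h2 := ir_layer (layG d n hn) n hn he (sinV p) (1 + EL p / 2) κ
  have g1 := Gh_layer hn j κ p
  have g0 := Gh_layer hn j 0 p
  have q1 := fN_kappa hn (cosV p)
  have q2 := fN_kappa hn (sinV p)
  have e0 : ∑ r : ZMod n, cr ((0 : ZMod n) * r) * (fN (layG d n hn) n (cosV p) (cosV p) (r.val + 1)
        + fN (layG d n hn) n (sinV p) (sinV p) (r.val + 1)) =
      ∑ r : ZMod n, fN (layG d n hn) n (cosV p) (cosV p) (r.val + 1) +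
      ∑ r : ZMod n, fN (layG d n hn) n (sinV p) (sinV p) (r.val + 1) := by
    rw [← sum_add_distrib]
    refine sum_congr rfl fun r _ => ?_
    rw [zero_mul, cr_zero, one_mul]
  have e1 : ∑ r : ZMod n, cr (κ * r) * (fN (layG d n hn) n (cosV p) (cosV p) (r.val + 1)
        + fN (layG d n hn) n (sinV p) (sinV p) (r.val + 1)) =
      ∑ r : ZMod n, cr (κ * r) * fN (layG d n hn) n (cosV p) (cosV p) (r.val + 1) +
      ∑ r : ZMod n, cr (κ * r) * fN (layG d n hn) n (sinV p) (sinV p) (r.val + 1) := by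
    rw [← sum_add_distrib]
    refine sum_congr rfl fun r _ => ?_
    ring
  rw [e0, hcnt, hk0] at g0
  rw [e1, hcnt, hk] at g1
  have hEk : EL k = eps κ + EL p := by rw [← hk, EL_insV]
  have hE0 : EL (Function.update k j 0) = EL p := by rw [← hk0, EL_insV, eps_zero, zero_add]
  have hs := biru_sum_sq (n := n) p
  rw [hEk, hE0]
  set a1 := ∑ r : ZMod n, cr (κ * r) * fN (layG d n hn) n (cosV p) (cosV p) (r.val + 1)
  set a2 := ∑ r : ZMod n, cr (κ * r) * fN (layG d n hn) n (sinV p) (sinV p) (r.val + 1)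
  set b1 := ∑ r : ZMod n, fN (layG d n hn) n (cosV p) (cosV p) (r.val + 1)
  set b2 := ∑ r : ZMod n, fN (layG d n hn) n (sinV p) (sinV p) (r.val + 1)
  rw [q1] at h1
  rw [q2] at h2
  set Z := ZP (d + 1) n
  set c := (1 - 1 / ((d : ℝ) + 1)) with hc
  set s1 := ∑ y, cosV p y ^ 2
  set s2 := ∑ y, sinV p y ^ 2
  have heps : eps κ = 2 * (1 - cr κ) := rfl
  have hsum : (1 + EL p / 2 - cr κ) ^ 2 * (a1 + a2) + 1 / 2 * cr κ * (c * Z * (s1 + s2)) ≤
      (1 + EL p / 2 - 1) ^ 2 * (b1 + b2) + 1 / 2 * (c * Z * (s1 + s2)) := by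
    have := add_le_add h1 h2
    linarith
  rw [g1, g0, hs] at hsum
  have hN : 0 < (n : ℝ) ^ d * Z := by positivity
  have h3 : ((n : ℝ) ^ d * Z) * ((eps κ + EL p) ^ 2 * Gh k) ≤
      ((n : ℝ) ^ d * Z) * (EL p ^ 2 * Gh (Function.update k j 0) + c * eps κ) := by
    rw [heps]
    nlinarith
  exact le_of_mul_le_mul_left h3 hN

/-- zero the coordinates in `S` -/
def biru_zero (S : Finset (Fin (d + 1))) (k : Vtx (d + 1) n) : Vtx (d + 1) n :=
  fun i => if i ∈ S then 0 else k i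

theorem biru_iter [NeZero n] (hn : 4 ≤ n) (he : Even n) (k : Vtx (d + 1) n)
    (S : Finset (Fin (d + 1))) :
    EL k ^ 2 * Gh k ≤ EL (biru_zero S k) ^ 2 * Gh (biru_zero S k)
      + (1 - 1 / ((d : ℝ) + 1)) * ∑ j ∈ S, eps (k j) := by
  induction S using Finset.induction_on with
  | empty =>
    have : biru_zero ∅ k = k := by
      funext i
      simp [biru_zero]
    rw [this, sum_empty, mul_zero, add_zero]
  | insert j S hj ih =>
    have h1 := ir_step hn he j (biru_zero S k)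
    have h2 : Function.update (biru_zero S k) j 0 = biru_zero (insert j S) k := by
      funext i
      by_cases hi : i = j
      · subst hi
        rw [Function.update_self]
        simp [biru_zero]
      · rw [Function.update_of_ne hi]
        simp [biru_zero, hi]
    have h3 : biru_zero S k j = k j := by simp [biru_zero, hj]
    rw [h2, h3] at h1
    rw [sum_insert hj, mul_add]
    linarith

theorem biru_EL_zero [NeZero n] : EL (0 : Vtx d n) = 0 := by
  unfold EL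
  apply sum_eq_zero
  intro i _
  exact eps_zero

/-- iterate over the coordinates -/
theorem ir_bound [NeZero n] (hn : 4 ≤ n) (he : Even n) (k : Vtx (d + 1) n) :
    EL k ^ 2 * Gh k ≤ (1 - 1 / ((d : ℝ) + 1)) * EL k := by
  have h1 := biru_iter hn he k univ
  have h2 : biru_zero univ k = 0 := by
    funext i
    simp [biru_zero]
  rw [h2, biru_EL_zero] at h1
  have h3 : ∑ j, eps (k j) = EL k := rfl
  rw [h3] at h1
  linarith

/-- flow inequality: `FT_quad`, `FT_parseval`, Cauchy-Schwarz and `ir_bound` -/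
theorem flow_ineq [NeZero n] (hn : 4 ≤ n) (he : Even n)
    (θ : Fin (d + 1) → Vtx (d + 1) n → ℝ) (f : Vtx (d + 1) n → ℝ)
    (hf : ∀ x, f x = ∑ i, (θ i x - θ i (x - stp i))) :
    ∑ x, ∑ y, f x * f y * Gm x y ≤ (1 - 1 / ((d : ℝ) + 1)) * ∑ i, ∑ x, θ i x ^ 2 := by
  have hn0 : (0 : ℝ) < n := by
    have : 0 < n := by omega
    exact_mod_cast this
  have hN : 0 < (n : ℝ) ^ (d + 1) := by positivity
  have hc0 : 0 ≤ (1 - 1 / ((d : ℝ) + 1)) := by
    have hd : (0 : ℝ) ≤ d := Nat.cast_nonneg d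
    rw [sub_nonneg, div_le_one (by linarith)]
    linarith
  have heven : ∀ x : Vtx (d + 1) n, Gm 0 (-x) = Gm 0 x := by
    intro x
    rw [Gm_comm, ← Gm_shift (-x) 0 x, neg_add_cancel, zero_add]
  have hq := FT_quad (fun x => Gm (0 : Vtx (d + 1) n) x) heven f
  have hq2 : ∑ x, ∑ y, f x * f y * Gm x y = ∑ x, ∑ y, f x * f y * Gm 0 (y - x) := by
    refine sum_congr rfl fun x _ => sum_congr rfl fun y _ => ?_
    rw [Gm_zero x y]
  have hpar : ∀ i, (n : ℝ) ^ (d + 1) * ∑ x, θ i x ^ 2 =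
      ∑ k, ‖FT (fun x => (θ i x : ℂ)) k‖ ^ 2 := by
    intro i
    rw [← FT_parseval]
    congr 1
    refine sum_congr rfl fun x _ => ?_
    rw [Complex.norm_real, Real.norm_eq_abs, sq_abs]
  have hFT : ∀ k, FT (fun x => (f x : ℂ)) k =
      ∑ i, (1 - chr k (stp i)) * FT (fun x => (θ i x : ℂ)) k := by
    intro k
    have h1 : ∀ i, (1 - chr k (stp i)) * FT (fun x => (θ i x : ℂ)) k =
        ∑ x, ((θ i x : ℂ) - (θ i (x - stp i) : ℂ)) * chr k x := by
      intro i
      have h2 := FT_shift (fun x => (θ i x : ℂ)) (stp i) k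
      rw [sub_mul, one_mul, ← h2]
      unfold FT
      rw [← sum_sub_distrib]
      refine sum_congr rfl fun x _ => ?_
      ring
    rw [sum_congr rfl (fun i _ => h1 i), sum_comm]
    unfold FT
    refine sum_congr rfl fun x _ => ?_
    show ((f x : ℝ) : ℂ) * chr k x = _
    rw [hf x, ← sum_mul]
    push_cast
    ring
  have hkey : ∀ k, Gh k * ‖FT (fun x => (f x : ℂ)) k‖ ^ 2 ≤
      (1 - 1 / ((d : ℝ) + 1)) * ∑ i, ‖FT (fun x => (θ i x : ℂ)) k‖ ^ 2 := by
    intro k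
    set T := ∑ i, ‖FT (fun x => (θ i x : ℂ)) k‖ ^ 2 with hT
    have hT0 : 0 ≤ T := sum_nonneg fun _ _ => sq_nonneg _
    have hcs : ‖FT (fun x => (f x : ℂ)) k‖ ^ 2 ≤ EL k * T := by
      have h1 : ‖FT (fun x => (f x : ℂ)) k‖ ≤
          ∑ i, ‖1 - chr k (stp i)‖ * ‖FT (fun x => (θ i x : ℂ)) k‖ := by
        rw [hFT k]
        refine (norm_sum_le _ _).trans (le_of_eq ?_)
        refine sum_congr rfl fun i _ => ?_
        rw [norm_mul]
      calc ‖FT (fun x => (f x : ℂ)) k‖ ^ 2 ≤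
            (∑ i, ‖1 - chr k (stp i)‖ * ‖FT (fun x => (θ i x : ℂ)) k‖) ^ 2 :=
            pow_le_pow_left₀ (norm_nonneg _) h1 2
        _ ≤ (∑ i, ‖1 - chr k (stp i)‖ ^ 2) * ∑ i, ‖FT (fun x => (θ i x : ℂ)) k‖ ^ 2 :=
            sum_mul_sq_le_sq_mul_sq _ _ _
        _ = EL k * T := by rw [← EL_norm]
    have hEL := EL_nonneg k
    have hir := ir_bound hn he k
    rcases le_or_gt (Gh k) 0 with hG | hG
    · have h1 : Gh k * ‖FT (fun x => (f x : ℂ)) k‖ ^ 2 ≤ 0 :=
        mul_nonpos_of_nonpos_of_nonneg hG (sq_nonneg _)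
      have h2 : 0 ≤ (1 - 1 / ((d : ℝ) + 1)) * T := mul_nonneg hc0 hT0
      linarith
    · rcases hEL.eq_or_lt with hE | hE
      · rw [← hE, zero_mul] at hcs
        have h1 : ‖FT (fun x => (f x : ℂ)) k‖ ^ 2 = 0 := le_antisymm hcs (sq_nonneg _)
        rw [h1, mul_zero]
        exact mul_nonneg hc0 hT0
      · have h1 : EL k * Gh k ≤ 1 - 1 / ((d : ℝ) + 1) := by
          have h2 : EL k * (EL k * Gh k) ≤ EL k * (1 - 1 / ((d : ℝ) + 1)) := by
            calc EL k * (EL k * Gh k) = EL k ^ 2 * Gh k := by ring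
              _ ≤ (1 - 1 / ((d : ℝ) + 1)) * EL k := hir
              _ = EL k * (1 - 1 / ((d : ℝ) + 1)) := by ring
          exact le_of_mul_le_mul_left h2 hE
        calc Gh k * ‖FT (fun x => (f x : ℂ)) k‖ ^ 2 ≤ Gh k * (EL k * T) :=
              mul_le_mul_of_nonneg_left hcs hG.le
          _ = (EL k * Gh k) * T := by ring
          _ ≤ _ := mul_le_mul_of_nonneg_right h1 hT0
  have hfin : (n : ℝ) ^ (d + 1) * ∑ x, ∑ y, f x * f y * Gm x y ≤
      (n : ℝ) ^ (d + 1) * ((1 - 1 / ((d : ℝ) + 1)) * ∑ i, ∑ x, θ i x ^ 2) := by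
    rw [hq2, hq]
    calc ∑ k, (∑ x, Gm 0 x * (chr k x).re) * ‖FT (fun x => (f x : ℂ)) k‖ ^ 2 =
          ∑ k, Gh k * ‖FT (fun x => (f x : ℂ)) k‖ ^ 2 := rfl
      _ ≤ ∑ k, (1 - 1 / ((d : ℝ) + 1)) * ∑ i, ‖FT (fun x => (θ i x : ℂ)) k‖ ^ 2 :=
          sum_le_sum fun k _ => hkey k
      _ = (n : ℝ) ^ (d + 1) * ((1 - 1 / ((d : ℝ) + 1)) * ∑ i, ∑ x, θ i x ^ 2) := by
          rw [← mul_sum, sum_comm, sum_congr rfl (fun i _ => (hpar i).symm), ← mul_sum]
          ring
  exact le_of_mul_le_mul_left hfin hN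

end LibDim
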