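import Pool.Agent.LibDimB.BConv
import Pool.Agent.LibDimB.BIrU

/-! Row CONVB: bound on `fN` at zero for a Fourier mode. -/

namespace LibDim

open Finset Matrix

variable {d n : ℕ}

/-- sum over the cycle as a sum over a range -/
theorem bconvb_sum (n : ℕ) [NeZero n] (F : ℕ → ℝ) :
    ∑ r : ZMod n, F r.val = ∑ i ∈ range n, F i := by
  cases n with
  | zero => exact absurd rfl (NeZero.ne 0)
  | succ k => exact Fin.sum_univ_eq_sum_range F (k + 1)

theorem bconvb_odd (m : ℕ) (G : ℕ → ℝ) :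
    ∑ i ∈ range (2 * m), (1 - (-1 : ℝ) ^ i) * G (i + 1) = 2 * ∑ j ∈ range m, G (2 * (j + 1)) := by
  induction m with
  | zero => simp
  | succ m ih =>
    rw [show 2 * (m + 1) = 2 * m + 1 + 1 by ring, sum_range_succ, sum_range_succ, ih,
      sum_range_succ]
    have h1 : (-1 : ℝ) ^ (2 * m) = 1 := by rw [pow_mul]; norm_num
    have h2 : (-1 : ℝ) ^ (2 * m + 1) = -1 := by rw [pow_succ, h1]; norm_num
    rw [h1, h2, show 2 * m + 1 + 1 = 2 * (m + 1) by ring]
    ring

theorem bconvb_ZP [NeZero n] : 0 ≤ ZP d n := by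
  unfold ZP
  exact Nat.cast_nonneg _

theorem bconvb_EL_pos [NeZero n] (p : Vtx d n) (hp : p ≠ 0) : 0 < EL p := by
  have h1 := EL_gap p hp
  have h2 : (0 : ℝ) < n := by exact_mod_cast Nat.pos_of_ne_zero (NeZero.ne n)
  have h3 : 0 < 16 / (n : ℝ) ^ 2 := by positivity
  linarith

theorem bconvb_half [NeZero n] (he : Even n) : ((n / 2 : ℕ) : ZMod n) + ((n / 2 : ℕ) : ZMod n) = 0 := by
  have h1 : n / 2 + n / 2 = n := by
    obtain ⟨m, hm⟩ := he
    omega
  rw [← Nat.cast_add, h1, ZMod.natCast_self]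

theorem bconvb_eps [NeZero n] (he : Even n) (a : ZMod n) :
    eps (a + ((n / 2 : ℕ) : ZMod n)) = 4 - eps a := by
  by_cases h1 : n = 1
  · subst h1
    exact absurd he (by decide)
  have h2 : (1 : ZMod n).val = 1 := ZMod.val_one'' h1
  have h3 := cr_add_half he a 1
  rw [mul_one, mul_one, h2] at h3
  unfold eps
  rw [h3]
  ring

theorem bconvb_EL [NeZero n] (he : Even n) (p : Vtx d n) :
    EL (fun i => p i + ((n / 2 : ℕ) : ZMod n)) = 4 * d - EL p := by
  unfold EL
  rw [sum_congr rfl fun i _ => bconvb_eps he (p i), sum_sub_distrib]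
  simp [mul_comm]

/-- the even layers `s = 2 (j+1) = r.val + 1`, `r.val` odd: with `g_r = (fN c c + fN s s)(r.val + 1)`,
`∑_{r odd} g_r = (1/2) ∑_r (1 - (-1)^r.val) g_r = (1/2) n^d ZP (Gh (0, p) - Gh (n/2, p))`
`= (1/2) n^d ZP (Gh (0, p) + Gh (0, p + n/2))` by `Gh_layer`, `Gh_half`; `ir_bound` for both momenta, where
`EL (0, p) = EL p` and `EL (0, p + n/2) = 4 d - EL p ≥ 3` -/
theorem even_sum [NeZero n] (hn : 4 ≤ n) (he : Even n) (p : Vtx d n) (hp : p ≠ 0)
    (hp1 : EL p ≤ 1) :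
    ∑ j ∈ range (n / 2), (fN (layG d n hn) n (cosV p) (cosV p) (2 * (j + 1))
        + fN (layG d n hn) n (sinV p) (sinV p) (2 * (j + 1)))
      ≤ (n : ℝ) ^ d * ZP (d + 1) n / EL p := by
  have hE : 0 < EL p := bconvb_EL_pos p hp
  have hd : 1 ≤ d := by
    by_contra h
    have h0 : d = 0 := by omega
    subst h0
    exact hp (funext fun i => i.elim0)
  have hd' : (1 : ℝ) ≤ d := by exact_mod_cast hd
  set A : ℝ := (n : ℝ) ^ d * ZP (d + 1) n with hA
  have hA0 : 0 ≤ A := mul_nonneg (by positivity) bconvb_ZP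
  set G : ℕ → ℝ := fun s => fN (layG d n hn) n (cosV p) (cosV p) s
        + fN (layG d n hn) n (sinV p) (sinV p) s with hG
  set h : ZMod n := ((n / 2 : ℕ) : ZMod n) with hh
  -- the two transforms
  have e1 : ∑ r : ZMod n, G (r.val + 1) = A * Gh (insV (0 : Fin (d + 1)) 0 p) := by
    have h1 := Gh_layer hn (0 : Fin (d + 1)) 0 p
    rw [cnt_zero hn] at h1
    rw [← h1]
    refine sum_congr rfl fun r _ => ?_
    rw [zero_mul, cr_zero, one_mul]
  have e2 : ∑ r : ZMod n, (-1 : ℝ) ^ r.val * G (r.val + 1)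
      = A * Gh (insV (0 : Fin (d + 1)) h p) := by
    have h1 := Gh_layer hn (0 : Fin (d + 1)) h p
    rw [cnt_zero hn] at h1
    rw [← h1]
    refine sum_congr rfl fun r _ => ?_
    rw [cr_half he]
  have e3 : Gh (insV (0 : Fin (d + 1)) h p) = - Gh (insV (0 : Fin (d + 1)) 0 (fun i => p i + h)) := by
    have h1 := Gh_half hn he (insV (0 : Fin (d + 1)) 0 (fun i => p i + h))
    rw [← h1]
    congr 1
    apply insV_ext (0 : Fin (d + 1))
    · rw [insV_same, insV_same, zero_add]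
    · intro k
      rw [insV_succ, insV_succ, add_assoc, bconvb_half he, add_zero]
  have e4 : 2 * ∑ j ∈ range (n / 2), G (2 * (j + 1))
      = A * (Gh (insV (0 : Fin (d + 1)) 0 p) + Gh (insV (0 : Fin (d + 1)) 0 (fun i => p i + h))) := by
    have hm : 2 * (n / 2) = n := by
      obtain ⟨m, hm⟩ := he
      omega
    have h1 := bconvb_odd (n / 2) G
    rw [hm] at h1
    rw [← h1, ← bconvb_sum n (fun i => (1 - (-1 : ℝ) ^ i) * G (i + 1))]
    have h2 : ∀ r : ZMod n, (1 - (-1 : ℝ) ^ r.val) * G (r.val + 1)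
        = G (r.val + 1) - (-1 : ℝ) ^ r.val * G (r.val + 1) := fun r => by ring
    rw [sum_congr rfl fun r _ => h2 r, sum_sub_distrib, e1, e2, e3]
    ring
  -- the infrared bound
  have f1 : Gh (insV (0 : Fin (d + 1)) 0 p) ≤ 1 / EL p := by
    have h1 := ir_bound hn he (insV (0 : Fin (d + 1)) 0 p)
    rw [EL_insV, eps_zero, zero_add] at h1
    rw [le_div_iff₀ hE]
    have h2 : 0 ≤ 1 / ((d : ℝ) + 1) := by positivity
    have h3 : EL p * (Gh (insV (0 : Fin (d + 1)) 0 p) * EL p) ≤ EL p * 1 := by nlinarith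
    exact le_of_mul_le_mul_left h3 hE
  have f2 : Gh (insV (0 : Fin (d + 1)) 0 (fun i => p i + h)) ≤ 1 / EL p := by
    have h1 := ir_bound hn he (insV (0 : Fin (d + 1)) 0 (fun i => p i + h))
    rw [EL_insV, eps_zero, zero_add, bconvb_EL he] at h1
    have hE' : 3 ≤ 4 * (d : ℝ) - EL p := by linarith
    rw [le_div_iff₀ hE]
    have h2 : 0 ≤ 1 / ((d : ℝ) + 1) := by positivity
    set y := 4 * (d : ℝ) - EL p with hy
    set g := Gh (insV (0 : Fin (d + 1)) 0 (fun i => p i + h)) with hg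
    have h3 : y * (g * y) ≤ y * 1 := by nlinarith
    have h4 : g * y ≤ 1 := le_of_mul_le_mul_left h3 (by linarith)
    rcases le_total g 0 with h5 | h5
    · nlinarith
    · nlinarith
  have f3 : 2 * ∑ j ∈ range (n / 2), G (2 * (j + 1)) ≤ A * (1 / EL p + 1 / EL p) := by
    rw [e4]
    exact mul_le_mul_of_nonneg_left (add_le_add f1 f2) hA0
  have f4 : A * (1 / EL p + 1 / EL p) = 2 * (A / EL p) := by ring
  rw [f4] at f3
  linarith

/-- bound at zero: `seq_bound` with `e j = (fN c c + fN s s)(2 j)`, `K = n^d ZP`, `T = n^d ZP / EL p`,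
`J = ⌈1/√(EL p)⌉ ≤ n/2` (`EL_gap`); `e 0 - e 1 = e 0 - e (n/2)` by `fN_refl` -/
theorem F_bound [NeZero n] (hn : 4 ≤ n) (he : Even n) (p : Vtx d n) (hp : p ≠ 0)
    (hp1 : EL p ≤ 1) :
    fN (layG d n hn) n (cosV p) (cosV p) 0 + fN (layG d n hn) n (sinV p) (sinV p) 0
      ≤ 3 * (n : ℝ) ^ d * ZP (d + 1) n / Real.sqrt (EL p) := by
  have hE : 0 < EL p := bconvb_EL_pos p hp
  have hn0 : (0 : ℝ) < n := by
    have : (4 : ℝ) ≤ n := by exact_mod_cast hn
    linarith
  have hn4 : (4 : ℝ) ≤ n := by exact_mod_cast hn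
  set S := lS (layG d n hn) with hS
  have hSs : S.IsSymm := lS_symm _
  set A : ℝ := (n : ℝ) ^ d * ZP (d + 1) n with hA
  have hA0 : 0 ≤ A := mul_nonneg (by positivity) bconvb_ZP
  set e : ℕ → ℝ := fun j => fN (layG d n hn) n (cosV p) (cosV p) (2 * j)
        + fN (layG d n hn) n (sinV p) (sinV p) (2 * j) with he'
  have hee : ∀ j, e j = hT n S (UM (cosV p)) (2 * j) + hT n S (UM (sinV p)) (2 * j) := fun j => by
    rw [he']
    simp only [fN_hT, hS]
  have h2m : 2 * (n / 2) = n := by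
    obtain ⟨m, hm⟩ := he
    omega
  have hc : ∀ j, j + 2 ≤ n / 2 → 2 * e (j + 1) ≤ e j + e (j + 2) := by
    intro j hj
    have h1 := hT_conv n he S (UM (cosV p)) hSs (2 * j) (even_two_mul j) (by omega)
    have h2 := hT_conv n he S (UM (sinV p)) hSs (2 * j) (even_two_mul j) (by omega)
    rw [hee, hee, hee, show 2 * (j + 1) = 2 * j + 2 by ring, show 2 * (j + 2) = 2 * j + 4 by ring]
    linarith
  have hnn : ∀ j, j ≤ n / 2 → 0 ≤ e j := by
    intro j hj
    rw [hee]
    exact add_nonneg (hT_nonneg n he S _ hSs _ (even_two_mul j) (by omega))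
      (hT_nonneg n he S _ hSs _ (even_two_mul j) (by omega))
  have h01 : e 0 - e 1 ≤ A := by
    have h1 := fN_refl (layG d n hn) n (cosV p) (cosV p) 2 le_rfl (by omega)
    have h2 := fN_refl (layG d n hn) n (sinV p) (sinV p) 2 le_rfl (by omega)
    rw [show n + 2 - 2 = n by omega] at h1 h2
    have h3 := fN_kappa hn (cosV p)
    have h4 := fN_kappa hn (sinV p)
    have h5 : ∑ y : Vtx d n, cosV p y ^ 2 + ∑ y : Vtx d n, sinV p y ^ 2 = (n : ℝ) ^ d := by
      rw [← sum_add_distrib, sum_congr rfl fun y _ => cosV_sinV p y, sum_const, nsmul_eq_mul,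
        mul_one, card_univ, Fintype.card_fun, Fintype.card_fin, ZMod.card]
      push_cast
      rfl
    have h6 : e 0 - e 1 = (1 - 1 / ((d : ℝ) + 1)) * A := by
      have h7 : e 0 - e 1 = (fN (layG d n hn) n (cosV p) (cosV p) 0
          - fN (layG d n hn) n (cosV p) (cosV p) n)
          + (fN (layG d n hn) n (sinV p) (sinV p) 0
          - fN (layG d n hn) n (sinV p) (sinV p) n) := by
        rw [← h1, ← h2, he']
        ring
      rw [h7, h3, h4, ← mul_add, h5, hA]
      ring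
    rw [h6]
    have h7 : 0 ≤ 1 / ((d : ℝ) + 1) := by positivity
    nlinarith
  have hs : ∑ j ∈ range (n / 2), e (j + 1) ≤ A / EL p := even_sum hn he p hp hp1
  -- the choice of J
  set x : ℝ := 1 / Real.sqrt (EL p) with hx
  have hq : 0 < Real.sqrt (EL p) := Real.sqrt_pos.mpr hE
  have hx1 : 1 ≤ x := by
    rw [hx, le_div_iff₀ hq, one_mul]
    exact Real.sqrt_le_one.mpr hp1
  have hx2 : x ^ 2 = 1 / EL p := by
    rw [hx, div_pow, one_pow, Real.sq_sqrt hE.le]
  have hx3 : x ≤ n / 4 := by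
    have h1 := EL_gap p hp
    have h2 : 4 / (n : ℝ) ≤ Real.sqrt (EL p) := by
      apply Real.le_sqrt_of_sq_le
      rw [div_pow]
      norm_num
      exact h1
    rw [hx, div_le_iff₀ hq]
    rw [div_le_iff₀ hn0] at h2
    linarith
  set J := ⌈x⌉₊ with hJ
  have hJ1 : x ≤ J := Nat.le_ceil x
  have hJ2 : (J : ℝ) < x + 1 := Nat.ceil_lt_add_one (by linarith)
  have hJm : J ≤ n / 2 := by
    have h1 : (J : ℝ) < ((n / 2 : ℕ) : ℝ) + 1 := by
      have h2 : ((n / 2 : ℕ) : ℝ) = n / 2 := by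
        have h3 : ((2 * (n / 2) : ℕ) : ℝ) = n := by rw [h2m]
        push_cast at h3
        linarith
      rw [h2]
      linarith
    have h2 : J < n / 2 + 1 := by exact_mod_cast h1
    omega
  have hfin := seq_bound (n / 2) e A (A / EL p) hc hnn h01 hs J hJm (by omega)
  have hgoal : e 0 ≤ 3 * A * x := by
    have hJ0 : (0 : ℝ) < J := by linarith
    have h1 : A / EL p = A * x ^ 2 := by rw [hx2]; ring
    rw [h1] at hfin
    have h2 : A * x ^ 2 ≤ A * (J * x) := by
      apply mul_le_mul_of_nonneg_left _ hA0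
      nlinarith
    have h3 : A * (J * (J + 1) / 2) ≤ A * (J * (3 * x / 2)) := by
      apply mul_le_mul_of_nonneg_left _ hA0
      nlinarith
    have h4 : (J : ℝ) * e 0 ≤ J * (3 * A * x) := by
      have h5 : 0 ≤ A * (J * x) := by positivity
      nlinarith
    exact le_of_mul_le_mul_left h4 hJ0
  have h1 : e 0 = fN (layG d n hn) n (cosV p) (cosV p) 0
      + fN (layG d n hn) n (sinV p) (sinV p) 0 := rfl
  rw [← h1]
  calc e 0 ≤ 3 * A * x := hgoal
    _ = _ := by rw [hA, hx]; ring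

/-- the sign can be inserted at `0` as well: `fN_kappa` and `fN_sgn` at `n` -/
theorem F_sgn [NeZero n] (hn : 4 ≤ n) (he : Even n) (u : Vtx d n → ℝ) :
    fN (layG d n hn) n (fun y => sgnV y * u y) (fun y => sgnV y * u y) 0
      = fN (layG d n hn) n u u 0 := by
  have h1 := fN_kappa hn u
  have h2 := fN_kappa hn fun y => sgnV y * u y
  have h3 := fN_sgn hn he u u n he (by omega) le_rfl
  have h4 : ∑ y : Vtx d n, (sgnV y * u y) ^ 2 = ∑ y, u y ^ 2 := by
    refine sum_congr rfl fun y _ => ?_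
    have h5 : sgnV y ^ 2 = 1 := by
      unfold sgnV
      rw [← pow_mul, mul_comm, pow_mul]
      norm_num
    rw [mul_pow, h5, one_mul]
  rw [h4, h3] at h2
  linarith

end LibDim
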