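import Pool.Agent.LibDim.Main

/-!
Definitions for the lower bound on the fluctuations of the dimer flow.
Graph level: layers with vertex set `V` and edge set `E`, transfer matrix `lS g`.
Torus level: coverings with monomers, monomer correlation, Fourier modes of the flow.
-/

namespace LibDim

open Finset

/-- real part of the standard character of the cycle: `cr a = cos (2 π a / n)` -/
noncomputable def cr {n : ℕ} [NeZero n] (a : ZMod n) : ℝ := (ZMod.stdAddChar a : ℂ).re

/-- the symbol of the Laplacian of the cycle, `2 - 2 cos (2 π a / n)` -/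
noncomputable def eps {n : ℕ} [NeZero n] (a : ZMod n) : ℝ := 2 * (1 - cr a)

/-! ### graph level -/

section Graph

variable {V E : Type} [Fintype V] [DecidableEq V] [Fintype E] [DecidableEq E]

/-- the raising operator of a vertex: `a' = a ∪ {y}`, `y ∉ a` -/
noncomputable def upM (y : V) : Matrix (V → Bool) (V → Bool) ℝ :=
  fun a a' => if a y = false ∧ a' = Function.update a y true then 1 else 0

/-- `∑ u(y) up_y` -/
noncomputable def UM (u : V → ℝ) : Matrix (V → Bool) (V → Bool) ℝ := ∑ y, u y • upM y

/-- weighted number of occupied vertices, a diagonal matrix -/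
noncomputable def DM (u : V → ℝ) : Matrix (V → Bool) (V → Bool) ℝ :=
  Matrix.diagonal fun a => ∑ y, u y * (a y).toNat

/-- the transfer matrix -/
noncomputable def lS (g : Gr V E) : Matrix (V → Bool) (V → Bool) ℝ := opL g (fun _ => 1)

/-- covering with sources: vertex `y` is covered `c y` times by monomers -/
def okC (g : Gr V E) (c : V → ℕ) (a : V → Bool) (η : E → Bool) (b : V → Bool) : Prop :=
  ∀ y, c y + ((a y).toNat + (b y).toNat
    + ∑ e, (if g.src e = y ∨ g.tgt e = y then (η e).toNat else 0)) = 1

open Classical in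
/-- layer operator with sources -/
noncomputable def opC (g : Gr V E) (c : V → ℕ) : Matrix (V → Bool) (V → Bool) ℝ :=
  fun a b => ∑ η : E → Bool, if okC g c a η b then 1 else 0

/-- `tr (U(u) S^s U(v)^T S^(n-s))` -/
noncomputable def fN (g : Gr V E) (n : ℕ) (u v : V → ℝ) (s : ℕ) : ℝ :=
  (UM u * lS g ^ s * (UM v).transpose * lS g ^ (n - s)).trace

/-- the partition function `tr S^n` -/
noncomputable def ZN (g : Gr V E) (n : ℕ) : ℝ := (lS g ^ n).trace

/-- structure function of the vertical edges -/
noncomputable def psiN (g : Gr V E) (n : ℕ) [NeZero n] (u : V → ℝ) (k : ZMod n) : ℝ :=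
  ∑ r : ZMod n, (-1) ^ r.val * cr (k * r)
    * (DM u * lS g ^ r.val * DM u * lS g ^ (n - r.val)).trace

/-- structure function of the edges inside the layers -/
noncomputable def inpN (g : Gr V E) (n : ℕ) [NeZero n] (p q : E → ℝ) (k : ZMod n) : ℝ :=
  stack g n (fun η => ‖∑ t : ZMod n, (-1 : ℂ) ^ t.val * (ZMod.stdAddChar (k * t) : ℂ)
    * ((linF p (η t) : ℂ) + (linF q (η t) : ℂ) * Complex.I)‖ ^ 2)

end Graph

/-! ### torus level -/

section Torus

variable {d n : ℕ}

/-- edge configurations covering every vertex exactly once, `s x` times by monomers -/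
def CovC (s : Vtx d n → ℕ) (E : Vtx d n → Fin d → Bool) : Prop :=
  ∀ x, s x + ∑ i, ((E x i).toNat + (E (x - stp i) i).toNat) = 1

open Classical in
/-- number of coverings with sources `s` -/
noncomputable def cnt [NeZero n] (s : Vtx d n → ℕ) : ℝ :=
  ((univ.filter (fun E : Vtx d n → Fin d → Bool => CovC s E)).card : ℝ)

/-- two monomers -/
def srcTwo (x y : Vtx d n) : Vtx d n → ℕ :=
  fun z => (if z = x then 1 else 0) + (if z = y then 1 else 0)

/-- monomer correlation -/
noncomputable def Gm [NeZero n] (x y : Vtx d n) : ℝ := cnt (srcTwo x y) / cnt (0 : Vtx d n → ℕ)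

/-- characters of the torus -/
noncomputable def chr [NeZero n] (k x : Vtx d n) : ℂ := ∏ i, (ZMod.stdAddChar (k i * x i) : ℂ)

/-- symbol of the Laplacian of the torus -/
noncomputable def EL [NeZero n] (k : Vtx d n) : ℝ := ∑ i, eps (k i)

/-- Fourier transform of the monomer correlation -/
noncomputable def Gh [NeZero n] (k : Vtx d n) : ℝ := ∑ x, Gm 0 x * (chr k x).re

/-- sign of a vertex of a layer or of the torus as a real number (same as `sgnV`), times the
real / imaginary part of a character -/
noncomputable def cosV [NeZero n] (k : Vtx d n) : Vtx d n → ℝ := fun x => (chr k x).re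

/-- imaginary part of a character -/
noncomputable def sinV [NeZero n] (k : Vtx d n) : Vtx d n → ℝ := fun x => (chr k x).im

open Classical in
/-- Fourier mode of the flow in direction `i` -/
noncomputable def Jh [NeZero n] (k : Vtx d n) (i : Fin d) (τ : Vtx d n → Vtx d n) : ℂ :=
  ∑ x, (sgnV x : ℂ) * chr k x * (if τ x = x + stp i then 1 else 0)

/-- second moment of a mode (a sum over all matchings) -/
noncomputable def EE [NeZero n] (b : Fin d → ℂ) (k : Vtx d n) : ℝ :=
  ∑ τ ∈ PMs d n, ‖∑ i, b i * Jh k i τ‖ ^ 2

/-- number of perfect matchings -/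
noncomputable def ZP (d n : ℕ) [NeZero n] : ℝ := ((PMs d n).card : ℝ)

end Torus

end LibDim
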