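import Mathlib

/-! Row FLA: the explicit flow in terms of the absolute values of the coordinates, its divergence. -/

namespace LibDim

open Finset

/-- radial value -/
noncomputable def fR (m : ℕ) : ℝ := 5 / (3 * (2 * (m : ℝ) + 1) ^ 2)

/-- lateral value, off the diagonal -/
noncomputable def fP (M : ℕ) : ℝ := 10 * (M : ℝ) / (3 * (2 * (M : ℝ) - 1) ^ 2 * (2 * (M : ℝ) + 1) ^ 2)

/-- lateral value, on the diagonal -/
noncomputable def fQ (M : ℕ) : ℝ := 10 / (6 * (2 * (M : ℝ) - 1) * (2 * (M : ℝ) + 1) ^ 2)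

/-- near table, `m ≤ 1`, `b ≤ a ≤ 2` -/
noncomputable def fNear (m a b : ℕ) : ℝ :=
  if m = 0 then
    (if a = 0 then 2 / 3
      else if a = 1 then (if b = 0 then 5 / 16 else 49 / 400)
      else if b = 0 then 7 / 80
      else if b = 1 then 653 / 12000
      else 53 / 1500)
  else
    (if a = 0 then 5 / 12
      else if a = 1 then (if b = 0 then 19 / 100 else 49 / 400)
      else if b = 0 then 51 / 500
      else if b = 1 then 247 / 3000
      else 1 / 15)

/-- the flow through the edge from `m` to `m + 1`, the other coordinates having absolute values `a`, `b` -/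
noncomputable def fT (m a b : ℕ) : ℝ :=
  if m ≤ 1 ∧ a ≤ 2 ∧ b ≤ 2 then fNear m (max a b) (min a b)
  else if a ≤ m ∧ b ≤ m then fR m
  else (2 * (m : ℝ) + 1) * (if a = b then fQ a else fP (max a b))

/-- the flow cut off at `M` -/
noncomputable def fTM (M m a b : ℕ) : ℝ := if m < M ∧ a ≤ M ∧ b ≤ M then fT m a b else 0

/-- contribution of one coordinate to the divergence -/
noncomputable def fDl (M m a b : ℕ) : ℝ :=
  if m = 0 then 2 * fTM M 0 a b else fTM M m a b - fTM M (m - 1) a b

/-- source -/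
noncomputable def vSrc (a b c : ℕ) : ℝ := if a + b + c = 0 then 4 else if a + b + c = 1 then 1 else 0

/-- sink -/
noncomputable def muSnk (M a b c : ℕ) : ℝ :=
  if a ≤ M ∧ b ≤ M ∧ c ≤ M then
    fR M * ((if a = M then 1 else 0) + (if b = M then 1 else 0) + (if c = M then 1 else 0))
  else 0

theorem fT_symm (m a b : ℕ) : fT m a b = fT m b a := by
  unfold fT
  rw [max_comm b a, min_comm b a]
  have e1 : (m ≤ 1 ∧ b ≤ 2 ∧ a ≤ 2) ↔ (m ≤ 1 ∧ a ≤ 2 ∧ b ≤ 2) := by tauto
  have e2 : (b ≤ m ∧ a ≤ m) ↔ (a ≤ m ∧ b ≤ m) := by tauto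
  have e3 : (if b = a then fQ b else fP (max a b)) = (if a = b then fQ a else fP (max a b)) := by
    by_cases h : a = b
    · subst h
      rfl
    · rw [if_neg h, if_neg (fun h' => h h'.symm)]
  rw [e3]
  simp only [e1, e2]

theorem bfla_rad (m a b : ℕ) (hm : 2 ≤ m) (ha : a ≤ m) (hb : b ≤ m) : fT m a b = fR m := by
  unfold fT
  rw [if_neg (by omega), if_pos ⟨ha, hb⟩]

theorem bfla_lat (m a b : ℕ) (h3 : 3 ≤ a) (hm : m < a) (hb : b ≤ a) :
    fT m a b = (2 * (m : ℝ) + 1) * (if a = b then fQ a else fP a) := by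
  unfold fT
  rw [if_neg (by omega), if_neg (by omega), max_eq_left hb]

theorem bfla_dl_lat (M m a b : ℕ) (h3 : 3 ≤ a) (hm : m < a) (hb : b ≤ a) (haM : a ≤ M) :
    fDl M m a b = 2 * (if a = b then fQ a else fP a) := by
  unfold fDl
  rcases Nat.eq_zero_or_pos m with h0 | h0
  · subst h0
    rw [if_pos rfl, fTM, if_pos ⟨by omega, haM, by omega⟩, bfla_lat 0 a b h3 hm hb]
    push_cast
    ring
  · rw [if_neg (by omega), fTM, if_pos ⟨by omega, haM, by omega⟩, fTM,
      if_pos ⟨by omega, haM, by omega⟩, bfla_lat m a b h3 hm hb,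
      bfla_lat (m - 1) a b h3 (by omega) hb]
    have e1 : ((m - 1 : ℕ) : ℝ) = (m : ℝ) - 1 := by
      rw [Nat.cast_sub h0]
      norm_num
    rw [e1]
    ring

theorem bfla_dl_rad (M a b c : ℕ) (h3 : 3 ≤ a) (hb : b ≤ a) (hc : c ≤ a) (haM : a ≤ M) :
    fDl M a b c = (if a < M then fR a else 0) - fT (a - 1) b c := by
  unfold fDl
  rw [if_neg (by omega)]
  congr 1
  · unfold fTM
    by_cases h : a < M
    · rw [if_pos ⟨h, by omega, by omega⟩, if_pos h, bfla_rad a b c (by omega) hb hc]
    · rw [if_neg (fun h' => h h'.1), if_neg h]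
  · unfold fTM
    rw [if_pos ⟨by omega, by omega, by omega⟩]

theorem bfla_id1 (a : ℕ) (h : 1 ≤ a) : fR a - fR (a - 1) + 4 * fP a = 0 := by
  have e1 : ((a - 1 : ℕ) : ℝ) = (a : ℝ) - 1 := by
    rw [Nat.cast_sub h]
    norm_num
  unfold fR fP
  rw [e1]
  have h1 : (1 : ℝ) ≤ a := by exact_mod_cast h
  have h2 : (2 * (a : ℝ) - 1) ≠ 0 := by
    have : 0 < 2 * (a : ℝ) - 1 := by linarith
    exact this.ne'
  have h3 : (2 * (a : ℝ) + 1) ≠ 0 := by positivity
  have h4 : 2 * ((a : ℝ) - 1) + 1 = 2 * (a : ℝ) - 1 := by ring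
  rw [h4]
  field_simp
  ring

theorem bfla_id2 (a : ℕ) (h : 1 ≤ a) : fR a - (2 * (a : ℝ) - 1) * fP a + fQ a = 0 := by
  unfold fR fP fQ
  have h1 : (1 : ℝ) ≤ a := by exact_mod_cast h
  have h2 : (2 * (a : ℝ) - 1) ≠ 0 := by
    have : 0 < 2 * (a : ℝ) - 1 := by linarith
    exact this.ne'
  have h3 : (2 * (a : ℝ) + 1) ≠ 0 := by positivity
  field_simp
  ring

theorem bfla_id3 (a : ℕ) (h : 1 ≤ a) : fR a = (2 * (a : ℝ) - 1) * fQ a := by
  unfold fR fQ
  have h1 : (1 : ℝ) ≤ a := by exact_mod_cast h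
  have h2 : (2 * (a : ℝ) - 1) ≠ 0 := by
    have : 0 < 2 * (a : ℝ) - 1 := by linarith
    exact this.ne'
  have h3 : (2 * (a : ℝ) + 1) ≠ 0 := by positivity
  field_simp
  ring

theorem bfla_symm (M m a b : ℕ) : fDl M m a b = fDl M m b a := by
  unfold fDl fTM
  rw [fT_symm 0 a b, fT_symm m a b, fT_symm (m - 1) a b]
  have e : ∀ k : ℕ, (k < M ∧ a ≤ M ∧ b ≤ M) ↔ (k < M ∧ b ≤ M ∧ a ≤ M) := by
    intro k
    tauto
  simp only [e]

theorem bfla_vsymm (a b c : ℕ) : vSrc a b c = vSrc b a c ∧ vSrc a b c = vSrc a c b := by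
  unfold vSrc
  constructor
  · rw [add_comm b a]
  · rw [add_right_comm a c b]

theorem bfla_msymm (M a b c : ℕ) : muSnk M a b c = muSnk M b a c ∧
    muSnk M a b c = muSnk M a c b := by
  unfold muSnk
  constructor
  · have e : (b ≤ M ∧ a ≤ M ∧ c ≤ M) ↔ (a ≤ M ∧ b ≤ M ∧ c ≤ M) := by tauto
    simp only [e]
    split_ifs <;> ring
  · have e : (a ≤ M ∧ c ≤ M ∧ b ≤ M) ↔ (a ≤ M ∧ b ≤ M ∧ c ≤ M) := by tauto
    simp only [e]
    split_ifs <;> ring

theorem bfla_large (M : ℕ) (a b c : ℕ) (haM : M < a) (hM : 2 ≤ M) :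
    fDl M a b c + fDl M b a c + fDl M c a b = vSrc a b c - muSnk M a b c := by
  have h1 : fDl M a b c = 0 := by
    unfold fDl fTM
    rw [if_neg (by omega), if_neg (by omega), if_neg (by omega)]
    ring
  have h2 : ∀ m k : ℕ, fDl M m a k = 0 := by
    intro m k
    have hz : ∀ j, fTM M j a k = 0 := by
      intro j
      unfold fTM
      rw [if_neg (by omega)]
    unfold fDl
    rw [hz, hz, hz]
    split_ifs <;> ring
  have h3 : vSrc a b c = 0 := by
    unfold vSrc
    rw [if_neg (by omega), if_neg (by omega)]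
  have h4 : muSnk M a b c = 0 := by
    unfold muSnk
    rw [if_neg (by omega)]
  rw [h1, h2, h2, h3, h4]
  ring

theorem bfla_mid (M : ℕ) (a b c : ℕ) (haM : a ≤ M) (h3 : 3 ≤ a) (hb : b ≤ a) (hc : c ≤ b) :
    fDl M a b c + fDl M b a c + fDl M c a b = vSrc a b c - muSnk M a b c := by
  have hv : vSrc a b c = 0 := by
    unfold vSrc
    rw [if_neg (by omega), if_neg (by omega)]
  have hmu : muSnk M a b c = fR M *
      ((if a = M then 1 else 0) + (if b = M then 1 else 0) + (if c = M then 1 else 0)) := by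
    unfold muSnk
    rw [if_pos ⟨haM, by omega, by omega⟩]
  have i1 := bfla_id1 a (by omega)
  have i2 := bfla_id2 a (by omega)
  have i3 := bfla_id3 a (by omega)
  rw [hv, hmu, bfla_dl_rad M a b c h3 hb (by omega) haM]
  rcases Nat.lt_or_ge b a with hba | hba
  · -- c ≤ b < a
    rw [bfla_rad (a - 1) b c (by omega) (by omega) (by omega),
      bfla_dl_lat M b a c h3 hba (by omega) haM, bfla_dl_lat M c a b h3 (by omega) hb haM,
      if_neg (show ¬ a = c by omega), if_neg (show ¬ a = b by omega),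
      if_neg (show ¬ b = M by omega), if_neg (show ¬ c = M by omega)]
    rcases Nat.lt_or_ge a M with haM' | haM'
    · rw [if_pos haM', if_neg (show ¬ a = M by omega)]
      linarith
    · have haM2 : a = M := by omega
      rw [if_neg (show ¬ a < M by omega), if_pos haM2, ← haM2]
      linarith
  · have hab : b = a := by omega
    subst hab
    rw [bfla_dl_rad M b b c h3 le_rfl hc haM]
    rcases Nat.lt_or_ge c b with hcb | hcb
    · rw [bfla_lat (b - 1) b c h3 (by omega) hc, bfla_dl_lat M c b b h3 hcb le_rfl haM,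
        if_neg (show ¬ b = c by omega), if_pos rfl, if_neg (show ¬ c = M by omega)]
      have e1 : ((b - 1 : ℕ) : ℝ) = (b : ℝ) - 1 := by
        rw [Nat.cast_sub (by omega)]
        norm_num
      rw [e1]
      rcases Nat.lt_or_ge b M with haM' | haM'
      · rw [if_pos haM', if_neg (show ¬ b = M by omega)]
        linarith
      · have haM2 : b = M := by omega
        rw [if_neg (show ¬ b < M by omega), if_pos haM2, ← haM2]
        linarith
    · have hcb' : c = b := by omega
      subst hcb'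
      rw [bfla_dl_rad M c c c h3 le_rfl le_rfl haM, bfla_lat (c - 1) c c h3 (by omega) le_rfl,
        if_pos rfl]
      have e1 : ((c - 1 : ℕ) : ℝ) = (c : ℝ) - 1 := by
        rw [Nat.cast_sub (by omega)]
        norm_num
      rw [e1]
      rcases Nat.lt_or_ge c M with haM' | haM'
      · rw [if_pos haM', if_neg (show ¬ c = M by omega)]
        linarith
      · have haM2 : c = M := by omega
        rw [if_neg (show ¬ c < M by omega), if_pos haM2, ← haM2]
        linarith

theorem bfla_small (M : ℕ) (hM : 2 ≤ M) (a b c : ℕ) (ha : a ≤ 2) (hb : b ≤ a) (hc : c ≤ b) :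
    fDl M a b c + fDl M b a c + fDl M c a b = vSrc a b c - muSnk M a b c := by
  rcases Nat.lt_or_ge 2 M with hM2 | hM2
  · have f0 : 0 < M := by omega
    have f1 : 1 < M := by omega
    have f2 : 1 ≤ M := by omega
    have f3 : M ≠ 0 := by omega
    have f4 : M ≠ 1 := by omega
    have f5 : M ≠ 2 := by omega
    have f6 : ¬ 0 = M := by omega
    have f7 : ¬ 1 = M := by omega
    have f8 : ¬ 2 = M := by omega
    interval_cases a <;> interval_cases b <;> interval_cases c <;>
      norm_num [fDl, fTM, fT, fNear, fR, vSrc, muSnk, f0, f1, f2, f3, f4, f5, f6, f7, f8, hM, hM2]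
  · have hM' : M = 2 := by omega
    subst hM'
    interval_cases a <;> interval_cases b <;> interval_cases c <;>
      norm_num [fDl, fTM, fT, fNear, fR, vSrc, muSnk]

theorem bfla_sorted (M : ℕ) (hM : 2 ≤ M) (a b c : ℕ) (hb : b ≤ a) (hc : c ≤ b) :
    fDl M a b c + fDl M b a c + fDl M c a b = vSrc a b c - muSnk M a b c := by
  rcases Nat.lt_or_ge M a with h | h
  · exact bfla_large M a b c h hM
  · rcases Nat.lt_or_ge 2 a with h2 | h2
    · exact bfla_mid M a b c h (by omega) hb hc
    · exact bfla_small M hM a b c h2 hb hc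

/-- The divergence of the cut off flow. By symmetry assume `c ≤ b ≤ a`. If `a > M` everything vanishes. If `a ≤ 2` check
the (ten) cases of the table, with the cut off when `M = 2`. If `3 ≤ a ≤ M`: cases `c ≤ b < a`, `c < b = a`, `c = b = a`;
the identities are `R(a) - R(a-1) + 4 P(a) = 0`, `R(a) - (2a-1) P(a) + Q(a) = 0`, `R(a) = (2a-1) Q(a)`. -/
theorem div_nat (M : ℕ) (hM : 2 ≤ M) (a b c : ℕ) :
    fDl M a b c + fDl M b a c + fDl M c a b = vSrc a b c - muSnk M a b c := by
  have key : ∀ a b c : ℕ, b ≤ a → c ≤ b →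
      fDl M a b c + fDl M b a c + fDl M c a b = vSrc a b c - muSnk M a b c :=
    fun a b c hb hc => bfla_sorted M hM a b c hb hc
  have s1 : ∀ a b c : ℕ, fDl M a b c + fDl M b a c + fDl M c a b =
      fDl M b a c + fDl M a b c + fDl M c b a := by
    intro a b c
    rw [bfla_symm M c a b]
    ring
  have s2 : ∀ a b c : ℕ, fDl M a b c + fDl M b a c + fDl M c a b =
      fDl M a c b + fDl M c a b + fDl M b a c := by
    intro a b c
    rw [bfla_symm M a b c]
    ring
  have r1 : ∀ a b c : ℕ, vSrc a b c - muSnk M a b c = vSrc b a c - muSnk M b a c := by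
    intro a b c
    rw [(bfla_vsymm a b c).1, (bfla_msymm M a b c).1]
  have r2 : ∀ a b c : ℕ, vSrc a b c - muSnk M a b c = vSrc a c b - muSnk M a c b := by
    intro a b c
    rw [(bfla_vsymm a b c).2, (bfla_msymm M a b c).2]
  rcases le_total b a with h1 | h1
  · rcases le_total c b with h2 | h2
    · exact key a b c h1 h2
    · rcases le_total c a with h3 | h3
      · rw [s2, r2]
        exact key a c b h3 h2
      · rw [s2, r2, s1, r1]
        exact key c a b h3 h1
  · rcases le_total c a with h2 | h2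
    · rw [s1, r1]
      exact key b a c h1 h2
    · rcases le_total c b with h3 | h3
      · rw [s1, r1, s2, r2]
        exact key b c a h3 h2
      · rw [s1, r1, s2, r2, s1, r1]
        exact key c b a h3 h1

end LibDim
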