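import Pool.Agent.LibDimB.BFlE
import Pool.Agent.LibDimB.BDefs

/-! Row FLB: the explicit flow on the torus. -/

namespace LibDim

open Finset

/-- absolute value of the centred representative -/
def na {n : ℕ} (a : ZMod n) : ℕ := a.valMinAbs.natAbs

/-- lower end of the edge from `a` to `a + 1` in absolute value -/
def lo {n : ℕ} (a : ZMod n) : ℕ := min (na a) (na (a + 1))

/-- direction of the edge from `a` to `a + 1` away from the origin -/
noncomputable def sg {n : ℕ} (a : ZMod n) : ℝ := if a.val < n / 2 then 1 else -1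

theorem bflb_na {n : ℕ} [NeZero n] (a : ZMod n) :
    na a = if a.val ≤ n / 2 then a.val else n - a.val := by
  unfold na
  rw [ZMod.valMinAbs_def_pos]
  have h := ZMod.val_lt a
  split_ifs with h1
  · omega
  · omega

theorem bflb_val_add {n : ℕ} [NeZero n] (a : ZMod n) (hn : 4 ≤ n) :
    (a + 1).val = if a.val + 1 < n then a.val + 1 else 0 := by
  have h := ZMod.val_lt a
  have h1 : (1 : ZMod n).val = 1 := ZMod.val_one'' (by omega)
  rw [ZMod.val_add, h1]
  split_ifs with h2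
  · exact Nat.mod_eq_of_lt h2
  · have h3 : a.val + 1 = n := by omega
    rw [h3, Nat.mod_self]

theorem bflb_lo {n : ℕ} [NeZero n] (hn : 4 ≤ n) (he : Even n) (a : ZMod n) :
    lo a = if a.val < n / 2 then a.val else n - a.val - 1 := by
  obtain ⟨h, hh⟩ := he
  have hv := ZMod.val_lt a
  unfold lo
  rw [bflb_na, bflb_na, bflb_val_add a hn]
  split_ifs <;> omega

theorem bflb_val_sub {n : ℕ} [NeZero n] (hn : 4 ≤ n) (a : ZMod n) :
    (a - 1).val = if a.val = 0 then n - 1 else a.val - 1 := by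
  have h1 := bflb_val_add (a - 1) hn
  rw [sub_add_cancel] at h1
  have h2 := ZMod.val_lt (a - 1)
  have h3 := ZMod.val_lt a
  split_ifs at h1 with h4
  · split_ifs <;> omega
  · split_ifs <;> omega

/-- one dimensional divergence -/
theorem div_one {n : ℕ} [NeZero n] (hn : 4 ≤ n) (he : Even n) (M : ℕ) (hM : M < n / 2)
    (a : ZMod n) (b c : ℕ) :
    sg a * fTM M (lo a) b c - sg (a - 1) * fTM M (lo (a - 1)) b c = fDl M (na a) b c := by
  have hv := ZMod.val_lt a
  have hlo := bflb_lo hn he a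
  have hlo' := bflb_lo hn he (a - 1)
  have hval := bflb_val_sub hn a
  have hna := bflb_na a
  have hz : ∀ m, M ≤ m → fTM M m b c = 0 := by
    intro m hm
    unfold fTM
    rw [if_neg]
    rintro ⟨h, _⟩
    omega
  obtain ⟨h, hh⟩ := he
  unfold sg fDl
  by_cases h0 : a.val = 0
  · have e1 : lo a = 0 := by rw [hlo, if_pos (by omega)]; exact h0
    have e2 : (a - 1).val = n - 1 := by rw [hval, if_pos h0]
    have e3 : lo (a - 1) = 0 := by rw [hlo', if_neg (by omega)]; omega
    have e4 : na a = 0 := by rw [hna, if_pos (by omega)]; exact h0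
    rw [e1, e3, e4, if_pos (by omega), if_neg (by omega), if_pos rfl]
    ring
  · have e2 : (a - 1).val = a.val - 1 := by rw [hval, if_neg h0]
    rcases lt_trichotomy a.val (n / 2) with h1 | h1 | h1
    · have e1 : lo a = a.val := by rw [hlo, if_pos (by omega)]
      have e3 : lo (a - 1) = a.val - 1 := by rw [hlo', if_pos (by omega)]; omega
      have e4 : na a = a.val := by rw [hna, if_pos (by omega)]
      rw [e1, e3, e4, if_pos (by omega), if_pos (by omega), if_neg h0]
      ring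
    · have e1 : lo a = n / 2 - 1 := by rw [hlo, if_neg (by omega)]; omega
      have e3 : lo (a - 1) = n / 2 - 1 := by rw [hlo', if_pos (by omega)]; omega
      have e4 : na a = n / 2 := by rw [hna, if_pos (by omega)]; exact h1
      rw [e1, e3, e4, if_neg (show ¬ a.val < n / 2 by omega), if_neg (show ¬ n / 2 = 0 by omega),
        hz (n / 2 - 1) (by omega), hz (n / 2) (by omega)]
      ring
    · have e1 : lo a = n - a.val - 1 := by rw [hlo, if_neg (by omega)]
      have e3 : lo (a - 1) = n - a.val := by rw [hlo', if_neg (by omega)]; omega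
      have e4 : na a = n - a.val := by rw [hna, if_neg (by omega)]
      rw [e1, e3, e4, if_neg (by omega), if_neg (by omega), if_neg (by omega)]
      ring

theorem bflb_sum_val {n : ℕ} [NeZero n] (g : ℕ → ℝ) :
    ∑ a : ZMod n, g a.val = ∑ v ∈ range n, g v := by
  obtain ⟨k, rfl⟩ : ∃ k, n = k + 1 := ⟨n - 1, by have := NeZero.ne n; omega⟩
  exact Fin.sum_univ_eq_sum_range g (k + 1)

theorem bflb_half (F : ℕ → ℝ) (h : ℕ) :
    ∑ v ∈ range (h + h), (if v < h then F v else F (h + h - v - 1)) = 2 * ∑ v ∈ range h, F v := by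
  rw [Finset.sum_range_add, two_mul]
  congr 1
  · refine Finset.sum_congr rfl fun v hv => ?_
    rw [if_pos (mem_range.1 hv)]
  · rw [← Finset.sum_range_reflect F h]
    refine Finset.sum_congr rfl fun v hv => ?_
    rw [mem_range] at hv
    rw [if_neg (by omega)]
    congr 1
    omega

theorem bflb_trunc (F : ℕ → ℝ) (M h : ℕ) (hM : M ≤ h) (hF : ∀ m, M ≤ m → F m = 0) :
    ∑ v ∈ range h, F v = ∑ v ∈ range M, F v := by
  symm
  apply Finset.sum_subset
  · exact Finset.range_mono hM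
  · intro v _ hv
    rw [mem_range, not_lt] at hv
    exact hF v hv

/-- sums over the cycle of functions of `na`: values `0` and `n/2` once, the others twice -/
theorem sum_na {n : ℕ} [NeZero n] (hn : 4 ≤ n) (he : Even n) (M : ℕ) (hM : M < n / 2) (F : ℕ → ℝ)
    (hF : ∀ m, M < m → F m = 0) :
    ∑ a : ZMod n, F (na a) = ∑ m ∈ range (M + 1), wM m * F m := by
  obtain ⟨h, hh⟩ := he
  have h1 : ∑ a : ZMod n, F (na a) =
      ∑ v ∈ range n, (if v ≤ n / 2 then F v else F (n - v)) := by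
    rw [← bflb_sum_val]
    refine Finset.sum_congr rfl fun a _ => ?_
    rw [bflb_na]
    split_ifs <;> rfl
  have h2 : n / 2 = h := by omega
  rw [h1, h2, hh, Finset.sum_range_add]
  have h3 : ∑ v ∈ range h, (if v ≤ h then F v else F (h + h - v)) = ∑ v ∈ range (M + 1), F v := by
    rw [← bflb_trunc F (M + 1) h (by omega) (fun m hm => hF m (by omega))]
    refine Finset.sum_congr rfl fun v hv => ?_
    rw [mem_range] at hv
    rw [if_pos hv.le]
  have h4 : ∑ x ∈ range h, (if h + x ≤ h then F (h + x) else F (h + h - (h + x))) =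
      ∑ v ∈ range M, F (v + 1) := by
    rw [← bflb_trunc (fun v => F (v + 1)) M h (by omega) (fun m hm => hF (m + 1) (by omega)),
      ← Finset.sum_range_reflect (fun v => F (v + 1)) h]
    refine Finset.sum_congr rfl fun v hv => ?_
    rw [mem_range] at hv
    split_ifs with h5
    · have h6 : v = 0 := by omega
      subst h6
      congr 1
      omega
    · congr 1
      omega
  rw [h3, h4, Finset.sum_range_succ', Finset.sum_range_succ']
  have h5 : ∀ v, wM (v + 1) * F (v + 1) = 2 * F (v + 1) := by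
    intro v
    unfold wM
    rw [if_neg (by omega)]
  have h6 : wM 0 * F 0 = F 0 := by
    unfold wM
    rw [if_pos rfl, one_mul]
  rw [Finset.sum_congr rfl fun v _ => h5 v, h6, ← Finset.mul_sum]
  ring

theorem sum_lo {n : ℕ} [NeZero n] (hn : 4 ≤ n) (he : Even n) (M : ℕ) (hM : M < n / 2) (F : ℕ → ℝ)
    (hF : ∀ m, M ≤ m → F m = 0) :
    ∑ a : ZMod n, F (lo a) = 2 * ∑ m ∈ range M, F m := by
  have he' := he
  obtain ⟨h, hh⟩ := he
  have h2 : n / 2 = h := by omega
  have h1 : ∑ a : ZMod n, F (lo a) =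
      ∑ v ∈ range n, (if v < h then F v else F (n - v - 1)) := by
    rw [← bflb_sum_val]
    refine Finset.sum_congr rfl fun a _ => ?_
    rw [bflb_lo hn he', h2]
    split_ifs <;> rfl
  rw [h1, hh, bflb_half, bflb_trunc F M h (by omega) hF]

/-- the flow on the torus -/
noncomputable def thT {n : ℕ} (M : ℕ) (i : Fin 3) (x : Vtx 3 n) : ℝ :=
  if i = 0 then sg (x 0) * fTM M (lo (x 0)) (na (x 1)) (na (x 2))
  else if i = 1 then sg (x 1) * fTM M (lo (x 1)) (na (x 0)) (na (x 2))
  else sg (x 2) * fTM M (lo (x 2)) (na (x 0)) (na (x 1))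

/-- source and sink on the torus -/
noncomputable def vT {n : ℕ} (x : Vtx 3 n) : ℝ := vSrc (na (x 0)) (na (x 1)) (na (x 2))

noncomputable def muT {n : ℕ} (M : ℕ) (x : Vtx 3 n) : ℝ :=
  muSnk M (na (x 0)) (na (x 1)) (na (x 2))

/-- from `div_one` and `div_nat` -/
theorem div_torus {n : ℕ} [NeZero n] (hn : 4 ≤ n) (he : Even n) (M : ℕ) (h2 : 2 ≤ M)
    (hM : M < n / 2) (x : Vtx 3 n) :
    ∑ i, (thT M i x - thT M i (x - stp i)) = vT x - muT M x := by
  have e : ∀ i j : Fin 3, (x - stp i : Vtx 3 n) j = if j = i then x j - 1 else x j := by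
    intro i j
    unfold stp
    by_cases h : j = i
    · subst h
      simp
    · rw [if_neg h, Pi.sub_apply, Pi.single_eq_of_ne h, sub_zero]
  have h0 : thT M 0 x - thT M 0 (x - stp 0) = fDl M (na (x 0)) (na (x 1)) (na (x 2)) := by
    rw [← div_one hn he M hM (x 0)]
    have e0 := e 0 0
    have e1 := e 0 1
    have e2 := e 0 2
    rw [if_pos rfl] at e0
    rw [if_neg (by decide)] at e1 e2
    change sg (x 0) * fTM M (lo (x 0)) (na (x 1)) (na (x 2)) -
      sg ((x - stp 0 : Vtx 3 n) 0) * fTM M (lo ((x - stp 0 : Vtx 3 n) 0))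
        (na ((x - stp 0 : Vtx 3 n) 1)) (na ((x - stp 0 : Vtx 3 n) 2)) = _
    rw [e0, e1, e2]
  have h1 : thT M 1 x - thT M 1 (x - stp 1) = fDl M (na (x 1)) (na (x 0)) (na (x 2)) := by
    rw [← div_one hn he M hM (x 1)]
    have e0 := e 1 0
    have e1 := e 1 1
    have e2 := e 1 2
    rw [if_pos rfl] at e1
    rw [if_neg (by decide)] at e0 e2
    change sg (x 1) * fTM M (lo (x 1)) (na (x 0)) (na (x 2)) -
      sg ((x - stp 1 : Vtx 3 n) 1) * fTM M (lo ((x - stp 1 : Vtx 3 n) 1))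
        (na ((x - stp 1 : Vtx 3 n) 0)) (na ((x - stp 1 : Vtx 3 n) 2)) = _
    rw [e0, e1, e2]
  have h3 : thT M 2 x - thT M 2 (x - stp 2) = fDl M (na (x 2)) (na (x 0)) (na (x 1)) := by
    rw [← div_one hn he M hM (x 2)]
    have e0 := e 2 0
    have e1 := e 2 1
    have e2 := e 2 2
    rw [if_pos rfl] at e2
    rw [if_neg (by decide)] at e0 e1
    change sg (x 2) * fTM M (lo (x 2)) (na (x 0)) (na (x 1)) -
      sg ((x - stp 2 : Vtx 3 n) 2) * fTM M (lo ((x - stp 2 : Vtx 3 n) 2))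
        (na ((x - stp 2 : Vtx 3 n) 0)) (na ((x - stp 2 : Vtx 3 n) 1)) = _
    rw [e0, e1, e2]
  rw [Fin.sum_univ_three, h0, h1, h3, div_nat M h2]
  rfl

theorem bflb_sg_sq {n : ℕ} (a : ZMod n) : sg a ^ 2 = 1 := by
  unfold sg
  split_ifs <;> norm_num

/-- triples -/
def bflb_eqv (n : ℕ) : (ZMod n × ZMod n × ZMod n) ≃ Vtx 3 n where
  toFun p := ![p.1, p.2.1, p.2.2]
  invFun x := (x 0, x 1, x 2)
  left_inv p := rfl
  right_inv x := by
    funext i
    fin_cases i <;> rfl

theorem bflb_sum3 {n : ℕ} [NeZero n] (G : Vtx 3 n → ℝ) :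
    ∑ x, G x = ∑ a, ∑ b, ∑ c, G ![a, b, c] := by
  rw [← Equiv.sum_comp (bflb_eqv n), Fintype.sum_prod_type]
  refine Finset.sum_congr rfl fun a _ => ?_
  rw [Fintype.sum_prod_type]
  rfl

theorem bflb_tri {n : ℕ} [NeZero n] (hn : 4 ≤ n) (he : Even n) (M : ℕ)
    (hM : M < n / 2) : ∑ a : ZMod n, ∑ b : ZMod n, ∑ c : ZMod n, fTM M (lo a) (na b) (na c) ^ 2 =
      2 * ∑ m ∈ range M, ∑ b ∈ range (M + 1), ∑ c ∈ range (M + 1),
        wM b * wM c * fTM M m b c ^ 2 := by
  have h1 : ∀ m b : ℕ, ∑ c : ZMod n, fTM M m b (na c) ^ 2 =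
      ∑ c ∈ range (M + 1), wM c * fTM M m b c ^ 2 := by
    intro m b
    refine sum_na hn he M hM (fun c => fTM M m b c ^ 2) ?_
    intro c hc
    change fTM M m b c ^ 2 = 0
    unfold fTM
    rw [if_neg (by omega)]
    norm_num
  have h2 : ∀ m : ℕ, ∑ b : ZMod n, ∑ c ∈ range (M + 1), wM c * fTM M m (na b) c ^ 2 =
      ∑ b ∈ range (M + 1), wM b * ∑ c ∈ range (M + 1), wM c * fTM M m b c ^ 2 := by
    intro m
    refine sum_na hn he M hM (fun b => ∑ c ∈ range (M + 1), wM c * fTM M m b c ^ 2) ?_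
    intro b hb
    refine Finset.sum_eq_zero fun c _ => ?_
    unfold fTM
    rw [if_neg (by omega)]
    norm_num
  simp only [h1, h2]
  have h3 := sum_lo hn he M hM
    (fun m => ∑ b ∈ range (M + 1), wM b * ∑ c ∈ range (M + 1), wM c * fTM M m b c ^ 2) ?_
  · rw [h3]
    congr 1
    refine Finset.sum_congr rfl fun m _ => Finset.sum_congr rfl fun b _ => ?_
    rw [Finset.mul_sum]
    exact Finset.sum_congr rfl fun c _ => by ring
  · intro m hm
    refine Finset.sum_eq_zero fun b _ => ?_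
    rw [Finset.sum_eq_zero, mul_zero]
    intro c _
    unfold fTM
    rw [if_neg (by omega)]
    norm_num

/-- from `sum_na`, `sum_lo`, `energy_le` -/
theorem energy_torus {n : ℕ} [NeZero n] (hn : 4 ≤ n) (he : Even n) (M : ℕ) (h2 : 2 ≤ M)
    (hM : M < n / 2) : ∑ i, ∑ x : Vtx 3 n, thT M i x ^ 2 ≤ 1188 / 100 := by
  have h0 : ∑ x : Vtx 3 n, thT M 0 x ^ 2 =
      ∑ a : ZMod n, ∑ b : ZMod n, ∑ c : ZMod n, fTM M (lo a) (na b) (na c) ^ 2 := by
    rw [bflb_sum3]
    refine Finset.sum_congr rfl fun a _ => Finset.sum_congr rfl fun b _ =>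
      Finset.sum_congr rfl fun c _ => ?_
    have : thT M 0 (![a, b, c] : Vtx 3 n) = sg a * fTM M (lo a) (na b) (na c) := rfl
    rw [this, mul_pow, bflb_sg_sq, one_mul]
  have h1 : ∑ x : Vtx 3 n, thT M 1 x ^ 2 =
      ∑ a : ZMod n, ∑ b : ZMod n, ∑ c : ZMod n, fTM M (lo a) (na b) (na c) ^ 2 := by
    rw [bflb_sum3, Finset.sum_comm]
    refine Finset.sum_congr rfl fun a _ => Finset.sum_congr rfl fun b _ =>
      Finset.sum_congr rfl fun c _ => ?_
    have : thT M 1 (![b, a, c] : Vtx 3 n) = sg a * fTM M (lo a) (na b) (na c) := rfl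
    rw [this, mul_pow, bflb_sg_sq, one_mul]
  have h3 : ∑ x : Vtx 3 n, thT M 2 x ^ 2 =
      ∑ a : ZMod n, ∑ b : ZMod n, ∑ c : ZMod n, fTM M (lo a) (na b) (na c) ^ 2 := by
    rw [bflb_sum3]
    have e1 : ∑ a : ZMod n, ∑ b : ZMod n, ∑ c : ZMod n, thT M 2 (![a, b, c] : Vtx 3 n) ^ 2 =
        ∑ a : ZMod n, ∑ c : ZMod n, ∑ b : ZMod n, thT M 2 (![a, b, c] : Vtx 3 n) ^ 2 :=
      Finset.sum_congr rfl fun a _ => Finset.sum_comm
    rw [e1, Finset.sum_comm]
    refine Finset.sum_congr rfl fun c _ => Finset.sum_congr rfl fun a _ =>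
      Finset.sum_congr rfl fun b _ => ?_
    have : thT M 2 (![a, b, c] : Vtx 3 n) = sg c * fTM M (lo c) (na a) (na b) := rfl
    rw [this, mul_pow, bflb_sg_sq, one_mul]
  rw [Fin.sum_univ_three, h0, h1, h3, bflb_tri hn he M hM]
  have h4 := energy_le M h2
  unfold enN at h4
  linarith

end LibDim
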