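import Pool.Agent.LibDimB.BFlB
import Pool.Agent.LibDimB.BIrU

/-! Row FLC: long range order of the monomer correlation, `d = 3`. -/

namespace LibDim

open Finset

theorem bflc_na0 {n : ℕ} [NeZero n] (a : ZMod n) : na a = 0 ↔ a = 0 := by
  unfold na
  rw [Int.natAbs_eq_zero, ZMod.valMinAbs_eq_zero]

theorem bflc_na_neg {n : ℕ} [NeZero n] (a : ZMod n) : na (-a) = na a := by
  unfold na
  exact ZMod.natAbs_valMinAbs_neg a

theorem bflc_na_one {n : ℕ} [NeZero n] (hn : 4 ≤ n) : na (1 : ZMod n) = 1 := by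
  unfold na
  have h1 : ((1 : ℕ) : ZMod n).valMinAbs = (1 : ℕ) :=
    ZMod.valMinAbs_natCast_of_le_half (by omega)
  rw [Nat.cast_one] at h1
  rw [h1]
  rfl

theorem bflc_na1 {n : ℕ} [NeZero n] (hn : 4 ≤ n) (a : ZMod n) : na a = 1 ↔ a = 1 ∨ a = -1 := by
  constructor
  · intro h
    unfold na at h
    have h1 := ZMod.coe_valMinAbs a
    rcases Int.natAbs_eq a.valMinAbs with h2 | h2
    · left
      rw [h] at h2
      rw [← h1, h2]
      simp
    · right
      rw [h] at h2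
      rw [← h1, h2]
      simp
  · rintro (rfl | rfl)
    · exact bflc_na_one hn
    · rw [bflc_na_neg]; exact bflc_na_one hn

theorem bflc_one_ne {n : ℕ} [NeZero n] (hn : 4 ≤ n) : (1 : ZMod n) ≠ 0 := by
  intro h
  have h1 := bflc_na_one hn
  rw [h, (bflc_na0 (0 : ZMod n)).2 rfl] at h1
  omega

theorem bflc_neg_ne {n : ℕ} [NeZero n] (hn : 4 ≤ n) : (1 : ZMod n) ≠ -1 := by
  intro h
  have h2 : ((2 : ℕ) : ZMod n) = 0 := by
    push_cast
    have : (1 : ZMod n) + 1 = 0 := by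
      nth_rewrite 1 [h]
      exact neg_add_cancel 1
    rw [← this]; norm_num
  rw [ZMod.natCast_eq_zero_iff] at h2
  have := Nat.le_of_dvd (by norm_num) h2
  omega

/-- The source as a sum of point masses. -/
theorem bflc_vT {n : ℕ} [NeZero n] (hn : 4 ≤ n) (x : Vtx 3 n) :
    (vT x : ℝ) = 4 * (if x = 0 then 1 else 0) +
      ∑ i, ((if x = stp i then 1 else 0) + (if x = -stp i then (1 : ℝ) else 0)) := by
  have h10 := bflc_one_ne hn
  have h11 := bflc_neg_ne hn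
  have hn0 : (-1 : ZMod n) ≠ 0 := neg_ne_zero.2 h10
  have e0 : x = 0 ↔ x 0 = 0 ∧ x 1 = 0 ∧ x 2 = 0 := by
    rw [funext_iff]
    simp [Fin.forall_fin_succ]
  have es : ∀ (v : Vtx 3 n), x = v ↔ x 0 = v 0 ∧ x 1 = v 1 ∧ x 2 = v 2 := by
    intro v
    rw [funext_iff]
    simp [Fin.forall_fin_succ]
  rw [Fin.sum_univ_three]
  simp only [es, stp, Pi.neg_apply, Pi.zero_apply]
  simp only [Pi.single_apply]
  simp only [show ((1 : Fin 3) = 0) = False by simp, show ((2 : Fin 3) = 0) = False by simp,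
    show ((0 : Fin 3) = 1) = False by simp, show ((2 : Fin 3) = 1) = False by simp,
    show ((0 : Fin 3) = 2) = False by simp, show ((1 : Fin 3) = 2) = False by simp,
    if_true, if_false, neg_zero]
  unfold vT vSrc
  by_cases a0 : x 0 = 0
  · by_cases b0 : x 1 = 0
    · by_cases c0 : x 2 = 0
      · have q1 := (bflc_na0 (x 0)).2 a0
        have q2 := (bflc_na0 (x 1)).2 b0
        have q3 := (bflc_na0 (x 2)).2 c0
        rw [q1, q2, q3]
        simp [a0, b0, c0, h10.symm, hn0.symm]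
      · have q1 := (bflc_na0 (x 0)).2 a0
        have q2 := (bflc_na0 (x 1)).2 b0
        have q3 : na (x 2) ≠ 0 := fun h => c0 ((bflc_na0 (x 2)).1 h)
        rw [q1, q2]
        by_cases c1 : x 2 = 1
        · have q4 := (bflc_na1 hn (x 2)).2 (Or.inl c1)
          rw [q4]
          simp [a0, b0, c1, h10, h10.symm, hn0.symm, h11]
        · by_cases c2 : x 2 = -1
          · have q4 := (bflc_na1 hn (x 2)).2 (Or.inr c2)
            rw [q4]
            simp [a0, b0, c2, h10, h10.symm, hn0.symm, hn0, h11, h11.symm]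
          · have q4 : na (x 2) ≠ 1 := fun h => by
              rcases (bflc_na1 hn (x 2)).1 h with h | h
              · exact c1 h
              · exact c2 h
            rw [if_neg (by omega), if_neg (by omega)]
            simp [c0, c1, c2]
    · have q2 : na (x 1) ≠ 0 := fun h => b0 ((bflc_na0 (x 1)).1 h)
      by_cases c0 : x 2 = 0
      · have q1 := (bflc_na0 (x 0)).2 a0
        have q3 := (bflc_na0 (x 2)).2 c0
        rw [q1, q3]
        by_cases c1 : x 1 = 1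
        · have q4 := (bflc_na1 hn (x 1)).2 (Or.inl c1)
          rw [q4]
          simp [a0, c0, c1, h10, h10.symm, hn0.symm, h11]
        · by_cases c2 : x 1 = -1
          · have q4 := (bflc_na1 hn (x 1)).2 (Or.inr c2)
            rw [q4]
            simp [a0, c0, c2, h10, h10.symm, hn0.symm, hn0, h11, h11.symm]
          · have q4 : na (x 1) ≠ 1 := fun h => by
              rcases (bflc_na1 hn (x 1)).1 h with h | h
              · exact c1 h
              · exact c2 h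
            rw [if_neg (by omega), if_neg (by omega)]
            simp [b0, c1, c2]
      · have q3 : na (x 2) ≠ 0 := fun h => c0 ((bflc_na0 (x 2)).1 h)
        rw [if_neg (by omega), if_neg (by omega)]
        simp [b0, c0]
  · have q1 : na (x 0) ≠ 0 := fun h => a0 ((bflc_na0 (x 0)).1 h)
    by_cases b0 : x 1 = 0
    · by_cases c0 : x 2 = 0
      · have q2 := (bflc_na0 (x 1)).2 b0
        have q3 := (bflc_na0 (x 2)).2 c0
        rw [q2, q3]
        by_cases c1 : x 0 = 1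
        · have q4 := (bflc_na1 hn (x 0)).2 (Or.inl c1)
          rw [q4]
          simp [b0, c0, c1, h10, h10.symm, hn0.symm, h11]
        · by_cases c2 : x 0 = -1
          · have q4 := (bflc_na1 hn (x 0)).2 (Or.inr c2)
            rw [q4]
            simp [b0, c0, c2, h10, h10.symm, hn0.symm, hn0, h11, h11.symm]
          · have q4 : na (x 0) ≠ 1 := fun h => by
              rcases (bflc_na1 hn (x 0)).1 h with h | h
              · exact c1 h
              · exact c2 h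
            rw [if_neg (by omega), if_neg (by omega)]
            simp [a0, c1, c2]
      · have q3 : na (x 2) ≠ 0 := fun h => c0 ((bflc_na0 (x 2)).1 h)
        rw [if_neg (by omega), if_neg (by omega)]
        simp [a0, c0]
    · have q2 : na (x 1) ≠ 0 := fun h => b0 ((bflc_na0 (x 1)).1 h)
      rw [if_neg (by omega), if_neg (by omega)]
      simp [a0, b0]

/-- sums against the source: `∑_x vT x f x = 4 f 0 + ∑_i (f e_i + f (-e_i))` -/
theorem vT_sum {n : ℕ} [NeZero n] (hn : 4 ≤ n) (he : Even n) (f : Vtx 3 n → ℝ) :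
    ∑ x, vT x * f x = 4 * f 0 + ∑ i, (f (stp i) + f (-stp i)) := by
  simp_rw [bflc_vT hn, add_mul, Finset.sum_mul, Finset.sum_add_distrib, add_mul]
  rw [Finset.sum_comm]
  simp_rw [Finset.sum_add_distrib]
  simp [mul_assoc, Finset.sum_ite_eq', ite_mul, ← Finset.mul_sum]

theorem bflc_sgn0 {n : ℕ} [NeZero n] : sgnV (0 : Vtx 3 n) = 1 := by
  unfold sgnV
  simp

theorem bflc_val_neg_one {n : ℕ} [NeZero n] (hn : 4 ≤ n) : (-1 : ZMod n).val = n - 1 := by
  obtain ⟨m, rfl⟩ : ∃ m, n = m + 1 := ⟨n - 1, by omega⟩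
  rw [ZMod.val_neg_one]
  rfl

theorem bflc_sgn {n : ℕ} [NeZero n] (hn : 4 ≤ n) (i : Fin 3) :
    sgnV (stp i : Vtx 3 n) = -1 := by
  unfold sgnV stp
  have : Fact (1 < n) := ⟨by omega⟩
  have h1 : ∑ j, ((Pi.single i (1 : ZMod n) : Vtx 3 n) j).val = 1 := by
    rw [Finset.sum_eq_single i]
    · rw [Pi.single_eq_same, ZMod.val_one]
    · intro j _ hj
      rw [Pi.single_eq_of_ne hj, ZMod.val_zero]
    · intro h; exact absurd (Finset.mem_univ _) h
  rw [h1, pow_one]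

theorem bflc_sgn' {n : ℕ} [NeZero n] (hn : 4 ≤ n) (he : Even n) (i : Fin 3) :
    sgnV (-stp i : Vtx 3 n) = -1 := by
  unfold sgnV stp
  have h1 : ∑ j, ((-Pi.single i (1 : ZMod n) : Vtx 3 n) j).val = n - 1 := by
    rw [Finset.sum_eq_single i]
    · rw [Pi.neg_apply, Pi.single_eq_same, bflc_val_neg_one hn]
    · intro j _ hj
      rw [Pi.neg_apply, Pi.single_eq_of_ne hj, neg_zero, ZMod.val_zero]
    · intro h; exact absurd (Finset.mem_univ _) h
  rw [h1]
  obtain ⟨k, hk⟩ := he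
  exact Odd.neg_one_pow ⟨k - 1, by omega⟩

theorem bflc_G1 {n : ℕ} [NeZero n] (hn : 4 ≤ n) (he : Even n) (i : Fin 3) :
    Gm (0 : Vtx 3 n) (stp i) = 1 / 6 := by
  have := Gm_nbr (by norm_num) hn he (0 : Vtx 3 n) i
  rw [zero_add] at this
  rw [this]
  norm_num

theorem bflc_G2 {n : ℕ} [NeZero n] (hn : 4 ≤ n) (he : Even n) (i : Fin 3) :
    Gm (0 : Vtx 3 n) (-stp i) = 1 / 6 := by
  have h1 := Gm_shift (0 : Vtx 3 n) (-stp i) (stp i)
  rw [zero_add, neg_add_cancel, Gm_comm, bflc_G1 hn he] at h1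
  exact h1.symm

/-- `⟨v, G v⟩ = 8` (parity, sum rule) -/
theorem vGv {n : ℕ} [NeZero n] (hn : 4 ≤ n) (he : Even n) :
    ∑ x : Vtx 3 n, ∑ y, vT x * vT y * Gm x y = 8 := by
  have hd : 0 < 3 := by norm_num
  have h1 : ∀ x : Vtx 3 n, ∑ y, vT x * vT y * Gm x y =
      vT x * (4 * Gm x 0 + ∑ i, (Gm x (stp i) + Gm x (-stp i))) := by
    intro x
    rw [← vT_sum hn he (fun y => Gm x y), Finset.mul_sum]
    exact Finset.sum_congr rfl fun y _ => by ring
  simp_rw [h1]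
  rw [vT_sum hn he]
  have g0 : Gm (0 : Vtx 3 n) 0 = 0 := Gm_parity hd hn he 0 0 rfl
  have p1 : ∀ i j : Fin 3, Gm (stp i : Vtx 3 n) (stp j) = 0 := fun i j =>
    Gm_parity hd hn he _ _ (by rw [bflc_sgn hn, bflc_sgn hn])
  have p2 : ∀ i j : Fin 3, Gm (stp i : Vtx 3 n) (-stp j) = 0 := fun i j =>
    Gm_parity hd hn he _ _ (by rw [bflc_sgn hn, bflc_sgn' hn he])
  have p3 : ∀ i j : Fin 3, Gm (-stp i : Vtx 3 n) (stp j) = 0 := fun i j =>
    Gm_parity hd hn he _ _ (by rw [bflc_sgn hn, bflc_sgn' hn he])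
  have p4 : ∀ i j : Fin 3, Gm (-stp i : Vtx 3 n) (-stp j) = 0 := fun i j =>
    Gm_parity hd hn he _ _ (by rw [bflc_sgn' hn he, bflc_sgn' hn he])
  have c1 : ∀ i : Fin 3, Gm (stp i : Vtx 3 n) 0 = 1 / 6 := fun i => by
    rw [Gm_comm, bflc_G1 hn he]
  have c2 : ∀ i : Fin 3, Gm (-stp i : Vtx 3 n) 0 = 1 / 6 := fun i => by
    rw [Gm_comm, bflc_G2 hn he]
  simp only [g0, p1, p2, p3, p4, c1, c2, bflc_G1 hn he, bflc_G2 hn he]
  simp only [Finset.sum_const, Finset.card_univ, Fintype.card_fin, nsmul_eq_mul]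
  norm_num

theorem bflc_mu_nonneg {n : ℕ} (M : ℕ) (x : Vtx 3 n) : 0 ≤ muT M x := by
  unfold muT muSnk fR
  split_ifs <;> positivity

/-- `flow_ineq` for `thT`: `8 - 2 ⟨v, G μ⟩ ≤ (2/3) (11.88)` -/
theorem vGmu {n : ℕ} [NeZero n] (hn : 4 ≤ n) (he : Even n) (M : ℕ) (h2 : 2 ≤ M)
    (hM : M < n / 2) : (4 : ℝ) / 100 ≤ ∑ x : Vtx 3 n, ∑ y, vT x * muT M y * Gm x y := by
  have h1 := flow_ineq (d := 2) hn he (fun i x => thT M i x)
    (fun x : Vtx 3 n => vT x - muT M x) (fun x => (div_torus hn he M h2 hM x).symm)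
  have h3 := energy_torus hn he M h2 hM
  have h4 : ∑ x : Vtx 3 n, ∑ y, (vT x - muT M x) * (vT y - muT M y) * Gm x y =
      ∑ x : Vtx 3 n, ∑ y, vT x * vT y * Gm x y - ∑ x : Vtx 3 n, ∑ y, vT x * muT M y * Gm x y -
      ∑ x : Vtx 3 n, ∑ y, muT M x * vT y * Gm x y +
      ∑ x : Vtx 3 n, ∑ y, muT M x * muT M y * Gm x y := by
    rw [← Finset.sum_sub_distrib, ← Finset.sum_sub_distrib, ← Finset.sum_add_distrib]
    refine Finset.sum_congr rfl fun x _ => ?_
    rw [← Finset.sum_sub_distrib, ← Finset.sum_sub_distrib, ← Finset.sum_add_distrib]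
    exact Finset.sum_congr rfl fun y _ => by ring
  have h5 : ∑ x : Vtx 3 n, ∑ y, muT M x * vT y * Gm x y =
      ∑ x : Vtx 3 n, ∑ y, vT x * muT M y * Gm x y := by
    rw [Finset.sum_comm]
    refine Finset.sum_congr rfl fun x _ => Finset.sum_congr rfl fun y _ => ?_
    rw [Gm_comm y x]
    ring
  have h6 : 0 ≤ ∑ x : Vtx 3 n, ∑ y, muT M x * muT M y * Gm x y :=
    Finset.sum_nonneg fun x _ => Finset.sum_nonneg fun y _ =>
      mul_nonneg (mul_nonneg (bflc_mu_nonneg M x) (bflc_mu_nonneg M y)) (Gm_nonneg x y)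
  rw [h4, h5, vGv hn he] at h1
  have h7 : (1 - 1 / (((2 : ℕ) : ℝ) + 1)) * ∑ i, ∑ x : Vtx 3 n, thT M i x ^ 2 ≤
      (2 / 3) * (1188 / 100) := by
    norm_num at h3 ⊢
    linarith
  linarith

theorem bflc_weight {n : ℕ} (y : Vtx 3 n) (s : Finset ℕ) :
    ∑ M ∈ s, (2 * (M : ℝ) + 1) ^ 2 * muT M y ≤ 5 := by
  have h1 : ∀ M ∈ s, (2 * (M : ℝ) + 1) ^ 2 * muT M y ≤
      5 / 3 * ((if na (y 0) = M then 1 else 0) + (if na (y 1) = M then 1 else 0) +
        (if na (y 2) = M then 1 else 0)) := by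
    intro M _
    unfold muT muSnk fR
    have hp : (0 : ℝ) < (2 * (M : ℝ) + 1) ^ 2 := by positivity
    have hq : (0 : ℝ) ≤ (if na (y 0) = M then 1 else 0) + (if na (y 1) = M then 1 else 0) +
        (if na (y 2) = M then 1 else 0) := by
      split_ifs <;> norm_num
    set S : ℝ := (if na (y 0) = M then 1 else 0) + (if na (y 1) = M then 1 else 0) +
        (if na (y 2) = M then 1 else 0) with hS
    by_cases hc : na (y 0) ≤ M ∧ na (y 1) ≤ M ∧ na (y 2) ≤ M
    · rw [if_pos hc]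
      apply le_of_eq
      field_simp
    · rw [if_neg hc, mul_zero]
      positivity
  have h2 : ∀ a : ℕ, ∑ M ∈ s, (if a = M then (1 : ℝ) else 0) ≤ 1 := by
    intro a
    rw [Finset.sum_ite_eq]
    split_ifs <;> norm_num
  refine (Finset.sum_le_sum h1).trans ?_
  rw [← Finset.mul_sum, Finset.sum_add_distrib, Finset.sum_add_distrib]
  have a1 := h2 (na (y 0))
  have a2 := h2 (na (y 1))
  have a3 := h2 (na (y 2))
  linarith

theorem bflc_Gh {n : ℕ} [NeZero n] (x : Vtx 3 n) : ∑ y, Gm x y = Gh (0 : Vtx 3 n) := by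
  unfold Gh chr
  simp only [Pi.zero_apply, zero_mul, AddChar.map_zero_eq_one, Finset.prod_const_one,
    Complex.one_re, mul_one]
  rw [← Equiv.sum_comp (Equiv.addRight x)]
  refine Finset.sum_congr rfl fun y _ => ?_
  rw [Equiv.coe_addRight]
  have := Gm_shift (0 : Vtx 3 n) y x
  rw [zero_add] at this
  exact this

theorem bflc_sum (h : ℕ) (hh : 4 ≤ h) :
    ((2 * h : ℕ) : ℝ) ^ 3 / 8 ≤ ∑ M ∈ Finset.Ico 2 h, (2 * (M : ℝ) + 1) ^ 2 := by
  have h1 : ∀ k : ℕ, ∑ M ∈ Finset.range k, (2 * (M : ℝ) + 1) ^ 2 = k * (4 * (k : ℝ) ^ 2 - 1) / 3 := by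
    intro k
    induction k with
    | zero => simp
    | succ k ih =>
      rw [Finset.sum_range_succ, ih]
      push_cast
      ring
  have h2 : ∑ M ∈ Finset.Ico 2 h, (2 * (M : ℝ) + 1) ^ 2 =
      h * (4 * (h : ℝ) ^ 2 - 1) / 3 - 10 := by
    rw [Finset.sum_Ico_eq_sub _ (by omega), h1, h1]
    norm_num
  rw [h2]
  push_cast
  have h3 : (4 : ℝ) ≤ h := by exact_mod_cast hh
  nlinarith [mul_nonneg (sub_nonneg.2 h3) (mul_self_nonneg ((h : ℝ) + 4))]

/-- Long range order: multiply `vGmu` by `(2M+1)²` and sum over `2 ≤ M < n/2`;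
`∑_M (2M+1)² muT M y ≤ 5` and `∑_x vT x ∑_y Gm x y = 10 Gh 0`. -/
theorem lro {n : ℕ} [NeZero n] (hn : 8 ≤ n) (he : Even n) :
    (n : ℝ) ^ 3 / 10000 ≤ Gh (0 : Vtx 3 n) := by
  obtain ⟨h, hh⟩ := he
  have hn4 : 4 ≤ n := by omega
  have he' : Even n := ⟨h, hh⟩
  have hn2 : n / 2 = h := by omega
  have k1 : ∑ M ∈ Finset.Ico 2 h, (2 * (M : ℝ) + 1) ^ 2 * (4 / 100) ≤
      ∑ M ∈ Finset.Ico 2 h, (2 * (M : ℝ) + 1) ^ 2 * ∑ x : Vtx 3 n, ∑ y, vT x * muT M y * Gm x y := by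
    refine Finset.sum_le_sum fun M hM => ?_
    rw [Finset.mem_Ico] at hM
    exact mul_le_mul_of_nonneg_left (vGmu hn4 he' M hM.1 (by omega)) (by positivity)
  have k2 : ∑ M ∈ Finset.Ico 2 h, (2 * (M : ℝ) + 1) ^ 2 * ∑ x : Vtx 3 n, ∑ y,
      vT x * muT M y * Gm x y =
      ∑ x : Vtx 3 n, ∑ y, vT x * Gm x y * ∑ M ∈ Finset.Ico 2 h, (2 * (M : ℝ) + 1) ^ 2 * muT M y := by
    simp_rw [Finset.mul_sum]
    rw [Finset.sum_comm]
    refine Finset.sum_congr rfl fun x _ => ?_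
    rw [Finset.sum_comm]
    exact Finset.sum_congr rfl fun y _ => Finset.sum_congr rfl fun M _ => by ring
  have hv : ∀ x : Vtx 3 n, 0 ≤ vT x := by
    intro x
    unfold vT vSrc
    split_ifs <;> norm_num
  have k3 : ∑ x : Vtx 3 n, ∑ y, vT x * Gm x y * ∑ M ∈ Finset.Ico 2 h,
      (2 * (M : ℝ) + 1) ^ 2 * muT M y ≤ ∑ x : Vtx 3 n, ∑ y, vT x * Gm x y * 5 :=
    Finset.sum_le_sum fun x _ => Finset.sum_le_sum fun y _ =>
      mul_le_mul_of_nonneg_left (bflc_weight y _) (mul_nonneg (hv x) (Gm_nonneg x y))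
  have k4 : ∑ x : Vtx 3 n, ∑ y, vT x * Gm x y * 5 = 50 * Gh (0 : Vtx 3 n) := by
    have : ∀ x : Vtx 3 n, ∑ y, vT x * Gm x y * 5 = vT x * (5 * Gh (0 : Vtx 3 n)) := by
      intro x
      rw [← bflc_Gh x, Finset.mul_sum, Finset.mul_sum]
      exact Finset.sum_congr rfl fun y _ => by ring
    simp_rw [this]
    rw [vT_sum hn4 he']
    rw [Fin.sum_univ_three]
    ring
  have k5 := bflc_sum h (by omega)
  rw [← Finset.sum_mul] at k1
  have k6 : (n : ℝ) = ((2 * h : ℕ) : ℝ) := by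
    rw [hh, two_mul]
  rw [k6]
  linarith

end LibDim
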