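import Pool.Agent.LibDimB.BFlA

/-! Row FLE: energy of the explicit flow. -/

namespace LibDim

open Finset

/-- multiplicity of an absolute value -/
def wM (a : ℕ) : ℝ := if a = 0 then 1 else 2

/-- energy of the flow -/
noncomputable def enN (M : ℕ) : ℝ :=
  6 * ∑ m ∈ range M, ∑ a ∈ range (M + 1), ∑ b ∈ range (M + 1), wM a * wM b * fTM M m a b ^ 2

theorem bfle_eq (M : ℕ) : enN M =
    6 * ∑ m ∈ range M, ∑ a ∈ range (M + 1), ∑ b ∈ range (M + 1), wM a * wM b * fT m a b ^ 2 := by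
  unfold enN
  congr 1
  apply sum_congr rfl
  intro m hm
  apply sum_congr rfl
  intro a ha
  apply sum_congr rfl
  intro b hb
  rw [mem_range] at hm ha hb
  unfold fTM
  rw [if_pos ⟨hm, by omega, by omega⟩]

theorem bfle_w (M : ℕ) : ∑ a ∈ range (M + 1), wM a = 2 * (M : ℝ) + 1 := by
  induction M with
  | zero => simp [wM]
  | succ n ih =>
    rw [sum_range_succ, ih]
    unfold wM
    rw [if_neg (by omega)]
    push_cast
    ring

theorem bfle_sq (M : ℕ) : ∑ m ∈ range (M + 1), (2 * (m : ℝ) + 1) ^ 2 =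
    ((M : ℝ) + 1) * (2 * M + 1) * (2 * M + 3) / 3 := by
  induction M with
  | zero => norm_num
  | succ n ih =>
    rw [sum_range_succ, ih]
    push_cast
    ring

theorem bfle_step (M : ℕ) (hM : 2 ≤ M) : enN (M + 1) = enN M
    + 6 * (2 * (M : ℝ) + 1) ^ 2 * fR M ^ 2
    + 6 * (((M : ℝ) + 1) * (2 * M + 1) * (2 * M + 3) / 3) *
      (4 * (2 * (M : ℝ) + 1) * fP (M + 1) ^ 2 + 4 * fQ (M + 1) ^ 2) := by
  rw [bfle_eq (M + 1), bfle_eq M]
  have hin : ∀ m ∈ range (M + 1),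
      ∑ a ∈ range (M + 1 + 1), ∑ b ∈ range (M + 1 + 1), wM a * wM b * fT m a b ^ 2 =
      (∑ a ∈ range (M + 1), ∑ b ∈ range (M + 1), wM a * wM b * fT m a b ^ 2) +
      (2 * (m : ℝ) + 1) ^ 2 * (4 * (2 * (M : ℝ) + 1) * fP (M + 1) ^ 2 + 4 * fQ (M + 1) ^ 2) := by
    intro m hm
    rw [mem_range] at hm
    have w1 : wM (M + 1) = 2 := by
      unfold wM
      rw [if_neg (by omega)]
    have hlat : ∀ b, b < M + 1 → fT m (M + 1) b = (2 * (m : ℝ) + 1) * fP (M + 1) := by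
      intro b hb
      rw [bfla_lat m (M + 1) b (by omega) hm (by omega), if_neg (by omega)]
    have hdiag : fT m (M + 1) (M + 1) = (2 * (m : ℝ) + 1) * fQ (M + 1) := by
      rw [bfla_lat m (M + 1) (M + 1) (by omega) hm le_rfl, if_pos rfl]
    rw [sum_range_succ]
    have e1 : ∑ a ∈ range (M + 1), ∑ b ∈ range (M + 1 + 1), wM a * wM b * fT m a b ^ 2 =
        (∑ a ∈ range (M + 1), ∑ b ∈ range (M + 1), wM a * wM b * fT m a b ^ 2) +
        (2 * (M : ℝ) + 1) * (2 * ((2 * (m : ℝ) + 1) * fP (M + 1)) ^ 2) := by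
      have : ∀ a ∈ range (M + 1), ∑ b ∈ range (M + 1 + 1), wM a * wM b * fT m a b ^ 2 =
          (∑ b ∈ range (M + 1), wM a * wM b * fT m a b ^ 2) +
          wM a * (2 * ((2 * (m : ℝ) + 1) * fP (M + 1)) ^ 2) := by
        intro a ha
        rw [sum_range_succ, w1, fT_symm m a (M + 1), hlat a (mem_range.1 ha)]
        ring
      rw [sum_congr rfl this, sum_add_distrib, ← sum_mul, bfle_w]
    have e2 : ∑ b ∈ range (M + 1 + 1), wM (M + 1) * wM b * fT m (M + 1) b ^ 2 =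
        (2 * (M : ℝ) + 1) * (2 * ((2 * (m : ℝ) + 1) * fP (M + 1)) ^ 2) +
        4 * ((2 * (m : ℝ) + 1) * fQ (M + 1)) ^ 2 := by
      rw [sum_range_succ, w1, hdiag]
      have : ∀ b ∈ range (M + 1), 2 * wM b * fT m (M + 1) b ^ 2 =
          wM b * (2 * ((2 * (m : ℝ) + 1) * fP (M + 1)) ^ 2) := by
        intro b hb
        rw [hlat b (mem_range.1 hb)]
        ring
      rw [sum_congr rfl this, ← sum_mul, bfle_w]
      ring
    rw [e1, e2]
    ring
  rw [sum_congr rfl hin, sum_add_distrib, ← sum_mul, bfle_sq, sum_range_succ]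
  have hM' : ∑ a ∈ range (M + 1), ∑ b ∈ range (M + 1), wM a * wM b * fT M a b ^ 2 =
      (2 * (M : ℝ) + 1) ^ 2 * fR M ^ 2 := by
    have : ∀ a ∈ range (M + 1), ∑ b ∈ range (M + 1), wM a * wM b * fT M a b ^ 2 =
        wM a * ((2 * (M : ℝ) + 1) * fR M ^ 2) := by
      intro a ha
      have h2 : ∀ b ∈ range (M + 1), wM a * wM b * fT M a b ^ 2 = wM b * (wM a * fR M ^ 2) := by
        intro b hb
        rw [mem_range] at ha hb
        rw [bfla_rad M a b hM (by omega) (by omega)]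
        ring
      rw [sum_congr rfl h2, ← sum_mul, bfle_w]
      ring
    rw [sum_congr rfl this, ← sum_mul, bfle_w]
    ring
  rw [hM']
  ring

theorem bfle_base : enN 2 ≤ 8.6764 := by
  rw [bfle_eq]
  norm_num [sum_range_succ, wM, fT, fNear]

theorem bfle_inc (x : ℝ) (hx : 2 ≤ x) :
    6 * (2 * x + 1) ^ 2 * (5 / (3 * (2 * x + 1) ^ 2)) ^ 2 ≤ 25 / 6 * (1 / x - 1 / (x + 1)) := by
  have h1 : 0 < x := by linarith
  have h2 : 0 < x + 1 := by linarith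
  have h3 : 0 < 2 * x + 1 := by linarith
  have e1 : 6 * (2 * x + 1) ^ 2 * (5 / (3 * (2 * x + 1) ^ 2)) ^ 2 = 50 / (3 * (2 * x + 1) ^ 2) := by
    field_simp
    ring
  have e2 : 25 / 6 * (1 / x - 1 / (x + 1)) = 25 / (6 * (x * (x + 1))) := by
    field_simp
    ring
  rw [e1, e2, div_le_div_iff₀ (by positivity) (by positivity)]
  nlinarith

theorem bfle_inc2 (x : ℝ) (hx : 2 ≤ x) :
    6 * ((x + 1) * (2 * x + 1) * (2 * x + 3) / 3) *
      (4 * (2 * x + 1) * (10 * (x + 1) / (3 * (2 * (x + 1) - 1) ^ 2 * (2 * (x + 1) + 1) ^ 2)) ^ 2 +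
        4 * (10 / (6 * (2 * (x + 1) - 1) * (2 * (x + 1) + 1) ^ 2)) ^ 2) ≤
      100 / 9 * (246 / 245) * (1 / 2) * (1 / (2 * x + 1) - 1 / (2 * x + 3)) := by
  have h3 : 0 < 2 * x + 1 := by linarith
  have h4 : 0 < 2 * x + 3 := by linarith
  have a1 : 2 * (x + 1) - 1 = 2 * x + 1 := by ring
  have a2 : 2 * (x + 1) + 1 = 2 * x + 3 := by ring
  rw [a1, a2]
  have e1 : 6 * ((x + 1) * (2 * x + 1) * (2 * x + 3) / 3) *
      (4 * (2 * x + 1) * (10 * (x + 1) / (3 * (2 * x + 1) ^ 2 * (2 * x + 3) ^ 2)) ^ 2 +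
        4 * (10 / (6 * (2 * x + 1) * (2 * x + 3) ^ 2)) ^ 2) =
      200 / 9 * ((x + 1) * (4 * (x + 1) ^ 2 + (2 * x + 1))) / ((2 * x + 1) ^ 2 * (2 * x + 3) ^ 3) := by
    field_simp
    ring
  have e2 : 100 / 9 * (246 / 245) * (1 / 2) * (1 / (2 * x + 1) - 1 / (2 * x + 3)) =
      100 / 9 * (246 / 245) / ((2 * x + 1) * (2 * x + 3)) := by
    field_simp
    ring
  rw [e1, e2, div_le_div_iff₀ (by positivity) (by positivity)]
  have key : 2 * ((x + 1) * (4 * (x + 1) ^ 2 + (2 * x + 1))) ≤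
      246 / 245 * ((2 * x + 1) * (2 * x + 3) ^ 2) := by
    nlinarith [mul_nonneg (sub_nonneg.2 hx) (sub_nonneg.2 hx),
      mul_nonneg (mul_nonneg (sub_nonneg.2 hx) (sub_nonneg.2 hx)) (sub_nonneg.2 hx)]
  have hp : 0 ≤ (2 * x + 1) * (2 * x + 3) * (100 / 9) := by positivity
  have := mul_le_mul_of_nonneg_right key hp
  calc 200 / 9 * ((x + 1) * (4 * (x + 1) ^ 2 + (2 * x + 1))) * ((2 * x + 1) * (2 * x + 3))
      = 2 * ((x + 1) * (4 * (x + 1) ^ 2 + (2 * x + 1))) * ((2 * x + 1) * (2 * x + 3) * (100 / 9)) := by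
        ring
    _ ≤ 246 / 245 * ((2 * x + 1) * (2 * x + 3) ^ 2) * ((2 * x + 1) * (2 * x + 3) * (100 / 9)) := this
    _ = 100 / 9 * (246 / 245) * ((2 * x + 1) ^ 2 * (2 * x + 3) ^ 3) := by ring

theorem bfle_bound (n : ℕ) : enN (n + 2) ≤ 8.6764 +
    25 / 6 * (1 / 2 - 1 / ((n : ℝ) + 2)) +
    100 / 9 * (246 / 245) * (1 / 2) * (1 / 5 - 1 / (2 * ((n : ℝ) + 2) + 1)) := by
  induction n with
  | zero =>
    have := bfle_base
    norm_num at this ⊢
    linarith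
  | succ n ih =>
    have hs := bfle_step (n + 2) (by omega)
    have hx : (2 : ℝ) ≤ (n : ℝ) + 2 := by
      have : (0 : ℝ) ≤ n := Nat.cast_nonneg n
      linarith
    have i1 := bfle_inc ((n : ℝ) + 2) hx
    have i2 := bfle_inc2 ((n : ℝ) + 2) hx
    have e0 : n + 1 + 2 = n + 2 + 1 := by ring
    rw [e0, hs]
    unfold fR fP fQ
    push_cast
    have e1 : (n : ℝ) + 1 + 2 = (n : ℝ) + 2 + 1 := by ring
    rw [e1]
    have e2 : 2 * ((n : ℝ) + 2 + 1) + 1 = 2 * ((n : ℝ) + 2) + 3 := by ring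
    have e3 : 1 / (2 * ((n : ℝ) + 2 + 1) + 1) = 1 / (2 * ((n : ℝ) + 2) + 3) := by rw [e2]
    rw [e3]
    linarith

/-- Energy bound. `fTM M m a b = fT m a b` in the range. Induction on `M` with the bound
`8.6764 + (25/6) (1/2 - 1/M) + (100/9) (246/245) (1/2) (1/5 - 1/(2M+1))`: for `M = 2` the sum over the table; from `M` to
`M + 1` (`M ≥ 2`, `M' = M + 1`) the new terms are `6 (2M+1)² R(M)²` and
`6 ∑_{m ≤ M} (2m+1)² ((8 M' - 4) P(M')² + 4 Q(M')²)`, `∑_{m ≤ M} (2m+1)² = M' (2M'-1) (2M'+1) / 3`. -/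
theorem energy_le (M : ℕ) (hM : 2 ≤ M) : enN M ≤ 1188 / 100 := by
  obtain ⟨n, rfl⟩ : ∃ n, M = n + 2 := ⟨M - 2, by omega⟩
  refine (bfle_bound n).trans ?_
  have h1 : (0 : ℝ) < ((n : ℝ) + 2)⁻¹ := by positivity
  have h2 : (0 : ℝ) < (2 * ((n : ℝ) + 2) + 1)⁻¹ := by positivity
  norm_num
  linarith

end LibDim
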