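import Pool.Agent.LibDimB.BScal
import Pool.Agent.LibDim.SplitA

/-! Row FOUR: Fourier analysis on the discrete torus. -/

namespace LibDim

open Finset

variable {d n : ℕ}

theorem chr_add [NeZero n] (k x y : Vtx d n) : chr k (x + y) = chr k x * chr k y := by
  unfold chr
  rw [← Finset.prod_mul_distrib]
  refine Finset.prod_congr rfl fun i _ => ?_
  rw [Pi.add_apply, mul_add, AddChar.map_add_eq_mul]

theorem chr_add_left [NeZero n] (k l x : Vtx d n) : chr (k + l) x = chr k x * chr l x := by
  unfold chr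
  rw [← Finset.prod_mul_distrib]
  refine Finset.prod_congr rfl fun i _ => ?_
  rw [Pi.add_apply, add_mul, AddChar.map_add_eq_mul]

theorem chr_comm [NeZero n] (k x : Vtx d n) : chr k x = chr x k := by
  unfold chr
  refine Finset.prod_congr rfl fun i _ => ?_
  rw [mul_comm]

theorem chr_zero [NeZero n] (k : Vtx d n) : chr k 0 = 1 := by
  unfold chr
  simp

theorem chr_zero_left [NeZero n] (x : Vtx d n) : chr 0 x = 1 := by
  unfold chr
  simp

theorem chr_norm [NeZero n] (k x : Vtx d n) : ‖chr k x‖ = 1 := by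
  unfold chr
  rw [norm_prod]
  exact Finset.prod_eq_one fun i _ => bscal_norm _

theorem chr_neg [NeZero n] (k x : Vtx d n) : chr k (-x) = (starRingEnd ℂ) (chr k x) := by
  unfold chr
  rw [map_prod]
  refine Finset.prod_congr rfl fun i _ => ?_
  rw [Pi.neg_apply, mul_neg, bscal_conj]

theorem chr_neg_left [NeZero n] (k x : Vtx d n) : chr (-k) x = (starRingEnd ℂ) (chr k x) := by
  unfold chr
  rw [map_prod]
  refine Finset.prod_congr rfl fun i _ => ?_
  rw [Pi.neg_apply, neg_mul, bscal_conj]

theorem chr_stp [NeZero n] (k : Vtx d n) (i : Fin d) :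
    chr k (stp i) = (ZMod.stdAddChar (k i) : ℂ) := by
  unfold chr
  rw [Finset.prod_eq_single i]
  · rw [stp, Pi.single_eq_same, mul_one]
  · intro b _ hb
    rw [stp, Pi.single_eq_of_ne hb, mul_zero, AddChar.map_zero_eq_one]
  · intro h
    exact absurd (mem_univ _) h

theorem cosV_sinV [NeZero n] (k x : Vtx d n) : cosV k x ^ 2 + sinV k x ^ 2 = 1 := by
  unfold cosV sinV
  have h2 : ‖chr k x‖ ^ 2 = 1 := by rw [chr_norm]; norm_num
  rw [Complex.sq_norm, Complex.normSq_apply] at h2
  linarith [h2]

/-- a product over `insV` splits -/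
theorem chr_insV [NeZero n] (j : Fin (d + 1)) (κ t : ZMod n) (p y : Vtx d n) :
    chr (insV j κ p) (insV j t y) = (ZMod.stdAddChar (κ * t) : ℂ) * chr p y := by
  unfold chr
  rw [Fin.prod_univ_succAbove _ j, insV_same, insV_same]
  congr 1
  refine Finset.prod_congr rfl fun i _ => ?_
  rw [insV_succ, insV_succ]

theorem EL_insV [NeZero n] (j : Fin (d + 1)) (κ : ZMod n) (p : Vtx d n) :
    EL (insV j κ p) = eps κ + EL p := by
  unfold EL
  rw [Fin.sum_univ_succAbove _ j, insV_same]
  congr 1
  refine Finset.sum_congr rfl fun i _ => ?_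
  rw [insV_succ]

end LibDim
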