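import Pool.Agent.LibDimB.BSpec

/-! Row INP: structure function of the edges inside the layers, minimal at zero momentum. -/

namespace LibDim

open Finset Matrix

section Graph

variable {V E : Type} [Fintype V] [DecidableEq V] [Fintype E] [DecidableEq E]

/-- imaginary part of the character -/
noncomputable def binp_sr {n : ℕ} [NeZero n] (a : ZMod n) : ℝ := (ZMod.stdAddChar a : ℂ).im

theorem binp_sub {n : ℕ} [NeZero n] (a b : ZMod n) :
    cr (a - b) = cr a * cr b + binp_sr a * binp_sr b := by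
  have h1 : (ZMod.stdAddChar (a - b) : ℂ) =
      (ZMod.stdAddChar a : ℂ) * (starRingEnd ℂ) (ZMod.stdAddChar b : ℂ) := by
    rw [sub_eq_add_neg, AddChar.map_add_eq_mul, AddChar.map_neg_eq_conj]
  unfold cr binp_sr
  rw [h1, Complex.mul_re, Complex.conj_re, Complex.conj_im]
  ring

theorem binp_sq {n : ℕ} [NeZero n] (a : ZMod n) : cr a ^ 2 + binp_sr a ^ 2 = 1 := by
  have h1 := binp_sub a a
  rw [sub_self, cr_zero] at h1
  rw [h1]
  ring

theorem binp_zero {n : ℕ} [NeZero n] : binp_sr (0 : ZMod n) = 0 := by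
  unfold binp_sr
  rw [AddChar.map_zero_eq_one, Complex.one_im]

theorem binp_stack_add (g : Gr V E) (n : ℕ) [NeZero n] (F G : (ZMod n → E → Bool) → ℝ) :
    stack g n (fun η => F η + G η) = stack g n F + stack g n G := by
  unfold stack
  rw [← Finset.sum_add_distrib]
  refine Finset.sum_congr rfl fun a _ => ?_
  rw [← Finset.sum_add_distrib]
  refine Finset.sum_congr rfl fun η _ => ?_
  ring

theorem binp_linF (p q : E → ℝ) (a b : ℝ) (η : E → Bool) :
    linF (fun e => a * p e + b * q e) η = a * linF p η + b * linF q η := by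
  unfold linF
  rw [Finset.mul_sum, Finset.mul_sum, ← Finset.sum_add_distrib]
  refine Finset.sum_congr rfl fun e _ => ?_
  ring

theorem binp_opL (g : Gr V E) (p q : E → ℝ) (a b : ℝ) :
    opL g (linF (fun e => a * p e + b * q e)) = a • opL g (linF p) + b • opL g (linF q) := by
  ext x y
  simp only [opL, Matrix.add_apply, Matrix.smul_apply, smul_eq_mul]
  rw [Finset.mul_sum, Finset.mul_sum, ← Finset.sum_add_distrib]
  refine Finset.sum_congr rfl fun η _ => ?_
  rw [binp_linF]
  ring

theorem binp_opL_add (g : Gr V E) (f f' : (E → Bool) → ℝ) :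
    opL g (fun η => f η + f' η) = opL g f + opL g f' := by
  ext x y
  simp only [opL, Matrix.add_apply]
  rw [← Finset.sum_add_distrib]
  refine Finset.sum_congr rfl fun η _ => ?_
  ring

/-- the four point kernel is symmetric -/
theorem binp_ksymm {α : Type} [Fintype α] [DecidableEq α] (n : ℕ) (S U W : Matrix α α ℝ)
    (hS : S.IsSymm) (hU : U.IsSymm) (hW : W.IsSymm) (r : ZMod n) :
    kerTr n S U W r = kerTr n S W U r := by
  unfold kerTr
  by_cases hr : r = 0
  · rw [if_pos hr, if_pos hr]
  · rw [if_neg hr, if_neg hr]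
    congr 1
    have hp : ∀ k : ℕ, (S ^ k).transpose = S ^ k := by
      intro k
      rw [Matrix.transpose_pow, hS.eq]
    rw [← Matrix.trace_transpose]
    rw [Matrix.transpose_mul, Matrix.transpose_mul, Matrix.transpose_mul, hp, hp, hU.eq, hW.eq,
      Matrix.trace_mul_comm]
    simp only [Matrix.mul_assoc]

theorem binp_kbil {α : Type} [Fintype α] [DecidableEq α] (n : ℕ) (S P Q : Matrix α α ℝ)
    (a b c d : ℝ) (r : ZMod n) :
    kerTr n S (a • P + b • Q) (c • P + d • Q) r
      = a * c * kerTr n S P P r + a * d * kerTr n S P Q r + b * c * kerTr n S Q P r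
        + b * d * kerTr n S Q Q r := by
  unfold kerTr
  by_cases hr : r = 0
  · simp [hr]
  · simp only [if_neg hr]
    simp only [Matrix.add_mul, Matrix.mul_add, Matrix.smul_mul, Matrix.mul_smul, Matrix.trace_add,
      Matrix.trace_smul, smul_eq_mul]
    ring

theorem binp_point (n : ℕ) [NeZero n] (p q : E → ℝ) (k : ZMod n) (η : ZMod n → E → Bool) :
    ‖∑ t : ZMod n, (-1 : ℂ) ^ t.val * (ZMod.stdAddChar (k * t) : ℂ)
      * ((linF p (η t) : ℂ) + (linF q (η t) : ℂ) * Complex.I)‖ ^ 2
    = (∑ t : ZMod n, (-1) ^ t.val *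
        linF (fun e => cr (k * t) * p e + (-binp_sr (k * t)) * q e) (η t)) ^ 2
      + (∑ t : ZMod n, (-1) ^ t.val *
        linF (fun e => binp_sr (k * t) * p e + cr (k * t) * q e) (η t)) ^ 2 := by
  have hs : ∀ t : ZMod n, (-1 : ℂ) ^ t.val = (((-1 : ℝ) ^ t.val : ℝ) : ℂ) := by
    intro t
    push_cast
    rfl
  rw [Complex.sq_norm, Complex.normSq_apply, Complex.re_sum, Complex.im_sum, ← sq, ← sq]
  congr 2
  · refine Finset.sum_congr rfl fun t _ => ?_
    rw [binp_linF, hs, mul_assoc, Complex.re_ofReal_mul]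
    congr 1
    rw [Complex.mul_re]
    unfold cr binp_sr
    simp
    ring
  · refine Finset.sum_congr rfl fun t _ => ?_
    rw [binp_linF, hs, mul_assoc, Complex.im_ofReal_mul]
    congr 1
    rw [Complex.mul_im]
    unfold cr binp_sr
    simp
    ring

theorem binp_eq (g : Gr V E) (n : ℕ) [NeZero n] (he : Even n) (p q : E → ℝ) (k : ZMod n) :
    inpN g n p q k
      = (n : ℝ) * ((opL g (fun η => linF p η ^ 2 + linF q η ^ 2) *
          opL g (fun _ => 1) ^ (n - 1)).trace)
        + (n : ℝ) * ∑ r : ZMod n, cr (k * r) *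
          (kerTr n (opL g (fun _ => 1)) (opL g (linF p)) (opL g (linF p)) r
            + kerTr n (opL g (fun _ => 1)) (opL g (linF q)) (opL g (linF q)) r) := by
  set S := opL g (fun _ => 1) with hS
  set P := opL g (linF p) with hP
  set Q := opL g (linF q) with hQ
  unfold inpN
  have h1 : (fun η : ZMod n → E → Bool => ‖∑ t : ZMod n, (-1 : ℂ) ^ t.val
      * (ZMod.stdAddChar (k * t) : ℂ) * ((linF p (η t) : ℂ) + (linF q (η t) : ℂ) * Complex.I)‖ ^ 2)
      = fun η => (∑ t : ZMod n, (-1) ^ t.val *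
        linF (fun e => cr (k * t) * p e + (-binp_sr (k * t)) * q e) (η t)) ^ 2
      + (∑ t : ZMod n, (-1) ^ t.val *
        linF (fun e => binp_sr (k * t) * p e + cr (k * t) * q e) (η t)) ^ 2 :=
    funext fun η => binp_point n p q k η
  rw [h1, binp_stack_add,
    rp_expand g n he (fun t => linF (fun e => cr (k * t) * p e + (-binp_sr (k * t)) * q e)),
    rp_expand g n he (fun t => linF (fun e => binp_sr (k * t) * p e + cr (k * t) * q e)),
    ← hS]
  simp only [binp_opL, ← hP, ← hQ]
  have hcard : ∀ c : ℝ, ∑ _t : ZMod n, c = (n : ℝ) * c := by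
    intro c
    rw [Finset.sum_const, Finset.card_univ, ZMod.card, nsmul_eq_mul]
  -- diagonal terms
  have hd : ∀ t : ZMod n,
      (opL g (fun η => linF (fun e => cr (k * t) * p e + (-binp_sr (k * t)) * q e) η ^ 2)
        * S ^ (n - 1)).trace
      + (opL g (fun η => linF (fun e => binp_sr (k * t) * p e + cr (k * t) * q e) η ^ 2)
        * S ^ (n - 1)).trace
      = (opL g (fun η => linF p η ^ 2 + linF q η ^ 2) * S ^ (n - 1)).trace := by
    intro t
    rw [← Matrix.trace_add, ← Matrix.add_mul, ← binp_opL_add]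
    congr 3
    funext η
    rw [binp_linF, binp_linF]
    have h2 := binp_sq (k * t)
    calc (cr (k * t) * linF p η + -binp_sr (k * t) * linF q η) ^ 2
          + (binp_sr (k * t) * linF p η + cr (k * t) * linF q η) ^ 2
        = (cr (k * t) ^ 2 + binp_sr (k * t) ^ 2) * (linF p η ^ 2 + linF q η ^ 2) := by ring
      _ = _ := by rw [h2, one_mul]
  -- off-diagonal terms
  have ho : ∀ t s : ZMod n,
      kerTr n S (cr (k * t) • P + (-binp_sr (k * t)) • Q) (cr (k * s) • P + (-binp_sr (k * s)) • Q)
        (s - t)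
      + kerTr n S (binp_sr (k * t) • P + cr (k * t) • Q) (binp_sr (k * s) • P + cr (k * s) • Q)
        (s - t)
      = cr (k * (s - t)) * (kerTr n S P P (s - t) + kerTr n S Q Q (s - t)) := by
    intro t s
    rw [binp_kbil, binp_kbil, binp_ksymm n S Q P (opL_symm g _) (opL_symm g _) (opL_symm g _),
      mul_sub, binp_sub]
    ring
  have hr : ∀ t : ZMod n, ∑ s : ZMod n, cr (k * (s - t)) * (kerTr n S P P (s - t)
      + kerTr n S Q Q (s - t)) = ∑ r : ZMod n, cr (k * r) * (kerTr n S P P r + kerTr n S Q Q r) :=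
    fun t => Fintype.sum_equiv (Equiv.subRight t) _ _ (fun s => rfl)
  rw [add_add_add_comm, ← Finset.sum_add_distrib, ← Finset.sum_add_distrib,
    Finset.sum_congr rfl fun t _ => hd t, hcard]
  congr 1
  rw [← hcard]
  refine Finset.sum_congr rfl fun t _ => ?_
  rw [← Finset.sum_add_distrib, Finset.sum_congr rfl fun s _ => ho t s, hr t]

/-- Expansion: `‖∑_t (-1)^t ζ^t (P_t + i Q_t)‖² = ∑_{t,s} (-1)^(s-t) (cr (k (s-t)) (P_t P_s + Q_t Q_s) + mixed)`;
the diagonal terms do not depend on `k`, the off-diagonal ones are `kerTr` (`rp_two_ne`), the mixed terms cancel by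
transposition of the trace (the matrices are symmetric); then `ker_min` for `opL g (linF p)` and `opL g (linF q)`. -/
theorem inpN_min (g : Gr V E) (n : ℕ) [NeZero n] (hn : 4 ≤ n) (he : Even n) (p q : E → ℝ)
    (k : ZMod n) : inpN g n p q 0 ≤ inpN g n p q k := by
  rw [binp_eq g n he p q 0, binp_eq g n he p q k]
  have h1 := ker_min n hn he (opL g (fun _ => 1)) (opL g (linF p)) (opL_symm g _) (opL_symm g _) k
  have h2 := ker_min n hn he (opL g (fun _ => 1)) (opL g (linF q)) (opL_symm g _) (opL_symm g _) k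
  have h3 : ∑ r : ZMod n, cr (0 * r) *
      (kerTr n (opL g (fun _ => 1)) (opL g (linF p)) (opL g (linF p)) r
        + kerTr n (opL g (fun _ => 1)) (opL g (linF q)) (opL g (linF q)) r)
      = ∑ r : ZMod n, kerTr n (opL g (fun _ => 1)) (opL g (linF p)) (opL g (linF p)) r
        + ∑ r : ZMod n, kerTr n (opL g (fun _ => 1)) (opL g (linF q)) (opL g (linF q)) r := by
    rw [← Finset.sum_add_distrib]
    refine Finset.sum_congr rfl fun r _ => ?_
    rw [zero_mul, cr_zero, one_mul]
  have h4 : ∑ r : ZMod n, cr (k * r) *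
      (kerTr n (opL g (fun _ => 1)) (opL g (linF p)) (opL g (linF p)) r
        + kerTr n (opL g (fun _ => 1)) (opL g (linF q)) (opL g (linF q)) r)
      = ∑ r : ZMod n, cr (k * r) * kerTr n (opL g (fun _ => 1)) (opL g (linF p)) (opL g (linF p)) r
        + ∑ r : ZMod n, cr (k * r) *
          kerTr n (opL g (fun _ => 1)) (opL g (linF q)) (opL g (linF q)) r := by
    rw [← Finset.sum_add_distrib]
    refine Finset.sum_congr rfl fun r _ => ?_
    ring
  rw [h3, h4]
  have hn0 : (0 : ℝ) ≤ n := Nat.cast_nonneg n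
  have := mul_le_mul_of_nonneg_left (add_le_add h1 h2) hn0
  linarith

end Graph

end LibDim
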