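import Pool.Agent.LibDimB.BInp
import Pool.Agent.LibDimB.BFour

/-! Row INPB: modes of the flow inside the layers, monotonicity in the transversal momentum. -/

namespace LibDim

open Finset Matrix

variable {d n : ℕ}

/-- weights of the edges of a layer for the mode `p` and the coefficients `b` -/
noncomputable def wInp [NeZero n] (j : Fin (d + 1)) (b : Fin (d + 1) → ℂ) (p : Vtx d n)
    (e : Vtx d n × Fin d) : ℂ :=
  b (j.succAbove e.2) * (sgnV e.1 : ℂ) * chr p e.1

/-- sum over the torus is a sum over layers, complex version -/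
theorem binpb_sum [NeZero n] (j : Fin (d + 1)) (f : Vtx (d + 1) n → ℂ) :
    ∑ x, f x = ∑ t : ZMod n, ∑ y : Vtx d n, f (j.insertNth t y) := by
  rw [← (Fin.insertNthEquiv (fun _ => ZMod n) j).sum_comp f, Fintype.sum_prod_type]
  rfl

/-- sign of a vertex splits -/
theorem binpb_sgn [NeZero n] (j : Fin (d + 1)) (t : ZMod n) (y : Vtx d n) :
    sgnV (d := d + 1) (n := n) (j.insertNth t y) = (-1) ^ t.val * sgnV y := by
  unfold sgnV
  rw [← pow_add, Fin.sum_univ_succAbove _ j]
  simp only [Fin.insertNth_apply_same, Fin.insertNth_apply_succAbove]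

/-- real and imaginary part of the linear functional -/
theorem binpb_lin {E : Type} [Fintype E] (w : E → ℂ) (η : E → Bool) :
    ((linF (fun e => (w e).re) η : ℝ) : ℂ) + ((linF (fun e => (w e).im) η : ℝ) : ℂ) * Complex.I
      = ∑ e, w e * ((η e).toNat : ℂ) := by
  unfold linF
  push_cast
  rw [Finset.sum_mul, ← Finset.sum_add_distrib]
  refine Finset.sum_congr rfl fun e _ => ?_
  have h := Complex.re_add_im (w e)
  calc ((w e).re : ℂ) * ((η e).toNat : ℂ) + ((w e).im : ℂ) * ((η e).toNat : ℂ) * Complex.I
      = (((w e).re : ℂ) + ((w e).im : ℂ) * Complex.I) * ((η e).toNat : ℂ) := by ring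
    _ = w e * ((η e).toNat : ℂ) := by rw [h]

/-- a mode without component in direction `j`, layer by layer -/
theorem binpb_mode [NeZero n] (j : Fin (d + 1)) (κ : ZMod n) (p : Vtx d n)
    (b : Fin (d + 1) → ℂ) (hb : b j = 0) (τ : Vtx (d + 1) n → Vtx (d + 1) n) :
    ∑ i, b i * Jh (insV j κ p) i τ
      = ∑ t : ZMod n, (-1 : ℂ) ^ t.val * (ZMod.stdAddChar (κ * t) : ℂ)
        * (((linF (fun e => (wInp j b p e).re) (fun e => decide (τ (j.insertNth t e.1)
            = j.insertNth t e.1 + stp (j.succAbove e.2))) : ℝ) : ℂ)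
          + ((linF (fun e => (wInp j b p e).im) (fun e => decide (τ (j.insertNth t e.1)
            = j.insertNth t e.1 + stp (j.succAbove e.2))) : ℝ) : ℂ) * Complex.I) := by
  classical
  rw [Fin.sum_univ_succAbove _ j, hb, zero_mul, zero_add]
  have h1 : ∀ i' : Fin d, b (j.succAbove i') * Jh (insV j κ p) (j.succAbove i') τ
      = ∑ t : ZMod n, (-1 : ℂ) ^ t.val * (ZMod.stdAddChar (κ * t) : ℂ)
        * ∑ y : Vtx d n, wInp j b p (y, i')
          * (((decide (τ (j.insertNth t y) = j.insertNth t y + stp (j.succAbove i'))).toNat : ℕ)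
            : ℂ) := by
    intro i'
    unfold Jh
    rw [binpb_sum j, Finset.mul_sum]
    refine Finset.sum_congr rfl fun t _ => ?_
    rw [Finset.mul_sum, Finset.mul_sum]
    refine Finset.sum_congr rfl fun y _ => ?_
    have hc : chr (insV j κ p) (j.insertNth t y : Vtx (d + 1) n)
        = (ZMod.stdAddChar (κ * t) : ℂ) * chr p y := chr_insV j κ t p y
    rw [hc, binpb_sgn]
    unfold wInp
    by_cases h : τ (j.insertNth t y) = j.insertNth t y + stp (j.succAbove i')
    · simp only [h, decide_true, if_true, Bool.toNat_true]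
      push_cast
      ring
    · simp only [h, decide_false, if_false, Bool.toNat_false]
      push_cast
      ring
  rw [Finset.sum_congr rfl fun i' _ => h1 i', Finset.sum_comm]
  refine Finset.sum_congr rfl fun t _ => ?_
  rw [binpb_lin, ← Finset.mul_sum, Fintype.sum_prod_type_right]

/-- `pm_stack`, `splitB_sum`, `splitB_sgn`, `chr_insV` -/
theorem inp_mode [NeZero n] (hn : 4 ≤ n) (j : Fin (d + 1)) (κ : ZMod n) (p : Vtx d n)
    (b : Fin (d + 1) → ℂ) (hb : b j = 0) :
    EE b (insV j κ p) = inpN (layG d n hn) n (fun e => (wInp j b p e).re)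
      (fun e => (wInp j b p e).im) κ := by
  unfold EE inpN
  rw [← pm_stack d n hn j]
  refine Finset.sum_congr rfl fun τ _ => ?_
  rw [binpb_mode j κ p b hb τ]

/-- monotonicity in the transversal momentum -/
theorem plane_mono [NeZero n] (hn : 4 ≤ n) (he : Even n) (j : Fin (d + 1)) (k : Vtx (d + 1) n)
    (b : Fin (d + 1) → ℂ) (hb : b j = 0) :
    EE b (Function.update k j 0) ≤ EE b k := by
  have h1 : k = insV j (k j) (fun i => k (j.succAbove i)) := (insV_self j k).symm
  have h2 : Function.update k j 0 = insV j 0 (fun i => k (j.succAbove i)) := by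
    refine insV_ext j ?_ fun i => ?_
    · rw [Function.update_self, insV_same]
    · rw [Function.update_of_ne (Fin.succAbove_ne j i), insV_succ]
  rw [h2]
  calc EE b (insV j 0 (fun i => k (j.succAbove i)))
      = inpN (layG d n hn) n (fun e => (wInp j b (fun i => k (j.succAbove i)) e).re)
        (fun e => (wInp j b (fun i => k (j.succAbove i)) e).im) 0 :=
        inp_mode hn j 0 _ b hb
    _ ≤ inpN (layG d n hn) n (fun e => (wInp j b (fun i => k (j.succAbove i)) e).re)
        (fun e => (wInp j b (fun i => k (j.succAbove i)) e).im) (k j) :=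
        inpN_min _ n hn he _ _ (k j)
    _ = EE b (insV j (k j) (fun i => k (j.succAbove i))) := (inp_mode hn j (k j) _ b hb).symm
    _ = EE b k := by rw [← h1]

end LibDim
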