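import Pool.Agent.LibDimB.BTor
import Pool.Agent.LibDimB.BFourB

/-! Row IRT: Fourier transform of the monomer correlation through the layers. -/

namespace LibDim

open Finset Matrix

variable {d n : ℕ}

theorem birt_srcsum [NeZero n] (a b : Vtx d n) : ∑ x, srcTwo a b x = 2 := by
  simp only [srcTwo, Finset.sum_add_distrib, Finset.sum_ite_eq', Finset.mem_univ, if_true]

theorem birt_odd [NeZero n] (h : ¬ Even n) (x y : Vtx d n) : cnt (srcTwo x y) = 0 := by
  classical
  unfold cnt
  rw [Nat.cast_eq_zero, Finset.card_eq_zero, Finset.filter_eq_empty_iff]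
  intro E _ hE
  have h1 : ∑ z : Vtx d n, (srcTwo x y z + ∑ i, ((E z i).toNat + (E (z - stp i) i).toNat))
      = ∑ _z : Vtx d n, 1 := Finset.sum_congr rfl fun z _ => hE z
  rw [Finset.sum_add_distrib, birt_srcsum, Finset.sum_const, smul_eq_mul, mul_one,
    Finset.card_univ] at h1
  simp only [Finset.sum_add_distrib] at h1
  have h2 : ∑ z : Vtx d n, ∑ i, (E (z - stp i) i).toNat = ∑ z : Vtx d n, ∑ i, (E z i).toNat := by
    rw [Finset.sum_comm, Finset.sum_comm (f := fun z i => (E z i).toNat)]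
    refine Finset.sum_congr rfl fun i _ => ?_
    exact Equiv.sum_comp (Equiv.subRight (stp i)) (fun z => (E z i).toNat)
  rw [h2] at h1
  have hc : Fintype.card (Vtx d n) = n ^ d := by
    simp [Vtx, ZMod.card]
  rw [hc] at h1
  have hodd : Odd (n ^ d) := (Nat.not_even_iff_odd.1 h).pow
  rw [← h1] at hodd
  rw [← Nat.not_even_iff_odd] at hodd
  apply hodd
  exact ⟨1 + ∑ z : Vtx d n, ∑ i, (E z i).toNat, by ring⟩

theorem birt_Gm [NeZero n] (hn : 4 ≤ n) (x y : Vtx (d + 1) n) :
    cnt (srcTwo x y) = cnt (0 : Vtx (d + 1) n → ℕ) * Gm x y := by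
  unfold Gm
  by_cases he : Even n
  · have hz : cnt (0 : Vtx (d + 1) n → ℕ) ≠ 0 := by
      rw [cnt_zero hn]
      exact (ZP_pos (Nat.succ_pos d) hn he).ne'
    rw [mul_div_cancel₀ _ hz]
  · rw [birt_odd he x y, zero_div, mul_zero]

theorem birt_sub (j : Fin (d + 1)) (r t : ZMod n) (y y' : Vtx d n) :
    insV j r y' - insV j t y = insV j (r - t) (y' - y) := by
  refine insV_ext j ?_ fun l => ?_
  · rw [Pi.sub_apply, insV_same, insV_same, insV_same]
  · rw [Pi.sub_apply, insV_succ, insV_succ, insV_succ, Pi.sub_apply]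

theorem birt_rfl (j : Fin (d + 1)) (r : ZMod n) (z : Vtx d n) :
    rfl1 j (insV j r z) = insV j (-r) z := by
  refine insV_ext j ?_ fun l => ?_
  · rw [insV_same, rfl1, Function.update_self, insV_same]
  · rw [insV_succ, rfl1, Function.update_of_ne (Fin.succAbove_ne j l), insV_succ]

theorem birt_cs [NeZero n] (p y y' : Vtx d n) :
    cosV p y * cosV p y' + sinV p y * sinV p y' = (chr p (y' - y)).re := by
  rw [sub_eq_add_neg, chr_add, chr_neg]
  simp only [cosV, sinV, Complex.mul_re, Complex.conj_re, Complex.conj_im]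
  ring

/-- the mixed Fourier transform through the layers: expand `fN` by `fN_cnt`, use
`cosV p y cosV p y' + sinV p y sinV p y' = (chr p (y' - y)).re`, translation invariance and the reflection `Gm_refl`
(which kills the products of sines) -/
theorem Gh_layer [NeZero n] (hn : 4 ≤ n) (j : Fin (d + 1)) (κ : ZMod n) (p : Vtx d n) :
    ∑ r : ZMod n, cr (κ * r) * (fN (layG d n hn) n (cosV p) (cosV p) (r.val + 1)
        + fN (layG d n hn) n (sinV p) (sinV p) (r.val + 1))
      = (n : ℝ) ^ d * cnt (0 : Vtx (d + 1) n → ℕ) * Gh (insV j κ p) := by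
  classical
  -- left side
  have h1 : ∀ r : ZMod n, fN (layG d n hn) n (cosV p) (cosV p) (r.val + 1)
        + fN (layG d n hn) n (sinV p) (sinV p) (r.val + 1)
      = cnt (0 : Vtx (d + 1) n → ℕ) * ((n : ℝ) ^ d
        * ∑ z : Vtx d n, (chr p z).re * Gm 0 (insV j r z)) := by
    intro r
    rw [fN_cnt hn j 0 r, fN_cnt hn j 0 r, ← Finset.sum_add_distrib]
    have h2 : ∀ y : Vtx d n, (∑ y' : Vtx d n, cosV p y * cosV p y'
          * cnt (srcTwo (insV j 0 y) (insV j (0 + r) y')))
        + ∑ y' : Vtx d n, sinV p y * sinV p y'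
          * cnt (srcTwo (insV j 0 y) (insV j (0 + r) y'))
        = cnt (0 : Vtx (d + 1) n → ℕ) * ∑ z : Vtx d n, (chr p z).re * Gm 0 (insV j r z) := by
      intro y
      rw [← Finset.sum_add_distrib, Finset.mul_sum]
      rw [← Equiv.sum_comp (Equiv.subRight y) (fun z : Vtx d n => cnt (0 : Vtx (d + 1) n → ℕ)
        * ((chr p z).re * Gm 0 (insV j r z)))]
      refine Finset.sum_congr rfl fun y' _ => ?_
      rw [← add_mul, birt_cs, birt_Gm hn, Gm_zero, birt_sub, zero_add, sub_zero,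
        Equiv.subRight_apply]
      ring
    rw [Finset.sum_congr rfl fun y _ => h2 y, Finset.sum_const, nsmul_eq_mul, Finset.card_univ]
    have hc : ((Fintype.card (Vtx d n) : ℕ) : ℝ) = (n : ℝ) ^ d := by
      simp [Vtx, ZMod.card]
    rw [hc]
    ring
  rw [Finset.sum_congr rfl fun r _ => by rw [h1 r]]
  -- right side
  have h3 : Gh (insV j κ p) = ∑ r : ZMod n, ∑ z : Vtx d n, Gm 0 (insV j r z)
      * ((ZMod.stdAddChar (κ * r) : ℂ) * chr p z).re := by
    unfold Gh
    rw [splitB_sum d n j]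
    refine Finset.sum_congr rfl fun r _ => Finset.sum_congr rfl fun z _ => ?_
    rw [← chr_insV]
    rfl
  have h4 : ∑ r : ZMod n, (ZMod.stdAddChar (κ * r) : ℂ).im
      * ∑ z : Vtx d n, Gm 0 (insV j r z) * (chr p z).im = 0 := by
    have h5 : ∑ r : ZMod n, (ZMod.stdAddChar (κ * r) : ℂ).im
        * ∑ z : Vtx d n, Gm 0 (insV j r z) * (chr p z).im
        = - ∑ r : ZMod n, (ZMod.stdAddChar (κ * r) : ℂ).im
        * ∑ z : Vtx d n, Gm 0 (insV j r z) * (chr p z).im := by
      conv_lhs => rw [← Equiv.sum_comp (Equiv.neg (ZMod n))]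
      rw [← Finset.sum_neg_distrib]
      refine Finset.sum_congr rfl fun r _ => ?_
      rw [Equiv.neg_apply, mul_neg, AddChar.map_neg_eq_conj, Complex.conj_im, neg_mul]
      congr 2
      refine Finset.sum_congr rfl fun z _ => ?_
      rw [← birt_rfl, Gm_refl]
    linarith
  have h6 : Gh (insV j κ p) = ∑ r : ZMod n, cr (κ * r)
      * ∑ z : Vtx d n, (chr p z).re * Gm 0 (insV j r z) := by
    rw [h3]
    have h7 : ∀ r : ZMod n, ∑ z : Vtx d n, Gm 0 (insV j r z)
        * ((ZMod.stdAddChar (κ * r) : ℂ) * chr p z).re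
        = cr (κ * r) * (∑ z : Vtx d n, (chr p z).re * Gm 0 (insV j r z))
          - (ZMod.stdAddChar (κ * r) : ℂ).im
            * ∑ z : Vtx d n, Gm 0 (insV j r z) * (chr p z).im := by
      intro r
      rw [Finset.mul_sum, Finset.mul_sum, ← Finset.sum_sub_distrib]
      refine Finset.sum_congr rfl fun z _ => ?_
      rw [Complex.mul_re, cr]
      ring
    rw [Finset.sum_congr rfl fun r _ => h7 r, Finset.sum_sub_distrib, h4, sub_zero]
  rw [h6, Finset.mul_sum]
  refine Finset.sum_congr rfl fun r _ => ?_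
  ring

theorem birt_half [NeZero n] (hn : 4 ≤ n) (he : Even n) (x : ZMod n) :
    (ZMod.stdAddChar (((n / 2 : ℕ) : ZMod n) * x) : ℂ) = (-1) ^ x.val := by
  have h1 : (ZMod.stdAddChar ((n / 2 : ℕ) : ZMod n) : ℂ) = -1 := by
    have h2 : (ZMod.stdAddChar ((n / 2 : ℕ) : ZMod n) : ℂ) ^ 2 = 1 := by
      rw [← AddChar.map_nsmul_eq_pow, nsmul_eq_mul]
      have : ((2 : ℕ) : ZMod n) * ((n / 2 : ℕ) : ZMod n) = 0 := by
        rw [← Nat.cast_mul, Nat.mul_div_cancel' he.two_dvd, ZMod.natCast_self]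
      rw [this, AddChar.map_zero_eq_one]
    have h2' : ((ZMod.stdAddChar ((n / 2 : ℕ) : ZMod n) : ℂ) - 1)
        * ((ZMod.stdAddChar ((n / 2 : ℕ) : ZMod n) : ℂ) + 1) = 0 := by
      linear_combination h2
    rcases mul_eq_zero.1 h2' with h | h
    · exfalso
      rw [sub_eq_zero] at h
      have h3 : ((n / 2 : ℕ) : ZMod n) = 0 := by
        apply ZMod.injective_stdAddChar
        rw [h, AddChar.map_zero_eq_one]
      rw [ZMod.natCast_eq_zero_iff] at h3
      have := Nat.le_of_dvd (by omega) h3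
      omega
    · exact eq_neg_of_add_eq_zero_left h
  have h4 : ((n / 2 : ℕ) : ZMod n) * x = x.val • ((n / 2 : ℕ) : ZMod n) := by
    rw [nsmul_eq_mul, ZMod.natCast_zmod_val, mul_comm]
  rw [h4, AddChar.map_nsmul_eq_pow, h1]

/-- parity of the monomer correlation -/
theorem Gh_half [NeZero n] (hn : 4 ≤ n) (he : Even n) (k : Vtx (d + 1) n) :
    Gh (fun i => k i + ((n / 2 : ℕ) : ZMod n)) = - Gh k := by
  unfold Gh
  rw [← Finset.sum_neg_distrib]
  refine Finset.sum_congr rfl fun x _ => ?_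
  have h1 : chr (fun i => k i + ((n / 2 : ℕ) : ZMod n)) x = (sgnV x : ℂ) * chr k x := by
    unfold chr sgnV
    push_cast
    rw [← Finset.prod_pow_eq_pow_sum, ← Finset.prod_mul_distrib]
    refine Finset.prod_congr rfl fun i _ => ?_
    rw [add_mul, AddChar.map_add_eq_mul, birt_half hn he, mul_comm]
  by_cases hs : sgnV (0 : Vtx (d + 1) n) = sgnV x
  · rw [Gm_parity (Nat.succ_pos d) hn he 0 x hs, zero_mul, zero_mul, neg_zero]
  · have h0 : sgnV (0 : Vtx (d + 1) n) = 1 := by simp [sgnV]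
    have h2 : sgnV x = -1 := by
      rcases btor_sgn_or x with h | h
      · exact absurd (h0.trans h.symm) hs
      · exact h
    rw [h1, h2]
    simp

/-- the averaged two point function at the layer level: for `u = 1` -/
theorem Gh_zero_layer [NeZero n] (hn : 4 ≤ n) :
    ∑ r : ZMod n, fN (layG d n hn) n (fun _ => 1) (fun _ => 1) (r.val + 1)
      = (n : ℝ) ^ d * cnt (0 : Vtx (d + 1) n → ℕ) * Gh (0 : Vtx (d + 1) n) := by
  have h := Gh_layer hn (0 : Fin (d + 1)) (0 : ZMod n) (0 : Vtx d n)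
  have h1 : cosV (0 : Vtx d n) = fun _ => 1 := by
    funext x
    rw [cosV, chr_zero_left, Complex.one_re]
  have h2 : sinV (0 : Vtx d n) = fun _ => 0 := by
    funext x
    rw [sinV, chr_zero_left, Complex.one_im]
  have h3 : insV (0 : Fin (d + 1)) (0 : ZMod n) (0 : Vtx d n) = 0 := by
    refine insV_ext 0 ?_ fun l => ?_
    · rw [insV_same]; rfl
    · rw [insV_succ]; rfl
  rw [h3] at h
  rw [← h]
  refine Finset.sum_congr rfl fun r _ => ?_
  have h4 : cr ((0 : ZMod n) * r) = 1 := by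
    rw [zero_mul, cr, AddChar.map_zero_eq_one, Complex.one_re]
  have h5 : fN (layG d n hn) n (fun _ => (0 : ℝ)) (fun _ => 0) (r.val + 1) = 0 := by
    rw [fN_expand]
    simp
  rw [h4, h1, h2, h5, add_zero, one_mul]

end LibDim
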