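import Pool.Agent.LibDimB.BVert
import Pool.Agent.LibDimB.BSpec

/-! Row VERTB: monotonicity and sum of the longitudinal modes. -/

namespace LibDim

open Finset Matrix

variable {d n : ℕ}

theorem EE_single [NeZero n] (k : Vtx d n) (i : Fin d) :
    EE (Pi.single i 1) k = ∑ τ ∈ PMs d n, ‖Jh k i τ‖ ^ 2 := by
  unfold EE
  refine Finset.sum_congr rfl fun τ _ => ?_
  have h : ∑ l, (Pi.single i 1 : Fin d → ℂ) l * Jh k l τ = Jh k i τ := by
    rw [Finset.sum_eq_single i]
    · rw [Pi.single_eq_same, one_mul]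
    · intro l _ hl
      rw [Pi.single_eq_of_ne hl, zero_mul]
    · intro h
      exact absurd (Finset.mem_univ i) h
  rw [h]

theorem psiN_psT (g : Gr (Vtx d n) (Vtx d n × Fin d)) [NeZero n] (u : Vtx d n → ℝ) (k : ZMod n) :
    psiN g n u k = psT n (lS g) (DM u) k := by
  unfold psiN psT
  rfl

/-- from `psT_mono` -/
theorem vert_mono [NeZero n] (hn : 4 ≤ n) (he : Even n) (j : Fin (d + 1)) (κ κ' : ZMod n)
    (p : Vtx d n) (h : eps κ ≤ eps κ') :
    EE (Pi.single j 1) (insV j κ' p) - EE (Pi.single j 1) (insV j ((n / 2 : ℕ) : ZMod n) p)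
      ≤ EE (Pi.single j 1) (insV j κ p) := by
  have hS : (lS (layG d n hn)).IsSymm := opL_symm _ _
  have hD : ∀ u : Vtx d n → ℝ, (DM u).IsSymm := fun u => by
    unfold DM
    exact Matrix.isSymm_diagonal _
  have hn0 : (0 : ℝ) ≤ (n : ℝ) := Nat.cast_nonneg n
  have e : ∀ q : ZMod n, EE (Pi.single j 1) (insV j q p)
      = n * (psT n (lS (layG d n hn)) (DM (fun y => sgnV y * cosV p y)) q
        + psT n (lS (layG d n hn)) (DM (fun y => sgnV y * sinV p y)) q) := fun q => by
    rw [EE_single, vert_mode hn he j q p, psiN_psT, psiN_psT]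
  rw [e, e, e]
  have h1 := psT_mono n hn he (lS (layG d n hn)) (DM (fun y => sgnV y * cosV p y)) hS (hD _) κ κ' h
  have h2 := psT_mono n hn he (lS (layG d n hn)) (DM (fun y => sgnV y * sinV p y)) hS (hD _) κ κ' h
  nlinarith [mul_le_mul_of_nonneg_left h1 hn0, mul_le_mul_of_nonneg_left h2 hn0]

/-- from `psT_sum` -/
theorem vert_sum [NeZero n] (hn : 4 ≤ n) (he : Even n) (j : Fin (d + 1)) (p : Vtx d n) :
    ∑ κ : ZMod n, EE (Pi.single j 1) (insV j κ p)
      = (n : ℝ) ^ 2 * ((DM (fun y => sgnV y * cosV p y) * DM (fun y => sgnV y * cosV p y)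
            * lS (layG d n hn) ^ n).trace
        + (DM (fun y => sgnV y * sinV p y) * DM (fun y => sgnV y * sinV p y)
            * lS (layG d n hn) ^ n).trace) := by
  have e : ∀ q : ZMod n, EE (Pi.single j 1) (insV j q p)
      = n * (psT n (lS (layG d n hn)) (DM (fun y => sgnV y * cosV p y)) q
        + psT n (lS (layG d n hn)) (DM (fun y => sgnV y * sinV p y)) q) := fun q => by
    rw [EE_single, vert_mode hn he j q p, psiN_psT, psiN_psT]
  rw [Finset.sum_congr rfl fun q _ => e q, ← Finset.mul_sum, Finset.sum_add_distrib, psT_sum,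
    psT_sum]
  ring

end LibDim
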