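import Pool.Agent.LibDimB.BWin

/-! Row WINB: an abstract lemma on two functions of two momenta. -/

namespace LibDim

open Finset

theorem bwinb_half_eps {n : ℕ} [NeZero n] (hn : 4 ≤ n) (he : Even n) :
    eps (((n / 2 : ℕ) : ZMod n)) = 4 := by
  have h := cr_half he (1 : ZMod n)
  rw [mul_one] at h
  have h1 : (1 : ZMod n).val = 1 := by
    haveI : Fact (1 < n) := ⟨by omega⟩
    exact ZMod.val_one n
  rw [h1] at h
  unfold eps
  rw [h]
  norm_num

theorem bwinb_sqrt_gap {n : ℕ} [NeZero n] (a : ZMod n) (h : a ≠ 0) :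
    1 ≤ Real.sqrt (eps a) * n / 4 := by
  have h1 := eps_gap a h
  have hn : (0 : ℝ) < n := by exact_mod_cast Nat.pos_of_ne_zero (NeZero.ne n)
  have h2 : Real.sqrt (16 / (n : ℝ) ^ 2) = 4 / n := by
    rw [Real.sqrt_eq_iff_mul_self_eq (by positivity) (by positivity)]
    field_simp
    norm_num
  have h3 := Real.sqrt_le_sqrt h1
  rw [h2, div_le_iff₀ hn] at h3
  linarith

/-- the sum over all momenta -/
theorem bwinb_split {n : ℕ} [NeZero n] (C W κ κP h e : ℝ) (hC : 0 < C) (hκ : 0 ≤ κ)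
    (hκP : 0 < κP) (hW : 0 < W) (hh : 0 ≤ h) (F : ZMod n → ℝ) (h0 : ∀ k, 0 ≤ F k)
    (hFC : ∀ k, F k ≤ C)
    (hmid : ∀ k, κ ≤ Real.sqrt (eps k) → F k ≤ h)
    (hF2 : ∀ k, W * κP < Real.sqrt (eps k) → F k ≤ e * (1 / eps k)) (he : 0 ≤ e)
    (hc1 : 1 ≤ κ * n / 4) (hc2 : 1 ≤ κP * n / 4) :
    ∑ k, F k ≤ C * (κ * n * (3 / 4)) + h * ((W / 2 + 1 / 4) * κP * n)
      + e * (Real.pi * n / (2 * (W * κP))) := by
  have hWκ : 0 < W * κP := mul_pos hW hκP
  have h1 : ∀ k ∈ (univ : Finset (ZMod n)), F k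
      ≤ (if Real.sqrt (eps k) ≤ κ then C else 0)
        + (if Real.sqrt (eps k) ≤ W * κP then h else 0)
        + (if W * κP < Real.sqrt (eps k) then e * (1 / eps k) else 0) := by
    intro k _
    have hek : 0 ≤ e * (1 / eps k) := mul_nonneg he (by have := eps_nonneg k; positivity)
    have t1 : 0 ≤ (if Real.sqrt (eps k) ≤ κ then C else 0) := by
      split_ifs
      · exact hC.le
      · exact le_refl _
    have t2 : 0 ≤ (if Real.sqrt (eps k) ≤ W * κP then h else 0) := by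
      split_ifs
      · exact hh
      · exact le_refl _
    have t3 : 0 ≤ (if W * κP < Real.sqrt (eps k) then e * (1 / eps k) else 0) := by
      split_ifs
      · exact hek
      · exact le_refl _
    rcases le_or_gt (Real.sqrt (eps k)) κ with h2 | h2
    · have := hFC k
      rw [if_pos h2]
      linarith
    · rcases le_or_gt (Real.sqrt (eps k)) (W * κP) with h3 | h3
      · have := hmid k h2.le
        rw [if_pos h3] at t2 ⊢
        linarith
      · have := hF2 k h3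
        rw [if_pos h3] at t3 ⊢
        linarith
  refine (Finset.sum_le_sum h1).trans ?_
  rw [Finset.sum_add_distrib, Finset.sum_add_distrib, ← Finset.sum_filter, ← Finset.sum_filter,
    ← Finset.sum_filter, Finset.sum_const, Finset.sum_const, nsmul_eq_mul, nsmul_eq_mul,
    ← Finset.mul_sum]
  have w1 := win_count (n := n) κ hκ
  have w2 := win_count (n := n) (W * κP) hWκ.le
  have w3 := win_tail (n := n) (W * κP) hWκ
  have w3' := mul_le_mul_of_nonneg_left w3 he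
  have w1' : ((univ.filter (fun a : ZMod n => Real.sqrt (eps a) ≤ κ)).card : ℝ) * C
      ≤ C * (κ * n * (3 / 4)) := by
    rw [mul_comm]
    refine mul_le_mul_of_nonneg_left ?_ hC.le
    linarith
  have w2' : ((univ.filter (fun a : ZMod n => Real.sqrt (eps a) ≤ W * κP)).card : ℝ) * h
      ≤ h * ((W / 2 + 1 / 4) * κP * n) := by
    rw [mul_comm]
    refine mul_le_mul_of_nonneg_left ?_ hh
    have e1 : (W / 2 + 1 / 4) * κP * n = W * κP * n / 2 + κP * n / 4 := by ring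
    rw [e1]
    linarith
  linarith

/-- One half of the window lemma. Put `κ = √(eps a)`, `m = ⌈5 C / c1⌉ + 2`, `P = m a`, `κ_P = √(eps P)`,
`(2/π) m κ ≤ κ_P ≤ m κ`, `W = 2 π C / c1`. Split `∑_k A k P ≥ n c1 κ_P` into `eps k < eps a` (at most `(3/4) κ n` terms `≤ C`,
together `≤ (1/4) c1 κ_P n`), `eps a ≤ eps k ≤ (W κ_P)²` (at most `(W/2 + 1/4) κ_P n` terms, each `≤ h = A a P + A (n/2) P`),
and the rest (`A k P = eps P B k P / eps k`, `win_tail`, together `≤ (1/4) c1 κ_P n`). So `h ≥ h0 = 2 c1 / (2 W + 1)`.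
`A (n/2) P ≤ C κ_P²/4`, so `A a P ≥ h0/2`, `B a P = eps a A a P / eps P ≥ h0 / (2 m²)`, `B a b ≥ B a P - B a (n/2)`,
`B a (n/2) ≤ C κ²/4`. `c = h0 / (4 m²)`. -/
theorem bwin_half (C c1 : ℝ) (hC : 0 < C) (hc1 : 0 < c1) :
    ∃ c δ : ℝ, 0 < c ∧ 0 < δ ∧ ∀ (n : ℕ) [NeZero n], 4 ≤ n → Even n →
      ∀ A B : ZMod n → ZMod n → ℝ,
      (∀ a b, 0 ≤ A a b) → (∀ a b, A a b ≤ C) → (∀ a b, 0 ≤ B a b) → (∀ a b, B a b ≤ C) →
      (∀ a b, eps a * A a b = eps b * B a b) →
      (∀ a a' b, eps a ≤ eps a' → A a' b - A ((n / 2 : ℕ) : ZMod n) b ≤ A a b) →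
      (∀ a b b', eps b ≤ eps b' → B a b' - B a ((n / 2 : ℕ) : ZMod n) ≤ B a b) →
      (∀ b, b ≠ 0 → eps b ≤ 1 → n * c1 * Real.sqrt (eps b) ≤ ∑ a, A a b) →
      ∀ a b, a ≠ 0 → eps b ≤ eps a → eps a ≤ δ → c ≤ B a b := by
  obtain ⟨m0, hm0⟩ := exists_nat_gt (5 * C / c1)
  set m : ℕ := m0 + 2 with hm
  set W : ℝ := 2 * Real.pi * C / c1 with hW
  set h0 : ℝ := 2 * c1 / (2 * W + 1) with hh0
  have hpi := Real.pi_pos
  have hpi3 := Real.pi_gt_three
  have hpi4 := Real.pi_lt_four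
  have hWpos : 0 < W := by positivity
  have h0pos : 0 < h0 := by positivity
  have hmR : (5 * C / c1) < m := by
    rw [hm]
    push_cast
    linarith
  have hm2 : (2 : ℝ) ≤ m := by
    rw [hm]
    push_cast
    have : (0 : ℝ) ≤ m0 := by positivity
    linarith
  have hmpos : (0 : ℝ) < m := by linarith
  have hCm : 5 * C < m * c1 := by
    rw [div_lt_iff₀ hc1] at hmR
    exact hmR
  refine ⟨h0 / (4 * m ^ 2), min (1 / m ^ 2) (h0 / (C * m ^ 2)), by positivity,
    lt_min (by positivity) (by positivity), ?_⟩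
  intro n inst hn4 he A B hA0 hAC hB0 hBC hAB h3 h4 h5 a b ha hab hδ
  have hnpos : (0 : ℝ) < n := by exact_mod_cast (by omega : 0 < n)
  have hδ1 : eps a ≤ 1 / (m : ℝ) ^ 2 := hδ.trans (min_le_left _ _)
  have hδ2 : eps a ≤ h0 / (C * (m : ℝ) ^ 2) := hδ.trans (min_le_right _ _)
  have hea0 := eps_nonneg a
  have hgap := eps_gap a ha
  have heapos : 0 < eps a := lt_of_lt_of_le (by positivity) hgap
  set κ := Real.sqrt (eps a) with hκ
  have hκpos : 0 < κ := Real.sqrt_pos.mpr heapos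
  have hκsq : κ ^ 2 = eps a := Real.sq_sqrt hea0
  have hmκ : m * κ ≤ 1 := by
    have h6 : (m * κ) ^ 2 ≤ 1 ^ 2 := by
      rw [mul_pow, hκsq, one_pow]
      rw [le_div_iff₀ (by positivity)] at hδ1
      linarith
    exact (pow_le_pow_iff_left₀ (by positivity) (by norm_num) (by norm_num)).mp h6
  set P : ZMod n := (m : ZMod n) * a with hP
  set κP := Real.sqrt (eps P) with hκP
  have hle : κP ≤ m * κ := win_mul_le m a
  have hge : 2 / Real.pi * (m * κ) ≤ κP := win_mul_ge m a (by linarith)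
  have hκPpos : 0 < κP := lt_of_lt_of_le (by positivity) hge
  have heP0 := eps_nonneg P
  have hκPsq : κP ^ 2 = eps P := Real.sq_sqrt heP0
  have hePpos : 0 < eps P := by
    rw [← hκPsq]
    positivity
  have hP0 : P ≠ 0 := by
    intro h
    rw [h, eps_zero] at hePpos
    exact lt_irrefl _ hePpos
  have heP1 : eps P ≤ 1 := by
    rw [← hκPsq]
    have : κP ≤ 1 := hle.trans hmκ
    nlinarith
  -- `κ ≤ κP`
  have hκκP : κ ≤ κP := by
    have h6 : κ ≤ 2 / Real.pi * (m * κ) := by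
      rw [div_mul_eq_mul_div, le_div_iff₀ hpi]
      have : κ * Real.pi ≤ κ * 4 := mul_le_mul_of_nonneg_left hpi4.le hκpos.le
      nlinarith
    linarith
  have hsum := h5 P hP0 heP1
  -- the middle bound
  set hh : ℝ := A a P + A ((n / 2 : ℕ) : ZMod n) P with hhh
  have hhh0 : 0 ≤ hh := add_nonneg (hA0 _ _) (hA0 _ _)
  have hmid : ∀ k, κ ≤ Real.sqrt (eps k) → A k P ≤ hh := by
    intro k hk
    have h6 : eps a ≤ eps k := by
      have h7 : κ ^ 2 ≤ Real.sqrt (eps k) ^ 2 := pow_le_pow_left₀ hκpos.le hk 2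
      rwa [hκsq, Real.sq_sqrt (eps_nonneg k)] at h7
    have h8 := h3 a k P h6
    linarith
  have htail : ∀ k, W * κP < Real.sqrt (eps k) → A k P ≤ (eps P * C) * (1 / eps k) := by
    intro k hk
    have h6 : 0 < Real.sqrt (eps k) := lt_trans (by positivity) hk
    have h7 : 0 < eps k := Real.sqrt_pos.mp h6
    rw [mul_one_div, le_div_iff₀ h7, mul_comm, hAB k P]
    exact mul_le_mul_of_nonneg_left (hBC k P) heP0
  have hg1 := bwinb_sqrt_gap a ha
  have hg2 := bwinb_sqrt_gap P hP0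
  have hsplit := bwinb_split C W κ κP hh (eps P * C) hC hκpos.le hκPpos hWpos hhh0
    (fun k => A k P) (fun k => hA0 k P) (fun k => hAC k P) hmid htail
    (mul_nonneg heP0 hC.le) hg1 hg2
  -- bounds for the first and the last part
  have hp1 : C * (κ * n * (3 / 4)) ≤ c1 / 4 * (κP * n) := by
    have h6 : κ * m ≤ Real.pi / 2 * κP := by
      have h7 : 2 / Real.pi * (m * κ) = (κ * m) * (2 / Real.pi) := by ring
      rw [h7] at hge
      have h8 : (κ * m) * (2 / Real.pi) * (Real.pi / 2) ≤ κP * (Real.pi / 2) :=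
        mul_le_mul_of_nonneg_right hge (by positivity)
      have h9 : (κ * m) * (2 / Real.pi) * (Real.pi / 2) = κ * m := by
        field_simp
      rw [h9] at h8
      linarith
    have hpi5 : Real.pi < 3.15 := Real.pi_lt_d2
    have h7 : C * (κ * (3 / 4)) * 5 ≤ c1 / 4 * κP * 5 := by
      have h8 : (5 * C) * κ ≤ (m * c1) * κ := mul_le_mul_of_nonneg_right hCm.le hκpos.le
      have h9 : c1 * (κ * m) ≤ c1 * (Real.pi / 2 * κP) := mul_le_mul_of_nonneg_left h6 hc1.le
      have h10 : c1 * (Real.pi / 2 * κP) ≤ c1 * (3.15 / 2 * κP) := by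
        refine mul_le_mul_of_nonneg_left (mul_le_mul_of_nonneg_right (by linarith) hκPpos.le) hc1.le
      have h11 : 0 < c1 * κP := mul_pos hc1 hκPpos
      nlinarith
    have h12 : C * (κ * (3 / 4)) ≤ c1 / 4 * κP := by linarith
    have h13 := mul_le_mul_of_nonneg_right h12 hnpos.le
    linarith
  have hp3 : (eps P * C) * (Real.pi * n / (2 * (W * κP))) ≤ c1 / 4 * (κP * n) := by
    rw [← hκPsq, hW]
    have : (κP ^ 2 * C) * (Real.pi * n / (2 * (2 * Real.pi * C / c1 * κP)))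
        = c1 / 4 * (κP * n) := by
      field_simp
      ring
    exact this.le
  have hhlow : h0 ≤ hh := by
    have h6 : c1 / 2 * (κP * n) ≤ hh * ((W / 2 + 1 / 4) * κP * n) := by
      have h7 : n * c1 * κP = c1 * (κP * n) := by ring
      rw [h7] at hsum
      have h8 : c1 * (κP * n) ≤ C * (κ * n * (3 / 4)) + hh * ((W / 2 + 1 / 4) * κP * n)
          + eps P * C * (Real.pi * n / (2 * (W * κP))) := hsum.trans hsplit
      linarith
    have h9 : c1 / 2 ≤ hh * (W / 2 + 1 / 4) := by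
      have h10 : c1 / 2 * (κP * n) ≤ (hh * (W / 2 + 1 / 4)) * (κP * n) := by
        calc c1 / 2 * (κP * n) ≤ hh * ((W / 2 + 1 / 4) * κP * n) := h6
          _ = _ := by ring
      exact le_of_mul_le_mul_right h10 (by positivity)
    rw [hh0, div_le_iff₀ (by positivity)]
    linarith
  -- the values at `n / 2`
  have h44 := bwinb_half_eps hn4 he
  have hAh : A ((n / 2 : ℕ) : ZMod n) P ≤ h0 / 2 := by
    have h6 := hAB ((n / 2 : ℕ) : ZMod n) P
    rw [h44] at h6
    have h7 : eps P * B ((n / 2 : ℕ) : ZMod n) P ≤ eps P * C :=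
      mul_le_mul_of_nonneg_left (hBC _ _) heP0
    have h8 : eps P ≤ m ^ 2 * eps a := by
      rw [← hκPsq, ← hκsq, ← mul_pow]
      exact pow_le_pow_left₀ hκPpos.le hle 2
    have h9 : (m : ℝ) ^ 2 * eps a * C ≤ h0 := by
      rw [le_div_iff₀ (by positivity)] at hδ2
      linarith
    have h10 : eps P * C ≤ (m : ℝ) ^ 2 * eps a * C := mul_le_mul_of_nonneg_right h8 hC.le
    linarith
  have hAa : h0 / 2 ≤ A a P := by linarith
  have hBP : h0 / (2 * m ^ 2) ≤ B a P := by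
    have h6 := hAB a P
    have h8 : eps P ≤ m ^ 2 * eps a := by
      rw [← hκPsq, ← hκsq, ← mul_pow]
      exact pow_le_pow_left₀ hκPpos.le hle 2
    have h9 : eps a * (h0 / 2) ≤ m ^ 2 * eps a * B a P := by
      calc eps a * (h0 / 2) ≤ eps a * A a P := mul_le_mul_of_nonneg_left hAa hea0
        _ = eps P * B a P := h6
        _ ≤ m ^ 2 * eps a * B a P := mul_le_mul_of_nonneg_right h8 (hB0 _ _)
    have h10 : h0 / 2 ≤ m ^ 2 * B a P := by
      have h11 : eps a * (h0 / 2) ≤ eps a * (m ^ 2 * B a P) := by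
        calc eps a * (h0 / 2) ≤ m ^ 2 * eps a * B a P := h9
          _ = _ := by ring
      exact le_of_mul_le_mul_left h11 heapos
    rw [div_le_iff₀ (by positivity)]
    linarith
  have hBh : B a ((n / 2 : ℕ) : ZMod n) ≤ h0 / (4 * m ^ 2) := by
    have h6 := hAB a ((n / 2 : ℕ) : ZMod n)
    rw [h44] at h6
    have h7 : eps a * A a ((n / 2 : ℕ) : ZMod n) ≤ eps a * C :=
      mul_le_mul_of_nonneg_left (hAC _ _) hea0
    have h9 : (m : ℝ) ^ 2 * eps a * C ≤ h0 := by
      rw [le_div_iff₀ (by positivity)] at hδ2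
      linarith
    rw [le_div_iff₀ (by positivity)]
    have h10 : 4 * B a ((n / 2 : ℕ) : ZMod n) * m ^ 2 ≤ eps a * C * m ^ 2 :=
      mul_le_mul_of_nonneg_right (by linarith) (by positivity)
    linarith
  have hebP : eps b ≤ eps P := by
    refine hab.trans ?_
    rw [← hκPsq, ← hκsq]
    exact pow_le_pow_left₀ hκpos.le hκκP 2
  have h6 := h4 a b P hebP
  have e1 : h0 / (2 * (m : ℝ) ^ 2) = h0 / (4 * m ^ 2) + h0 / (4 * m ^ 2) := by
    field_simp
    norm_num
  linarith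

theorem bwin (C c1 : ℝ) (hC : 0 < C) (hc1 : 0 < c1) :
    ∃ c δ : ℝ, 0 < c ∧ 0 < δ ∧ ∀ (n : ℕ) [NeZero n], 4 ≤ n → Even n →
      ∀ A B : ZMod n → ZMod n → ℝ,
      (∀ a b, 0 ≤ A a b) → (∀ a b, A a b ≤ C) → (∀ a b, 0 ≤ B a b) → (∀ a b, B a b ≤ C) →
      (∀ a b, eps a * A a b = eps b * B a b) →
      (∀ a a' b, eps a ≤ eps a' → A a' b - A ((n / 2 : ℕ) : ZMod n) b ≤ A a b) →
      (∀ a b b', eps b ≤ eps b' → B a b' - B a ((n / 2 : ℕ) : ZMod n) ≤ B a b) →
      (∀ b, b ≠ 0 → eps b ≤ 1 → n * c1 * Real.sqrt (eps b) ≤ ∑ a, A a b) →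
      (∀ a, a ≠ 0 → eps a ≤ 1 → n * c1 * Real.sqrt (eps a) ≤ ∑ b, B a b) →
      ∀ a b, (a ≠ 0 ∨ b ≠ 0) → eps a + eps b ≤ δ →
        (eps a ≤ eps b → c ≤ A a b) ∧ (eps b ≤ eps a → c ≤ B a b) := by
  obtain ⟨c, δ, hc, hδ, H⟩ := bwin_half C c1 hC hc1
  refine ⟨c, δ, hc, hδ, ?_⟩
  intro n inst hn4 he A B hA0 hAC hB0 hBC hAB h3 h4 h5 h6 a b hne hsum
  have hnz : ∀ x y : ZMod n, (x ≠ 0 ∨ y ≠ 0) → eps y ≤ eps x → x ≠ 0 := by
    intro x y h hxy hx
    subst hx
    have hy : y ≠ 0 := by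
      rcases h with h | h
      · exact absurd rfl h
      · exact h
    have h7 := eps_gap y hy
    rw [eps_zero] at hxy
    have hnpos : (0 : ℝ) < n := by exact_mod_cast (by omega : 0 < n)
    have h8 : 0 < 16 / (n : ℝ) ^ 2 := by positivity
    linarith
  have ha0 := eps_nonneg a
  have hb0 := eps_nonneg b
  constructor
  · intro hab
    exact H n hn4 he (fun x y => B y x) (fun x y => A y x) (fun x y => hB0 y x)
      (fun x y => hBC y x) (fun x y => hA0 y x) (fun x y => hAC y x)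
      (fun x y => (hAB y x).symm) (fun x x' y h => h4 y x x' h) (fun x y y' h => h3 y y' x h)
      h6 b a (hnz b a hne.symm hab) hab (by linarith)
  · intro hba
    exact H n hn4 he A B hA0 hAC hB0 hBC hAB h3 h4 h5 a b (hnz a b hne hba) hba (by linarith)

end LibDim
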