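import Pool.Agent.LibDimB.BSp
import Pool.Agent.LibDimB.BVertB
import Pool.Agent.LibDimB.BContB
import Pool.Agent.LibDimB.BWinB

/-! Row MODE: lower bound for the modes static in one direction, `d = 3`. -/

namespace LibDim

open Finset Matrix

/-- the momentum `a e_i + b e_l` -/
def bmode_k {n : ℕ} (i l : Fin 3) (a b : ZMod n) : Vtx 3 n :=
  fun m => if m = i then a else if m = l then b else 0

theorem bmode_k_symm {n : ℕ} (i l : Fin 3) (h : i ≠ l) (a b : ZMod n) :
    bmode_k i l a b = bmode_k l i b a := by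
  funext m
  unfold bmode_k
  by_cases h1 : m = i
  · have h2 : m ≠ l := fun h3 => h (h1.symm.trans h3)
    simp [h1, h]
  · by_cases h2 : m = l
    · simp [h2, h.symm]
    · simp [h1, h2]

/-- the momentum of the layer -/
def bmode_p {n : ℕ} (i l : Fin 3) (b : ZMod n) : Vtx 2 n :=
  fun m => if i.succAbove m = l then b else 0

theorem bmode_ins {n : ℕ} (i l : Fin 3) (a b : ZMod n) :
    bmode_k i l a b = insV i a (bmode_p i l b) := by
  have h := insV_self i (bmode_k i l a b)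
  rw [← h]
  have h1 : bmode_k i l a b i = a := by simp [bmode_k]
  have h2 : (fun k => bmode_k i l a b (i.succAbove k)) = bmode_p i l b := by
    funext m
    simp [bmode_k, bmode_p, Fin.succAbove_ne]
  rw [h1, h2]

theorem bmode_EL_p {n : ℕ} [NeZero n] (i l : Fin 3) (h : i ≠ l) (b : ZMod n) :
    EL (bmode_p i l b) = eps b := by
  obtain ⟨m₀, hm₀⟩ := Fin.exists_succAbove_eq h.symm
  unfold EL
  rw [Finset.sum_eq_single m₀]
  · simp [bmode_p, hm₀]
  · intro m _ hm
    have h1 : i.succAbove m ≠ l := fun h2 => hm (Fin.succAbove_right_injective (h2.trans hm₀.symm))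
    simp [bmode_p, h1, eps_zero]
  · intro h1
    exact absurd (Finset.mem_univ _) h1

theorem bmode_EL {n : ℕ} [NeZero n] (i l : Fin 3) (h : i ≠ l) (a b : ZMod n) :
    EL (bmode_k i l a b) = eps a + eps b := by
  rw [bmode_ins, EL_insV, bmode_EL_p i l h]

theorem bmode_third (i l : Fin 3) : ∃ j : Fin 3, j ≠ i ∧ j ≠ l := by
  decide +revert

theorem bmode_upper {n : ℕ} [NeZero n] (hn : 4 ≤ n) (he : Even n) (i l : Fin 3) (a b : ZMod n) :
    EE (Pi.single i 1) (bmode_k i l a b) ≤ 15 / 2 * (n : ℝ) ^ 3 * ZP 3 n := by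
  obtain ⟨j, hj1, hj2⟩ := bmode_third i l
  exact mode_upper hn he _ i j hj1.symm (by simp [bmode_k, hj1, hj2])

theorem bmode_mono {n : ℕ} [NeZero n] (hn : 4 ≤ n) (he : Even n) (i l : Fin 3) (a a' b : ZMod n)
    (h : eps a ≤ eps a') :
    EE (Pi.single i 1) (bmode_k i l a' b) - EE (Pi.single i 1) (bmode_k i l ((n / 2 : ℕ) : ZMod n) b)
      ≤ EE (Pi.single i 1) (bmode_k i l a b) := by
  rw [bmode_ins, bmode_ins, bmode_ins]
  exact vert_mono hn he i a a' (bmode_p i l b) h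

theorem bmode_sum {n : ℕ} [NeZero n] (hn : 4 ≤ n) (h15 : 15000 ≤ n) (he : Even n) (i l : Fin 3)
    (h : i ≠ l) (b : ZMod n) (hb : b ≠ 0) (hb1 : eps b ≤ 1) :
    (n : ℝ) ^ 2 * ((n : ℝ) ^ 2 * Real.sqrt (eps b) * ZP 3 n / 10 ^ 11)
      ≤ ∑ a, EE (Pi.single i 1) (bmode_k i l a b) := by
  have h1 := vert_sum hn he i (bmode_p i l b)
  have hp : bmode_p i l b ≠ 0 := by
    obtain ⟨m₀, hm₀⟩ := Fin.exists_succAbove_eq h.symm
    intro h2
    have h3 := congrFun h2 m₀
    simp [bmode_p, hm₀] at h3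
    exact hb h3
  have h2 := Sp_low hn h15 he (bmode_p i l b) hp (by rw [bmode_EL_p i l h]; exact hb1)
  rw [bmode_EL_p i l h] at h2
  have h3 : ∑ a, EE (Pi.single i 1) (bmode_k i l a b) = ∑ a, EE (Pi.single i 1) (insV i a (bmode_p i l b)) :=
    Finset.sum_congr rfl fun a _ => by rw [bmode_ins]
  rw [h3, h1]
  exact mul_le_mul_of_nonneg_left h2 (by positivity)

theorem bmode_pair {n : ℕ} [NeZero n] (hn : 4 ≤ n) (he : Even n) (i l : Fin 3) (h : i ≠ l)
    (a b : ZMod n) :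
    eps a * EE (Pi.single i 1) (bmode_k i l a b) = eps b * EE (Pi.single l 1) (bmode_k i l a b) := by
  obtain ⟨j, hj1, hj2⟩ := bmode_third i l
  have hhalf : (((n / 2 : ℕ) : ℕ) : ZMod n) ≠ 0 := by
    intro h1
    rw [ZMod.natCast_eq_zero_iff] at h1
    have h2 := Nat.le_of_dvd (by omega) h1
    omega
  have h1 := EE_pair hn he (bmode_k i l a b) i l h
    (fun m hm1 hm2 => by simp [bmode_k, hm1, hm2]) j
    (by
      have : bmode_k i l a b j = 0 := by simp [bmode_k, hj1, hj2]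
      rw [this]
      exact hhalf.symm)
    (Pi.single i 1) (fun m hm1 _ => by rw [Pi.single_eq_of_ne hm1])
  have h2 : bmode_k i l a b i = a := by simp [bmode_k]
  have h3 : bmode_k i l a b l = b := by simp [bmode_k, h.symm]
  rw [chr_stp, chr_stp, h2, h3, Pi.single_eq_of_ne h.symm, Pi.single_eq_same, zero_mul, one_mul, zero_sub,
    norm_neg, ← eps_norm, ← eps_norm] at h1
  exact h1

/-- modes static in the third direction: `bwin` with `C = 15/2`, `c1 = 10⁻¹¹`,
`A a b = EE (e_i) k / (n³ Z)`, `B a b = EE (e_l) k / (n³ Z)`, `k = a e_i + b e_l` -/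
theorem win3 : ∃ c δ : ℝ, 0 < c ∧ 0 < δ ∧ ∃ N0 : ℕ, ∀ (n : ℕ) [NeZero n], N0 ≤ n → Even n →
    ∀ i l : Fin 3, i ≠ l → ∀ k : Vtx 3 n, (∀ m, m ≠ i → m ≠ l → k m = 0) → k ≠ 0 → EL k ≤ δ →
      (eps (k i) ≤ eps (k l) → c * (n : ℝ) ^ 3 * ZP 3 n ≤ EE (Pi.single i 1) k) ∧
      (eps (k l) ≤ eps (k i) → c * (n : ℝ) ^ 3 * ZP 3 n ≤ EE (Pi.single l 1) k) := by
  obtain ⟨c, δ, hc, hδ, H⟩ := bwin (15 / 2) (1 / 10 ^ 11) (by norm_num) (by norm_num)
  refine ⟨c, δ, hc, hδ, 15000, ?_⟩
  intro n _ hN he i l hil k hk hk0 hEL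
  have hn : 4 ≤ n := by omega
  by_cases hZ : ZP 3 n = 0
  · rw [hZ, mul_zero]
    exact ⟨fun _ => EE_nonneg _ _, fun _ => EE_nonneg _ _⟩
  have hZ0 : 0 ≤ ZP 3 n := Nat.cast_nonneg _
  have hZpos : 0 < ZP 3 n := lt_of_le_of_ne hZ0 (Ne.symm hZ)
  have hnR : (0 : ℝ) < n := by
    have : 0 < n := by omega
    exact_mod_cast this
  have hW : 0 < (n : ℝ) ^ 3 * ZP 3 n := by positivity
  have hkk : k = bmode_k i l (k i) (k l) := by
    funext m
    by_cases h1 : m = i
    · rw [h1]; simp [bmode_k]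
    · by_cases h2 : m = l
      · rw [h2]; simp [bmode_k, hil.symm]
      · rw [hk m h1 h2]; simp [bmode_k, h1, h2]
  have hsum : ∀ i l : Fin 3, i ≠ l → ∀ b : ZMod n, b ≠ 0 → eps b ≤ 1 →
      n * (1 / 10 ^ 11 : ℝ) * Real.sqrt (eps b) ≤
        ∑ a, EE (Pi.single i 1) (bmode_k i l a b) / ((n : ℝ) ^ 3 * ZP 3 n) := by
    intro i l h b hb hb1
    rw [← Finset.sum_div, le_div_iff₀ hW]
    refine le_trans (le_of_eq ?_) (bmode_sum hn hN he i l h b hb hb1)
    ring
  have key := H n hn he (fun a b => EE (Pi.single i 1) (bmode_k i l a b) / ((n : ℝ) ^ 3 * ZP 3 n))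
    (fun a b => EE (Pi.single l 1) (bmode_k i l a b) / ((n : ℝ) ^ 3 * ZP 3 n))
    (fun a b => div_nonneg (EE_nonneg _ _) hW.le)
    (fun a b => by
      rw [div_le_iff₀ hW, ← mul_assoc]
      exact bmode_upper hn he i l a b)
    (fun a b => div_nonneg (EE_nonneg _ _) hW.le)
    (fun a b => by
      rw [div_le_iff₀ hW, ← mul_assoc, bmode_k_symm i l hil]
      exact bmode_upper hn he l i b a)
    (fun a b => by
      rw [mul_div_assoc', mul_div_assoc', bmode_pair hn he i l hil a b])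
    (fun a a' b h => by
      rw [← sub_div]
      exact div_le_div_of_nonneg_right (bmode_mono hn he i l a a' b h) hW.le)
    (fun a b b' h => by
      rw [← sub_div, bmode_k_symm i l hil, bmode_k_symm i l hil, bmode_k_symm i l hil]
      exact div_le_div_of_nonneg_right (bmode_mono hn he l i b b' a h) hW.le)
    (fun b hb hb1 => hsum i l hil b hb hb1)
    (fun a ha ha1 => by
      refine (hsum l i hil.symm a ha ha1).trans (le_of_eq ?_)
      refine Finset.sum_congr rfl fun b _ => ?_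
      rw [bmode_k_symm i l hil])
    (k i) (k l)
    (by
      by_contra hcon
      rw [not_or, not_not, not_not] at hcon
      apply hk0
      funext m
      by_cases h1 : m = i
      · rw [h1, hcon.1]; rfl
      · by_cases h2 : m = l
        · rw [h2, hcon.2]; rfl
        · exact hk m h1 h2)
    (by rw [← bmode_EL i l hil, ← hkk]; exact hEL)
  rw [← hkk] at key
  constructor
  · intro h
    have h1 := key.1 h
    rw [le_div_iff₀ hW, ← mul_assoc] at h1
    exact h1
  · intro h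
    have h1 := key.2 h
    rw [le_div_iff₀ hW, ← mul_assoc] at h1
    exact h1

end LibDim
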