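import Pool.Agent.LibDimB.BMode
import Pool.Agent.LibDimB.BInpB

/-! Row MODEB: lower bound for the general mode, `d = 3`. -/

namespace LibDim

open Finset Matrix

theorem BModeB_eps_half {n : ℕ} [NeZero n] (hn : 2 ≤ n) (he : Even n) :
    eps ((n / 2 : ℕ) : ZMod n) = 4 := by
  have h := cr_half he (1 : ZMod n)
  rw [mul_one] at h
  have h1 : (1 : ZMod n).val = 1 := by
    haveI : Fact (1 < n) := ⟨by omega⟩
    exact ZMod.val_one n
  rw [h1, pow_one] at h
  unfold eps
  rw [h]
  norm_num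

theorem BModeB_norm {d n : ℕ} [NeZero n] (k : Vtx d n) (i : Fin d) :
    ‖1 - chr k (stp i)‖ ^ 2 = eps (k i) := by
  rw [chr_stp, eps_norm]

theorem BModeB_half_ne {n : ℕ} [NeZero n] (hn : 2 ≤ n) (he : Even n) (a : ZMod n)
    (h : eps a ≤ 1) : a ≠ ((n / 2 : ℕ) : ZMod n) := by
  intro h1
  rw [h1, BModeB_eps_half hn he] at h
  norm_num at h

theorem BModeB_eps_le {d n : ℕ} [NeZero n] (k : Vtx d n) (i : Fin d) : eps (k i) ≤ EL k := by
  unfold EL
  exact Finset.single_le_sum (f := fun i => eps (k i)) (fun m _ => eps_nonneg (k m))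
    (Finset.mem_univ i)

/-- the reduction to coefficients without the component `j` -/
theorem BModeB_red {d n : ℕ} [NeZero n] (hn : 4 ≤ n) (he : Even n) (k : Vtx d n) (j : Fin d)
    (hk : EL k ≤ 1) (b : Fin d → ℂ) :
    ∃ b' : Fin d → ℂ, b' j = 0 ∧ EE b' k ≤ EE b k ∧ ∀ i l : Fin d, i ≠ j → l ≠ j →
      b' i * (1 - chr k (stp l)) - b' l * (1 - chr k (stp i))
        = b i * (1 - chr k (stp l)) - b l * (1 - chr k (stp i)) := by
  by_cases h : k j = 0
  · refine ⟨Function.update b j 0, Function.update_self _ _ _, refl_le hn he k j h b, ?_⟩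
    intro i l hi hl
    rw [Function.update_of_ne hi, Function.update_of_ne hl]
  · have hD : 1 - chr k (stp j) ≠ 0 := by
      intro h0
      have h1 := BModeB_norm k j
      rw [h0, norm_zero] at h1
      have h2 := eps_gap (k j) h
      have h3 : (0 : ℝ) < 16 / (n : ℝ) ^ 2 := by
        have : (0 : ℝ) < n := by
          have := Nat.pos_of_ne_zero (NeZero.ne n)
          exact_mod_cast this
        positivity
      norm_num at h1
      linarith
    refine ⟨fun i => b i - b j / (1 - chr k (stp j)) * (1 - chr k (stp i)), ?_, ?_, ?_⟩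
    · show b j - b j / (1 - chr k (stp j)) * (1 - chr k (stp j)) = 0
      rw [div_mul_cancel₀ _ hD, sub_self]
    · rw [EE_sub hn he k j (BModeB_half_ne (by omega) he _
        (le_trans (BModeB_eps_le k j) hk)) b]
    · intro i l _ _
      show (b i - b j / (1 - chr k (stp j)) * (1 - chr k (stp i))) * (1 - chr k (stp l))
          - (b l - b j / (1 - chr k (stp j)) * (1 - chr k (stp l))) * (1 - chr k (stp i)) = _
      ring

/-- the general mode -/
theorem mode_low : ∃ c δ : ℝ, 0 < c ∧ 0 < δ ∧ ∃ N0 : ℕ, ∀ (n : ℕ) [NeZero n], N0 ≤ n → Even n →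
    ∀ k : Vtx 3 n, k ≠ 0 → EL k ≤ δ → ∀ b : Fin 3 → ℂ, ∀ i l : Fin 3, i ≠ l →
      c * (n : ℝ) ^ 3 * ZP 3 n * ‖b i * (1 - chr k (stp l)) - b l * (1 - chr k (stp i))‖ ^ 2
        ≤ EL k * EE b k := by
  obtain ⟨c, δ, hc, hδ, N0, H⟩ := win3
  refine ⟨c, min δ 1, hc, lt_min hδ one_pos, max N0 4, ?_⟩
  intro n _ hN he k hk hE b i l hil
  have hn4 : 4 ≤ n := le_trans (le_max_right _ _) hN
  have hn0 : N0 ≤ n := le_trans (le_max_left _ _) hN
  have hE1 : EL k ≤ 1 := le_trans hE (min_le_right _ _)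
  have hEδ : EL k ≤ δ := le_trans hE (min_le_left _ _)
  have hEL0 : 0 ≤ EL k := Finset.sum_nonneg fun m _ => eps_nonneg (k m)
  -- the third direction
  obtain ⟨j, hj⟩ : ∃ j : Fin 3, i ≠ j ∧ l ≠ j ∧ ∀ m : Fin 3, m ≠ i → m ≠ l → m = j := by
    revert i l
    decide
  obtain ⟨hij, hlj, hm⟩ := hj
  obtain ⟨b', hb0, hbE, hb⟩ := BModeB_red hn4 he k j hE1 b
  have hbil := hb i l hij hlj
  set k' : Vtx 3 n := Function.update k j 0 with hk'
  have hk'j : k' j = 0 := by rw [hk', Function.update_self]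
  have hk'i : k' i = k i := by rw [hk', Function.update_of_ne hij]
  have hk'l : k' l = k l := by rw [hk', Function.update_of_ne hlj]
  have hDi : chr k' (stp i) = chr k (stp i) := by rw [chr_stp, chr_stp, hk'i]
  have hDl : chr k' (stp l) = chr k (stp l) := by rw [chr_stp, chr_stp, hk'l]
  have hpm : EE b' k' ≤ EE b' k := plane_mono (d := 2) hn4 he j k b' hb0
  have hEE : EE b' k' ≤ EE b k := le_trans hpm hbE
  by_cases h0 : k' = 0
  · have hi0 : k i = 0 := by rw [← hk'i, h0]; rfl
    have hl0 : k l = 0 := by rw [← hk'l, h0]; rfl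
    have e1 : chr k (stp i) = 1 := by rw [chr_stp, hi0, AddChar.map_zero_eq_one]
    have e2 : chr k (stp l) = 1 := by rw [chr_stp, hl0, AddChar.map_zero_eq_one]
    rw [e1, e2]
    have : 0 ≤ EL k * EE b k := mul_nonneg hEL0 (EE_nonneg b k)
    simpa using this
  · have hst : ∀ m, m ≠ i → m ≠ l → k' m = 0 := fun m h1 h2 => by rw [hm m h1 h2, hk'j]
    have hbst : ∀ m, m ≠ i → m ≠ l → b' m = 0 := fun m h1 h2 => by rw [hm m h1 h2, hb0]
    have hELk' : EL k' ≤ EL k := by
      unfold EL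
      refine Finset.sum_le_sum fun m _ => ?_
      by_cases hmj : m = j
      · rw [hmj, hk'j, eps_zero]
        exact eps_nonneg _
      · rw [hk', Function.update_of_ne hmj]
    have hhalf : k' j ≠ ((n / 2 : ℕ) : ZMod n) := by
      refine BModeB_half_ne (by omega) he _ ?_
      rw [hk'j, eps_zero]
      norm_num
    have hW := H n hn0 he i l hil k' hst h0 (le_trans hELk' hEδ)
    have hpair1 := EE_pair hn4 he k' i l hil hst j hhalf b' hbst
    have hpair2 := EE_pair hn4 he k' l i (Ne.symm hil)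
      (fun m h1 h2 => hst m h2 h1) j hhalf b' (fun m h1 h2 => hbst m h2 h1)
    rw [BModeB_norm, hk'i, hDi, hDl] at hpair1
    rw [BModeB_norm, hk'l, hDi, hDl] at hpair2
    have hEE0 : 0 ≤ EE b' k' := EE_nonneg _ _
    rcases le_total (eps (k i)) (eps (k l)) with hle | hle
    · have h1 := hW.1 (by rw [hk'i, hk'l]; exact hle)
      calc c * (n : ℝ) ^ 3 * ZP 3 n
            * ‖b i * (1 - chr k (stp l)) - b l * (1 - chr k (stp i))‖ ^ 2
          ≤ EE (Pi.single i 1) k'
            * ‖b i * (1 - chr k (stp l)) - b l * (1 - chr k (stp i))‖ ^ 2 :=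
            mul_le_mul_of_nonneg_right h1 (sq_nonneg _)
        _ = eps (k l) * EE b' k' := by
            rw [hpair2, hbil]
            ring
        _ ≤ EL k * EE b' k' := mul_le_mul_of_nonneg_right (BModeB_eps_le k l) hEE0
        _ ≤ EL k * EE b k := mul_le_mul_of_nonneg_left hEE hEL0
    · have h1 := hW.2 (by rw [hk'i, hk'l]; exact hle)
      have hsw : ‖b' l * (1 - chr k (stp i)) - b' i * (1 - chr k (stp l))‖
          = ‖b i * (1 - chr k (stp l)) - b l * (1 - chr k (stp i))‖ := by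
        rw [← hbil, norm_sub_rev]
      calc c * (n : ℝ) ^ 3 * ZP 3 n
            * ‖b i * (1 - chr k (stp l)) - b l * (1 - chr k (stp i))‖ ^ 2
          ≤ EE (Pi.single l 1) k'
            * ‖b i * (1 - chr k (stp l)) - b l * (1 - chr k (stp i))‖ ^ 2 :=
            mul_le_mul_of_nonneg_right h1 (sq_nonneg _)
        _ = eps (k i) * EE b' k' := by
            rw [hpair1, hsw]
            ring
        _ ≤ EL k * EE b' k' := mul_le_mul_of_nonneg_right (BModeB_eps_le k i) hEE0
        _ ≤ EL k * EE b k := mul_le_mul_of_nonneg_left hEE hEL0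

end LibDim
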