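import Pool.Agent.LibDimB.BDefs

/-! Row PSI: the sampled test field. -/

namespace LibDim

open Finset Filter MeasureTheory
open scoped ContDiff

/-- first order approximation of the sampled weights, two sided (compare `psi_sq`) -/
theorem psi_approx {d : ℕ} (φ : (Fin d → ℝ) → (Fin d → ℝ)) (G : (Fin d → ℝ) → ℝ)
    (hφ : ContDiff ℝ ∞ φ) (hφp : Per φ) (hG : ContDiff ℝ ∞ G) (hGp : Per G) (i : Fin d) :
    ∃ C, 0 ≤ C ∧ ∀ n : ℕ, 1 ≤ n → ∀ z, |psi φ G i n z - (φ z i - pd i G z)| ≤ C * (1 / n) := by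
  obtain ⟨C1, h1⟩ := dfs_iter_bound i 1 (fun z => φ z i) (comp_smooth φ hφ i) (comp_per φ hφp i)
  obtain ⟨C2, h2⟩ := dfs_taylor i G hG hGp
  refine ⟨|C1| + |C2|, by positivity, fun n hn z => ?_⟩
  have hn0 : (0 : ℝ) < n := by exact_mod_cast hn
  have hinv0 : (0 : ℝ) ≤ 1 / n := by positivity
  have h4 := h1 (1 / (2 * n)) z
  have h5 := h2 (1 / n) z
  simp only [Function.iterate_one, pow_one] at h4
  have e : psi φ G i n z - (φ z i - pd i G z)
      = dfs i (1 / (2 * n)) (fun z => φ z i) z - n * (dfs i (1 / n) G z - 1 / n * pd i G z) := by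
    unfold psi dfs
    field_simp
    ring
  rw [e]
  have h6 : |(1 : ℝ) / (2 * n)| = 1 / (2 * n) := abs_of_pos (by positivity)
  rw [h6] at h4
  calc |dfs i (1 / (2 * n)) (fun z => φ z i) z - n * (dfs i (1 / n) G z - 1 / n * pd i G z)|
      ≤ |dfs i (1 / (2 * n)) (fun z => φ z i) z|
        + |n * (dfs i (1 / n) G z - 1 / n * pd i G z)| := abs_sub _ _
    _ ≤ C1 * (1 / (2 * n)) + n * (C2 * (1 / n) ^ 2) := by
        refine add_le_add h4 ?_
        rw [abs_mul, abs_of_pos hn0]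
        exact mul_le_mul_of_nonneg_left h5 hn0.le
    _ = (C1 / 2 + C2) * (1 / n) := by
        field_simp
    _ ≤ (|C1| + |C2|) * (1 / n) := by
        refine mul_le_mul_of_nonneg_right ?_ hinv0
        have := le_abs_self C1
        have := le_abs_self C2
        have := abs_nonneg C1
        linarith

theorem bpsi_pd_shift {d : ℕ} (i : Fin d) (g : (Fin d → ℝ) → ℝ) (v : Fin d → ℝ) :
    pd i (fun z => g (z + v)) = fun z => pd i g (z + v) := by
  funext z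
  unfold pd
  rw [fderiv_comp_add_right]

/-- the correction term -/
theorem bpsi_corr {d : ℕ} (G : (Fin d → ℝ) → ℝ) (hG : ContDiff ℝ ∞ G) (hGp : Per G) (i : Fin d) :
    ∃ C, 0 ≤ C ∧ ∀ n : ℕ, 1 ≤ n → ∀ z,
      |(pd i G (z + Pi.single i (1 / (2 * (n : ℝ)))) - n * dfs i (1 / n) G z)
        - (pd i G (z - Pi.single i (1 / (n : ℝ)) + Pi.single i (1 / (2 * (n : ℝ))))
          - n * dfs i (1 / n) G (z - Pi.single i (1 / (n : ℝ))))| ≤ C * (1 / n) ^ 2 := by
  have hg := pd_smooth i G hG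
  have hgp := pd_per i G hGp
  obtain ⟨C1, h1⟩ := dfs_iter_bound i 1 (pd i (pd i G)) (pd_smooth i _ hg) (pd_per i _ hgp)
  obtain ⟨C2, h2⟩ := dfs_taylor i (pd i G) hg hgp
  refine ⟨|C1| + |C2|, by positivity, fun n hn z => ?_⟩
  have hn0 : (0 : ℝ) < n := by exact_mod_cast hn
  have hinv0 : (0 : ℝ) ≤ 1 / n := by positivity
  set F : (Fin d → ℝ) → ℝ := fun z => pd i G (z + Pi.single i (1 / (2 * (n : ℝ))))
    - n * dfs i (1 / n) G z with hF
  have hs1 : ContDiff ℝ ∞ (fun z => pd i G (z + Pi.single i (1 / (2 * (n : ℝ))))) :=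
    hg.comp (contDiff_id.add contDiff_const)
  have hs2 : ContDiff ℝ ∞ (dfs i (1 / (n : ℝ)) G) := diff_dfs_smooth i _ G hG
  have hs3 : ContDiff ℝ ∞ (fun z => (n : ℝ) * dfs i (1 / (n : ℝ)) G z) := contDiff_const.mul hs2
  have hFd : Differentiable ℝ F := (hs1.sub hs3).differentiable (by simp)
  have hpd : ∀ y, pd i F y = dfs i (1 / (2 * n)) (pd i (pd i G)) y
      - n * (dfs i (1 / n) (pd i G) y - 1 / n * pd i (pd i G) y) := by
    intro y
    have e1 : pd i F y = pd i (fun z => pd i G (z + Pi.single i (1 / (2 * (n : ℝ))))) y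
        - n * pd i (dfs i (1 / (n : ℝ)) G) y := by
      have hd1 : DifferentiableAt ℝ (fun z => pd i G (z + Pi.single i (1 / (2 * (n : ℝ))))) y :=
        (hs1.differentiable (by simp)) y
      have hd2 : DifferentiableAt ℝ (dfs i (1 / (n : ℝ)) G) y :=
        (hs2.differentiable (by simp)) y
      have h3 : HasFDerivAt F (fderiv ℝ (fun z => pd i G (z + Pi.single i (1 / (2 * (n : ℝ))))) y
          - (n : ℝ) • fderiv ℝ (dfs i (1 / (n : ℝ)) G) y) y :=
        hd1.hasFDerivAt.sub (hd2.hasFDerivAt.const_mul (n : ℝ))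
      unfold pd at h3 ⊢
      rw [h3.fderiv]
      rfl
    rw [e1, bpsi_pd_shift, diff_pd_dfs i i _ G (hG.differentiable (by simp))]
    unfold dfs
    field_simp
    ring
  have hb : ∀ y, |pd i F y| ≤ (|C1| + |C2|) * (1 / n) := by
    intro y
    rw [hpd y]
    have h4 := h1 (1 / (2 * n)) y
    have h5 := h2 (1 / n) y
    simp only [Function.iterate_one, pow_one] at h4
    have h6 : |(1 : ℝ) / (2 * n)| = 1 / (2 * n) := abs_of_pos (by positivity)
    rw [h6] at h4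
    calc |dfs i (1 / (2 * n)) (pd i (pd i G)) y
          - n * (dfs i (1 / n) (pd i G) y - 1 / n * pd i (pd i G) y)|
        ≤ |dfs i (1 / (2 * n)) (pd i (pd i G)) y|
          + |n * (dfs i (1 / n) (pd i G) y - 1 / n * pd i (pd i G) y)| := abs_sub _ _
      _ ≤ C1 * (1 / (2 * n)) + n * (C2 * (1 / n) ^ 2) := by
          refine add_le_add h4 ?_
          rw [abs_mul, abs_of_pos hn0]
          exact mul_le_mul_of_nonneg_left h5 hn0.le
      _ = (C1 / 2 + C2) * (1 / n) := by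
          field_simp
      _ ≤ (|C1| + |C2|) * (1 / n) := by
          refine mul_le_mul_of_nonneg_right ?_ hinv0
          have := le_abs_self C1
          have := le_abs_self C2
          have := abs_nonneg C1
          linarith
  have h7 := diff_mvt i F hFd _ hb (1 / n) (z - Pi.single i (1 / (n : ℝ)))
  have e2 : dfs i (1 / (n : ℝ)) F (z - Pi.single i (1 / (n : ℝ)))
      = F z - F (z - Pi.single i (1 / (n : ℝ))) := by
    unfold dfs
    rw [sub_add_cancel]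
  rw [e2, abs_of_pos (by positivity : (0 : ℝ) < 1 / n)] at h7
  have e3 : (|C1| + |C2|) * (1 / (n : ℝ)) * (1 / n) = (|C1| + |C2|) * (1 / n) ^ 2 := by ring
  rw [e3] at h7
  simp only [hF] at h7
  exact h7

/-- the main term -/
theorem bpsi_main {d : ℕ} (f : (Fin d → ℝ) → ℝ) (hf : ContDiff ℝ ∞ f) (hp : Per f) (i : Fin d) :
    ∃ C, 0 ≤ C ∧ ∀ n : ℕ, 1 ≤ n → ∀ z,
      |(f (z + Pi.single i (1 / (2 * (n : ℝ))))
        - f (z - Pi.single i (1 / (n : ℝ)) + Pi.single i (1 / (2 * (n : ℝ)))))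
        - 1 / n * pd i f z| ≤ C * (1 / n) ^ 2 := by
  obtain ⟨C, h⟩ := dfs_taylor i f hf hp
  refine ⟨|C|, abs_nonneg _, fun n hn z => ?_⟩
  have hn0 : (0 : ℝ) < n := by exact_mod_cast hn
  have h1 := h (1 / (2 * n)) z
  have h2 := h (-(1 / (2 * n))) z
  have e1 : z - Pi.single i (1 / (n : ℝ)) + Pi.single i (1 / (2 * (n : ℝ)))
      = z + Pi.single i (-(1 / (2 * (n : ℝ)))) := by
    ext k
    by_cases hk : k = i
    · subst hk
      simp only [Pi.add_apply, Pi.sub_apply, Pi.single_eq_same]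
      field_simp
      ring
    · simp [Pi.single_eq_of_ne hk]
  rw [e1]
  have e2 : f (z + Pi.single i (1 / (2 * (n : ℝ)))) - f (z + Pi.single i (-(1 / (2 * (n : ℝ)))))
      - 1 / n * pd i f z
      = (dfs i (1 / (2 * n)) f z - 1 / (2 * n) * pd i f z)
        - (dfs i (-(1 / (2 * n))) f z - -(1 / (2 * n)) * pd i f z) := by
    unfold dfs
    field_simp
    ring
  rw [e2]
  calc |(dfs i (1 / (2 * n)) f z - 1 / (2 * n) * pd i f z)
        - (dfs i (-(1 / (2 * n))) f z - -(1 / (2 * n)) * pd i f z)|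
      ≤ |dfs i (1 / (2 * n)) f z - 1 / (2 * n) * pd i f z|
        + |dfs i (-(1 / (2 * n))) f z - -(1 / (2 * n)) * pd i f z| := abs_sub _ _
    _ ≤ C * (1 / (2 * n)) ^ 2 + C * (-(1 / (2 * n))) ^ 2 := add_le_add h1 h2
    _ = C / 2 * (1 / n) ^ 2 := by
        field_simp
        ring
    _ ≤ |C| * (1 / n) ^ 2 := by
        refine mul_le_mul_of_nonneg_right ?_ (by positivity)
        have := le_abs_self C
        have := abs_nonneg C
        linarith

/-- discrete divergence of the sampled weights for `φ = ψ + ∇G`, `div ψ = 0`: second order. The part of `ψ` is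
`ψ_i (z + e_i/(2n)) - ψ_i (z - e_i/(2n)) = ∂_i ψ_i / n + O(n⁻²)` (`dfs_taylor`); the part of `G` is a backward difference with
step `1/n` of `r_i z = ∂_i G (z + e_i/(2n)) - n (G (z + e_i/n) - G z)`, whose derivatives are `O(1/n)` (`dfs_taylor` for
`∂_i G`). -/
theorem psi_div {d : ℕ} (ψ : (Fin d → ℝ) → (Fin d → ℝ)) (G : (Fin d → ℝ) → ℝ)
    (hψ : ContDiff ℝ ∞ ψ) (hψp : Per ψ) (hG : ContDiff ℝ ∞ G) (hGp : Per G)
    (hdiv : ∀ x, ∑ i, pd i (fun z => ψ z i) x = 0) :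
    ∃ C, 0 ≤ C ∧ ∀ n : ℕ, 1 ≤ n → ∀ z,
      |∑ i, (psi (fun x i => ψ x i + pd i G x) G i n z
        - psi (fun x i => ψ x i + pd i G x) G i n (z - Pi.single i (1 / (n : ℝ))))|
        ≤ C * (1 / n) ^ 2 := by
  choose C1 hC1 h1 using fun i : Fin d => bpsi_main (fun z => ψ z i) (comp_smooth ψ hψ i)
    (comp_per ψ hψp i) i
  choose C2 hC2 h2 using fun i : Fin d => bpsi_corr G hG hGp i
  refine ⟨∑ i, (C1 i + C2 i), Finset.sum_nonneg (fun i _ => add_nonneg (hC1 i) (hC2 i)),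
    fun n hn z => ?_⟩
  have e : ∑ i, (psi (fun x i => ψ x i + pd i G x) G i n z
        - psi (fun x i => ψ x i + pd i G x) G i n (z - Pi.single i (1 / (n : ℝ))))
      = ∑ i, (((ψ (z + Pi.single i (1 / (2 * (n : ℝ)))) i
          - ψ (z - Pi.single i (1 / (n : ℝ)) + Pi.single i (1 / (2 * (n : ℝ)))) i)
          - 1 / n * pd i (fun z => ψ z i) z)
        + ((pd i G (z + Pi.single i (1 / (2 * (n : ℝ)))) - n * dfs i (1 / n) G z)
        - (pd i G (z - Pi.single i (1 / (n : ℝ)) + Pi.single i (1 / (2 * (n : ℝ))))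
          - n * dfs i (1 / n) G (z - Pi.single i (1 / (n : ℝ)))))) := by
    have h3 : ∑ i, (1 / (n : ℝ) * pd i (fun z => ψ z i) z) = 0 := by
      rw [← Finset.mul_sum, hdiv z, mul_zero]
    have h4 : ∑ i, (psi (fun x i => ψ x i + pd i G x) G i n z
        - psi (fun x i => ψ x i + pd i G x) G i n (z - Pi.single i (1 / (n : ℝ))))
        = ∑ i, ((psi (fun x i => ψ x i + pd i G x) G i n z
        - psi (fun x i => ψ x i + pd i G x) G i n (z - Pi.single i (1 / (n : ℝ))))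
          - 1 / (n : ℝ) * pd i (fun z => ψ z i) z) := by
      rw [Finset.sum_sub_distrib _ (fun i => 1 / (n : ℝ) * pd i (fun z => ψ z i) z), h3, sub_zero]
    rw [h4]
    refine Finset.sum_congr rfl (fun i _ => ?_)
    unfold psi
    ring
  rw [e]
  refine (Finset.abs_sum_le_sum_abs _ _).trans ?_
  rw [Finset.sum_mul]
  refine Finset.sum_le_sum (fun i _ => ?_)
  refine (abs_add_le _ _).trans ?_
  rw [add_mul]
  exact add_le_add (h1 i n hn z) (h2 i n hn z)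

theorem bpsi_riem {d : ℕ} (f : (Fin d → ℝ) → ℝ) (hf : Continuous f) (F : ℕ → (Fin d → ℝ) → ℝ)
    (C : ℝ) (h : ∀ n : ℕ, 1 ≤ n → ∀ z, |F n z - f z| ≤ C * (1 / n)) :
    Tendsto (fun k : ℕ => (∑ x : Vtx d (k + 1), F (k + 1) (fun i => ((x i).val : ℝ)
      / ((k + 1 : ℕ) : ℝ))) / ((k + 1 : ℕ) : ℝ) ^ d) atTop
      (nhds (∫ x in Set.Icc (0 : Fin d → ℝ) 1, f x)) := by
  have h1 := riemann_torus d f hf
  have h2 : Tendsto (fun k : ℕ => C * (1 / ((k + 1 : ℕ) : ℝ))) atTop (nhds 0) := by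
    have h3 := (tendsto_one_div_add_atTop_nhds_zero_nat (𝕜 := ℝ)).const_mul C
    rw [mul_zero] at h3
    refine h3.congr (fun k => ?_)
    push_cast
    rfl
  have h4 : Tendsto (fun k : ℕ => (∑ x : Vtx d (k + 1), F (k + 1) (fun i => ((x i).val : ℝ)
      / ((k + 1 : ℕ) : ℝ))) / ((k + 1 : ℕ) : ℝ) ^ d
      - (∑ x : Vtx d (k + 1), f (fun i => ((x i).val : ℝ) / ((k + 1 : ℕ) : ℝ)))
      / ((k + 1 : ℕ) : ℝ) ^ d) atTop (nhds 0) := by
    refine squeeze_zero_norm (fun k => ?_) h2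
    have hk : (0 : ℝ) < ((k + 1 : ℕ) : ℝ) := by positivity
    have hkd : (0 : ℝ) < ((k + 1 : ℕ) : ℝ) ^ d := by positivity
    rw [← sub_div, ← Finset.sum_sub_distrib, Real.norm_eq_abs, abs_div, abs_of_pos hkd,
      div_le_iff₀ hkd]
    refine (Finset.abs_sum_le_sum_abs _ _).trans ?_
    refine (Finset.sum_le_sum (fun x _ => h (k + 1) (by omega) _)).trans ?_
    rw [Finset.sum_const, Finset.card_univ, Fintype.card_fun, ZMod.card, Fintype.card_fin,
      nsmul_eq_mul]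
    push_cast
    exact le_of_eq (mul_comm _ _)
  have h5 := h4.add h1
  rw [zero_add] at h5
  refine h5.congr (fun k => ?_)
  ring

/-- Riemann sums of the sampled weights -/
theorem psi_riem (ψ : (Fin 3 → ℝ) → (Fin 3 → ℝ)) (G : (Fin 3 → ℝ) → ℝ)
    (hψ : ContDiff ℝ ∞ ψ) (hψp : Per ψ) (hG : ContDiff ℝ ∞ G) (hGp : Per G) (ε : ℝ) (hε : 0 < ε) :
    ∃ N : ℕ, ∀ n : ℕ, [NeZero n] → N ≤ n →
      (∫ x in Set.Icc (0 : Fin 3 → ℝ) 1, ∑ i, ψ x i ^ 2)
          - (∑ i, (∫ x in Set.Icc (0 : Fin 3 → ℝ) 1, ψ x i) ^ 2) - ε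
        ≤ (∑ i, ∑ x : Vtx 3 n, psi (fun x i => ψ x i + pd i G x) G i n
              (fun k => ((x k).val : ℝ) / n) ^ 2) / (n : ℝ) ^ 3
          - (∑ i, (∑ x : Vtx 3 n, psi (fun x i => ψ x i + pd i G x) G i n
              (fun k => ((x k).val : ℝ) / n)) ^ 2) / ((n : ℝ) ^ 3) ^ 2 := by
  have hφ : ContDiff ℝ ∞ (fun x : Fin 3 → ℝ => (fun i => ψ x i + pd i G x : Fin 3 → ℝ)) := by
    rw [contDiff_pi]
    intro i
    exact (comp_smooth ψ hψ i).add (pd_smooth i G hG)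
  have hφp : Per (fun x : Fin 3 → ℝ => (fun i => ψ x i + pd i G x : Fin 3 → ℝ)) := by
    intro x k
    funext i
    have e1 := hψp x k
    have e2 := pd_per i G hGp x k
    simp only [e1, e2]
  choose C hC0 hC using fun i : Fin 3 => psi_approx _ G hφ hφp hG hGp i
  have hC' : ∀ (i : Fin 3) (n : ℕ), 1 ≤ n → ∀ z,
      |psi (fun x i => ψ x i + pd i G x) G i n z - ψ z i| ≤ C i * (1 / n) := by
    intro i n hn z
    have h := hC i n hn z
    have e : ψ z i + pd i G z - pd i G z = ψ z i := by ring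
    rw [e] at h
    exact h
  have hcont : ∀ i : Fin 3, Continuous (fun z => ψ z i) := fun i => (comp_smooth ψ hψ i).continuous
  have hB : ∀ i : Fin 3, ∃ B, ∀ z, |ψ z i| ≤ B := fun i =>
    per_bdd (fun z => ψ z i) (hcont i) (comp_per ψ hψp i)
  choose B hB using hB
  have hsq : ∀ (i : Fin 3) (n : ℕ), 1 ≤ n → ∀ z,
      |psi (fun x i => ψ x i + pd i G x) G i n z ^ 2 - ψ z i ^ 2|
        ≤ (C i * (C i + 2 * B i)) * (1 / n) := by
    intro i n hn z
    have hn0 : (0 : ℝ) < n := by exact_mod_cast hn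
    have hinv : (1 : ℝ) / n ≤ 1 := by
      rw [div_le_one hn0]
      exact_mod_cast hn
    have h1 := hC' i n hn z
    have h2 := hB i z
    set p := psi (fun x i => ψ x i + pd i G x) G i n z with hp
    have e : p ^ 2 - ψ z i ^ 2 = (p - ψ z i) * ((p - ψ z i) + 2 * ψ z i) := by ring
    rw [e, abs_mul]
    have h3 : |(p - ψ z i) + 2 * ψ z i| ≤ C i + 2 * B i := by
      refine (abs_add_le _ _).trans ?_
      rw [abs_mul, abs_of_pos (by norm_num : (0 : ℝ) < 2)]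
      have h4 : C i * (1 / n) ≤ C i := by
        have := mul_le_mul_of_nonneg_left hinv (hC0 i)
        linarith
      linarith
    calc |p - ψ z i| * |(p - ψ z i) + 2 * ψ z i|
        ≤ (C i * (1 / n)) * (C i + 2 * B i) :=
          mul_le_mul h1 h3 (abs_nonneg _) (mul_nonneg (hC0 i) (by positivity))
      _ = (C i * (C i + 2 * B i)) * (1 / n) := by ring
  have t1 : ∀ i : Fin 3, Tendsto (fun k : ℕ => (∑ x : Vtx 3 (k + 1),
      psi (fun x i => ψ x i + pd i G x) G i (k + 1) (fun j => ((x j).val : ℝ)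
      / ((k + 1 : ℕ) : ℝ))) / ((k + 1 : ℕ) : ℝ) ^ 3) atTop
      (nhds (∫ x in Set.Icc (0 : Fin 3 → ℝ) 1, ψ x i)) := fun i =>
    bpsi_riem (fun z => ψ z i) (hcont i) (fun n z => psi (fun x i => ψ x i + pd i G x) G i n z)
      (C i) (hC' i)
  have t2 : ∀ i : Fin 3, Tendsto (fun k : ℕ => (∑ x : Vtx 3 (k + 1),
      psi (fun x i => ψ x i + pd i G x) G i (k + 1) (fun j => ((x j).val : ℝ)
      / ((k + 1 : ℕ) : ℝ)) ^ 2) / ((k + 1 : ℕ) : ℝ) ^ 3) atTop
      (nhds (∫ x in Set.Icc (0 : Fin 3 → ℝ) 1, ψ x i ^ 2)) := fun i =>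
    bpsi_riem (fun z => ψ z i ^ 2) ((hcont i).pow 2)
      (fun n z => psi (fun x i => ψ x i + pd i G x) G i n z ^ 2) _ (hsq i)
  have hint : ∫ x in Set.Icc (0 : Fin 3 → ℝ) 1, ∑ i, ψ x i ^ 2
      = ∑ i, ∫ x in Set.Icc (0 : Fin 3 → ℝ) 1, ψ x i ^ 2 := by
    rw [integral_finsetSum]
    intro i _
    exact ((hcont i).pow 2).continuousOn.integrableOn_compact isCompact_Icc
  have t3 := (tendsto_finsetSum (univ : Finset (Fin 3)) (fun i _ => t2 i)).sub
    (tendsto_finsetSum (univ : Finset (Fin 3)) (fun i _ => (t1 i).pow 2))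
  rw [← hint] at t3
  obtain ⟨N, hN⟩ := (Metric.tendsto_atTop.mp t3) ε hε
  refine ⟨N + 1, fun n inst hn => ?_⟩
  obtain ⟨k, rfl⟩ : ∃ k, n = k + 1 := ⟨n - 1, by omega⟩
  have h6 := hN k (by omega)
  rw [Real.dist_eq] at h6
  have h7 := (abs_lt.mp h6).1
  have e1 : (∑ i, ∑ x : Vtx 3 (k + 1), psi (fun x i => ψ x i + pd i G x) G i (k + 1)
              (fun j => ((x j).val : ℝ) / ((k + 1 : ℕ) : ℝ)) ^ 2) / (((k + 1 : ℕ) : ℝ)) ^ 3
      = ∑ i, (∑ x : Vtx 3 (k + 1), psi (fun x i => ψ x i + pd i G x) G i (k + 1)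
              (fun j => ((x j).val : ℝ) / ((k + 1 : ℕ) : ℝ)) ^ 2) / (((k + 1 : ℕ) : ℝ)) ^ 3 :=
    Finset.sum_div _ _ _
  have e2 : (∑ i, (∑ x : Vtx 3 (k + 1), psi (fun x i => ψ x i + pd i G x) G i (k + 1)
              (fun j => ((x j).val : ℝ) / ((k + 1 : ℕ) : ℝ))) ^ 2) / ((((k + 1 : ℕ) : ℝ)) ^ 3) ^ 2
      = ∑ i, ((∑ x : Vtx 3 (k + 1), psi (fun x i => ψ x i + pd i G x) G i (k + 1)
              (fun j => ((x j).val : ℝ) / ((k + 1 : ℕ) : ℝ))) / (((k + 1 : ℕ) : ℝ)) ^ 3) ^ 2 := by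
    rw [Finset.sum_div]
    refine Finset.sum_congr rfl (fun i _ => ?_)
    rw [div_pow]
  have h8 : (∫ x in Set.Icc (0 : Fin 3 → ℝ) 1, ∑ i, ψ x i ^ 2)
          - (∑ i, (∫ x in Set.Icc (0 : Fin 3 → ℝ) 1, ψ x i) ^ 2) - ε
      ≤ (∑ i, ∑ x : Vtx 3 (k + 1), psi (fun x i => ψ x i + pd i G x) G i (k + 1)
              (fun j => ((x j).val : ℝ) / ((k + 1 : ℕ) : ℝ)) ^ 2) / (((k + 1 : ℕ) : ℝ)) ^ 3
        - (∑ i, (∑ x : Vtx 3 (k + 1), psi (fun x i => ψ x i + pd i G x) G i (k + 1)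
              (fun j => ((x j).val : ℝ) / ((k + 1 : ℕ) : ℝ))) ^ 2)
              / ((((k + 1 : ℕ) : ℝ)) ^ 3) ^ 2 := by
    rw [e1, e2]
    linarith
  exact h8

end LibDim
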