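import Pool.Agent.LibDimB.BDefs

/-! Row SCAL: scalar symbol inequalities. -/

namespace LibDim

open Finset

theorem bscal_norm {n : ℕ} [NeZero n] (a : ZMod n) : ‖(ZMod.stdAddChar a : ℂ)‖ = 1 := by
  rw [ZMod.stdAddChar_apply]
  exact Circle.norm_coe _

theorem bscal_conj {n : ℕ} [NeZero n] (a : ZMod n) :
    (ZMod.stdAddChar (-a) : ℂ) = (starRingEnd ℂ) (ZMod.stdAddChar a : ℂ) :=
  AddChar.map_neg_eq_conj _ _

theorem bscal_half {n : ℕ} [NeZero n] (he : Even n) (r : ZMod n) :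
    (ZMod.stdAddChar (((n / 2 : ℕ) : ZMod n) * r) : ℂ) = (-1) ^ r.val := by
  have hn : (n : ℂ) ≠ 0 := by exact_mod_cast (NeZero.ne n)
  have h1 : ((n / 2 : ℕ) : ZMod n) * r = ((n / 2 * r.val : ℕ) : ZMod n) := by
    push_cast
    rw [ZMod.natCast_zmod_val]
  rw [h1, ZMod.stdAddChar_apply, ZMod.toCircle_natCast]
  obtain ⟨m, hm⟩ := he
  have h2 : n / 2 = m := by omega
  have hm0 : (m : ℂ) ≠ 0 := by
    intro h0
    have : m = 0 := by exact_mod_cast h0
    exact NeZero.ne n (by omega)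
  have hnm : (n : ℂ) = m + m := by exact_mod_cast congrArg (Nat.cast : ℕ → ℂ) hm
  have h3 : 2 * (Real.pi : ℂ) * Complex.I * ((n / 2 * r.val : ℕ) : ℂ) / (n : ℂ)
      = (r.val : ℂ) * (Real.pi * Complex.I) := by
    rw [h2, hnm]
    push_cast
    have h4 : (m : ℂ) + m ≠ 0 := by rw [← hnm]; exact hn
    field_simp
    ring
  rw [h3, Complex.exp_nat_mul, Complex.exp_pi_mul_I]

theorem cr_le_one {n : ℕ} [NeZero n] (a : ZMod n) : cr a ≤ 1 := by
  unfold cr
  have h := Complex.re_le_norm (ZMod.stdAddChar a : ℂ)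
  rw [bscal_norm] at h
  exact h

theorem neg_one_le_cr {n : ℕ} [NeZero n] (a : ZMod n) : -1 ≤ cr a := by
  unfold cr
  have h := Complex.abs_re_le_norm (ZMod.stdAddChar a : ℂ)
  rw [bscal_norm] at h
  exact (abs_le.1 h).1

theorem cr_zero {n : ℕ} [NeZero n] : cr (0 : ZMod n) = 1 := by
  unfold cr
  simp

theorem cr_neg {n : ℕ} [NeZero n] (a : ZMod n) : cr (-a) = cr a := by
  unfold cr
  rw [bscal_conj]
  simp

/-- `ZMod.stdAddChar a = exp (2 π i a / n)` -/
theorem cr_eq {n : ℕ} [NeZero n] (a : ZMod n) : cr a = Real.cos (2 * Real.pi * a.val / n) := by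
  unfold cr
  rw [ZMod.stdAddChar_apply, ZMod.toCircle_apply]
  have h : 2 * (Real.pi : ℂ) * Complex.I * (a.val : ℂ) / (n : ℂ)
      = ((2 * Real.pi * a.val / n : ℝ) : ℂ) * Complex.I := by
    push_cast
    ring
  rw [h, Complex.exp_ofReal_mul_I_re]

/-- the character at `n / 2` is the sign -/
theorem cr_half {n : ℕ} [NeZero n] (he : Even n) (r : ZMod n) :
    cr (((n / 2 : ℕ) : ZMod n) * r) = (-1) ^ r.val := by
  unfold cr
  rw [bscal_half he]
  have h : ((-1 : ℂ)) ^ r.val = (((-1 : ℝ) ^ r.val : ℝ) : ℂ) := by push_cast; rfl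
  rw [h, Complex.ofReal_re]

theorem cr_add_half {n : ℕ} [NeZero n] (he : Even n) (k r : ZMod n) :
    cr ((k + ((n / 2 : ℕ) : ZMod n)) * r) = (-1) ^ r.val * cr (k * r) := by
  unfold cr
  rw [add_mul, AddChar.map_add_eq_mul, bscal_half he]
  have h : ((-1 : ℂ)) ^ r.val = (((-1 : ℝ) ^ r.val : ℝ) : ℂ) := by push_cast; rfl
  rw [h, Complex.re_mul_ofReal, mul_comm]

theorem eps_nonneg {n : ℕ} [NeZero n] (a : ZMod n) : 0 ≤ eps a := by
  unfold eps
  have := cr_le_one a
  linarith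

theorem eps_le_four {n : ℕ} [NeZero n] (a : ZMod n) : eps a ≤ 4 := by
  unfold eps
  have := neg_one_le_cr a
  linarith

theorem eps_zero {n : ℕ} [NeZero n] : eps (0 : ZMod n) = 0 := by
  unfold eps
  rw [cr_zero]
  ring

/-- `eps a = ‖1 - ζ‖²` -/
theorem eps_norm {n : ℕ} [NeZero n] (a : ZMod n) :
    eps a = ‖1 - (ZMod.stdAddChar a : ℂ)‖ ^ 2 := by
  have h1 := bscal_norm a
  have h2 : ‖(ZMod.stdAddChar a : ℂ)‖ ^ 2 = 1 := by rw [h1]; norm_num
  rw [Complex.sq_norm, Complex.normSq_apply] at h2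
  rw [Complex.sq_norm, Complex.normSq_apply]
  unfold eps cr
  simp only [Complex.sub_re, Complex.one_re, Complex.sub_im, Complex.one_im]
  nlinarith [h2]

/-- spectral gap: `2 - 2 cos x = 4 sin² (x/2) ≥ 4 (x/π)²` (Jordan) -/
theorem eps_gap {n : ℕ} [NeZero n] (a : ZMod n) (h : a ≠ 0) : 16 / (n : ℝ) ^ 2 ≤ eps a := by
  have hn : 0 < (n : ℝ) := by exact_mod_cast Nat.pos_of_ne_zero (NeZero.ne n)
  have hlt : a.val < n := ZMod.val_lt a
  have hpos : 1 ≤ a.val := by
    rcases Nat.eq_zero_or_pos a.val with h0 | h0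
    · exact absurd ((ZMod.val_eq_zero a).1 h0) h
    · exact h0
  have hlt' : (a.val : ℝ) ≤ n - 1 := by
    have : a.val + 1 ≤ n := hlt
    have : ((a.val + 1 : ℕ) : ℝ) ≤ n := by exact_mod_cast this
    push_cast at this
    linarith
  have hpos' : (1 : ℝ) ≤ a.val := by exact_mod_cast hpos
  have hpi := Real.pi_pos
  have h1 : 2 * Real.pi * a.val / n = 2 * (Real.pi * a.val / n) := by ring
  have hs : 2 / (n : ℝ) ≤ Real.sin (Real.pi * a.val / n) := by
    by_cases hc : (a.val : ℝ) ≤ n / 2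
    · have h2 : Real.pi * a.val / n ≤ Real.pi / 2 := by
        rw [div_le_div_iff₀ hn (by norm_num : (0:ℝ) < 2)]
        nlinarith
      have h3 := Real.mul_le_sin (x := Real.pi * a.val / n) (by positivity) h2
      have h4 : 2 / Real.pi * (Real.pi * a.val / n) = 2 * a.val / n := by
        field_simp
      rw [h4] at h3
      refine le_trans ?_ h3
      rw [div_le_div_iff_of_pos_right hn]
      linarith
    · have hc' : (n : ℝ) / 2 < a.val := not_le.1 hc
      have h5 : Real.sin (Real.pi * a.val / n) = Real.sin (Real.pi * (n - a.val) / n) := by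
        rw [← Real.sin_pi_sub]
        congr 1
        field_simp
      have h2 : Real.pi * (n - a.val) / n ≤ Real.pi / 2 := by
        rw [div_le_div_iff₀ hn (by norm_num : (0:ℝ) < 2)]
        nlinarith
      have h6 : 0 ≤ Real.pi * (n - a.val) / n := by
        have : (0 : ℝ) ≤ n - a.val := by linarith
        positivity
      have h3 := Real.mul_le_sin (x := Real.pi * (n - a.val) / n) h6 h2
      have h4 : 2 / Real.pi * (Real.pi * (n - a.val) / n) = 2 * (n - a.val) / n := by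
        field_simp
      rw [h4, ← h5] at h3
      refine le_trans ?_ h3
      rw [div_le_div_iff_of_pos_right hn]
      linarith
  have h7 : eps a = 4 * Real.sin (Real.pi * a.val / n) ^ 2 := by
    unfold eps
    rw [cr_eq, h1, Real.cos_two_mul, Real.cos_sq']
    ring
  rw [h7]
  have h8 : 16 / (n : ℝ) ^ 2 = 4 * (2 / (n : ℝ)) ^ 2 := by
    rw [div_pow]
    ring
  rw [h8]
  have h9 : 0 ≤ 2 / (n : ℝ) := by positivity
  have h10 := pow_le_pow_left₀ h9 hs 2
  linarith

/-- sum of the characters -/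
theorem cr_sum {n : ℕ} [NeZero n] (r : ZMod n) :
    ∑ k : ZMod n, cr (k * r) = if r = 0 then (n : ℝ) else 0 := by
  unfold cr
  rw [← Complex.re_sum, four_orth]
  split_ifs
  · simp
  · simp

end LibDim
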