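import Pool.Agent.LibDimB.BScal

/-! Row SCALB: scalar symbol inequalities. -/

namespace LibDim

open Finset

theorem scalb_pow {n : ℕ} [NeZero n] (k r : ZMod n) :
    (ZMod.stdAddChar (k * r) : ℂ) = (ZMod.stdAddChar k : ℂ) ^ r.val := by
  rw [← AddChar.map_nsmul_eq_pow]
  congr 1
  rw [nsmul_eq_mul, ZMod.natCast_zmod_val, mul_comm]

theorem scalb_pow_n {n : ℕ} [NeZero n] (k : ZMod n) : (ZMod.stdAddChar k : ℂ) ^ n = 1 := by
  rw [← AddChar.map_nsmul_eq_pow]
  have : n • k = 0 := by
    rw [nsmul_eq_mul, ZMod.natCast_self, zero_mul]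
  rw [this, AddChar.map_zero_eq_one]

theorem scalb_cr {n : ℕ} [NeZero n] (k r : ZMod n) :
    cr (k * r) = ((ZMod.stdAddChar k : ℂ) ^ r.val).re := by
  unfold cr
  rw [scalb_pow]

theorem scalb_abs {n : ℕ} [NeZero n] (a : ZMod n) : |cr a| ≤ 1 :=
  abs_le.mpr ⟨neg_one_le_cr a, cr_le_one a⟩

theorem scalb_unit {n : ℕ} [NeZero n] (k : ZMod n) :
    (ZMod.stdAddChar k : ℂ).re ^ 2 + (ZMod.stdAddChar k : ℂ).im ^ 2 = 1 := by
  have hnorm : ‖(ZMod.stdAddChar k : ℂ)‖ = 1 :=
    Complex.norm_eq_one_of_pow_eq_one (scalb_pow_n k) (NeZero.ne n)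
  have h := Complex.sq_norm (ZMod.stdAddChar k : ℂ)
  rw [hnorm, Complex.normSq_apply] at h
  linarith [h]

/-- the character with real part `1` -/
theorem scalb_one {n : ℕ} [NeZero n] (k r : ZMod n) (h : cr k = 1) : cr (k * r) = 1 := by
  have h1 := scalb_unit k
  have h2 : (ZMod.stdAddChar k : ℂ).re = 1 := h
  have h3 : (ZMod.stdAddChar k : ℂ).im = 0 := by
    rw [h2] at h1
    nlinarith
  have h4 : (ZMod.stdAddChar k : ℂ) = 1 := by
    apply Complex.ext
    · simpa using h2
    · simpa using h3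
  rw [scalb_cr, h4]
  simp

/-- the character with real part `-1` -/
theorem scalb_neg_one {n : ℕ} [NeZero n] (k r : ZMod n) (h : cr k = -1) :
    cr (k * r) = (-1) ^ r.val := by
  have h1 := scalb_unit k
  have h2 : (ZMod.stdAddChar k : ℂ).re = -1 := h
  have h3 : (ZMod.stdAddChar k : ℂ).im = 0 := by
    rw [h2] at h1
    nlinarith
  have h4 : (ZMod.stdAddChar k : ℂ) = ((-1 : ℝ) : ℂ) := by
    apply Complex.ext
    · simpa using h2
    · simpa using h3
  rw [scalb_cr, h4, ← Complex.ofReal_pow, Complex.ofReal_re]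

theorem scalb_den {n : ℕ} [NeZero n] (x y : ℝ) (k : ZMod n) :
    x ^ 2 + y ^ 2 + 2 * cr k * x * y
      = (1 - cr k) / 2 * (x - y) ^ 2 + (1 + cr k) / 2 * (x + y) ^ 2 := by
  ring

theorem scalb_den_nonneg {n : ℕ} [NeZero n] (x y : ℝ) (k : ZMod n) :
    0 ≤ x ^ 2 + y ^ 2 + 2 * cr k * x * y := by
  have h1 := cr_le_one k
  have h2 := neg_one_le_cr k
  rw [scalb_den]
  have h3 : 0 ≤ (1 - cr k) / 2 * (x - y) ^ 2 :=
    mul_nonneg (by linarith) (sq_nonneg _)
  have h4 : 0 ≤ (1 + cr k) / 2 * (x + y) ^ 2 :=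
    mul_nonneg (by linarith) (sq_nonneg _)
  linarith

theorem scalb_den_zero {n : ℕ} [NeZero n] (x y : ℝ) (k : ZMod n)
    (h : x ^ 2 + y ^ 2 + 2 * cr k * x * y = 0) :
    (x = 0 ∧ y = 0) ∨ (cr k = -1 ∧ x = y) ∨ (cr k = 1 ∧ x = -y) := by
  have h1 := cr_le_one k
  have h2 := neg_one_le_cr k
  rw [scalb_den] at h
  have h3 : 0 ≤ (1 - cr k) / 2 * (x - y) ^ 2 :=
    mul_nonneg (by linarith) (sq_nonneg _)
  have h4 : 0 ≤ (1 + cr k) / 2 * (x + y) ^ 2 :=
    mul_nonneg (by linarith) (sq_nonneg _)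
  have h5 : (1 - cr k) / 2 * (x - y) ^ 2 = 0 := by linarith
  have h6 : (1 + cr k) / 2 * (x + y) ^ 2 = 0 := by linarith
  rcases mul_eq_zero.mp h5 with h7 | h7
  · have h8 : cr k = 1 := by linarith
    rcases mul_eq_zero.mp h6 with h9 | h9
    · exfalso
      linarith
    · right
      right
      refine ⟨h8, ?_⟩
      have := pow_eq_zero_iff (two_ne_zero) |>.mp h9
      linarith
  · have h8 : x = y := by
      have := pow_eq_zero_iff (two_ne_zero) |>.mp h7
      linarith
    rcases mul_eq_zero.mp h6 with h9 | h9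
    · right
      left
      exact ⟨by linarith, h8⟩
    · left
      have := pow_eq_zero_iff (two_ne_zero) |>.mp h9
      constructor <;> linarith

/-- the symbol of the kernel times the factor -/
theorem scalb_ker_den (n : ℕ) [NeZero n] (hn : 4 ≤ n) (he : Even n) (x y : ℝ) (k : ZMod n) :
    (x ^ 2 + y ^ 2 + 2 * cr k * x * y) * (∑ r : ZMod n, cr (k * r) * ker n x y r)
      = -(cr k * (x ^ 2 * x ^ (n - 2) + y ^ 2 * y ^ (n - 2))
        + x * y * (x ^ (n - 2) + y ^ (n - 2))) := by
  have hz := scalb_pow_n k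
  have hcs := scalb_unit k
  have hsum : ∑ r : ZMod n, cr (k * r) * ker n x y r
      = (∑ r : ZMod n, (ker n x y r : ℂ) * (ZMod.stdAddChar k : ℂ) ^ r.val).re := by
    rw [Complex.re_sum]
    refine Finset.sum_congr rfl (fun r _ => ?_)
    rw [Complex.re_ofReal_mul, scalb_cr, mul_comm]
  rw [hsum]
  have hsym := ker_symbol n hn he x y _ hz
  have hcr : cr k = (ZMod.stdAddChar k : ℂ).re := rfl
  rw [hcr]
  set z : ℂ := (ZMod.stdAddChar k : ℂ) with hzdef
  set Kc := ∑ r : ZMod n, (ker n x y r : ℂ) * z ^ r.val with hKc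
  set c := z.re with hc
  set s := z.im with hs
  have hre1 : (y + c * x) * Kc.re - (s * x) * Kc.im = -(c * y ^ (n - 1) + x ^ (n - 1)) := by
    have h := congrArg Complex.re hsym
    have e1 : ((x : ℂ) ^ (n - 1)) = ((x ^ (n - 1) : ℝ) : ℂ) := by push_cast; rfl
    have e2 : ((y : ℂ) ^ (n - 1)) = ((y ^ (n - 1) : ℝ) : ℂ) := by push_cast; rfl
    rw [e1, e2] at h
    simp only [Complex.mul_re, Complex.add_re, Complex.add_im, Complex.mul_im, Complex.ofReal_re,
      Complex.ofReal_im, Complex.neg_re, mul_zero, sub_zero, add_zero, zero_add] at h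
    rw [← hc, ← hs] at h
    linarith [h]
  have him1 : (y + c * x) * Kc.im + (s * x) * Kc.re = -(s * y ^ (n - 1)) := by
    have h := congrArg Complex.im hsym
    have e1 : ((x : ℂ) ^ (n - 1)) = ((x ^ (n - 1) : ℝ) : ℂ) := by push_cast; rfl
    have e2 : ((y : ℂ) ^ (n - 1)) = ((y ^ (n - 1) : ℝ) : ℂ) := by push_cast; rfl
    rw [e1, e2] at h
    simp only [Complex.mul_re, Complex.add_re, Complex.add_im, Complex.mul_im, Complex.ofReal_re,
      Complex.ofReal_im, Complex.neg_im, mul_zero, sub_zero, add_zero, zero_add] at h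
    rw [← hc, ← hs] at h
    linarith [h]
  have hx1 : x ^ (n - 1) = x * x ^ (n - 2) := by
    rw [← pow_succ']
    congr 1
    omega
  have hy1 : y ^ (n - 1) = y * y ^ (n - 2) := by
    rw [← pow_succ']
    congr 1
    omega
  rw [hx1, hy1] at hre1
  rw [hy1] at him1
  have h1 : ((y + c * x) ^ 2 + (s * x) ^ 2) * Kc.re
      = (y + c * x) * (-(c * (y * y ^ (n - 2)) + x * x ^ (n - 2)))
        + (s * x) * (-(s * (y * y ^ (n - 2)))) := by
    linear_combination (y + c * x) * hre1 + (s * x) * him1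
  have h2 : (y + c * x) ^ 2 + (s * x) ^ 2 = x ^ 2 + y ^ 2 + 2 * c * x * y := by
    linear_combination x ^ 2 * hcs
  rw [h2] at h1
  rw [h1]
  linear_combination (-(x * (y * y ^ (n - 2)))) * hcs

theorem scalb_ker_nonpos (n : ℕ) [NeZero n] (hn : 4 ≤ n) (he : Even n) (x y : ℝ) (h : x * y ≤ 0)
    (r : ZMod n) : ker n x y r ≤ 0 := by
  unfold ker
  by_cases h0 : r = 0
  · rw [if_pos h0]
  · rw [if_neg h0]
    have hr : 0 < r.val := by
      rcases Nat.eq_zero_or_pos r.val with h1 | h1
      · exact absurd ((ZMod.val_eq_zero r).mp h1) h0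
      · exact h1
    have hlt := ZMod.val_lt r
    have h1 : (-1 : ℝ) ^ r.val * x ^ (r.val - 1) = -((-x) ^ (r.val - 1)) := by
      rw [neg_pow x]
      have : (-1 : ℝ) ^ r.val = (-1) * (-1) ^ (r.val - 1) := by
        rw [← pow_succ']
        congr 1
        omega
      rw [this]
      ring
    rw [h1]
    have h2 : 0 ≤ (-x) ^ (r.val - 1) * y ^ (n - 1 - r.val) := by
      refine scalar_prod_nonneg _ _ (by nlinarith) _ _ ?_
      have : r.val - 1 + (n - 1 - r.val) = n - 2 := by omega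
      rw [this]
      exact scalar_even2 n hn he
    linarith

/-- The symbol of the kernel is minimal at `k = 0`. For `z = stdAddChar k`, `c = cr k`, the real part `K(c)` of
`∑ ker r z^r` satisfies `(x²+y²+2cxy) K(c) = -(c (xⁿ+yⁿ) + x y (x^(n-2)+y^(n-2)))` (see `symbol_right`, `ker_symbol`), and
`(x²+y²+2cxy) (K(c) - K(1)) = (1-c) (xⁿ + yⁿ + 2 x y K(1))`, `(x+y)² (xⁿ+yⁿ+2xyK(1)) = (x²-y²)(xⁿ-yⁿ) ≥ 0`.
If `x y ≤ 0` every term of `K(1)` is `≤ 0` and the inequality is termwise. If `x y > 0` the denominator vanishes only for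
`c = -1`, `x = y`, where `K(-1) = (n-1) x^(n-2) ≥ 0 ≥ K(1) = - x^(n-2)`. -/
theorem ksym_min (n : ℕ) [NeZero n] (hn : 4 ≤ n) (he : Even n) (x y : ℝ) (k : ZMod n) :
    ∑ r : ZMod n, ker n x y r ≤ ∑ r : ZMod n, cr (k * r) * ker n x y r := by
  rcases le_or_gt (x * y) 0 with hxy | hxy
  · refine Finset.sum_le_sum (fun r _ => ?_)
    have h1 := scalb_ker_nonpos n hn he x y hxy r
    have h2 := cr_le_one (k * r)
    nlinarith
  · have hgeo := scalar_geo_real n hn he x y
    have hx : x ^ (n - 1) = x * x ^ (n - 2) := by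
      rw [← pow_succ']
      congr 1
      omega
    have hy : y ^ (n - 1) = y * y ^ (n - 2) := by
      rw [← pow_succ']
      congr 1
      omega
    rw [hx, hy] at hgeo
    have hden := scalb_ker_den n hn he x y k
    have ha : 0 ≤ x ^ (n - 2) := (scalar_even2 n hn he).pow_nonneg x
    have hb : 0 ≤ y ^ (n - 2) := (scalar_even2 n hn he).pow_nonneg y
    have hmono : 0 ≤ (x ^ 2 - y ^ 2) * (x ^ 2 * x ^ (n - 2) - y ^ 2 * y ^ (n - 2)) := by
      obtain ⟨m, hm⟩ := he
      have h1 := scalar_mono_pow m x y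
      have e1 : x ^ (2 * m) = x ^ 2 * x ^ (n - 2) := by
        rw [← pow_add]
        congr 1
        omega
      have e2 : y ^ (2 * m) = y ^ 2 * y ^ (n - 2) := by
        rw [← pow_add]
        congr 1
        omega
      rw [e1, e2] at h1
      exact h1
    have hsxy : 0 < (x + y) ^ 2 := by nlinarith [sq_nonneg (x - y)]
    by_cases hd : x ^ 2 + y ^ 2 + 2 * cr k * x * y = 0
    · rcases scalb_den_zero x y k hd with h | h | h
      · exfalso
        rw [h.1] at hxy
        simp at hxy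
      · have h1 : 0 ≤ ∑ r : ZMod n, cr (k * r) * ker n x y r := by
          refine Finset.sum_nonneg (fun r _ => ?_)
          rw [scalb_neg_one k r h.1]
          unfold ker
          by_cases h0 : r = 0
          · rw [if_pos h0, mul_zero]
          · rw [if_neg h0]
            have hr : 0 < r.val := by
              rcases Nat.eq_zero_or_pos r.val with h1 | h1
              · exact absurd ((ZMod.val_eq_zero r).mp h1) h0
              · exact h1
            have hlt := ZMod.val_lt r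
            have h2 : (-1 : ℝ) ^ r.val * ((-1) ^ r.val * x ^ (r.val - 1) * y ^ (n - 1 - r.val))
                = x ^ (r.val - 1) * y ^ (n - 1 - r.val) := by
              have h3 : (-1 : ℝ) ^ r.val * (-1) ^ r.val = 1 := by
                rw [← mul_pow]
                norm_num
              calc (-1 : ℝ) ^ r.val * ((-1) ^ r.val * x ^ (r.val - 1) * y ^ (n - 1 - r.val))
                  = ((-1 : ℝ) ^ r.val * (-1) ^ r.val) * (x ^ (r.val - 1) * y ^ (n - 1 - r.val)) := by
                    ring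
                _ = _ := by rw [h3, one_mul]
            rw [h2]
            refine scalar_prod_nonneg _ _ hxy.le _ _ ?_
            have : r.val - 1 + (n - 1 - r.val) = n - 2 := by omega
            rw [this]
            exact scalar_even2 n hn he
        have h2 : ∑ r : ZMod n, ker n x y r ≤ 0 := by
          have h3 : (x + y) ^ 2 * (∑ r : ZMod n, ker n x y r)
              = -(x ^ 2 * x ^ (n - 2) + x * y * (x ^ (n - 2) + y ^ (n - 2))
                + y ^ 2 * y ^ (n - 2)) := by
            linear_combination (x + y) * hgeo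
          have h4 : 0 ≤ x ^ 2 * x ^ (n - 2) + x * y * (x ^ (n - 2) + y ^ (n - 2))
                + y ^ 2 * y ^ (n - 2) := by positivity
          by_contra hc
          push Not at hc
          nlinarith [mul_pos hsxy hc]
        linarith
      · exfalso
        have : x * y = -(y ^ 2) := by
          rw [h.2]
          ring
        nlinarith [sq_nonneg y]
    · have hpos : 0 < x ^ 2 + y ^ 2 + 2 * cr k * x * y :=
        lt_of_le_of_ne (scalb_den_nonneg x y k) (Ne.symm hd)
      set K1 := ∑ r : ZMod n, ker n x y r with hK1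
      set K := ∑ r : ZMod n, cr (k * r) * ker n x y r with hK
      set a := x ^ (n - 2) with hadef
      set b := y ^ (n - 2) with hbdef
      have h1 : (x + y) ^ 2 * (x ^ 2 * a + y ^ 2 * b + 2 * x * y * K1)
          = (x ^ 2 - y ^ 2) * (x ^ 2 * a - y ^ 2 * b) := by
        linear_combination (2 * x * y * (x + y)) * hgeo
      have h2 : 0 ≤ x ^ 2 * a + y ^ 2 * b + 2 * x * y * K1 := by
        by_contra hc
        push Not at hc
        nlinarith [mul_pos hsxy (neg_pos.mpr hc)]
      have h3 : (x ^ 2 + y ^ 2 + 2 * cr k * x * y) * (K - K1)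
          = (1 - cr k) * (x ^ 2 * a + y ^ 2 * b + 2 * x * y * K1) := by
        linear_combination hden - (x + y) * hgeo
      have h4 : 0 ≤ (1 - cr k) * (x ^ 2 * a + y ^ 2 * b + 2 * x * y * K1) :=
        mul_nonneg (by linarith [cr_le_one k]) h2
      rw [← h3] at h4
      have h5 := nonneg_of_mul_nonneg_right h4 hpos
      linarith

/-- The symbol is maximal at `k = n / 2`: apply `ksym_min` to `(-x, y)` and `k + n / 2`:
`ker n (-x) y r = - (-1)^r ker n x y r`. -/
theorem ksym_max (n : ℕ) [NeZero n] (hn : 4 ≤ n) (he : Even n) (x y : ℝ) (k : ZMod n) :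
    ∑ r : ZMod n, cr (k * r) * ker n x y r ≤ ∑ r : ZMod n, (-1) ^ r.val * ker n x y r := by
  have hker : ∀ r : ZMod n, ker n (-x) y r = -((-1) ^ r.val * ker n x y r) := by
    intro r
    unfold ker
    by_cases h0 : r = 0
    · rw [if_pos h0, if_pos h0]
      simp
    · rw [if_neg h0, if_neg h0]
      have hr : 0 < r.val := by
        rcases Nat.eq_zero_or_pos r.val with h1 | h1
        · exact absurd ((ZMod.val_eq_zero r).mp h1) h0
        · exact h1
      rw [neg_pow x]
      have : (-1 : ℝ) ^ r.val = (-1) * (-1) ^ (r.val - 1) := by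
        rw [← pow_succ']
        congr 1
        omega
      rw [this]
      have h3 : (-1 : ℝ) ^ (r.val - 1) * (-1) ^ (r.val - 1) = 1 := by
        rw [← mul_pow]
        norm_num
      linear_combination (0 : ℝ) * h3
  have h := ksym_min n hn he (-x) y (k + ((n / 2 : ℕ) : ZMod n))
  have h1 : ∑ r : ZMod n, ker n (-x) y r = -∑ r : ZMod n, (-1) ^ r.val * ker n x y r := by
    rw [← Finset.sum_neg_distrib]
    exact Finset.sum_congr rfl (fun r _ => hker r)
  have h2 : ∑ r : ZMod n, cr ((k + ((n / 2 : ℕ) : ZMod n)) * r) * ker n (-x) y r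
      = -∑ r : ZMod n, cr (k * r) * ker n x y r := by
    rw [← Finset.sum_neg_distrib]
    refine Finset.sum_congr rfl (fun r _ => ?_)
    rw [hker, cr_add_half he]
    have h3 : (-1 : ℝ) ^ r.val * (-1) ^ r.val = 1 := by
      rw [← mul_pow]
      norm_num
    linear_combination (-(cr (k * r) * ker n x y r)) * h3
  rw [h1, h2] at h
  linarith

/-- scalar symbol of the vertical structure function -/
noncomputable def qf (n : ℕ) [NeZero n] (x y : ℝ) (k : ZMod n) : ℝ :=
  ∑ r : ZMod n, (-1) ^ r.val * cr (k * r)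
    * ((x ^ r.val * y ^ (n - r.val) + y ^ r.val * x ^ (n - r.val)) / 2)

theorem scalb_sum {R : Type*} [AddCommMonoid R] (n : ℕ) [NeZero n] (f : ℕ → R) :
    ∑ r : ZMod n, f r.val = ∑ r ∈ range n, f r := by
  obtain ⟨N, rfl⟩ : ∃ N, n = N + 1 := ⟨n - 1, by have := NeZero.ne n; omega⟩
  change ∑ r : Fin (N + 1), f r.val = _
  rw [Finset.sum_range]

theorem scalb_geo (n : ℕ) (he : Even n) (x y z : ℂ) (hz : z ^ n = 1) :
    (y + z * x) * (∑ r ∈ range n, (-1) ^ r * z ^ r * (x ^ r * y ^ (n - r)))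
      = y * (y ^ n - x ^ n) := by
  have key : ∀ r ∈ range n, (y + z * x) * ((-1) ^ r * z ^ r * (x ^ r * y ^ (n - r)))
      = (fun r => -((-1) ^ r * z ^ r * x ^ r * y ^ (n + 1 - r))) (r + 1)
          - (fun r => -((-1) ^ r * z ^ r * x ^ r * y ^ (n + 1 - r))) r := by
    intro r hr
    rw [mem_range] at hr
    have h1 : n + 1 - r = (n - r) + 1 := by omega
    have h2 : n + 1 - (r + 1) = n - r := by omega
    simp only [h1, h2]
    ring
  rw [Finset.mul_sum, Finset.sum_congr rfl key,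
    Finset.sum_range_sub (fun r => -((-1) ^ r * z ^ r * x ^ r * y ^ (n + 1 - r)))]
  have h3 : n + 1 - n = 1 := by omega
  simp only [h3, hz, he.neg_one_pow, pow_zero, Nat.sub_zero, pow_one]
  ring

theorem scalb_qf_sum (n : ℕ) [NeZero n] (x y : ℝ) (k : ZMod n) :
    qf n x y k = ((∑ r ∈ range n, (-1) ^ r * (ZMod.stdAddChar k : ℂ) ^ r
          * ((x : ℂ) ^ r * (y : ℂ) ^ (n - r))).re
        + (∑ r ∈ range n, (-1) ^ r * (ZMod.stdAddChar k : ℂ) ^ r
          * ((y : ℂ) ^ r * (x : ℂ) ^ (n - r))).re) / 2 := by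
  unfold qf
  rw [← scalb_sum n (fun r => (-1) ^ r * (ZMod.stdAddChar k : ℂ) ^ r
          * ((x : ℂ) ^ r * (y : ℂ) ^ (n - r))),
    ← scalb_sum n (fun r => (-1) ^ r * (ZMod.stdAddChar k : ℂ) ^ r
          * ((y : ℂ) ^ r * (x : ℂ) ^ (n - r))), Complex.re_sum, Complex.re_sum,
    ← Finset.sum_add_distrib, Finset.sum_div]
  refine Finset.sum_congr rfl (fun r _ => ?_)
  rw [scalb_cr]
  have e : ∀ u v : ℝ, ((-1 : ℂ) ^ r.val * (ZMod.stdAddChar k : ℂ) ^ r.val
      * ((u : ℂ) ^ r.val * (v : ℂ) ^ (n - r.val))).re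
      = ((-1) ^ r.val * (u ^ r.val * v ^ (n - r.val)))
        * ((ZMod.stdAddChar k : ℂ) ^ r.val).re := by
    intro u v
    rw [← Complex.re_ofReal_mul]
    congr 1
    push_cast
    ring
  rw [e, e]
  ring

/-- `(x²+y²+2cxy) qf = (xⁿ-yⁿ)(x²-y²)/2`; the sum is geometric: with `z = stdAddChar k`,
`(y + z x) ∑_r (-z x)^r y^(n-r) = y (yⁿ - xⁿ)`. -/
theorem qf_eq (n : ℕ) [NeZero n] (hn : 4 ≤ n) (he : Even n) (x y : ℝ) (k : ZMod n) :
    (x ^ 2 + y ^ 2 + 2 * cr k * x * y) * qf n x y k = (x ^ n - y ^ n) * (x ^ 2 - y ^ 2) / 2 := by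
  rw [scalb_qf_sum]
  have hz := scalb_pow_n k
  have hcs := scalb_unit k
  have h1 := scalb_geo n he (x : ℂ) (y : ℂ) _ hz
  have h2 := scalb_geo n he (y : ℂ) (x : ℂ) _ hz
  have hcr : cr k = (ZMod.stdAddChar k : ℂ).re := rfl
  rw [hcr]
  set z : ℂ := (ZMod.stdAddChar k : ℂ) with hzdef
  set A := ∑ r ∈ range n, (-1) ^ r * z ^ r * ((x : ℂ) ^ r * (y : ℂ) ^ (n - r)) with hA
  set B := ∑ r ∈ range n, (-1) ^ r * z ^ r * ((y : ℂ) ^ r * (x : ℂ) ^ (n - r)) with hB
  set c := z.re with hc
  set s := z.im with hs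
  have aux : ∀ (u v : ℝ) (W : ℂ), ((v : ℂ) + z * (u : ℂ)) * W = (v : ℂ) * ((v : ℂ) ^ n - (u : ℂ) ^ n) →
      (u ^ 2 + v ^ 2 + 2 * c * u * v) * W.re = (v + c * u) * (v * (v ^ n - u ^ n)) := by
    intro u v W h
    have e1 : (v : ℂ) * ((v : ℂ) ^ n - (u : ℂ) ^ n) = ((v * (v ^ n - u ^ n) : ℝ) : ℂ) := by
      push_cast
      rfl
    rw [e1] at h
    have hre := congrArg Complex.re h
    have him := congrArg Complex.im h
    simp only [Complex.mul_re, Complex.add_re, Complex.add_im, Complex.mul_im, Complex.ofReal_re,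
      Complex.ofReal_im, mul_zero, sub_zero, add_zero, zero_add] at hre him
    rw [← hc, ← hs] at hre him
    linear_combination (v + c * u) * hre + (s * u) * him - u ^ 2 * W.re * hcs
  have h3 := aux x y A h1
  have h4 := aux y x B h2
  linear_combination (h3 + h4) / 2

theorem scalb_term (n : ℕ) [NeZero n] (he : Even n) (x y : ℝ) (h : 0 ≤ x * y) (r : ZMod n) :
    0 ≤ (x ^ r.val * y ^ (n - r.val) + y ^ r.val * x ^ (n - r.val)) / 2 := by
  have hlt := ZMod.val_lt r
  have e : r.val + (n - r.val) = n := by omega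
  have h1 : 0 ≤ x ^ r.val * y ^ (n - r.val) :=
    scalar_prod_nonneg _ _ h _ _ (by rw [e]; exact he)
  have h2 : 0 ≤ y ^ r.val * x ^ (n - r.val) :=
    scalar_prod_nonneg _ _ (by rw [mul_comm]; exact h) _ _ (by rw [e]; exact he)
  linarith

theorem scalb_sgn_le (n : ℕ) [NeZero n] (k r : ZMod n) (T U : ℝ) (h : |T| ≤ U) :
    (-1) ^ r.val * cr (k * r) * T ≤ U := by
  have h1 : |(-1) ^ r.val * cr (k * r) * T| ≤ U := by
    rw [abs_mul, abs_mul, abs_pow, abs_neg, abs_one, one_pow, one_mul]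
    calc |cr (k * r)| * |T| ≤ 1 * |T| := mul_le_mul_of_nonneg_right (scalb_abs _) (abs_nonneg _)
      _ ≤ U := by rw [one_mul]; exact h
  exact le_trans (le_abs_self _) h1

theorem scalb_qf_zero (n : ℕ) [NeZero n] (hn : 4 ≤ n) (k : ZMod n) : qf n 0 0 k = 0 := by
  unfold qf
  refine Finset.sum_eq_zero (fun r _ => ?_)
  have hlt := ZMod.val_lt r
  have h1 : (0 : ℝ) ^ r.val * 0 ^ (n - r.val) = 0 := by
    rw [zero_pow (by omega : n - r.val ≠ 0), mul_zero]
  rw [h1]
  ring

theorem scalb_qf_neg (n : ℕ) [NeZero n] (he : Even n) (y : ℝ) (k : ZMod n) (h : cr k = 1) :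
    qf n (-y) y k = n * y ^ n := by
  unfold qf
  have h1 : ∀ r ∈ (univ : Finset (ZMod n)), (-1) ^ r.val * cr (k * r)
      * (((-y) ^ r.val * y ^ (n - r.val) + y ^ r.val * (-y) ^ (n - r.val)) / 2) = y ^ n := by
    intro r _
    rw [scalb_one k r h]
    have hlt := ZMod.val_lt r
    have e : y ^ r.val * y ^ (n - r.val) = y ^ n := by
      rw [← pow_add]
      congr 1
      omega
    have e2 : (-1 : ℝ) ^ (n - r.val) = (-1) ^ r.val := by
      have h3 : (-1 : ℝ) ^ (n - r.val) * (-1) ^ r.val = 1 := by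
        rw [← pow_add]
        have : n - r.val + r.val = n := by omega
        rw [this]
        exact he.neg_one_pow
      have h4 : (-1 : ℝ) ^ r.val * (-1) ^ r.val = 1 := by
        rw [← mul_pow]
        norm_num
      have h5 : (-1 : ℝ) ^ r.val ≠ 0 := by
        apply pow_ne_zero
        norm_num
      exact mul_right_cancel₀ h5 (h3.trans h4.symm)
    have h4 : (-1 : ℝ) ^ r.val * (-1) ^ r.val = 1 := by
      rw [← mul_pow]
      norm_num
    rw [neg_pow y, neg_pow y, e2, ← e]
    linear_combination (y ^ r.val * y ^ (n - r.val)) * h4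
  rw [Finset.sum_congr rfl h1, Finset.sum_const, card_univ, ZMod.card, nsmul_eq_mul]

/-- `0 ≤ qf`. If the factor `x²+y²+2cxy` is zero then `x = y = 0`, or `c = -1`, `x = y`, or `c = 1`, `x = -y`; then
`qf = n xⁿ` (`0` if `x = y = 0`). -/
theorem qf_nonneg (n : ℕ) [NeZero n] (hn : 4 ≤ n) (he : Even n) (x y : ℝ) (k : ZMod n) :
    0 ≤ qf n x y k := by
  by_cases hd : x ^ 2 + y ^ 2 + 2 * cr k * x * y = 0
  · rcases scalb_den_zero x y k hd with h | h | h
    · rw [h.1, h.2, scalb_qf_zero n hn k]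
    · unfold qf
      refine Finset.sum_nonneg (fun r _ => ?_)
      rw [scalb_neg_one k r h.1]
      have h4 : (-1 : ℝ) ^ r.val * (-1) ^ r.val = 1 := by
        rw [← mul_pow]
        norm_num
      rw [h4, one_mul]
      refine scalb_term n he x y ?_ r
      rw [h.2]
      exact mul_self_nonneg y
    · rw [h.2, scalb_qf_neg n he y k h.1]
      have := he.pow_nonneg y
      positivity
  · have hpos : 0 < x ^ 2 + y ^ 2 + 2 * cr k * x * y :=
      lt_of_le_of_ne (scalb_den_nonneg x y k) (Ne.symm hd)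
    have h1 := qf_eq n hn he x y k
    have h2 : 0 ≤ (x ^ n - y ^ n) * (x ^ 2 - y ^ 2) / 2 := by
      obtain ⟨m, hm⟩ := he
      have h3 := scalar_mono_pow m x y
      have e : 2 * m = n := by omega
      rw [e] at h3
      linarith
    rw [← h1] at h2
    exact nonneg_of_mul_nonneg_right h2 hpos

/-- if `c' = cr k' ≤ cr k = c` then `qf k' - qf (n/2) ≤ qf k`: for `x y ≥ 0` use `qf k' ≤ qf (n/2)` (termwise) and
`0 ≤ qf k`; for `x y ≤ 0` the factor is decreasing in `c`, so `qf k' ≤ qf k`, and `0 ≤ qf (n/2)`. -/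
theorem qf_mono (n : ℕ) [NeZero n] (hn : 4 ≤ n) (he : Even n) (x y : ℝ) (k k' : ZMod n)
    (h : cr k' ≤ cr k) :
    qf n x y k' - qf n x y ((n / 2 : ℕ) : ZMod n) ≤ qf n x y k := by
  have h0 := qf_nonneg n hn he x y k
  have h0' := qf_nonneg n hn he x y k'
  have h0h := qf_nonneg n hn he x y ((n / 2 : ℕ) : ZMod n)
  rcases le_total 0 (x * y) with hxy | hxy
  · have h1 : qf n x y k' ≤ qf n x y ((n / 2 : ℕ) : ZMod n) := by
      unfold qf
      refine Finset.sum_le_sum (fun r _ => ?_)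
      rw [cr_half he r]
      have h4 : (-1 : ℝ) ^ r.val * (-1) ^ r.val = 1 := by
        rw [← mul_pow]
        norm_num
      rw [h4, one_mul]
      have h5 := scalb_term n he x y hxy r
      exact scalb_sgn_le n k' r _ _ (by rw [abs_of_nonneg h5])
    linarith
  · have h1 : qf n x y k' ≤ qf n x y k := by
      by_cases hd : x ^ 2 + y ^ 2 + 2 * cr k * x * y = 0
      · rcases scalb_den_zero x y k hd with hh | hh | hh
        · rw [hh.1, hh.2, scalb_qf_zero n hn k, scalb_qf_zero n hn k']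
        · have hy : y = 0 := by
            rw [hh.2] at hxy
            nlinarith
          rw [hh.2, hy, scalb_qf_zero n hn k, scalb_qf_zero n hn k']
        · rw [hh.2, scalb_qf_neg n he y k hh.1]
          unfold qf
          have h2 : ∀ r ∈ (univ : Finset (ZMod n)), (-1) ^ r.val * cr (k' * r)
              * (((-y) ^ r.val * y ^ (n - r.val) + y ^ r.val * (-y) ^ (n - r.val)) / 2)
              ≤ y ^ n := by
            intro r _
            apply scalb_sgn_le
            have hlt := ZMod.val_lt r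
            have e : |y| ^ r.val * |y| ^ (n - r.val) = y ^ n := by
              rw [← pow_add]
              have : r.val + (n - r.val) = n := by omega
              rw [this]
              exact he.pow_abs y
            have h3 := abs_add_le ((-y) ^ r.val * y ^ (n - r.val)) (y ^ r.val * (-y) ^ (n - r.val))
            rw [abs_mul, abs_mul, abs_pow, abs_pow, abs_pow, abs_pow, abs_neg, e] at h3
            rw [abs_div, abs_of_pos (by norm_num : (0 : ℝ) < 2)]
            linarith
          calc ∑ r : ZMod n, (-1) ^ r.val * cr (k' * r)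
              * (((-y) ^ r.val * y ^ (n - r.val) + y ^ r.val * (-y) ^ (n - r.val)) / 2)
              ≤ ∑ r : ZMod n, y ^ n := Finset.sum_le_sum h2
            _ = n * y ^ n := by
              rw [Finset.sum_const, card_univ, ZMod.card, nsmul_eq_mul]
      · have hpos : 0 < x ^ 2 + y ^ 2 + 2 * cr k * x * y :=
          lt_of_le_of_ne (scalb_den_nonneg x y k) (Ne.symm hd)
        have h2 := qf_eq n hn he x y k
        have h3 := qf_eq n hn he x y k'
        have h4 : x ^ 2 + y ^ 2 + 2 * cr k * x * y ≤ x ^ 2 + y ^ 2 + 2 * cr k' * x * y := by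
          nlinarith
        have h5 : (x ^ 2 + y ^ 2 + 2 * cr k * x * y) * qf n x y k'
            ≤ (x ^ 2 + y ^ 2 + 2 * cr k * x * y) * qf n x y k := by
          calc (x ^ 2 + y ^ 2 + 2 * cr k * x * y) * qf n x y k'
              ≤ (x ^ 2 + y ^ 2 + 2 * cr k' * x * y) * qf n x y k' :=
                mul_le_mul_of_nonneg_right h4 h0'
            _ = (x ^ 2 + y ^ 2 + 2 * cr k * x * y) * qf n x y k := by rw [h3, h2]
        exact le_of_mul_le_mul_left h5 hpos
    linarith

end LibDim
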