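import Pool.Agent.LibDimB.BAlg

/-! Row UNC: the uncertainty relation (graph level). -/

namespace LibDim

open Finset Matrix

/-- Hilbert-Schmidt norm. -/
noncomputable def bunc_hs {α : Type} [Fintype α] (X : Matrix α α ℝ) : ℝ :=
  Real.sqrt ((Xᵀ * X).trace)

theorem bunc_ip_eq {α : Type} [Fintype α] (X Y : Matrix α α ℝ) :
    (Xᵀ * Y).trace = ∑ p : α × α, X p.1 p.2 * Y p.1 p.2 := by
  simp only [Matrix.trace, Matrix.diag, Matrix.mul_apply, Matrix.transpose_apply]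
  rw [Finset.sum_comm, Fintype.sum_prod_type]

theorem bunc_self_nonneg {α : Type} [Fintype α] (X : Matrix α α ℝ) : 0 ≤ (Xᵀ * X).trace := by
  rw [bunc_ip_eq]
  exact Finset.sum_nonneg fun p _ => mul_self_nonneg _

theorem bunc_hs_sq {α : Type} [Fintype α] (X : Matrix α α ℝ) :
    bunc_hs X ^ 2 = (Xᵀ * X).trace := Real.sq_sqrt (bunc_self_nonneg X)

theorem bunc_hs_nonneg {α : Type} [Fintype α] (X : Matrix α α ℝ) : 0 ≤ bunc_hs X :=
  Real.sqrt_nonneg _

theorem bunc_cs {α : Type} [Fintype α] (X Y : Matrix α α ℝ) :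
    |(Xᵀ * Y).trace| ≤ bunc_hs X * bunc_hs Y := by
  apply abs_le_of_sq_le_sq _ (mul_nonneg (bunc_hs_nonneg X) (bunc_hs_nonneg Y))
  rw [mul_pow, bunc_hs_sq, bunc_hs_sq, bunc_ip_eq, bunc_ip_eq, bunc_ip_eq]
  have := Finset.sum_mul_sq_le_sq_mul_sq (univ : Finset (α × α)) (fun p => X p.1 p.2)
    (fun p => Y p.1 p.2)
  simpa only [sq] using this

theorem bunc_tri {α : Type} [Fintype α] (X Y : Matrix α α ℝ) :
    bunc_hs (X + Y) ≤ bunc_hs X + bunc_hs Y := by
  apply le_of_sq_le_sq _ (add_nonneg (bunc_hs_nonneg X) (bunc_hs_nonneg Y))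
  rw [bunc_hs_sq, Matrix.transpose_add, Matrix.add_mul, Matrix.mul_add, Matrix.mul_add,
    Matrix.trace_add, Matrix.trace_add, Matrix.trace_add, add_sq, bunc_hs_sq, bunc_hs_sq]
  have h1 := (le_abs_self _).trans (bunc_cs X Y)
  have h2 := (le_abs_self _).trans (bunc_cs Y X)
  nlinarith

theorem bunc_of_sq {a b : ℝ} (hb : 0 ≤ b) (h : a ^ 2 ≤ b ^ 2) : a ≤ b :=
  (le_abs_self a).trans (abs_le_of_sq_le_sq h hb)

/-- Multiplication by a matrix `U` with `Uᵀ U` substochastic does not increase the norm. -/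
theorem bunc_contr {α : Type} [Fintype α] [DecidableEq α] (U X : Matrix α α ℝ)
    (h : comm_sub (Uᵀ * U)) : bunc_hs (U * X) ≤ bunc_hs X := by
  apply bunc_of_sq (bunc_hs_nonneg X)
  rw [bunc_hs_sq, bunc_hs_sq]
  have h1 := sub_tr_le (Uᵀ * U) X h
  rw [Matrix.trace_mul_comm X Xᵀ] at h1
  refine le_trans (le_of_eq ?_) h1
  rw [Matrix.transpose_mul, Matrix.trace_mul_comm (Uᵀ * U) (X * Xᵀ), Matrix.mul_assoc X Xᵀ,
    Matrix.trace_mul_comm X]
  simp only [Matrix.mul_assoc]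

variable {V E : Type} [Fintype V] [DecidableEq V] [Fintype E] [DecidableEq E]

theorem bunc_diag (w : V → ℝ) (hw : ∀ y, |w y| ≤ 1) (hV : 0 < Fintype.card V)
    (X : Matrix (V → Bool) (V → Bool) ℝ) :
    bunc_hs (Matrix.diagonal (fun a : V → Bool => ∑ y, w y * ((1 : ℝ) / Fintype.card V) *
      (1 - 2 * ((a y).toNat : ℝ))) * X) ≤ bunc_hs X := by
  apply bunc_of_sq (bunc_hs_nonneg X)
  rw [bunc_hs_sq, bunc_hs_sq, bunc_ip_eq, bunc_ip_eq]
  refine Finset.sum_le_sum fun p _ => ?_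
  rw [Matrix.diagonal_mul]
  set δ : ℝ := ∑ y, w y * ((1 : ℝ) / Fintype.card V) * (1 - 2 * ((p.1 y).toNat : ℝ)) with hδ
  have h1 : |δ| ≤ 1 := by
    calc |δ| ≤ ∑ y, |w y * ((1 : ℝ) / Fintype.card V) * (1 - 2 * ((p.1 y).toNat : ℝ))| :=
          Finset.abs_sum_le_sum_abs _ _
      _ ≤ ∑ _y : V, (1 : ℝ) / Fintype.card V := by
          refine Finset.sum_le_sum fun y _ => ?_
          rw [abs_mul, abs_mul]
          have a1 : |(1 : ℝ) - 2 * ((p.1 y).toNat : ℝ)| = 1 := by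
            cases p.1 y <;> norm_num
          have a2 : |(1 : ℝ) / Fintype.card V| = 1 / Fintype.card V :=
            abs_of_nonneg (by positivity)
          rw [a1, a2, mul_one]
          calc |w y| * (1 / (Fintype.card V : ℝ)) ≤ 1 * (1 / (Fintype.card V : ℝ)) :=
                mul_le_mul_of_nonneg_right (hw y) (by positivity)
            _ = _ := one_mul _
      _ = 1 := by
          rw [Finset.sum_const, Finset.card_univ, nsmul_eq_mul]
          have : (Fintype.card V : ℝ) ≠ 0 := by exact_mod_cast hV.ne'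
          field_simp
  have h2 : δ ^ 2 ≤ 1 := by
    rw [← sq_abs]
    have := abs_nonneg δ
    nlinarith
  nlinarith [mul_self_nonneg (X p.1 p.2)]

theorem bunc_DM_transpose (w : V → ℝ) : (DM w)ᵀ = DM w := by
  unfold DM
  rw [Matrix.diagonal_transpose]

/-- The bound for one of the two charges. -/
theorem bunc_one (g : Gr V E) (n : ℕ) (he : Even n) (hV : 0 < Fintype.card V) (w : V → ℝ)
    (hw : ∀ y, |w y| ≤ 1) (h1 : fN g n w w n ≤ fN g n w w 0) :
    ∃ A G : ℝ, 0 ≤ A ∧ 0 ≤ G ∧ A ^ 2 = (DM w * DM w * lS g ^ n).trace ∧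
      G ^ 2 ≤ 8 * fN g n w w 0 + 2 * ZN g n ∧
      |((DM w * (UM w * (UM (fun _ : V => (1 : ℝ) / Fintype.card V))ᵀ) -
        UM w * (UM (fun _ : V => (1 : ℝ) / Fintype.card V))ᵀ * DM w) * lS g ^ n).trace| ≤
        A * G := by
  obtain ⟨k, hk⟩ := he
  set T := lS g ^ k with hT
  have hTT : lS g ^ n = T * T := by rw [hT, ← pow_add, hk]
  have hTs : Tᵀ = T := lS_pow_symm g k
  set U := UM (fun _ : V => (1 : ℝ) / Fintype.card V) with hU
  set W := UM w with hW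
  set D := DM w with hD
  have hDs : Dᵀ = D := bunc_DM_transpose w
  have hsub := UM_avg_sub hV
  rw [← hU] at hsub
  -- norms
  have e1 : bunc_hs (D * T) ^ 2 = (D * D * lS g ^ n).trace := by
    rw [bunc_hs_sq, Matrix.transpose_mul, hDs, hTs, hTT]
    rw [Matrix.mul_assoc T D, Matrix.trace_mul_comm T]
    simp only [Matrix.mul_assoc]
  have e2 : bunc_hs (Wᵀ * T) ^ 2 = fN g n w w 0 := by
    rw [bunc_hs_sq, Matrix.transpose_mul, Matrix.transpose_transpose, hTs]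
    unfold fN
    rw [← hW, pow_zero, Matrix.mul_one, Nat.sub_zero, hTT]
    rw [Matrix.mul_assoc T W, Matrix.trace_mul_comm T]
    simp only [Matrix.mul_assoc]
  have e3 : bunc_hs (W * T) ^ 2 = fN g n w w n := by
    rw [bunc_hs_sq, Matrix.transpose_mul, hTs]
    unfold fN
    rw [← hW, Nat.sub_self, pow_zero, Matrix.mul_one, hTT]
    rw [Matrix.trace_mul_comm]
    simp only [Matrix.mul_assoc]
  have e4 : bunc_hs T ^ 2 = ZN g n := by
    rw [bunc_hs_sq, hTs]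
    unfold ZN
    rw [hTT]
  have hF0 : 0 ≤ fN g n w w 0 := by rw [← e2]; positivity
  have hZ0 : 0 ≤ ZN g n := by rw [← e4]; positivity
  -- the two norms of B
  have n1 : bunc_hs ((W * Uᵀ)ᵀ * T) ≤ Real.sqrt (fN g n w w 0) := by
    rw [Matrix.transpose_mul, Matrix.transpose_transpose, Matrix.mul_assoc]
    refine (bunc_contr U (Wᵀ * T) (comm_sub_mul (comm_sub_transpose hsub) hsub)).trans ?_
    apply Real.le_sqrt_of_sq_le
    rw [e2]
  have n2 : bunc_hs (W * Uᵀ * T) ≤ Real.sqrt (fN g n w w 0) + Real.sqrt (ZN g n) := by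
    have h3 := UM_comm w (fun _ : V => (1 : ℝ) / Fintype.card V)
    rw [← hU, ← hW, sub_eq_iff_eq_add] at h3
    rw [h3, Matrix.add_mul]
    refine (bunc_tri _ _).trans ?_
    have h4 : bunc_hs (Uᵀ * W * T) ≤ Real.sqrt (fN g n w w 0) := by
      rw [Matrix.mul_assoc]
      refine (bunc_contr Uᵀ (W * T) ?_).trans ?_
      · rw [Matrix.transpose_transpose]
        exact comm_sub_mul hsub (comm_sub_transpose hsub)
      · apply Real.le_sqrt_of_sq_le
        rw [e3]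
        exact h1
    have h5 := bunc_diag w hw hV T
    have h6 : bunc_hs T ≤ Real.sqrt (ZN g n) := by
      apply Real.le_sqrt_of_sq_le
      rw [e4]
    linarith
  refine ⟨bunc_hs (D * T), 2 * Real.sqrt (fN g n w w 0) + Real.sqrt (ZN g n), bunc_hs_nonneg _,
    by positivity, e1, ?_, ?_⟩
  · have s1 := Real.sq_sqrt hF0
    have s2 := Real.sq_sqrt hZ0
    nlinarith [sq_nonneg (2 * Real.sqrt (fN g n w w 0) - Real.sqrt (ZN g n))]
  · have t1 : (D * (W * Uᵀ) * lS g ^ n).trace = ((D * T)ᵀ * (W * Uᵀ * T)).trace := by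
      rw [Matrix.transpose_mul, hDs, hTs, hTT]
      rw [Matrix.mul_assoc T D, Matrix.trace_mul_comm T]
      simp only [Matrix.mul_assoc]
    have t2 : (W * Uᵀ * D * lS g ^ n).trace = (((W * Uᵀ)ᵀ * T)ᵀ * (D * T)).trace := by
      rw [Matrix.transpose_mul, Matrix.transpose_transpose, hTs, hTT]
      rw [Matrix.mul_assoc T, Matrix.trace_mul_comm T]
      simp only [Matrix.mul_assoc]
    rw [Matrix.sub_mul, Matrix.trace_sub, t1, t2]
    have c1 := bunc_cs (D * T) (W * Uᵀ * T)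
    have c2 := bunc_cs ((W * Uᵀ)ᵀ * T) (D * T)
    have c3 := abs_sub ((D * T)ᵀ * (W * Uᵀ * T)).trace (((W * Uᵀ)ᵀ * T)ᵀ * (D * T)).trace
    have hA := bunc_hs_nonneg (D * T)
    have m1 := mul_le_mul_of_nonneg_left n1 hA
    have m2 := mul_le_mul_of_nonneg_left n2 hA
    nlinarith

/-- The trace of the commutator. -/
theorem bunc_trace (g : Gr V E) (n : ℕ) (w : V → ℝ) :
    ((DM w * (UM w * (UM (fun _ : V => (1 : ℝ) / Fintype.card V))ᵀ) -
        UM w * (UM (fun _ : V => (1 : ℝ) / Fintype.card V))ᵀ * DM w) * lS g ^ n).trace =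
      (1 / Fintype.card V : ℝ) * (fN g n w w 0 -
        (UM (fun y => w y * w y) * (UM (fun _ : V => (1 : ℝ)))ᵀ * lS g ^ n).trace) := by
  have h1 := DM_UM w w
  have h2 := DM_UM w (fun _ : V => (1 : ℝ) / Fintype.card V)
  have h3 : (fun y => w y * ((1 : ℝ) / Fintype.card V)) =
      fun y => ((1 : ℝ) / Fintype.card V) * w y := funext fun y => mul_comm _ _
  rw [h3, UM_smul] at h2
  have h4 : UM (fun _ : V => (1 : ℝ) / Fintype.card V) =
      ((1 : ℝ) / Fintype.card V) • UM (fun _ : V => (1 : ℝ)) := by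
    rw [← UM_smul]
    simp
  have h5 := congrArg Matrix.transpose h2
  rw [Matrix.transpose_sub, Matrix.transpose_mul, Matrix.transpose_mul, bunc_DM_transpose,
    Matrix.transpose_neg, Matrix.transpose_smul] at h5
  have h6 : DM w * (UM w * (UM (fun _ : V => (1 : ℝ) / Fintype.card V))ᵀ) -
        UM w * (UM (fun _ : V => (1 : ℝ) / Fintype.card V))ᵀ * DM w =
      (DM w * UM w - UM w * DM w) * (UM (fun _ : V => (1 : ℝ) / Fintype.card V))ᵀ -
        UM w * ((UM (fun _ : V => (1 : ℝ) / Fintype.card V))ᵀ * DM w -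
          DM w * (UM (fun _ : V => (1 : ℝ) / Fintype.card V))ᵀ) := by
    noncomm_ring
  rw [h6, h5, h1, h4]
  unfold fN
  rw [pow_zero, Matrix.mul_one, Nat.sub_zero]
  simp only [Matrix.transpose_smul, Matrix.mul_smul, Matrix.smul_mul, Matrix.neg_mul,
    Matrix.mul_neg, Matrix.sub_mul, Matrix.trace_sub, Matrix.trace_smul, Matrix.trace_neg,
    smul_eq_mul]
  ring

/-- Uncertainty relation. `T = S^(n/2)` is symmetric, `S^n = T T`. With `U₀ = UM (1/|V|)`, `B_u = UM (σ u) U₀ᵀ` for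
`u = c, s`: `DM_UM` gives `[DM (σ u), B_u] = - UM (u²) U₀ᵀ + (1/|V|) UM (σ u) UM (σ u)ᵀ`, hence
`∑_u tr ([DM (σ u), B_u] S^n) = - (1/|V|) (fN 1 1 0 - ∑_u fN (σu) (σu) 0)`.
Hilbert-Schmidt Cauchy-Schwarz: `|tr (D B T²) - tr (B D T²)| ≤ ‖D T‖ (‖B T‖ + ‖Bᵀ T‖)`, `‖X‖² = tr (Xᵀ X)`.
`‖Bᵀ T‖ ≤ ‖(UM (σu))ᵀ T‖` (`sub_tr_le`, `UM_avg_sub`), `‖(UM (σu))ᵀ T‖² = fN (σu)(σu) 0`;
`B = U₀ᵀ UM(σu) + diag(...)` by `UM_comm`, the diagonal entries are bounded by `(1/|V|) ∑ |u|`, and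
`‖U₀ᵀ UM(σu) T‖ ≤ ‖UM(σu) T‖`, `‖UM(σu) T‖² = fN (σu)(σu) n ≤ fN (σu)(σu) 0`.
So `(‖B T‖ + ‖Bᵀ T‖)² ≤ 8 fN (σu)(σu) 0 + 2 m_u² Z` with `m_c² + m_s² ≤ 1`, and Cauchy-Schwarz for the sum over `u`. -/
theorem unc_ineq (g : Gr V E) (n : ℕ) (he : Even n) (hV : 0 < Fintype.card V) (σ c s : V → ℝ)
    (hσ : ∀ y, σ y ^ 2 = 1) (hcs : ∀ y, c y ^ 2 + s y ^ 2 = 1)
    (h1 : fN g n (fun y => σ y * c y) (fun y => σ y * c y) n
      ≤ fN g n (fun y => σ y * c y) (fun y => σ y * c y) 0)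
    (h2 : fN g n (fun y => σ y * s y) (fun y => σ y * s y) n
      ≤ fN g n (fun y => σ y * s y) (fun y => σ y * s y) 0) :
    ((fN g n (fun _ => 1) (fun _ => 1) 0
        - (fN g n (fun y => σ y * c y) (fun y => σ y * c y) 0
          + fN g n (fun y => σ y * s y) (fun y => σ y * s y) 0)) / Fintype.card V) ^ 2
      ≤ ((DM (fun y => σ y * c y) * DM (fun y => σ y * c y) * lS g ^ n).trace
          + (DM (fun y => σ y * s y) * DM (fun y => σ y * s y) * lS g ^ n).trace)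
        * (8 * (fN g n (fun y => σ y * c y) (fun y => σ y * c y) 0
          + fN g n (fun y => σ y * s y) (fun y => σ y * s y) 0) + 4 * ZN g n) := by
  have hc1 : ∀ y, |σ y * c y| ≤ 1 := by
    intro y
    apply abs_le_of_sq_le_sq _ zero_le_one
    nlinarith [hσ y, hcs y, sq_nonneg (s y)]
  have hs1 : ∀ y, |σ y * s y| ≤ 1 := by
    intro y
    apply abs_le_of_sq_le_sq _ zero_le_one
    nlinarith [hσ y, hcs y, sq_nonneg (c y)]
  obtain ⟨A, G, hA, hG, eA, eG, bA⟩ := bunc_one g n he hV (fun y => σ y * c y) hc1 h1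
  obtain ⟨A', G', hA', hG', eA', eG', bA'⟩ := bunc_one g n he hV (fun y => σ y * s y) hs1 h2
  rw [bunc_trace] at bA bA'
  have hsum : (UM (fun y => σ y * c y * (σ y * c y)) * (UM (fun _ : V => (1 : ℝ)))ᵀ *
      lS g ^ n).trace + (UM (fun y => σ y * s y * (σ y * s y)) * (UM (fun _ : V => (1 : ℝ)))ᵀ *
      lS g ^ n).trace = fN g n (fun _ => 1) (fun _ => 1) 0 := by
    rw [← Matrix.trace_add, ← Matrix.add_mul, ← Matrix.add_mul, ← UM_add]
    unfold fN
    rw [pow_zero, Matrix.mul_one, Nat.sub_zero]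
    have : (fun y => σ y * c y * (σ y * c y) + σ y * s y * (σ y * s y)) = fun _ : V => (1 : ℝ) := by
      funext y
      have e1 := hσ y
      have e2 := hcs y
      calc σ y * c y * (σ y * c y) + σ y * s y * (σ y * s y) =
            σ y ^ 2 * (c y ^ 2 + s y ^ 2) := by ring
        _ = 1 := by rw [e1, e2, mul_one]
    rw [this]
  set p := (UM (fun y => σ y * c y * (σ y * c y)) * (UM (fun _ : V => (1 : ℝ)))ᵀ *
      lS g ^ n).trace with hp
  set q := (UM (fun y => σ y * s y * (σ y * s y)) * (UM (fun _ : V => (1 : ℝ)))ᵀ *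
      lS g ^ n).trace with hq
  set Fc := fN g n (fun y => σ y * c y) (fun y => σ y * c y) 0 with hFc
  set Fs := fN g n (fun y => σ y * s y) (fun y => σ y * s y) 0 with hFs
  rw [← eA, ← eA', ← hsum]
  have k1 : |(p + q - (Fc + Fs)) / Fintype.card V| ≤ A * G + A' * G' := by
    have : (p + q - (Fc + Fs)) / Fintype.card V =
        -((1 / Fintype.card V : ℝ) * (Fc - p) + (1 / Fintype.card V : ℝ) * (Fs - q)) := by ring
    rw [this, abs_neg]
    exact (abs_add_le _ _).trans (add_le_add bA bA')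
  have k2 : ((p + q - (Fc + Fs)) / Fintype.card V) ^ 2 ≤ (A * G + A' * G') ^ 2 := by
    rw [← sq_abs]
    exact pow_le_pow_left₀ (abs_nonneg _) k1 2
  have k3 : (A * G + A' * G') ^ 2 ≤ (A ^ 2 + A' ^ 2) * (G ^ 2 + G' ^ 2) := by
    nlinarith [sq_nonneg (A * G' - A' * G)]
  have k4 : (A ^ 2 + A' ^ 2) * (G ^ 2 + G' ^ 2) ≤
      (A ^ 2 + A' ^ 2) * (8 * (Fc + Fs) + 4 * ZN g n) := by
    apply mul_le_mul_of_nonneg_left _ (by positivity)
    linarith
  exact k2.trans (k3.trans k4)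

end LibDim
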