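import Pool.Agent.LibDimB.BFlC
import Pool.Agent.LibDimB.BConvB
import Pool.Agent.LibDimB.BUnc

/-! Row SP: lower bound for the equal layer charge fluctuations, `d = 3`. -/

namespace LibDim

open Finset Matrix

/-- `lro` and `f11_low` -/
theorem f11_3 {n : ℕ} [NeZero n] (hn : 4 ≤ n) (h8 : 8 ≤ n) (he : Even n) :
    (n : ℝ) ^ 4 * ZP 3 n / 10000
      ≤ fN (layG 2 n hn) n (fun _ => 1) (fun _ => 1) 0 := by
  have h1 := f11_low (d := 2) hn he
  have h2 := lro (n := n) h8 he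
  have hn0 : (0 : ℝ) < n := by
    have : 0 < n := by omega
    exact_mod_cast this
  have hZ : (0 : ℝ) ≤ ZP 3 n := by
    unfold ZP
    positivity
  have h3 : (n : ℝ) ^ 2 * ZP 3 n * ((n : ℝ) ^ 3 / 10000) ≤ (n : ℝ) ^ 2 * ZP 3 n * Gh (0 : Vtx 3 n) :=
    mul_le_mul_of_nonneg_left h2 (by positivity)
  have h4 : (n : ℝ) * ((n : ℝ) ^ 4 * ZP 3 n / 10000)
      ≤ n * fN (layG 2 n hn) n (fun _ => 1) (fun _ => 1) 0 := by
    calc (n : ℝ) * ((n : ℝ) ^ 4 * ZP 3 n / 10000)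
        = (n : ℝ) ^ 2 * ZP 3 n * ((n : ℝ) ^ 3 / 10000) := by ring
      _ ≤ (n : ℝ) ^ 2 * ZP 3 n * Gh (0 : Vtx 3 n) := h3
      _ ≤ _ := h1
  exact le_of_mul_le_mul_left h4 hn0

theorem bsp_scal (N Z F f r S : ℝ) (hN : 15000 ≤ N) (hZ : 0 < Z) (hr : 0 < r) (hr1 : r ≤ 1)
    (hr4 : 4 ≤ N * r) (hF0 : 0 ≤ F) (hF : F ≤ 3 * N ^ 2 * Z / r) (hf : N ^ 4 * Z / 10000 ≤ f)
    (hu : ((f - F) / N ^ 2) ^ 2 ≤ S * (8 * F + 4 * Z)) :
    N ^ 2 * r * Z / 10 ^ 11 ≤ S := by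
  have hN0 : (0 : ℝ) < N := by linarith
  have hF' : F * r ≤ 3 * N ^ 2 * Z := by
    rwa [le_div_iff₀ hr] at hF
  -- F ≤ (3/4) N^3 Z
  have h1 : F * 4 ≤ 3 * N ^ 3 * Z := by
    have a1 : F * 4 ≤ F * (N * r) := mul_le_mul_of_nonneg_left hr4 hF0
    have a2 : F * (N * r) = N * (F * r) := by ring
    have a3 : N * (F * r) ≤ N * (3 * N ^ 2 * Z) := mul_le_mul_of_nonneg_left hF' hN0.le
    calc F * 4 ≤ F * (N * r) := a1
      _ = N * (F * r) := a2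
      _ ≤ N * (3 * N ^ 2 * Z) := a3
      _ = 3 * N ^ 3 * Z := by ring
  have h2 : F ≤ N ^ 4 * Z / 20000 := by
    have a1 : 15000 * (N ^ 3 * Z) ≤ N * (N ^ 3 * Z) :=
      mul_le_mul_of_nonneg_right hN (by positivity)
    have a2 : N * (N ^ 3 * Z) = N ^ 4 * Z := by ring
    have a3 : 3 * N ^ 3 * Z = 3 * (N ^ 3 * Z) := by ring
    rw [a3] at h1
    rw [a2] at a1
    linarith
  have h3 : N ^ 2 * Z / 20000 ≤ (f - F) / N ^ 2 := by
    rw [le_div_iff₀ (by positivity)]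
    have : N ^ 2 * Z / 20000 * N ^ 2 = N ^ 4 * Z / 20000 := by ring
    rw [this]
    linarith
  have h4 : (N ^ 2 * Z / 20000) ^ 2 ≤ S * (8 * F + 4 * Z) := by
    refine le_trans ?_ hu
    exact pow_le_pow_left₀ (by positivity) h3 2
  -- (8F + 4Z) r ≤ 28 N^2 Z
  have h5 : (8 * F + 4 * Z) * r ≤ 28 * N ^ 2 * Z := by
    have a1 : Z * r ≤ Z * 1 := mul_le_mul_of_nonneg_left hr1 hZ.le
    have a2 : 1 * Z ≤ N ^ 2 * Z := by
      refine mul_le_mul_of_nonneg_right ?_ hZ.le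
      nlinarith
    nlinarith
  have hS : 0 ≤ S := by
    by_contra hneg
    push Not at hneg
    have : S * (8 * F + 4 * Z) ≤ 0 := by
      have : 0 ≤ 8 * F + 4 * Z := by positivity
      exact mul_nonpos_of_nonpos_of_nonneg hneg.le this
    have h6 : 0 < (N ^ 2 * Z / 20000) ^ 2 := by positivity
    linarith
  have h6 : (N ^ 2 * Z / 20000) ^ 2 * r ≤ S * (28 * N ^ 2 * Z) := by
    calc (N ^ 2 * Z / 20000) ^ 2 * r ≤ S * (8 * F + 4 * Z) * r :=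
          mul_le_mul_of_nonneg_right h4 hr.le
      _ = S * ((8 * F + 4 * Z) * r) := by ring
      _ ≤ S * (28 * N ^ 2 * Z) := mul_le_mul_of_nonneg_left h5 hS
  have h7 : (N ^ 2 * Z) * (N ^ 2 * r * Z / (28 * 20000 ^ 2)) ≤ (N ^ 2 * Z) * S := by
    have e1 : (N ^ 2 * Z / 20000) ^ 2 * r = 28 * ((N ^ 2 * Z) * (N ^ 2 * r * Z / (28 * 20000 ^ 2))) := by
      ring
    have e2 : S * (28 * N ^ 2 * Z) = 28 * ((N ^ 2 * Z) * S) := by ring
    rw [e1, e2] at h6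
    linarith
  have h8 : N ^ 2 * r * Z / (28 * 20000 ^ 2) ≤ S :=
    le_of_mul_le_mul_left h7 (by positivity)
  refine le_trans ?_ h8
  have h9 : 0 ≤ N ^ 2 * r * Z := by positivity
  rw [div_le_div_iff₀ (by positivity) (by positivity)]
  have : (28 * 20000 ^ 2 : ℝ) ≤ 10 ^ 11 := by norm_num
  exact mul_le_mul_of_nonneg_left this h9

/-- `unc_ineq` with `σ = sgnV`, `c = cosV p`, `s = sinV p`; `F_bound`, `F_sgn`, `f11_3`: for `n ≥ 15000`,
`F ≤ 3 n² Z / √EL ≤ (3/4) n³ Z ≤ (1/2) 10⁻⁴ n⁴ Z`. -/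
theorem Sp_low {n : ℕ} [NeZero n] (hn : 4 ≤ n) (h : 15000 ≤ n) (he : Even n) (p : Vtx 2 n)
    (hp : p ≠ 0) (hp1 : EL p ≤ 1) :
    (n : ℝ) ^ 2 * Real.sqrt (EL p) * ZP 3 n / 10 ^ 11
      ≤ (DM (fun y => sgnV y * cosV p y) * DM (fun y => sgnV y * cosV p y)
            * lS (layG 2 n hn) ^ n).trace
        + (DM (fun y => sgnV y * sinV p y) * DM (fun y => sgnV y * sinV p y)
            * lS (layG 2 n hn) ^ n).trace := by
  have hZ : 0 < ZP 3 n := ZP_pos (by norm_num) hn he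
  have hcard : Fintype.card (Vtx 2 n) = n ^ 2 := by
    rw [Fintype.card_fun, ZMod.card, Fintype.card_fin]
  have hV : 0 < Fintype.card (Vtx 2 n) := by
    rw [hcard]
    have : 0 < n := by omega
    positivity
  have hu := unc_ineq (layG 2 n hn) n he hV (sgnV (d := 2) (n := n)) (cosV p) (sinV p)
    (fun y => MainA_sgn_sq y) (fun y => cosV_sinV p y)
    (fN_end hn _) (fN_end hn _)
  rw [F_sgn hn he (cosV p), F_sgn hn he (sinV p), ZN_eq hn, hcard] at hu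
  have hF := F_bound (d := 2) hn he p hp hp1
  have hgap := EL_gap p hp
  have hN0 : (0 : ℝ) < n := by
    have : 0 < n := by omega
    exact_mod_cast this
  have hE0 : 0 < EL p := lt_of_lt_of_le (by positivity) hgap
  have hr : 0 < Real.sqrt (EL p) := Real.sqrt_pos.mpr hE0
  have hr1 : Real.sqrt (EL p) ≤ 1 := by
    exact Real.sqrt_le_one.mpr hp1
  have hr4 : (4 : ℝ) ≤ n * Real.sqrt (EL p) := by
    have h1 : (4 / (n : ℝ)) ≤ Real.sqrt (EL p) := by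
      apply Real.le_sqrt_of_sq_le
      have : (4 / (n : ℝ)) ^ 2 = 16 / (n : ℝ) ^ 2 := by
        rw [div_pow]; norm_num
      rw [this]
      exact hgap
    rw [div_le_iff₀ hN0] at h1
    linarith
  have hF0 : 0 ≤ fN (layG 2 n hn) n (cosV p) (cosV p) 0 + fN (layG 2 n hn) n (sinV p) (sinV p) 0 := by
    have h0 : ∀ u : Vtx 2 n → ℝ, 0 ≤ fN (layG 2 n hn) n u u 0 := by
      intro u
      rw [fN_hT]
      exact hT_nonneg n he _ _ (lS_symm _) 0 (by norm_num) (by omega)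
    exact add_nonneg (h0 _) (h0 _)
  have hf := f11_3 hn (by omega) he
  have hNr : (15000 : ℝ) ≤ n := by exact_mod_cast h
  refine bsp_scal (n : ℝ) (ZP 3 n) _ _ (Real.sqrt (EL p)) _ hNr hZ hr hr1 hr4 hF0 hF hf ?_
  have e3 : ((n ^ 2 : ℕ) : ℝ) = (n : ℝ) ^ 2 := by push_cast; ring
  rw [e3] at hu
  exact hu

end LibDim
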