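import Pool.Agent.LibDimB.BSym

/-! Row SYMB: the monomer correlation, sum rule. -/

namespace LibDim

open Finset

variable {d n : ℕ}

theorem Gm_parity [NeZero n] (hd : 0 < d) (hn : 4 ≤ n) (he : Even n) (x y : Vtx d n)
    (h : sgnV x = sgnV y) : Gm x y = 0 := by
  classical
  have h1 : cnt (srcTwo x y) = 0 := by
    apply cnt_parity hd hn he
    have h2 : ∑ z, sgnV z * (srcTwo x y z : ℝ) = sgnV x + sgnV y := by
      unfold srcTwo
      push_cast
      simp only [mul_add, Finset.sum_add_distrib, mul_ite, mul_one, mul_zero,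
        Finset.sum_ite_eq', Finset.mem_univ, if_true]
    rw [h2, ← h]
    have h3 := MainA_sgn_sq x
    intro h4
    have h5 : sgnV x = 0 := by linarith
    rw [h5] at h3
    norm_num at h3
  unfold Gm
  rw [h1, zero_div]

theorem Gm_nonneg [NeZero n] (x y : Vtx d n) : 0 ≤ Gm x y :=
  div_nonneg (cnt_nonneg _) (cnt_nonneg _)

theorem bsymb_src_comm (x y : Vtx d n) : srcTwo x y = srcTwo y x := by
  funext z
  unfold srcTwo
  rw [add_comm]

theorem Gm_comm [NeZero n] (x y : Vtx d n) : Gm x y = Gm y x := by
  unfold Gm
  rw [bsymb_src_comm]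

theorem bsymb_cnt_shift [NeZero n] (x y v : Vtx d n) :
    cnt (srcTwo (x + v) (y + v)) = cnt (srcTwo x y) := by
  have h := cnt_shift (srcTwo (x + v) (y + v)) v
  rw [← h]
  congr 1
  funext z
  unfold srcTwo
  simp only [add_left_inj]

theorem Gm_shift [NeZero n] (x y v : Vtx d n) : Gm (x + v) (y + v) = Gm x y := by
  unfold Gm
  rw [bsymb_cnt_shift]

theorem Gm_zero [NeZero n] (x y : Vtx d n) : Gm x y = Gm 0 (y - x) := by
  have h := Gm_shift 0 (y - x) x
  rw [zero_add, sub_add_cancel] at h
  exact h

theorem bsymb_rfl_rfl (j : Fin d) (x : Vtx d n) : rfl1 j (rfl1 j x) = x := by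
  unfold rfl1
  funext k
  by_cases h : k = j
  · subst h
    simp
  · simp [Function.update_of_ne h]

theorem Gm_refl [NeZero n] (j : Fin d) (y : Vtx d n) : Gm 0 (rfl1 j y) = Gm 0 y := by
  unfold Gm
  congr 1
  rw [← cnt_refl (srcTwo 0 y) j]
  congr 1
  funext z
  unfold srcTwo
  have h0 : rfl1 j (0 : Vtx d n) = 0 := by
    unfold rfl1
    funext k
    by_cases h : k = j
    · subst h
      simp
    · simp [Function.update_of_ne h]
  have h1 : (rfl1 j z = 0) ↔ (z = 0) := by
    constructor
    · intro h
      rw [← bsymb_rfl_rfl j z, h, h0]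
    · intro h
      rw [h, h0]
  have h2 : (rfl1 j z = y) ↔ (z = rfl1 j y) := by
    constructor
    · intro h
      rw [← h, bsymb_rfl_rfl]
    · intro h
      rw [h, bsymb_rfl_rfl]
  simp only [h1, h2]

/-- change of one edge -/
def bsymb_upd (E : Vtx d n → Fin d → Bool) (x : Vtx d n) (i : Fin d) (b : Bool) :
    Vtx d n → Fin d → Bool := fun z k => if z = x ∧ k = i then b else E z k

theorem bsymb_upd_self (E : Vtx d n → Fin d → Bool) (x : Vtx d n) (i : Fin d) (b : Bool) :
    bsymb_upd E x i b x i = b := by
  unfold bsymb_upd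
  rw [if_pos ⟨rfl, rfl⟩]

theorem bsymb_upd_eq (E : Vtx d n → Fin d → Bool) (x : Vtx d n) (i : Fin d) (b : Bool)
    (h : E x i = b) : bsymb_upd E x i b = E := by
  funext z k
  unfold bsymb_upd
  split_ifs with h1
  · obtain ⟨rfl, rfl⟩ := h1
    exact h.symm
  · rfl

theorem bsymb_upd_upd (E : Vtx d n → Fin d → Bool) (x : Vtx d n) (i : Fin d) (b c : Bool) :
    bsymb_upd (bsymb_upd E x i b) x i c = bsymb_upd E x i c := by
  funext z k
  unfold bsymb_upd
  split_ifs <;> rfl

theorem bsymb_deg (E : Vtx d n → Fin d → Bool) (x : Vtx d n) (i : Fin d) (z : Vtx d n) :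
    ∑ k, ((bsymb_upd E x i true z k).toNat + (bsymb_upd E x i true (z - stp k) k).toNat) =
      srcTwo x (x + stp i) z +
      ∑ k, ((bsymb_upd E x i false z k).toNat + (bsymb_upd E x i false (z - stp k) k).toNat) := by
  have key : ∀ k, (bsymb_upd E x i true z k).toNat + (bsymb_upd E x i true (z - stp k) k).toNat =
      (if k = i then srcTwo x (x + stp i) z else 0) +
      ((bsymb_upd E x i false z k).toNat + (bsymb_upd E x i false (z - stp k) k).toNat) := by
    intro k
    unfold bsymb_upd srcTwo
    by_cases hk : k = i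
    · subst hk
      have h1 : (z - stp k = x) ↔ (z = x + stp k) := sub_eq_iff_eq_add
      simp only [and_true, if_true, h1]
      by_cases h2 : z = x
      · by_cases h3 : z = x + stp k
        · simp only [if_pos h2, if_pos h3, Bool.toNat_true, Bool.toNat_false]
        · simp only [if_pos h2, if_neg h3, Bool.toNat_true, Bool.toNat_false]
          omega
      · by_cases h3 : z = x + stp k
        · simp only [if_neg h2, if_pos h3, Bool.toNat_true, Bool.toNat_false]
          omega
        · simp only [if_neg h2, if_neg h3]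
          omega
    · simp only [hk, and_false, if_false]
      omega
  rw [Finset.sum_congr rfl fun k _ => key k, Finset.sum_add_distrib]
  congr 1
  rw [Finset.sum_ite_eq' Finset.univ i]
  simp

/-- the covering edge at `x` (in direction `+e_i` or `-e_i`): remove it to get two monomers at its ends -/
theorem cnt_edge [NeZero n] (hn : 4 ≤ n) (x : Vtx d n) (i : Fin d) :
    cnt (srcTwo x (x + stp i))
      = ∑ E : Vtx d n → Fin d → Bool, by classical exact (if CovC 0 E ∧ E x i = true then (1 : ℝ) else 0) := by
  classical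
  have h1 : (univ.filter (fun E : Vtx d n → Fin d → Bool => CovC (srcTwo x (x + stp i)) E)).card =
      (univ.filter (fun E : Vtx d n → Fin d → Bool => CovC 0 E ∧ E x i = true)).card := by
    refine Finset.card_bij' (fun E _ => bsymb_upd E x i true) (fun E _ => bsymb_upd E x i false)
      ?_ ?_ ?_ ?_
    · intro E hE
      rw [mem_filter] at hE ⊢
      have hf : E x i = false := by
        have h2 := hE.2 x
        have h3 : 1 ≤ srcTwo x (x + stp i) x := by
          unfold srcTwo
          rw [if_pos rfl]
          omega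
        have h4 : ∑ k, ((E x k).toNat + (E (x - stp k) k).toNat) = 0 := by omega
        rw [Finset.sum_eq_zero_iff] at h4
        have h5 := h4 i (mem_univ i)
        cases h6 : E x i
        · rfl
        · rw [h6] at h5
          simp at h5
      refine ⟨mem_univ _, ?_, bsymb_upd_self E x i true⟩
      intro z
      rw [bsymb_deg, bsymb_upd_eq E x i false hf, Pi.zero_apply, zero_add]
      exact hE.2 z
    · intro E hE
      rw [mem_filter] at hE ⊢
      refine ⟨mem_univ _, ?_⟩
      intro z
      have h2 := bsymb_deg E x i z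
      rw [← h2, bsymb_upd_eq E x i true hE.2.2]
      have h3 := hE.2.1 z
      rw [Pi.zero_apply, zero_add] at h3
      exact h3
    · intro E hE
      rw [mem_filter] at hE
      have hf : E x i = false := by
        have h2 := hE.2 x
        have h3 : 1 ≤ srcTwo x (x + stp i) x := by
          unfold srcTwo
          rw [if_pos rfl]
          omega
        have h4 : ∑ k, ((E x k).toNat + (E (x - stp k) k).toNat) = 0 := by omega
        rw [Finset.sum_eq_zero_iff] at h4
        have h5 := h4 i (mem_univ i)
        cases h6 : E x i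
        · rfl
        · rw [h6] at h5
          simp at h5
      change bsymb_upd (bsymb_upd E x i true) x i false = E
      rw [bsymb_upd_upd, bsymb_upd_eq E x i false hf]
    · intro E hE
      rw [mem_filter] at hE
      change bsymb_upd (bsymb_upd E x i false) x i true = E
      rw [bsymb_upd_upd, bsymb_upd_eq E x i true hE.2.2]
  unfold cnt
  rw [h1, Finset.card_filter]
  push_cast
  rfl

theorem bsymb_cnt_sum [NeZero n] (s : Vtx d n → ℕ) :
    cnt s = ∑ E : Vtx d n → Fin d → Bool, by classical exact (if CovC s E then (1 : ℝ) else 0) := by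
  classical
  unfold cnt
  rw [Finset.card_filter]
  push_cast
  rfl

/-- sum rule: every vertex is matched to exactly one neighbour -/
theorem sum_rule [NeZero n] (hn : 4 ≤ n) (x : Vtx d n) :
    ∑ i, (cnt (srcTwo x (x + stp i)) + cnt (srcTwo x (x - stp i))) = ZP d n := by
  classical
  have h1 : ∀ i : Fin d, cnt (srcTwo x (x + stp i)) + cnt (srcTwo x (x - stp i)) =
      ∑ E : Vtx d n → Fin d → Bool, (if CovC 0 E then
        (((E x i).toNat + (E (x - stp i) i).toNat : ℕ) : ℝ) else 0) := by
    intro i
    have h2 : cnt (srcTwo x (x - stp i)) = cnt (srcTwo (x - stp i) (x - stp i + stp i)) := by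
      rw [bsymb_src_comm, sub_add_cancel]
    rw [h2, cnt_edge hn, cnt_edge hn, ← Finset.sum_add_distrib]
    refine Finset.sum_congr rfl fun E _ => ?_
    by_cases hE : CovC 0 E
    · simp only [hE, true_and, if_true]
      cases E x i <;> cases E (x - stp i) i <;> simp <;> norm_num
    · simp only [hE, false_and, if_false, add_zero]
  rw [Finset.sum_congr rfl fun i _ => h1 i, Finset.sum_comm, ← cnt_zero hn, bsymb_cnt_sum]
  refine Finset.sum_congr rfl fun E _ => ?_
  by_cases hE : CovC 0 E
  · simp only [hE, if_true]
    rw [← Nat.cast_sum]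
    have h3 := hE x
    rw [Pi.zero_apply, zero_add] at h3
    rw [h3, Nat.cast_one]
  · simp only [hE, if_false, Finset.sum_const_zero]

theorem bsymb_cnt_perm [NeZero n] (i k : Fin d) :
    cnt (srcTwo 0 (stp i : Vtx d n)) = cnt (srcTwo 0 (stp k : Vtx d n)) := by
  classical
  rw [← cnt_perm (srcTwo 0 (stp i : Vtx d n)) (Equiv.swap i k)]
  congr 1
  funext z
  unfold srcTwo
  have h1 : ((fun a => z (Equiv.swap i k a)) = (0 : Vtx d n)) ↔ (z = 0) := by
    constructor
    · intro h
      funext a
      have h2 := congrFun h (Equiv.swap i k a)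
      simp only [Equiv.swap_apply_self] at h2
      exact h2
    · rintro rfl
      rfl
  have h2 : ((fun a => z (Equiv.swap i k a)) = (stp i : Vtx d n)) ↔ (z = stp k) := by
    constructor
    · intro h
      funext a
      have h3 := congrFun h (Equiv.swap i k a)
      simp only [Equiv.swap_apply_self] at h3
      rw [h3]
      unfold stp
      by_cases hak : a = k
      · subst hak
        simp
      · rw [Pi.single_eq_of_ne hak, Pi.single_eq_of_ne]
        intro h4
        apply hak
        have h5 := congrArg (Equiv.swap i k) h4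
        rw [Equiv.swap_apply_self, Equiv.swap_apply_left] at h5
        exact h5
    · rintro rfl
      funext a
      unfold stp
      by_cases hai : a = i
      · subst hai
        simp
      · rw [Pi.single_eq_of_ne hai, Pi.single_eq_of_ne]
        intro h4
        apply hai
        have h5 := congrArg (Equiv.swap i k) h4
        rw [Equiv.swap_apply_self, Equiv.swap_apply_right] at h5
        exact h5
  simp only [h1, h2]

theorem bsymb_plus [NeZero n] (x : Vtx d n) (i : Fin d) :
    cnt (srcTwo x (x + stp i)) = cnt (srcTwo 0 (stp i : Vtx d n)) := by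
  have h := bsymb_cnt_shift (0 : Vtx d n) (stp i) x
  rw [zero_add, add_comm (stp i) x] at h
  exact h

theorem bsymb_minus [NeZero n] (x : Vtx d n) (i : Fin d) :
    cnt (srcTwo x (x - stp i)) = cnt (srcTwo 0 (stp i : Vtx d n)) := by
  rw [bsymb_src_comm]
  have h := bsymb_plus (x - stp i) i
  rw [sub_add_cancel] at h
  exact h

/-- all edges have the same probability -/
theorem edge_prob [NeZero n] (hn : 4 ≤ n) (x : Vtx d n) (i : Fin d) :
    cnt (srcTwo x (x + stp i)) = ZP d n / (2 * d) := by
  have h1 := sum_rule hn x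
  have h2 : ∀ k : Fin d, cnt (srcTwo x (x + stp k)) + cnt (srcTwo x (x - stp k)) =
      2 * cnt (srcTwo 0 (stp i : Vtx d n)) := by
    intro k
    rw [bsymb_plus, bsymb_minus, bsymb_cnt_perm k i]
    ring
  rw [Finset.sum_congr rfl fun k _ => h2 k, Finset.sum_const, Finset.card_univ,
    Fintype.card_fin, nsmul_eq_mul] at h1
  have hd : (0 : ℝ) < d := by
    have := i.pos
    exact_mod_cast this
  rw [bsymb_plus, ← h1]
  field_simp

theorem edge_prob' [NeZero n] (hn : 4 ≤ n) (x : Vtx d n) (i : Fin d) :
    cnt (srcTwo x (x - stp i)) = ZP d n / (2 * d) := by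
  rw [bsymb_minus, ← bsymb_plus x i]
  exact edge_prob hn x i

theorem Gm_nbr [NeZero n] (hd : 0 < d) (hn : 4 ≤ n) (he : Even n) (x : Vtx d n) (i : Fin d) :
    Gm x (x + stp i) = 1 / (2 * d) := by
  unfold Gm
  have h1 := ZP_pos hd hn he
  rw [edge_prob hn, cnt_zero hn, div_div, mul_comm, ← div_div, div_self h1.ne']

end LibDim
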