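import Pool.Agent.LibDimB.BSymB
import Pool.Agent.LibDimB.BAlg

/-! Row TOR: layers of the torus, monomer correlations as traces. -/

namespace LibDim

open Finset Matrix

variable {d n : ℕ}

theorem btor_key [NeZero n] (hn : 4 ≤ n) (j : Fin (d + 1))
    (E : Vtx (d + 1) n → Fin (d + 1) → Bool) (t : ZMod n) (y : Vtx d n) :
    ((eqvL j E).1 t y).toNat + ((eqvL j E).1 (t + 1) y).toNat
      + ∑ e, (if (layG d n hn).src e = y ∨ (layG d n hn).tgt e = y
          then ((eqvL j E).2 t e).toNat else 0)
      = ∑ i, ((E (insV j t y) i).toNat + (E (insV j t y - stp i) i).toNat) := by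
  rw [Fin.sum_univ_succAbove _ j]
  have e1 : (eqvL j E).1 t y = E (insV j t y - stp j) j := by
    rw [insV_sub]; rfl
  have e2 : (eqvL j E).1 (t + 1) y = E (insV j t y) j := by
    show E (insV j (t + 1 - 1) y) j = _
    rw [add_sub_cancel_right]
  have e3 : ∑ e, (if (layG d n hn).src e = y ∨ (layG d n hn).tgt e = y
        then ((eqvL j E).2 t e).toNat else 0)
      = ∑ k : Fin d, ((E (insV j t y) (j.succAbove k)).toNat
        + (E (insV j t y - stp (j.succAbove k)) (j.succAbove k)).toNat) := by
    rw [Fintype.sum_prod_type_right]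
    refine Finset.sum_congr rfl fun k _ => ?_
    have h1 : ∀ y' : Vtx d n, (if (layG d n hn).src (y', k) = y ∨ (layG d n hn).tgt (y', k) = y
        then ((eqvL j E).2 t (y', k)).toNat else 0)
        = (if y' = y then (E (insV j t y') (j.succAbove k)).toNat else 0)
          + (if y' = y - stp k then (E (insV j t y') (j.succAbove k)).toNat else 0) := by
      intro y'
      have hs : (layG d n hn).src (y', k) = y' := rfl
      have ht : (layG d n hn).tgt (y', k) = y' + stp k := rfl
      have hE : (eqvL j E).2 t (y', k) = E (insV j t y') (j.succAbove k) := rfl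
      rw [hs, ht, hE]
      have hiff : y' + stp k = y ↔ y' = y - stp k := eq_sub_iff_add_eq.symm
      by_cases ha : y' = y
      · have hb : ¬ y' = y - stp k := by
          rw [ha]
          intro h
          exact splitA_stp_ne hn k (by
            have := sub_eq_self.1 h.symm
            exact this)
        rw [if_pos (Or.inl ha), if_pos ha, if_neg hb, add_zero]
      · by_cases hb : y' = y - stp k
        · rw [if_pos (Or.inr (hiff.2 hb)), if_neg ha, if_pos hb, zero_add]
        · rw [if_neg (by rw [not_or]; exact ⟨ha, fun h => hb (hiff.1 h)⟩), if_neg ha,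
            if_neg hb]
    rw [Finset.sum_congr rfl fun y' _ => h1 y', Finset.sum_add_distrib, Finset.sum_ite_eq',
      Finset.sum_ite_eq', if_pos (mem_univ _), if_pos (mem_univ _), insV_sub']
  rw [e1, e2, e3]
  omega

theorem btor_ok [NeZero n] (hn : 4 ≤ n) (j : Fin (d + 1)) (s : Vtx (d + 1) n → ℕ)
    (E : Vtx (d + 1) n → Fin (d + 1) → Bool) :
    (∀ t, okC (layG d n hn) (fun y => s (insV j t y)) ((eqvL j E).1 t) ((eqvL j E).2 t)
      ((eqvL j E).1 (t + 1))) ↔ CovC s E := by
  unfold okC CovC
  constructor
  · intro h x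
    have h3 := h (x j) (fun k => x (j.succAbove k))
    simp only [] at h3
    rw [btor_key hn j E, insV_self] at h3
    exact h3
  · intro h t y
    rw [btor_key hn j E]
    exact h _

/-- covering counts are cyclic products of layer operators (`eqvL`, `splitA_okL`, cf. the proof of `pm_stack`) -/
theorem cnt_cyc [NeZero n] (hn : 4 ≤ n) (j : Fin (d + 1)) (s : Vtx (d + 1) n → ℕ) :
    cnt s = cyc n (fun t => opC (layG d n hn) (fun y => s (insV j t y))) := by
  classical
  unfold cnt cyc opC
  rw [Finset.card_filter]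
  push_cast
  have h1 : ∀ a : ZMod n → Vtx d n → Bool,
      (∏ t : ZMod n, ∑ η : Vtx d n × Fin d → Bool,
        (if okC (layG d n hn) (fun y => s (insV j t y)) (a t) η (a (t + 1)) then (1 : ℝ) else 0))
      = ∑ η : ZMod n → Vtx d n × Fin d → Bool,
        (if ∀ t, okC (layG d n hn) (fun y => s (insV j t y)) (a t) (η t) (a (t + 1))
          then (1 : ℝ) else 0) := by
    intro a
    rw [Finset.prod_univ_sum, Fintype.piFinset_univ]
    refine Finset.sum_congr rfl fun η _ => ?_
    rw [Fintype.prod_boole]
  rw [Finset.sum_congr rfl fun a _ => h1 a]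
  rw [← Fintype.sum_prod_type' (f := fun (a : ZMod n → Vtx d n → Bool)
    (η : ZMod n → Vtx d n × Fin d → Bool) =>
      (if ∀ t, okC (layG d n hn) (fun y => s (insV j t y)) (a t) (η t) (a (t + 1))
          then (1 : ℝ) else 0))]
  refine Fintype.sum_equiv (eqvL j) _ _ fun E => ?_
  have h2 := btor_ok hn j s E
  by_cases hc : CovC s E
  · rw [if_pos hc, if_pos (h2.2 hc)]
  · rw [if_neg hc, if_neg (fun h => hc (h2.1 h))]

theorem ZN_eq [NeZero n] (hn : 4 ≤ n) : ZN (layG d n hn) n = ZP (d + 1) n := by
  rw [← cnt_zero hn, cnt_cyc hn 0]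
  have h : (fun t : ZMod n => opC (layG d n hn)
      (fun y => (0 : Vtx (d + 1) n → ℕ) (insV 0 t y))) = fun _ => lS (layG d n hn) := by
    funext t
    exact opC_zero (layG d n hn)
  rw [h, cyc_const]
  rfl

theorem btor_ins_iff [NeZero n] (j : Fin (d + 1)) (k t : ZMod n) (z y : Vtx d n) :
    insV j k z = insV j t y ↔ k = t ∧ z = y := by
  constructor
  · intro h
    refine ⟨?_, ?_⟩
    · have := congrFun h j
      rwa [insV_same, insV_same] at this
    · funext l
      have := congrFun h (j.succAbove l)
      rwa [insV_succ, insV_succ] at this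
  · rintro ⟨rfl, rfl⟩
    rfl

theorem btor_up (g : Gr (Vtx d n) (Vtx d n × Fin d)) [NeZero n] (y : Vtx d n) :
    upM y * lS g = lS g * (upM y).transpose := by
  rw [← opC_zero g, up_opC, opC_up]

/-- two monomers: `r = (t' - t).val`, `tr (up_y S^(r+1) up_y'ᵀ S^(n-(r+1)))` (`cyc_one` if `r = 0`, `cyc_two` otherwise) -/
theorem cnt_layer [NeZero n] (hn : 4 ≤ n) (j : Fin (d + 1)) (t r : ZMod n) (y y' : Vtx d n) :
    cnt (srcTwo (insV j t y) (insV j (t + r) y'))
      = (upM y * lS (layG d n hn) ^ (r.val + 1) * (upM y').transpose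
          * lS (layG d n hn) ^ (n - (r.val + 1))).trace := by
  rw [cnt_cyc hn j]
  by_cases hr : r = 0
  · subst hr
    have h : (fun k : ZMod n => opC (layG d n hn)
        (fun z => srcTwo (insV j t y) (insV j (t + 0) y') (insV j k z)))
        = fun k => if k = t then upM y * lS (layG d n hn) * (upM y').transpose
          else lS (layG d n hn) := by
      funext k
      by_cases hk : k = t
      · rw [if_pos hk, ← opC_two]
        congr 1
        funext z
        simp only [srcTwo, btor_ins_iff, hk, add_zero, true_and]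
      · rw [if_neg hk, ← opC_zero]
        congr 1
        funext z
        simp only [srcTwo, btor_ins_iff, hk, add_zero, false_and, if_false, Pi.zero_apply]
    rw [h, cyc_one, ZMod.val_zero, Nat.zero_add, pow_one]
  · have hne : t ≠ t + r := fun h => hr (by simpa using h.symm)
    have h : (fun k : ZMod n => opC (layG d n hn)
        (fun z => srcTwo (insV j t y) (insV j (t + r) y') (insV j k z)))
        = fun k => if k = t then upM y * lS (layG d n hn)
          else if k = t + r then lS (layG d n hn) * (upM y').transpose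
          else lS (layG d n hn) := by
      funext k
      by_cases hk : k = t
      · rw [if_pos hk, ← opC_one]
        congr 1
        funext z
        simp only [srcTwo, btor_ins_iff, hk, hne, false_and, if_false, true_and, add_zero]
      · rw [if_neg hk]
        by_cases hk' : k = t + r
        · rw [if_pos hk', ← btor_up, ← opC_one]
          congr 1
          funext z
          rw [hk'] at hk
          simp only [srcTwo, btor_ins_iff, hk', hk, false_and, if_false, true_and, zero_add]
        · rw [if_neg hk', ← opC_zero]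
          congr 1
          funext z
          simp only [srcTwo, btor_ins_iff, hk, hk', false_and, if_false, add_zero, Pi.zero_apply]
    have hv : 0 < r.val := by
      rw [Nat.pos_iff_ne_zero, Ne, ZMod.val_eq_zero]
      exact hr
    obtain ⟨m, hm⟩ := Nat.exists_eq_succ_of_ne_zero hv.ne'
    rw [h, cyc_two n _ _ _ t (t + r) hne, add_sub_cancel_left]
    have e1 : n - 1 - r.val = n - (r.val + 1) := by omega
    rw [e1]
    congr 1
    have e2 : upM y * lS (layG d n hn) * lS (layG d n hn) ^ (r.val - 1)
        * (lS (layG d n hn) * (upM y').transpose)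
        = upM y * lS (layG d n hn) ^ (r.val + 1) * (upM y').transpose := by
      rw [hm, Nat.succ_eq_add_one, Nat.add_sub_cancel, pow_succ, pow_succ']
      simp only [Matrix.mul_assoc]
    rw [e2]

theorem fN_cnt [NeZero n] (hn : 4 ≤ n) (j : Fin (d + 1)) (t r : ZMod n) (u v : Vtx d n → ℝ) :
    fN (layG d n hn) n u v (r.val + 1)
      = ∑ y, ∑ y', u y * v y' * cnt (srcTwo (insV j t y) (insV j (t + r) y')) := by
  rw [fN_expand]
  refine Finset.sum_congr rfl fun y _ => Finset.sum_congr rfl fun y' _ => ?_
  rw [cnt_layer hn]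

theorem btor_diag [NeZero n] (y : Vtx d n) :
    (Matrix.diagonal (fun a : Vtx d n → Bool => ((a y).toNat : ℝ)))
      = (upM y).transpose * upM y := by
  classical
  ext a b
  rw [Matrix.mul_apply, Matrix.diagonal_apply]
  simp only [Matrix.transpose_apply, upM]
  rw [Finset.sum_eq_single (Function.update a y false)]
  · rw [Function.update_self, Function.update_idem]
    by_cases ha : a y = true
    · have h1 : a = Function.update a y true := by
        rw [← ha, Function.update_eq_self]
      rw [← h1]
      by_cases hab : a = b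
      · subst hab
        simp [ha]
      · have : ¬ b = a := fun h => hab h.symm
        simp [hab, this]
    · have ha' : a y = false := by simpa using ha
      have h1 : ¬ a = Function.update a y true := by
        intro h
        have := congrFun h y
        rw [Function.update_self] at this
        exact ha this
      simp [ha', h1]
  · intro c _ hc
    have : ¬ (c y = false ∧ a = Function.update c y true) := by
      rintro ⟨h1, h2⟩
      apply hc
      rw [h2, Function.update_idem, ← h1, Function.update_eq_self]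
    rw [if_neg this, zero_mul]
  · intro h
    exact absurd (Finset.mem_univ _) h

/-- occupation of a vertical edge: `tr (diag (a y) S^n) = tr (up_yᵀ up_y S^n) = tr (up_y S^n up_yᵀ)`, which is `cnt_layer`
with `r = -1`, two monomers at the ends of a vertical edge (`edge_prob'`) -/
theorem occ_prob [NeZero n] (hn : 4 ≤ n) (y : Vtx d n) :
    ((Matrix.diagonal (fun a : Vtx d n → Bool => ((a y).toNat : ℝ))) * lS (layG d n hn) ^ n).trace
      = ZP (d + 1) n / (2 * (d + 1)) := by
  have h := cnt_layer hn (0 : Fin (d + 1)) 0 (-1) y y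
  have hv : (-1 : ZMod n).val + 1 = n := by
    obtain ⟨m, rfl⟩ := Nat.exists_eq_succ_of_ne_zero (NeZero.ne n)
    rw [ZMod.val_neg_one]
  rw [hv, Nat.sub_self, pow_zero, Matrix.mul_one, ← sub_eq_add_neg, ← insV_sub,
    edge_prob' hn] at h
  rw [btor_diag, Matrix.mul_assoc, Matrix.trace_mul_comm, ← h]
  push_cast
  rfl

theorem fN_kappa [NeZero n] (hn : 4 ≤ n) (u : Vtx d n → ℝ) :
    fN (layG d n hn) n u u 0 - fN (layG d n hn) n u u n
      = (1 - 1 / ((d : ℝ) + 1)) * ZP (d + 1) n * ∑ y, u y ^ 2 := by
  rw [fN_Q]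
  have h1 : (Matrix.diagonal (fun a : Vtx d n → Bool =>
      ∑ y, u y * u y * (1 - 2 * ((a y).toNat : ℝ))))
      = ∑ y, u y ^ 2 • ((1 : Matrix (Vtx d n → Bool) (Vtx d n → Bool) ℝ)
        - (2 : ℝ) • Matrix.diagonal (fun a : Vtx d n → Bool => ((a y).toNat : ℝ))) := by
    ext a b
    rw [Matrix.sum_apply, Matrix.diagonal_apply]
    simp only [Matrix.smul_apply, Matrix.sub_apply, Matrix.one_apply, Matrix.diagonal_apply,
      smul_eq_mul]
    by_cases hab : a = b
    · simp only [if_pos hab]
      exact Finset.sum_congr rfl fun y _ => by ring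
    · simp only [if_neg hab]
      simp
  rw [h1, Matrix.sum_mul, Matrix.trace_sum, Finset.mul_sum]
  refine Finset.sum_congr rfl fun y _ => ?_
  rw [Matrix.smul_mul, Matrix.trace_smul, Matrix.sub_mul, Matrix.trace_sub, Matrix.one_mul,
    Matrix.smul_mul, Matrix.trace_smul, occ_prob hn y]
  have hz : (lS (layG d n hn) ^ n).trace = ZP (d + 1) n := ZN_eq hn
  rw [hz]
  have hd : (d : ℝ) + 1 ≠ 0 := by positivity
  simp only [smul_eq_mul]
  field_simp

theorem btor_srcsum [NeZero n] (a b : Vtx d n) :
    ∑ x, sgnV x * ((srcTwo a b x : ℕ) : ℝ) = sgnV a + sgnV b := by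
  simp only [srcTwo]
  push_cast
  simp only [mul_add, Finset.sum_add_distrib, mul_ite, mul_one, mul_zero, Finset.sum_ite_eq',
    Finset.mem_univ, if_true]

theorem btor_sgn_or [NeZero n] (y : Vtx d n) : sgnV y = 1 ∨ sgnV y = -1 := by
  unfold sgnV
  exact neg_one_pow_eq_or ℝ _

theorem btor_sgn_ins [NeZero n] (j : Fin (d + 1)) (t : ZMod n) (y : Vtx d n) :
    sgnV (insV j t y) = (-1) ^ t.val * sgnV y := splitB_sgn d n j t y

theorem btor_val [NeZero n] (s : ℕ) (h1 : 1 ≤ s) (h2 : s ≤ n) :
    ∃ r : ZMod n, r.val + 1 = s := by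
  refine ⟨((s - 1 : ℕ) : ZMod n), ?_⟩
  rw [ZMod.val_natCast, Nat.mod_eq_of_lt (by omega)]
  omega

/-- parity: on even `s` the sign `sgnV` can be inserted (`1 ≤ s`): `s = r.val + 1` with `r.val` odd, and a nonzero
correlation between `(0, y)` and `(r, y')` needs opposite parity -/
theorem fN_sgn [NeZero n] (hn : 4 ≤ n) (he : Even n) (u v : Vtx d n → ℝ) (s : ℕ) (hs : Even s)
    (h1 : 1 ≤ s) (h2 : s ≤ n) :
    fN (layG d n hn) n (fun y => sgnV y * u y) (fun y => sgnV y * v y) s
      = fN (layG d n hn) n u v s := by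
  obtain ⟨r, rfl⟩ := btor_val (n := n) s h1 h2
  rw [fN_cnt hn 0 0 r, fN_cnt hn 0 0 r]
  refine Finset.sum_congr rfl fun y _ => Finset.sum_congr rfl fun y' _ => ?_
  have hr : Odd r.val := by
    rcases Nat.even_or_odd r.val with h | h
    · exact absurd hs (by rw [Nat.not_even_iff_odd]; exact h.add_one)
    · exact h
  by_cases hyy : sgnV y = sgnV y'
  · have : sgnV y * sgnV y' = 1 := by
      rw [hyy]
      rcases btor_sgn_or y' with h | h <;> rw [h] <;> norm_num
    calc sgnV y * u y * (sgnV y' * v y') * cnt (srcTwo (insV 0 0 y) (insV 0 (0 + r) y'))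
        = (sgnV y * sgnV y') * (u y * v y' * cnt (srcTwo (insV 0 0 y) (insV 0 (0 + r) y'))) := by
          ring
      _ = _ := by rw [this, one_mul]
  · have hz : cnt (srcTwo (insV 0 0 y) (insV 0 (0 + r) y') : Vtx (d + 1) n → ℕ) = 0 := by
      refine cnt_parity (Nat.succ_pos d) hn he _ ?_
      rw [btor_srcsum, btor_sgn_ins, btor_sgn_ins, zero_add, hr.neg_one_pow, ZMod.val_zero,
        pow_zero, one_mul]
      intro h
      apply hyy
      linarith
    rw [hz, mul_zero, mul_zero]

/-- parity: for odd `s` a sign can be traded -/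
theorem fN_sgn_odd [NeZero n] (hn : 4 ≤ n) (he : Even n) (u v : Vtx d n → ℝ) (s : ℕ) (hs : Odd s)
    (h2 : s ≤ n) :
    fN (layG d n hn) n (fun y => sgnV y * u y) (fun y => sgnV y * v y) s
      = - fN (layG d n hn) n u v s := by
  obtain ⟨r, rfl⟩ := btor_val (n := n) s (Nat.one_le_iff_ne_zero.2 (by
    rintro rfl
    exact absurd hs (by decide))) h2
  rw [fN_cnt hn 0 0 r, fN_cnt hn 0 0 r, ← Finset.sum_neg_distrib]
  refine Finset.sum_congr rfl fun y _ => ?_
  rw [← Finset.sum_neg_distrib]
  refine Finset.sum_congr rfl fun y' _ => ?_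
  have hr : Even r.val := by
    rcases Nat.even_or_odd r.val with h | h
    · exact h
    · exact absurd hs (by rw [Nat.not_odd_iff_even]; exact h.add_one)
  by_cases hyy : sgnV y = sgnV y'
  · have hz : cnt (srcTwo (insV 0 0 y) (insV 0 (0 + r) y') : Vtx (d + 1) n → ℕ) = 0 := by
      refine cnt_parity (Nat.succ_pos d) hn he _ ?_
      rw [btor_srcsum, btor_sgn_ins, btor_sgn_ins, zero_add, hr.neg_one_pow, ZMod.val_zero,
        pow_zero, one_mul, hyy]
      rcases btor_sgn_or y' with h | h <;> rw [h] <;> norm_num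
    rw [hz, mul_zero, mul_zero, neg_zero]
  · have : sgnV y * sgnV y' = -1 := by
      rcases btor_sgn_or y with h | h <;> rcases btor_sgn_or y' with h' | h' <;>
        rw [h, h'] at hyy ⊢ <;> first | exact absurd rfl hyy | norm_num
    calc sgnV y * u y * (sgnV y' * v y') * cnt (srcTwo (insV 0 0 y) (insV 0 (0 + r) y'))
        = (sgnV y * sgnV y') * (u y * v y' * cnt (srcTwo (insV 0 0 y) (insV 0 (0 + r) y'))) := by
          ring
      _ = _ := by rw [this]; ring

end LibDim
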