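import Pool.Agent.LibDimB.BTor
import Pool.Agent.LibDimB.BFour

/-! Row VERT: modes of the flow in the direction of the layers (longitudinal direction). -/

namespace LibDim

open Finset Matrix

variable {d n : ℕ}

/-- Sums over perfect matchings of functions of the vertical states `a t y = [the edge from (t - 1, y) to (t, y) is
present]` (compare `pm_stack`). -/
theorem pm_stackV [NeZero n] (hn : 4 ≤ n) (j : Fin (d + 1)) (F : (ZMod n → Vtx d n → Bool) → ℝ) :
    ∑ τ ∈ PMs (d + 1) n, F (fun t y => decide (τ (insV j (t - 1) y)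
        = insV j (t - 1) y + stp j))
      = ∑ a : ZMod n → Vtx d n → Bool, (∏ t : ZMod n, lS (layG d n hn) (a t) (a (t + 1))) * F a := by
  classical
  have h1 : ∑ τ ∈ PMs (d + 1) n, F (fun t y => decide (τ (insV j (t - 1) y)
        = insV j (t - 1) y + stp j))
      = ∑ τ ∈ PMs (d + 1) n, F ((eqvL j (edg τ)).1) := by
    refine Finset.sum_congr rfl fun τ _ => ?_
    rfl
  rw [h1, splitA_sum_pm hn (fun E => F ((eqvL j E).1)), Finset.sum_filter]
  have h3 : ∀ a : ZMod n → Vtx d n → Bool,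
      (∏ t : ZMod n, lS (layG d n hn) (a t) (a (t + 1))) * F a
        = ∑ η : ZMod n → Vtx d n × Fin d → Bool,
          (∏ t : ZMod n, wgt (layG d n hn) (a t) (η t) (a (t + 1))) * F a := by
    intro a
    rw [← Finset.sum_mul]
    congr 1
    have h : ∀ t, lS (layG d n hn) (a t) (a (t + 1))
        = ∑ η : Vtx d n × Fin d → Bool, wgt (layG d n hn) (a t) η (a (t + 1)) := by
      intro t
      unfold lS opL
      exact Finset.sum_congr rfl fun η _ => mul_one _
    simp only [h]
    rw [Finset.prod_univ_sum, Fintype.piFinset_univ]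
  rw [Finset.sum_congr rfl fun a _ => h3 a]
  rw [← Fintype.sum_prod_type' (f := fun (a : ZMod n → Vtx d n → Bool)
    (η : ZMod n → Vtx d n × Fin d → Bool) =>
      (∏ t : ZMod n, wgt (layG d n hn) (a t) (η t) (a (t + 1))) * F a)]
  refine Fintype.sum_equiv (eqvL j) _ _ fun E => ?_
  have h2 : (∏ t : ZMod n, wgt (layG d n hn) ((eqvL j E).1 t) ((eqvL j E).2 t)
      ((eqvL j E).1 (t + 1))) = if Cov E then 1 else 0 := by
    unfold wgt
    rw [Fintype.prod_boole]
    congr 1
    rw [eq_iff_iff]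
    constructor
    · intro h x
      have h3 := h (x j) (fun k => x (j.succAbove k))
      rw [splitA_okL hn j E, insV_self] at h3
      exact h3
    · intro h t y
      rw [splitA_okL hn j E]
      exact h _
  simp only [h2]
  split_ifs <;> simp

theorem BVert_diag (u : Vtx d n → ℝ) [NeZero n] (S : Matrix (Vtx d n → Bool) (Vtx d n → Bool) ℝ)
    (a b : Vtx d n → Bool) : (DM u * S) a b = (∑ y, u y * ((a y).toNat : ℝ)) * S a b := by
  unfold DM
  rw [Matrix.diagonal_mul]

/-- product of two linear functions of the states of two layers -/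
theorem vert_two [NeZero n] (hn : 4 ≤ n) (u v : Vtx d n → ℝ) (t s : ZMod n) :
    ∑ a : ZMod n → Vtx d n → Bool, (∏ t : ZMod n, lS (layG d n hn) (a t) (a (t + 1)))
        * ((∑ y, u y * ((a t y).toNat : ℝ)) * (∑ y, v y * ((a s y).toNat : ℝ)))
      = (DM u * lS (layG d n hn) ^ (s - t).val * DM v
          * lS (layG d n hn) ^ (n - (s - t).val)).trace := by
  classical
  set S := lS (layG d n hn) with hS
  have hn1 : n - 1 + 1 = n := by omega
  by_cases hts : t = s
  · subst hts
    have h1 : ∑ a : ZMod n → Vtx d n → Bool, (∏ k : ZMod n, S (a k) (a (k + 1)))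
        * ((∑ y, u y * ((a t y).toNat : ℝ)) * (∑ y, v y * ((a t y).toNat : ℝ)))
        = cyc n (fun k => if k = t then DM u * (DM v * S) else S) := by
      unfold cyc
      refine Finset.sum_congr rfl fun a _ => ?_
      have h2 : ∀ k, (if k = t then DM u * (DM v * S) else S) (a k) (a (k + 1))
          = S (a k) (a (k + 1)) * (if k = t then ((∑ y, u y * ((a k y).toNat : ℝ)) *
            (∑ y, v y * ((a k y).toNat : ℝ))) else 1) := by
        intro k
        by_cases hk : k = t
        · rw [if_pos hk, if_pos hk, BVert_diag, BVert_diag]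
          ring
        · rw [if_neg hk, if_neg hk, mul_one]
      rw [Finset.prod_congr rfl fun k _ => h2 k, Finset.prod_mul_distrib]
      congr 1
      rw [Finset.prod_ite_eq' univ t (fun k => (∑ y, u y * ((a k y).toNat : ℝ)) *
            (∑ y, v y * ((a k y).toNat : ℝ))), if_pos (mem_univ _)]
    rw [h1, cyc_one, sub_self, ZMod.val_zero, pow_zero, Matrix.mul_one, Nat.sub_zero]
    congr 1
    have h3 : S ^ n = S * S ^ (n - 1) := by
      rw [← pow_succ', hn1]
    rw [h3]
    simp only [Matrix.mul_assoc]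
  · have h1 : ∑ a : ZMod n → Vtx d n → Bool, (∏ k : ZMod n, S (a k) (a (k + 1)))
        * ((∑ y, u y * ((a t y).toNat : ℝ)) * (∑ y, v y * ((a s y).toNat : ℝ)))
        = cyc n (fun k => if k = t then DM u * S else if k = s then DM v * S else S) := by
      unfold cyc
      refine Finset.sum_congr rfl fun a _ => ?_
      have h2 : ∀ k, (if k = t then DM u * S else if k = s then DM v * S else S) (a k) (a (k + 1))
          = S (a k) (a (k + 1)) * ((if k = t then (∑ y, u y * ((a k y).toNat : ℝ)) else 1) *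
            (if k = s then (∑ y, v y * ((a k y).toNat : ℝ)) else 1)) := by
        intro k
        by_cases hk : k = t
        · have hks : ¬ k = s := fun h => hts (hk.symm.trans h)
          rw [if_pos hk, if_pos hk, if_neg hks, BVert_diag]
          ring
        · by_cases hks : k = s
          · rw [if_neg hk, if_pos hks, if_neg hk, if_pos hks, BVert_diag]
            ring
          · rw [if_neg hk, if_neg hks, if_neg hk, if_neg hks, mul_one, mul_one]
      rw [Finset.prod_congr rfl fun k _ => h2 k, Finset.prod_mul_distrib, Finset.prod_mul_distrib]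
      congr 1
      rw [Finset.prod_ite_eq' univ t (fun k => (∑ y, u y * ((a k y).toNat : ℝ))),
        Finset.prod_ite_eq' univ s (fun k => (∑ y, v y * ((a k y).toNat : ℝ))),
        if_pos (mem_univ _), if_pos (mem_univ _)]
    rw [h1, cyc_two n _ _ _ t s hts]
    have hd : 0 < (s - t).val := by
      rw [Nat.pos_iff_ne_zero, Ne, ZMod.val_eq_zero, sub_eq_zero]
      exact fun h => hts h.symm
    have hlt : (s - t).val < n := ZMod.val_lt (s - t)
    congr 1
    have h3 : S ^ (s - t).val = S * S ^ ((s - t).val - 1) := by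
      rw [← pow_succ']
      congr 1
      omega
    have h4 : S ^ (n - (s - t).val) = S * S ^ (n - 1 - (s - t).val) := by
      rw [← pow_succ']
      congr 1
      omega
    rw [h3, h4]
    simp only [Matrix.mul_assoc]

theorem BVert_DM_tr (u : Vtx d n → ℝ) [NeZero n] : (DM u).transpose = DM u :=
  Matrix.diagonal_transpose _

/-- the mixed terms agree -/
theorem BVert_mixed [NeZero n] (hn : 4 ≤ n) (u v : Vtx d n → ℝ) (p q : ℕ) :
    (DM v * lS (layG d n hn) ^ p * DM u * lS (layG d n hn) ^ q).trace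
      = (DM u * lS (layG d n hn) ^ p * DM v * lS (layG d n hn) ^ q).trace := by
  rw [← Matrix.trace_transpose, Matrix.transpose_mul, Matrix.transpose_mul, Matrix.transpose_mul,
    lS_pow_symm, lS_pow_symm, BVert_DM_tr, BVert_DM_tr, Matrix.trace_mul_comm]
  simp only [Matrix.mul_assoc]

/-- sum over the torus, complex version of `splitB_sum` -/
theorem BVert_sum [NeZero n] (j : Fin (d + 1)) (f : Vtx (d + 1) n → ℂ) :
    ∑ x, f x = ∑ t : ZMod n, ∑ y : Vtx d n, f (insV j t y) := by
  rw [← (Fin.insertNthEquiv (fun _ => ZMod n) j).sum_comp f, Fintype.sum_prod_type]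
  rfl

theorem BVert_ins [NeZero n] (j : Fin (d + 1)) (t : ZMod n) (y : Vtx d n) :
    sgnV (insV j t y) = (-1) ^ t.val * sgnV y :=
  splitB_sgn d n j t y

/-- the mode as a function of the states -/
theorem BVert_mode [NeZero n] (j : Fin (d + 1)) (κ : ZMod n) (p : Vtx d n)
    (τ : Vtx (d + 1) n → Vtx (d + 1) n) :
    Jh (insV j κ p) j τ = ∑ t : ZMod n, ((((-1 : ℝ) ^ (t - 1).val : ℝ) : ℂ)
      * (ZMod.stdAddChar (κ * (t - 1)) : ℂ))
      * (((∑ y, (sgnV y * cosV p y) * (((decide (τ (insV j (t - 1) y)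
        = insV j (t - 1) y + stp j)) : Bool).toNat : ℝ) : ℝ) : ℂ)
        + ((∑ y, (sgnV y * sinV p y) * (((decide (τ (insV j (t - 1) y)
        = insV j (t - 1) y + stp j)) : Bool).toNat : ℝ) : ℝ) : ℂ) * Complex.I) := by
  classical
  unfold Jh
  rw [BVert_sum j, ← Equiv.sum_comp (Equiv.subRight (1 : ZMod n))]
  refine Finset.sum_congr rfl fun t _ => ?_
  rw [Equiv.subRight_apply]
  rw [Complex.ofReal_sum, Complex.ofReal_sum, Finset.sum_mul, ← Finset.sum_add_distrib,
    Finset.mul_sum]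
  refine Finset.sum_congr rfl fun y _ => ?_
  rw [BVert_ins, chr_insV]
  have hc : chr p y = (cosV p y : ℂ) + (sinV p y : ℂ) * Complex.I :=
    (Complex.re_add_im _).symm
  rw [hc]
  by_cases h : τ (insV j (t - 1) y) = insV j (t - 1) y + stp j
  · rw [if_pos h, decide_eq_true h]
    push_cast
    simp only [Bool.toNat_true, Nat.cast_one]
    ring
  · rw [if_neg h, decide_eq_false h]
    push_cast
    simp only [Bool.toNat_false, Nat.cast_zero]
    ring

theorem BVert_norm [NeZero n] (he : Even n) (κ : ZMod n) (A B : ZMod n → ℝ) :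
    ‖∑ t : ZMod n, ((((-1 : ℝ) ^ (t - 1).val : ℝ) : ℂ)
      * (ZMod.stdAddChar (κ * (t - 1)) : ℂ)) * ((A t : ℂ) + (B t : ℂ) * Complex.I)‖ ^ 2
      = ∑ t : ZMod n, ∑ s : ZMod n, (-1 : ℝ) ^ (s - t).val *
        (cr (κ * (s - t)) * (A t * A s + B t * B s)
          + (ZMod.stdAddChar (κ * (s - t)) : ℂ).im * (B t * A s - A t * B s)) := by
  rw [← Complex.normSq_eq_norm_sq]
  have h0 : ∀ z : ℂ, Complex.normSq z = (z * (starRingEnd ℂ) z).re := by
    intro z
    rw [Complex.mul_conj, Complex.ofReal_re]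
  rw [h0, map_sum, Finset.sum_mul_sum, Complex.re_sum]
  refine Finset.sum_congr rfl fun t _ => ?_
  rw [Complex.re_sum]
  refine Finset.sum_congr rfl fun s _ => ?_
  have h1 : (starRingEnd ℂ) (ZMod.stdAddChar (κ * (s - 1)) : ℂ)
      = (ZMod.stdAddChar (-(κ * (s - 1))) : ℂ) := by
    rw [AddChar.map_neg_eq_conj]
  have h2 : (ZMod.stdAddChar (κ * (t - 1)) : ℂ) * (ZMod.stdAddChar (-(κ * (s - 1))) : ℂ)
      = (starRingEnd ℂ) (ZMod.stdAddChar (κ * (s - t)) : ℂ) := by
    rw [← AddChar.map_add_eq_mul, ← AddChar.map_neg_eq_conj]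
    congr 1
    ring
  have h3 : ((-1 : ℝ) ^ (t - 1).val) * (-1) ^ (s - 1).val = (-1) ^ (s - t).val := by
    rw [rp_sign n he]
    congr 2
    ring
  have h4 : ((((-1 : ℝ) ^ (t - 1).val : ℝ) : ℂ)
      * (ZMod.stdAddChar (κ * (t - 1)) : ℂ)) * ((A t : ℂ) + (B t : ℂ) * Complex.I)
      * (starRingEnd ℂ) (((((-1 : ℝ) ^ (s - 1).val : ℝ) : ℂ)
      * (ZMod.stdAddChar (κ * (s - 1)) : ℂ)) * ((A s : ℂ) + (B s : ℂ) * Complex.I))
      = (((-1 : ℝ) ^ (s - t).val : ℝ) : ℂ) * ((starRingEnd ℂ) (ZMod.stdAddChar (κ * (s - t)) : ℂ)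
        * (((A t : ℂ) + (B t : ℂ) * Complex.I) * ((A s : ℂ) - (B s : ℂ) * Complex.I))) := by
    rw [(starRingEnd ℂ).map_mul, (starRingEnd ℂ).map_mul, (starRingEnd ℂ).map_add,
      (starRingEnd ℂ).map_mul, Complex.conj_ofReal, Complex.conj_ofReal,
      Complex.conj_ofReal, Complex.conj_I, h1, ← h2, ← h3]
    push_cast
    ring
  rw [h4, Complex.re_ofReal_mul]
  congr 1
  unfold cr
  simp only [Complex.mul_re, Complex.mul_im, Complex.conj_re, Complex.conj_im, Complex.add_re,
    Complex.add_im, Complex.sub_re, Complex.sub_im, Complex.ofReal_re, Complex.ofReal_im,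
    Complex.I_re, Complex.I_im]
  ring

/-- the structure function of the vertical edges: `k = insV j κ p`,
`Jh k j τ = ∑_t (-1)^t ζ^t ∑_y sgnV y chr p y a_{t+1}(y)`; the mixed terms of real and imaginary part cancel by
transposition of the trace -/
theorem vert_mode [NeZero n] (hn : 4 ≤ n) (he : Even n) (j : Fin (d + 1)) (κ : ZMod n)
    (p : Vtx d n) :
    ∑ τ ∈ PMs (d + 1) n, ‖Jh (insV j κ p) j τ‖ ^ 2
      = n * (psiN (layG d n hn) n (fun y => sgnV y * cosV p y) κ
        + psiN (layG d n hn) n (fun y => sgnV y * sinV p y) κ) := by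
  classical
  set u : Vtx d n → ℝ := fun y => sgnV y * cosV p y with hu
  set v : Vtx d n → ℝ := fun y => sgnV y * sinV p y with hv
  set F : (ZMod n → Vtx d n → Bool) → ℝ := fun a =>
    ∑ t : ZMod n, ∑ s : ZMod n, (-1 : ℝ) ^ (s - t).val *
        (cr (κ * (s - t)) * ((∑ y, u y * ((a t y).toNat : ℝ)) * (∑ y, u y * ((a s y).toNat : ℝ))
          + (∑ y, v y * ((a t y).toNat : ℝ)) * (∑ y, v y * ((a s y).toNat : ℝ)))
          + (ZMod.stdAddChar (κ * (s - t)) : ℂ).im *
            ((∑ y, v y * ((a t y).toNat : ℝ)) * (∑ y, u y * ((a s y).toNat : ℝ))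
              - (∑ y, u y * ((a t y).toNat : ℝ)) * (∑ y, v y * ((a s y).toNat : ℝ)))) with hF
  have h1 : ∀ τ ∈ PMs (d + 1) n, ‖Jh (insV j κ p) j τ‖ ^ 2
      = F (fun t y => decide (τ (insV j (t - 1) y) = insV j (t - 1) y + stp j)) := by
    intro τ _
    rw [BVert_mode, BVert_norm he]
  rw [Finset.sum_congr rfl h1, pm_stackV hn j F]
  have h2 : ∀ t s : ZMod n, ∑ a : ZMod n → Vtx d n → Bool,
      (∏ t : ZMod n, lS (layG d n hn) (a t) (a (t + 1))) * ((-1 : ℝ) ^ (s - t).val *
        (cr (κ * (s - t)) * ((∑ y, u y * ((a t y).toNat : ℝ)) * (∑ y, u y * ((a s y).toNat : ℝ))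
          + (∑ y, v y * ((a t y).toNat : ℝ)) * (∑ y, v y * ((a s y).toNat : ℝ)))
          + (ZMod.stdAddChar (κ * (s - t)) : ℂ).im *
            ((∑ y, v y * ((a t y).toNat : ℝ)) * (∑ y, u y * ((a s y).toNat : ℝ))
              - (∑ y, u y * ((a t y).toNat : ℝ)) * (∑ y, v y * ((a s y).toNat : ℝ)))))
      = (-1 : ℝ) ^ (s - t).val * cr (κ * (s - t)) *
          ((DM u * lS (layG d n hn) ^ (s - t).val * DM u
          * lS (layG d n hn) ^ (n - (s - t).val)).trace
          + (DM v * lS (layG d n hn) ^ (s - t).val * DM v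
          * lS (layG d n hn) ^ (n - (s - t).val)).trace) := by
    intro t s
    have e1 := vert_two hn u u t s
    have e2 := vert_two hn v v t s
    have e3 := vert_two hn v u t s
    have e4 := vert_two hn u v t s
    rw [BVert_mixed] at e3
    rw [← e1, ← e2]
    have e5 : ∑ a : ZMod n → Vtx d n → Bool, (∏ t : ZMod n, lS (layG d n hn) (a t) (a (t + 1)))
        * ((∑ y, v y * ((a t y).toNat : ℝ)) * (∑ y, u y * ((a s y).toNat : ℝ)))
        - ∑ a : ZMod n → Vtx d n → Bool, (∏ t : ZMod n, lS (layG d n hn) (a t) (a (t + 1)))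
        * ((∑ y, u y * ((a t y).toNat : ℝ)) * (∑ y, v y * ((a s y).toNat : ℝ))) = 0 := by
      rw [e3, e4, sub_self]
    have e6 : (-1 : ℝ) ^ (s - t).val * cr (κ * (s - t)) *
        (∑ a : ZMod n → Vtx d n → Bool, (∏ t : ZMod n, lS (layG d n hn) (a t) (a (t + 1)))
        * ((∑ y, u y * ((a t y).toNat : ℝ)) * (∑ y, u y * ((a s y).toNat : ℝ)))
        + ∑ a : ZMod n → Vtx d n → Bool, (∏ t : ZMod n, lS (layG d n hn) (a t) (a (t + 1)))
        * ((∑ y, v y * ((a t y).toNat : ℝ)) * (∑ y, v y * ((a s y).toNat : ℝ))))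
        = (-1 : ℝ) ^ (s - t).val * cr (κ * (s - t)) *
        (∑ a : ZMod n → Vtx d n → Bool, (∏ t : ZMod n, lS (layG d n hn) (a t) (a (t + 1)))
        * ((∑ y, u y * ((a t y).toNat : ℝ)) * (∑ y, u y * ((a s y).toNat : ℝ)))
        + ∑ a : ZMod n → Vtx d n → Bool, (∏ t : ZMod n, lS (layG d n hn) (a t) (a (t + 1)))
        * ((∑ y, v y * ((a t y).toNat : ℝ)) * (∑ y, v y * ((a s y).toNat : ℝ))))
        + (-1 : ℝ) ^ (s - t).val * (ZMod.stdAddChar (κ * (s - t)) : ℂ).im *
        (∑ a : ZMod n → Vtx d n → Bool, (∏ t : ZMod n, lS (layG d n hn) (a t) (a (t + 1)))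
        * ((∑ y, v y * ((a t y).toNat : ℝ)) * (∑ y, u y * ((a s y).toNat : ℝ)))
        - ∑ a : ZMod n → Vtx d n → Bool, (∏ t : ZMod n, lS (layG d n hn) (a t) (a (t + 1)))
        * ((∑ y, u y * ((a t y).toNat : ℝ)) * (∑ y, v y * ((a s y).toNat : ℝ)))) := by
      rw [e5, mul_zero, add_zero]
    rw [e6, ← Finset.sum_add_distrib, ← Finset.sum_sub_distrib, Finset.mul_sum, Finset.mul_sum,
      ← Finset.sum_add_distrib]
    refine Finset.sum_congr rfl fun a _ => ?_
    ring
  have h3 : ∑ a : ZMod n → Vtx d n → Bool,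
      (∏ t : ZMod n, lS (layG d n hn) (a t) (a (t + 1))) * F a
      = ∑ t : ZMod n, ∑ s : ZMod n, (-1 : ℝ) ^ (s - t).val * cr (κ * (s - t)) *
          ((DM u * lS (layG d n hn) ^ (s - t).val * DM u
          * lS (layG d n hn) ^ (n - (s - t).val)).trace
          + (DM v * lS (layG d n hn) ^ (s - t).val * DM v
          * lS (layG d n hn) ^ (n - (s - t).val)).trace) := by
    rw [hF]
    simp only [Finset.mul_sum (s := (univ : Finset (ZMod n)))]
    rw [Finset.sum_comm]
    refine Finset.sum_congr rfl fun t _ => ?_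
    rw [Finset.sum_comm]
    refine Finset.sum_congr rfl fun s _ => ?_
    exact h2 t s
  rw [h3]
  have h4 : ∀ t : ZMod n, ∑ s : ZMod n, (-1 : ℝ) ^ (s - t).val * cr (κ * (s - t)) *
          ((DM u * lS (layG d n hn) ^ (s - t).val * DM u
          * lS (layG d n hn) ^ (n - (s - t).val)).trace
          + (DM v * lS (layG d n hn) ^ (s - t).val * DM v
          * lS (layG d n hn) ^ (n - (s - t).val)).trace)
      = psiN (layG d n hn) n u κ + psiN (layG d n hn) n v κ := by
    intro t
    have h5 := Equiv.sum_comp (Equiv.subRight t) (fun r : ZMod n => (-1 : ℝ) ^ r.val * cr (κ * r) *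
          ((DM u * lS (layG d n hn) ^ r.val * DM u
          * lS (layG d n hn) ^ (n - r.val)).trace
          + (DM v * lS (layG d n hn) ^ r.val * DM v
          * lS (layG d n hn) ^ (n - r.val)).trace))
    simp only [Equiv.subRight_apply] at h5
    rw [h5]
    unfold psiN
    rw [← Finset.sum_add_distrib]
    refine Finset.sum_congr rfl fun s _ => ?_
    ring
  rw [Finset.sum_congr rfl fun t _ => h4 t, Finset.sum_const, Finset.card_univ, ZMod.card,
    nsmul_eq_mul]

end LibDim
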