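import Pool.Agent.LibDimB.BScal

/-! Row WIN: elementary estimates for the symbol on the cycle. -/

namespace LibDim

open Finset

theorem bwin_eps {n : ℕ} [NeZero n] (z : ℤ) :
    eps ((z : ℤ) : ZMod n) = (2 * Real.sin (Real.pi * z / n)) ^ 2 := by
  have h1 : cr ((z : ℤ) : ZMod n) = Real.cos (2 * (Real.pi * z / n)) := by
    unfold cr
    rw [ZMod.stdAddChar_coe]
    have h2 : (2 * Real.pi * Complex.I * z / n : ℂ)
        = ((2 * (Real.pi * z / n) : ℝ) : ℂ) * Complex.I := by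
      push_cast
      ring
    rw [h2, Complex.exp_ofReal_mul_I_re]
  unfold eps
  rw [h1, Real.cos_two_mul, Real.cos_sq']
  ring

theorem bwin_sqrt {n : ℕ} [NeZero n] (z : ℤ) :
    Real.sqrt (eps ((z : ℤ) : ZMod n)) = 2 * |Real.sin (Real.pi * z / n)| := by
  rw [bwin_eps, Real.sqrt_sq_eq_abs, abs_mul, abs_of_pos (by norm_num : (0 : ℝ) < 2)]

/-- the angle of the centred representative -/
theorem bwin_ang {n : ℕ} [NeZero n] (a : ZMod n) :
    0 ≤ Real.pi * (a.valMinAbs.natAbs : ℝ) / n ∧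
      Real.pi * (a.valMinAbs.natAbs : ℝ) / n ≤ Real.pi / 2 ∧
      Real.sqrt (eps a) = 2 * Real.sin (Real.pi * (a.valMinAbs.natAbs : ℝ) / n) := by
  have hn : (0 : ℝ) < n := by exact_mod_cast Nat.pos_of_ne_zero (NeZero.ne n)
  have hpi := Real.pi_pos
  have h1 : (a.valMinAbs.natAbs : ℝ) ≤ n / 2 := by
    have h2 := ZMod.natAbs_valMinAbs_le a
    have h3 : (a.valMinAbs.natAbs : ℝ) ≤ ((n / 2 : ℕ) : ℝ) := by exact_mod_cast h2
    exact h3.trans Nat.cast_div_le
  have h4 : 0 ≤ Real.pi * (a.valMinAbs.natAbs : ℝ) / n := by positivity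
  have h5 : Real.pi * (a.valMinAbs.natAbs : ℝ) / n ≤ Real.pi / 2 := by
    rw [div_le_iff₀ hn]
    nlinarith
  refine ⟨h4, h5, ?_⟩
  have h6 := bwin_sqrt (n := n) a.valMinAbs
  rw [ZMod.coe_valMinAbs] at h6
  rw [h6]
  congr 1
  have h7 : (a.valMinAbs.natAbs : ℝ) = |(a.valMinAbs : ℝ)| := by
    rw [← Int.cast_natCast, Int.natCast_natAbs, Int.cast_abs]
  rw [h7] at h4 h5 ⊢
  rcases le_total 0 (a.valMinAbs : ℝ) with h | h
  · rw [abs_of_nonneg h] at h4 h5 ⊢
    exact abs_of_nonneg (Real.sin_nonneg_of_nonneg_of_le_pi h4 (by linarith))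
  · rw [abs_of_nonpos h] at h4 h5 ⊢
    have h8 : Real.pi * -(a.valMinAbs : ℝ) / n = -(Real.pi * (a.valMinAbs : ℝ) / n) := by ring
    rw [h8] at h4 h5 ⊢
    rw [Real.sin_neg]
    have h9 := Real.sin_nonneg_of_nonneg_of_le_pi h4 (by linarith)
    rw [Real.sin_neg] at h9
    exact abs_of_nonpos (by linarith)

/-- absolute value of the centred representative: bounds for the symbol (Jordan) -/
theorem win_lower {n : ℕ} [NeZero n] (a : ZMod n) :
    4 * (a.valMinAbs.natAbs : ℝ) / n ≤ Real.sqrt (eps a) := by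
  obtain ⟨h1, h2, h3⟩ := bwin_ang a
  have h4 := Real.mul_le_sin h1 h2
  have h5 : 2 / Real.pi * (Real.pi * (a.valMinAbs.natAbs : ℝ) / n)
      = 2 * (a.valMinAbs.natAbs : ℝ) / n := by
    have := Real.pi_ne_zero
    field_simp
  rw [h5] at h4
  rw [h3]
  have h6 : 4 * (a.valMinAbs.natAbs : ℝ) / n = 2 * (2 * (a.valMinAbs.natAbs : ℝ) / n) := by ring
  rw [h6]
  linarith

theorem win_upper {n : ℕ} [NeZero n] (a : ZMod n) :
    Real.sqrt (eps a) ≤ 2 * Real.pi * (a.valMinAbs.natAbs : ℝ) / n := by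
  obtain ⟨h1, _, h3⟩ := bwin_ang a
  have h4 := Real.sin_le h1
  rw [h3]
  have h6 : 2 * Real.pi * (a.valMinAbs.natAbs : ℝ) / n
      = 2 * (Real.pi * (a.valMinAbs.natAbs : ℝ) / n) := by ring
  rw [h6]
  linarith

/-- number of small momenta -/
theorem win_count {n : ℕ} [NeZero n] (r : ℝ) (hr : 0 ≤ r) :
    ((univ.filter (fun a : ZMod n => Real.sqrt (eps a) ≤ r)).card : ℝ) ≤ r * n / 2 + 1 := by
  have hn : (0 : ℝ) < n := by exact_mod_cast Nat.pos_of_ne_zero (NeZero.ne n)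
  set Q : ℕ := ⌊r * n / 4⌋₊ with hQ
  have hQ1 : (Q : ℝ) ≤ r * n / 4 := Nat.floor_le (by positivity)
  have h1 : (univ.filter (fun a : ZMod n => Real.sqrt (eps a) ≤ r)).card
      ≤ (Finset.Icc (-(Q : ℤ)) Q).card := by
    refine Finset.card_le_card_of_injOn (fun a => a.valMinAbs) ?_ ?_
    · intro a ha
      rw [Finset.mem_coe, mem_filter] at ha
      have h2 := (win_lower a).trans ha.2
      rw [div_le_iff₀ hn] at h2
      have h3 : a.valMinAbs.natAbs ≤ Q := by
        rw [hQ]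
        apply Nat.le_floor
        linarith
      have h4 : -(Q : ℤ) ≤ a.valMinAbs ∧ a.valMinAbs ≤ Q := by omega
      exact Finset.mem_coe.2 (Finset.mem_Icc.2 h4)
    · intro a _ b _ hab
      exact ZMod.injective_valMinAbs hab
  rw [Int.card_Icc] at h1
  have h2 : ((univ.filter (fun a : ZMod n => Real.sqrt (eps a) ≤ r)).card : ℝ)
      ≤ 2 * Q + 1 := by
    have h3 : ((Q : ℤ) + 1 - -(Q : ℤ)).toNat = 2 * Q + 1 := by omega
    rw [h3] at h1
    exact_mod_cast h1
  linarith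

theorem bwin_tele (Q : ℝ) (hQ : 0 < Q) (K : ℕ) :
    ∑ q ∈ (range K).filter (fun q : ℕ => Q < q), 1 / (q : ℝ) ^ 2 ≤ 2 / Q - 2 / max (K : ℝ) Q := by
  induction K with
  | zero =>
    rw [Nat.cast_zero, max_eq_right hQ.le, Finset.range_zero, Finset.filter_empty,
      Finset.sum_empty, sub_self]
  | succ K ih =>
    rw [Finset.range_add_one, Finset.filter_insert]
    by_cases h : Q < (K : ℝ)
    · rw [if_pos h, Finset.sum_insert (by simp)]
      rw [max_eq_left h.le] at ih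
      have hK : (0 : ℝ) < K := hQ.trans h
      rw [max_eq_left (by push_cast; linarith)]
      have h1 : 1 / (K : ℝ) ^ 2 ≤ 2 / K - 2 / ((K + 1 : ℕ) : ℝ) := by
        push_cast
        have h2 : 2 / (K : ℝ) - 2 / (K + 1) = 2 / (K * (K + 1)) := by
          field_simp
          ring
        rw [h2, div_le_div_iff₀ (by positivity) (by positivity)]
        have h3 : (1 : ℝ) ≤ K := by
          have : 0 < K := by exact_mod_cast hK
          exact_mod_cast this
        nlinarith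
      linarith
    · rw [if_neg h]
      push Not at h
      rw [max_eq_right h, sub_self] at ih
      refine ih.trans ?_
      have h1 : 2 / max ((K + 1 : ℕ) : ℝ) Q ≤ 2 / Q :=
        div_le_div_of_nonneg_left (by norm_num) hQ (le_max_right _ _)
      linarith

theorem bwin_tail (Q : ℝ) (hQ : 0 < Q) (K : ℕ) :
    ∑ q ∈ (range K).filter (fun q : ℕ => Q < q), 1 / (q : ℝ) ^ 2 ≤ 2 / Q := by
  have h1 := bwin_tele Q hQ K
  have h2 : 0 ≤ 2 / max (K : ℝ) Q := by
    have : 0 < max (K : ℝ) Q := lt_max_of_lt_right hQ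
    positivity
  linarith

/-- tail sum: `eps a ≥ 16 q² / n²`, `q = |a| > r n / (2π)`, `∑_{q > Q} 1/q² ≤ 2/Q` -/
theorem win_tail {n : ℕ} [NeZero n] (r : ℝ) (hr : 0 < r) :
    ∑ a ∈ univ.filter (fun a : ZMod n => r < Real.sqrt (eps a)), 1 / eps a
      ≤ Real.pi * n / (2 * r) := by
  have hn : (0 : ℝ) < n := by exact_mod_cast Nat.pos_of_ne_zero (NeZero.ne n)
  have hpi := Real.pi_pos
  set Q : ℝ := r * n / (2 * Real.pi) with hQ
  have hQ0 : 0 < Q := by positivity
  have hq : ∀ a : ZMod n, r < Real.sqrt (eps a) → Q < (a.valMinAbs.natAbs : ℝ) := by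
    intro a ha
    have h1 := ha.trans_le (win_upper a)
    rw [hQ, div_lt_iff₀ (by positivity)]
    rw [lt_div_iff₀ hn] at h1
    linarith
  have hterm : ∀ a : ZMod n, r < Real.sqrt (eps a) →
      1 / eps a ≤ (n : ℝ) ^ 2 / 16 * (1 / (a.valMinAbs.natAbs : ℝ) ^ 2) := by
    intro a ha
    have h1 := win_lower a
    have h2 := hQ0.trans (hq a ha)
    have h3 : 0 < 4 * (a.valMinAbs.natAbs : ℝ) / n := by positivity
    have h4 : (4 * (a.valMinAbs.natAbs : ℝ) / n) ^ 2 ≤ eps a := by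
      have h5 := pow_le_pow_left₀ h3.le h1 2
      rwa [Real.sq_sqrt (eps_nonneg a)] at h5
    calc 1 / eps a ≤ 1 / (4 * (a.valMinAbs.natAbs : ℝ) / n) ^ 2 :=
          one_div_le_one_div_of_le (by positivity) h4
      _ = _ := by
          field_simp
          ring
  set T := (range (n + 1)).filter (fun q : ℕ => Q < q) with hT
  have hpart : ∀ P : ZMod n → Prop, ∀ [DecidablePred P],
      (∀ a b : ZMod n, P a → P b → a.valMinAbs.natAbs = b.valMinAbs.natAbs → a = b) →
      ∑ a ∈ univ.filter (fun a : ZMod n => r < Real.sqrt (eps a) ∧ P a), 1 / eps a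
        ≤ (n : ℝ) ^ 2 / 16 * (2 / Q) := by
    intro P _ hP
    calc ∑ a ∈ univ.filter (fun a : ZMod n => r < Real.sqrt (eps a) ∧ P a), 1 / eps a
        ≤ ∑ a ∈ univ.filter (fun a : ZMod n => r < Real.sqrt (eps a) ∧ P a),
          (n : ℝ) ^ 2 / 16 * (1 / (a.valMinAbs.natAbs : ℝ) ^ 2) :=
          Finset.sum_le_sum fun a ha => hterm a (mem_filter.1 ha).2.1
      _ = (n : ℝ) ^ 2 / 16 * ∑ q ∈ ((univ.filter (fun a : ZMod n =>
            r < Real.sqrt (eps a) ∧ P a)).image (fun a => a.valMinAbs.natAbs) : Finset ℕ),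
            1 / (q : ℝ) ^ 2 := by
          rw [Finset.sum_image, Finset.mul_sum]
          intro a ha b hb hab
          rw [Finset.mem_coe, mem_filter] at ha hb
          exact hP a b ha.2.2 hb.2.2 hab
      _ ≤ (n : ℝ) ^ 2 / 16 * ∑ q ∈ T, 1 / (q : ℝ) ^ 2 := by
          refine mul_le_mul_of_nonneg_left ?_ (by positivity)
          refine Finset.sum_le_sum_of_subset_of_nonneg ?_ (fun _ _ _ => by positivity)
          intro q hq'
          rw [mem_image] at hq'
          obtain ⟨a, ha, rfl⟩ := hq'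
          rw [mem_filter] at ha
          rw [hT, mem_filter, mem_range]
          refine ⟨?_, hq a ha.2.1⟩
          have := ZMod.natAbs_valMinAbs_le a
          omega
      _ ≤ (n : ℝ) ^ 2 / 16 * (2 / Q) :=
          mul_le_mul_of_nonneg_left (bwin_tail Q hQ0 (n + 1)) (by positivity)
  have h1 := hpart (fun a => 0 ≤ a.valMinAbs) (fun a b ha hb hab => by
    apply ZMod.injective_valMinAbs
    omega)
  have h2 := hpart (fun a => ¬ 0 ≤ a.valMinAbs) (fun a b ha hb hab => by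
    apply ZMod.injective_valMinAbs
    omega)
  have h3 := Finset.sum_filter_add_sum_filter_not
    (univ.filter (fun a : ZMod n => r < Real.sqrt (eps a))) (fun a => 0 ≤ a.valMinAbs)
    (fun a => 1 / eps a)
  rw [Finset.filter_filter, Finset.filter_filter] at h3
  rw [← h3]
  have h4 : Real.pi * n / (2 * r) = (n : ℝ) ^ 2 / 16 * (2 / Q) + (n : ℝ) ^ 2 / 16 * (2 / Q) := by
    rw [hQ]
    field_simp
    ring
  rw [h4]
  exact add_le_add h1 h2

theorem bwin_sin (m : ℕ) (x : ℝ) : |Real.sin (m * x)| ≤ m * |Real.sin x| := by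
  induction m with
  | zero => simp
  | succ m ih =>
    have h1 : ((m + 1 : ℕ) : ℝ) * x = m * x + x := by push_cast; ring
    rw [h1, Real.sin_add]
    have h2 := abs_add_le (Real.sin (m * x) * Real.cos x) (Real.cos (m * x) * Real.sin x)
    rw [abs_mul, abs_mul] at h2
    have h3 : |Real.sin (m * x)| * |Real.cos x| ≤ |Real.sin (m * x)| * 1 :=
      mul_le_mul_of_nonneg_left (Real.abs_cos_le_one x) (abs_nonneg _)
    have h4 : |Real.cos (m * x)| * |Real.sin x| ≤ 1 * |Real.sin x| :=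
      mul_le_mul_of_nonneg_right (Real.abs_cos_le_one _) (abs_nonneg _)
    push_cast
    linarith

theorem bwin_mul {n : ℕ} [NeZero n] (m : ℕ) (a : ZMod n) :
    Real.sqrt (eps ((m : ZMod n) * a)) = 2 * |Real.sin (m * (Real.pi * a.valMinAbs / n))| := by
  have h1 : (m : ZMod n) * a = (((m : ℤ) * a.valMinAbs : ℤ) : ZMod n) := by
    push_cast
    rfl
  rw [h1, bwin_sqrt]
  congr 3
  push_cast
  ring

/-- multiples: `sqrt (eps (m a)) ≤ m sqrt (eps a)` -/
theorem win_mul_le {n : ℕ} [NeZero n] (m : ℕ) (a : ZMod n) :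
    Real.sqrt (eps ((m : ZMod n) * a)) ≤ m * Real.sqrt (eps a) := by
  have h2 := bwin_sqrt (n := n) a.valMinAbs
  rw [ZMod.coe_valMinAbs] at h2
  rw [bwin_mul, h2]
  have h3 := bwin_sin m (Real.pi * a.valMinAbs / n)
  linarith

/-- multiples: if `m sqrt (eps a) ≤ 2` then `sqrt (eps (m a)) ≥ (2/π) m sqrt (eps a)` -/
theorem win_mul_ge {n : ℕ} [NeZero n] (m : ℕ) (a : ZMod n) (h : m * Real.sqrt (eps a) ≤ 2) :
    2 / Real.pi * (m * Real.sqrt (eps a)) ≤ Real.sqrt (eps ((m : ZMod n) * a)) := by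
  obtain ⟨h1, h2, h3⟩ := bwin_ang a
  have hpi := Real.pi_pos
  set x : ℝ := Real.pi * (a.valMinAbs.natAbs : ℝ) / n with hx
  have hm : (0 : ℝ) ≤ m := Nat.cast_nonneg m
  have h4 := Real.mul_le_sin h1 h2
  have h5 : m * x ≤ Real.pi / 2 := by
    rw [h3] at h
    have h6 := mul_le_mul_of_nonneg_left h4 hm
    have h7 : m * (2 / Real.pi * x) ≤ 1 := by linarith
    have h8 : m * (2 / Real.pi * x) = m * x * (2 / Real.pi) := by ring
    rw [h8, ← le_div_iff₀ (by positivity)] at h7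
    rwa [one_div_div] at h7
  have h6 : 0 ≤ m * x := mul_nonneg hm h1
  have h7 := Real.mul_le_sin h6 h5
  have h8 : |Real.sin (m * (Real.pi * a.valMinAbs / n))| = |Real.sin (m * x)| := by
    have h9 : (a.valMinAbs.natAbs : ℝ) = |(a.valMinAbs : ℝ)| := by
      rw [← Int.cast_natCast, Int.natCast_natAbs, Int.cast_abs]
    rw [hx, h9]
    rcases le_total 0 (a.valMinAbs : ℝ) with h | h
    · rw [abs_of_nonneg h]
    · rw [abs_of_nonpos h]
      have h10 : (m : ℝ) * (Real.pi * -(a.valMinAbs : ℝ) / n)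
          = -(m * (Real.pi * a.valMinAbs / n)) := by ring
      rw [h10, Real.sin_neg, abs_neg]
  rw [bwin_mul, h8, h3]
  have h9 : Real.sin x ≤ x := Real.sin_le h1
  have h10 : 2 / Real.pi * (m * x) ≤ |Real.sin (m * x)| := h7.trans (le_abs_self _)
  have h11 : 2 / Real.pi * (m * Real.sin x) ≤ 2 / Real.pi * (m * x) :=
    mul_le_mul_of_nonneg_left (mul_le_mul_of_nonneg_left h9 hm) (by positivity)
  linarith

end LibDim
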