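import Pool.Agent.LibDimB.BSpec

/-! Row ZEROA: uncertainty relation for the conserved charge (matrix level). -/

namespace LibDim

open Finset Matrix

variable {α : Type} [Fintype α] [DecidableEq α]

theorem bza_amgm (k : ℕ) (X Y : ℝ) (hX : 0 ≤ X) (hY : 0 ≤ Y) :
    ((k : ℝ) + 2) * (X ^ 2 * Y ^ k) ≤ 2 * X ^ (k + 2) + k * Y ^ (k + 2) := by
  induction k with
  | zero => simp
  | succ k ih =>
    have h1 := mul_le_mul_of_nonneg_right ih hY
    have h2 : 0 ≤ (X - Y) * (2 * X ^ (k + 2) - Y ^ (k + 1) * (X + Y)) := by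
      rcases le_total Y X with h | h
      · refine mul_nonneg (sub_nonneg.2 h) ?_
        have a1 : Y ^ (k + 1) ≤ X ^ (k + 1) := pow_le_pow_left₀ hY h _
        have a2 : Y ^ (k + 1) * X ≤ X ^ (k + 1) * X := mul_le_mul_of_nonneg_right a1 hX
        have a3 : Y ^ (k + 1) * Y ≤ X ^ (k + 1) * X := mul_le_mul a1 h hY (pow_nonneg hX _)
        have a4 : X ^ (k + 2) = X ^ (k + 1) * X := pow_succ _ _
        rw [a4]
        linarith
      · refine mul_nonneg_of_nonpos_of_nonpos (sub_nonpos.2 h) ?_
        have a1 : X ^ (k + 1) ≤ Y ^ (k + 1) := pow_le_pow_left₀ hX h _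
        have a2 : X ^ (k + 1) * X ≤ Y ^ (k + 1) * X := mul_le_mul_of_nonneg_right a1 hX
        have a3 : X ^ (k + 1) * X ≤ Y ^ (k + 1) * Y := mul_le_mul a1 h hX (pow_nonneg hY _)
        have a4 : X ^ (k + 2) = X ^ (k + 1) * X := pow_succ _ _
        rw [a4]
        linarith
    have e1 : (X - Y) * (2 * X ^ (k + 2) - Y ^ (k + 1) * (X + Y))
        = 2 * X ^ (k + 3) - 2 * X ^ (k + 2) * Y - X ^ 2 * Y ^ (k + 1) + Y ^ (k + 3) := by
      ring
    rw [e1] at h2
    have e2 : ((k : ℝ) + 2) * (X ^ 2 * Y ^ k) * Y = ((k : ℝ) + 2) * (X ^ 2 * Y ^ (k + 1)) := by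
      ring
    have e3 : (2 * X ^ (k + 2) + (k : ℝ) * Y ^ (k + 2)) * Y
        = 2 * X ^ (k + 2) * Y + k * Y ^ (k + 3) := by
      ring
    rw [e2, e3] at h1
    have e4 : (((k + 1 : ℕ) : ℝ) + 2) * (X ^ 2 * Y ^ (k + 1))
        = ((k : ℝ) + 2) * (X ^ 2 * Y ^ (k + 1)) + X ^ 2 * Y ^ (k + 1) := by
      push_cast
      ring
    have e5 : 2 * X ^ (k + 1 + 2) + ((k + 1 : ℕ) : ℝ) * Y ^ (k + 1 + 2)
        = 2 * X ^ (k + 3) + k * Y ^ (k + 3) + Y ^ (k + 3) := by
      push_cast
      ring
    rw [e4, e5]
    linarith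

/-- the inequality for one pair of eigenvalues -/
theorem bza_pair (k : ℕ) (x y : ℝ) :
    y ^ (2 * (k + 2)) - |x| ^ (k + 2) * |y| ^ (k + 2)
      ≤ ((k : ℝ) + 2) / 2 * (y ^ (2 * (k + 2)) - x ^ 2 * y ^ (2 * (k + 2) - 2)) := by
  have h := bza_amgm k |x| |y| (abs_nonneg x) (abs_nonneg y)
  have hy := mul_le_mul_of_nonneg_left h (pow_nonneg (abs_nonneg y) (k + 2))
  have e1 : y ^ (2 * (k + 2)) = |y| ^ (k + 2) * |y| ^ (k + 2) := by
    rw [← pow_add, ← two_mul, pow_mul, pow_mul, sq_abs]
  have e2 : x ^ 2 * y ^ (2 * (k + 2) - 2) = |y| ^ (k + 2) * (|x| ^ 2 * |y| ^ k) := by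
    have : 2 * (k + 2) - 2 = 2 * (k + 1) := by omega
    rw [this, pow_mul, sq_abs x, ← sq_abs y, ← pow_mul]
    ring
  rw [e1, e2]
  nlinarith [hy]

theorem bza_fro (A B : Matrix α α ℝ) :
    (A.transpose * B).trace = ∑ p : α × α, A p.1 p.2 * B p.1 p.2 := by
  rw [Fintype.sum_prod_type, Finset.sum_comm]
  unfold Matrix.trace
  refine Finset.sum_congr rfl fun j _ => ?_
  rw [Matrix.diag_apply, Matrix.mul_apply]
  rfl

theorem bza_nonneg (A : Matrix α α ℝ) : 0 ≤ (A.transpose * A).trace := by
  rw [bza_fro]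
  exact Finset.sum_nonneg fun p _ => mul_self_nonneg _

theorem bza_cs (A B : Matrix α α ℝ) :
    |(A.transpose * B).trace| ≤ Real.sqrt ((A.transpose * A).trace)
      * Real.sqrt ((B.transpose * B).trace) := by
  rw [← Real.sqrt_mul (bza_nonneg A)]
  refine Real.abs_le_sqrt ?_
  rw [bza_fro, bza_fro, bza_fro]
  have h := Finset.sum_mul_sq_le_sq_mul_sq (Finset.univ : Finset (α × α))
    (fun p => A p.1 p.2) (fun p => B p.1 p.2)
  simpa only [sq] using h

theorem bza_tri (A B : Matrix α α ℝ) :
    Real.sqrt (((A + B).transpose * (A + B)).trace)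
      ≤ Real.sqrt ((A.transpose * A).trace) + Real.sqrt ((B.transpose * B).trace) := by
  have hcs := bza_cs A B
  have hA := bza_nonneg A
  have hB := bza_nonneg B
  have hc : (B.transpose * A).trace = (A.transpose * B).trace := by
    rw [← Matrix.trace_transpose (A.transpose * B), Matrix.transpose_mul,
      Matrix.transpose_transpose]
  have e : ((A + B).transpose * (A + B)).trace
      = (A.transpose * A).trace + 2 * (A.transpose * B).trace + (B.transpose * B).trace := by
    rw [Matrix.transpose_add, Matrix.add_mul, Matrix.mul_add, Matrix.mul_add, Matrix.trace_add,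
      Matrix.trace_add, Matrix.trace_add, hc]
    ring
  rw [e]
  refine Real.sqrt_le_iff.2 ⟨by positivity, ?_⟩
  have h1 := Real.sq_sqrt hA
  have h2 := Real.sq_sqrt hB
  have h3 := le_abs_self ((A.transpose * B).trace)
  nlinarith

/-- Square root of `S^n` commuting with the charge: `S = Q diag(l) Qᵀ`, `T = Q diag(|l|^(n/2)) Qᵀ`. `C S = - S C` gives
`C S² = S² C`, in the eigenbasis `C'_ij (l_j² - l_i²) = 0`, so `C'_ij (|l_j|^(n/2) - |l_i|^(n/2)) = 0`.
`tr (U T Uᵀ T) = ∑_ij w_ij |l_i|^(n/2) |l_j|^(n/2)` with `w_ij = (Qᵀ U Q)_ji²`, and for each pair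
`Y^n - X^(n/2) Y^(n/2) ≤ (n/4) (Y^n - X² Y^(n-2))` (`X = |l_i|`, `Y = |l_j|`, convexity of `s ↦ X^s Y^(n-s)`), where
`hT 0 = ∑ w_ij Y^n`, `hT 2 = ∑ w_ij X² Y^(n-2)`. -/
theorem zero_root (n : ℕ) (hn : 4 ≤ n) (he : Even n) (S C U : Matrix α α ℝ)
    (hS : S.IsSymm) (hCS : C * S = -(S * C)) :
    ∃ T : Matrix α α ℝ, T.IsSymm ∧ T * T = S ^ n ∧ C * T = T * C ∧
      hT n S U 0 - (U * T * U.transpose * T).trace ≤ (n : ℝ) / 4 * (hT n S U 0 - hT n S U 2) := by
  obtain ⟨Q, l, h1, h2, hSQ⟩ := spec_diag S hS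
  obtain ⟨k', hk'⟩ := he
  obtain ⟨k, rfl⟩ : ∃ k, k' = k + 2 := ⟨k' - 2, by omega⟩
  have hn2 : n = 2 * (k + 2) := by omega
  clear hk'
  subst hn2
  set L : α → ℝ := fun i => |l i| ^ (k + 2) with hL
  have hSn : S ^ (2 * (k + 2)) = Q * Matrix.diagonal (fun i => l i ^ (2 * (k + 2))) * Q.transpose := by
    rw [hSQ, spec_pow Q l h1 h2]
  have hcan : ∀ A B : Matrix α α ℝ, Q * A * Q.transpose * (Q * B * Q.transpose)
      = Q * (A * B) * Q.transpose := by
    intro A B
    calc Q * A * Q.transpose * (Q * B * Q.transpose)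
        = Q * (A * (Q.transpose * Q) * B) * Q.transpose := by simp only [Matrix.mul_assoc]
      _ = Q * (A * B) * Q.transpose := by rw [h2, Matrix.mul_one]
  refine ⟨Q * Matrix.diagonal L * Q.transpose, ?_, ?_, ?_, ?_⟩
  · rw [Matrix.IsSymm, Matrix.transpose_mul, Matrix.transpose_mul, Matrix.transpose_transpose,
      Matrix.diagonal_transpose, Matrix.mul_assoc]
  · rw [hcan, Matrix.diagonal_mul_diagonal, hSn]
    congr 3
    funext i
    rw [hL]
    simp only
    rw [← pow_add, ← two_mul, pow_mul, pow_mul, sq_abs]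
  · set C' := Q.transpose * C * Q with hC'
    have hCQ : C = Q * C' * Q.transpose := by
      rw [hC']
      calc C = (Q * Q.transpose) * C * (Q * Q.transpose) := by rw [h1, Matrix.one_mul, Matrix.mul_one]
        _ = Q * (Q.transpose * C * Q) * Q.transpose := by simp only [Matrix.mul_assoc]
    have hsq : C * (S * S) = S * S * C := by
      calc C * (S * S) = (C * S) * S := by rw [Matrix.mul_assoc]
        _ = -(S * C) * S := by rw [hCS]
        _ = -(S * (C * S)) := by rw [Matrix.neg_mul, Matrix.mul_assoc]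
        _ = S * S * C := by rw [hCS, Matrix.mul_neg, neg_neg, Matrix.mul_assoc]
    have hD : C' * Matrix.diagonal (fun i => l i * l i)
        = Matrix.diagonal (fun i => l i * l i) * C' := by
      have e1 : S * S = Q * Matrix.diagonal (fun i => l i * l i) * Q.transpose := by
        rw [hSQ, hcan, Matrix.diagonal_mul_diagonal]
      rw [e1, hCQ, hcan, hcan] at hsq
      have e2 : ∀ A : Matrix α α ℝ, Q.transpose * (Q * A * Q.transpose) * Q = A := by
        intro A
        calc Q.transpose * (Q * A * Q.transpose) * Q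
            = (Q.transpose * Q) * A * (Q.transpose * Q) := by simp only [Matrix.mul_assoc]
          _ = A := by rw [h2, Matrix.one_mul, Matrix.mul_one]
      rw [← e2 (C' * Matrix.diagonal (fun i => l i * l i)), hsq, e2]
    have hD2 : C' * Matrix.diagonal L = Matrix.diagonal L * C' := by
      ext i j
      have h3 := congrFun (congrFun hD i) j
      rw [Matrix.mul_diagonal, Matrix.diagonal_mul] at h3 ⊢
      by_cases hc : C' i j = 0
      · rw [hc]
        ring
      · have h4 : l j * l j = l i * l i := by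
          have h5 : C' i j * (l j * l j - l i * l i) = 0 := by linarith
          rcases mul_eq_zero.1 h5 with h6 | h6
          · exact absurd h6 hc
          · linarith
        have h5 : |l j| = |l i| := by
          rw [← Real.sqrt_mul_self_eq_abs, ← Real.sqrt_mul_self_eq_abs, h4]
        rw [hL]
        simp only
        rw [h5]
        ring
    rw [hCQ, hcan, hcan, hD2]
  · have hw : ∀ i j, (Q.transpose * U.transpose * Q) i j = (Q.transpose * U * Q) j i := by
      intro i j
      have : Q.transpose * U.transpose * Q = (Q.transpose * U * Q).transpose := by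
        rw [Matrix.transpose_mul, Matrix.transpose_mul, Matrix.transpose_transpose,
          Matrix.mul_assoc]
      rw [this, Matrix.transpose_apply]
    have g0 : hT (2 * (k + 2)) S U 0
        = ∑ i, ∑ j, (Q.transpose * U * Q) j i ^ 2 * l j ^ (2 * (k + 2)) := by
      unfold hT
      rw [hSQ, spec_trace Q l h1 h2, Nat.sub_zero]
      refine Finset.sum_congr rfl fun i _ => Finset.sum_congr rfl fun j _ => ?_
      rw [hw]
      ring
    have g2 : hT (2 * (k + 2)) S U 2
        = ∑ i, ∑ j, (Q.transpose * U * Q) j i ^ 2 * (l i ^ 2 * l j ^ (2 * (k + 2) - 2)) := by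
      unfold hT
      rw [hSQ, spec_trace Q l h1 h2]
      refine Finset.sum_congr rfl fun i _ => Finset.sum_congr rfl fun j _ => ?_
      rw [hw]
      ring
    have gT : (U * (Q * Matrix.diagonal L * Q.transpose) * U.transpose
        * (Q * Matrix.diagonal L * Q.transpose)).trace
        = ∑ i, ∑ j, (Q.transpose * U * Q) j i ^ 2 * (L i * L j) := by
      have := spec_trace Q L h1 h2 U U.transpose 1 1
      rw [pow_one] at this
      rw [this]
      refine Finset.sum_congr rfl fun i _ => Finset.sum_congr rfl fun j _ => ?_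
      rw [hw]
      ring
    rw [gT, g0, g2, ← Finset.sum_sub_distrib, ← Finset.sum_sub_distrib, Finset.mul_sum]
    refine Finset.sum_le_sum fun i _ => ?_
    rw [← Finset.sum_sub_distrib, ← Finset.sum_sub_distrib, Finset.mul_sum]
    refine Finset.sum_le_sum fun j _ => ?_
    have hp := mul_le_mul_of_nonneg_left (bza_pair k (l i) (l j))
      (sq_nonneg ((Q.transpose * U * Q) j i))
    have e : ((2 * (k + 2) : ℕ) : ℝ) / 4 = ((k : ℝ) + 2) / 2 := by
      push_cast
      ring
    rw [e, hL]
    simp only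
    linarith

/-- Uncertainty relation. With `T` from `zero_root`, `Y = Uᵀ T`, `W = T Uᵀ`: `‖Y‖² = hT 0`, `‖W‖² = hT n`,
`⟨Y, W⟩ = tr (U T Uᵀ T)`, so `‖Y - W‖² ≤ (n/2) (hT 0 - hT 2)`. `C Uᵀ = Uᵀ (C + 1)` and `C T = T C` give
`tr (C (Y Yᵀ - W Wᵀ)) = tr ((U Uᵀ - Uᵀ U) C S^n) + hT 0`, and
`|tr (C (Y Yᵀ - W Wᵀ))| ≤ ‖Y - W‖ (‖C Y‖ + ‖C W‖)`, `C Y = Uᵀ (C + 1) T`, `‖C W‖ = ‖U C T‖`,
`‖C T‖² = tr (C C S^n)`. -/
theorem zero_unc (n : ℕ) (hn : 4 ≤ n) (he : Even n) (S C U : Matrix α α ℝ)
    (hS : S.IsSymm) (hC : C.IsSymm) (hCS : C * S = -(S * C)) (hU : C * U - U * C = -U) (K : ℝ)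
    (hK : 0 ≤ K)
    (h1 : ∀ X : Matrix α α ℝ, (X.transpose * (U * U.transpose) * X).trace
      ≤ K ^ 2 * (X.transpose * X).trace)
    (h2 : ∀ X : Matrix α α ℝ, (X.transpose * (U.transpose * U) * X).trace
      ≤ K ^ 2 * (X.transpose * X).trace)
    (h3 : hT n S U n ≤ hT n S U 0) :
    hT n S U 0 ≤ Real.sqrt ((n : ℝ) / 2 * (hT n S U 0 - hT n S U 2))
        * (K * (2 * Real.sqrt ((C * C * S ^ n).trace) + Real.sqrt ((S ^ n).trace)))
      + |((U * U.transpose - U.transpose * U) * (C * S ^ n)).trace| := by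
  obtain ⟨T, hTs, hTT, hCT, hroot⟩ := zero_root n hn he S C U hS hCS
  have hTt : T.transpose = T := hTs
  have hCt : C.transpose = C := hC
  set Y := U.transpose * T with hY
  set W := T * U.transpose with hW
  have hYt : Y.transpose = T * U := by
    rw [hY, Matrix.transpose_mul, Matrix.transpose_transpose, hTt]
  have hWt : W.transpose = U * T := by
    rw [hW, Matrix.transpose_mul, Matrix.transpose_transpose, hTt]
  have nY : (Y.transpose * Y).trace = hT n S U 0 := by
    unfold hT
    rw [pow_zero, Matrix.mul_one, Nat.sub_zero, ← hTT, hYt, hY]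
    calc (T * U * (U.transpose * T)).trace = (T * (U * U.transpose * T)).trace := by
          simp only [Matrix.mul_assoc]
      _ = (U * U.transpose * T * T).trace := Matrix.trace_mul_comm _ _
      _ = (U * U.transpose * (T * T)).trace := by simp only [Matrix.mul_assoc]
  have nW : (W.transpose * W).trace = hT n S U n := by
    unfold hT
    rw [Nat.sub_self, pow_zero, Matrix.mul_one, ← hTT, hWt, hW]
    simp only [Matrix.mul_assoc]
  have nYW : (Y.transpose * W).trace = (U * T * U.transpose * T).trace := by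
    rw [hYt, hW]
    calc (T * U * (T * U.transpose)).trace = (T * (U * T * U.transpose)).trace := by
          simp only [Matrix.mul_assoc]
      _ = (U * T * U.transpose * T).trace := Matrix.trace_mul_comm _ _
  have nWY : (W.transpose * Y).trace = (Y.transpose * W).trace := by
    have e : W.transpose * Y = (Y.transpose * W).transpose := by
      rw [Matrix.transpose_mul Y.transpose W, Matrix.transpose_transpose Y]
    rw [e, Matrix.trace_transpose]
  have nD : ((Y - W).transpose * (Y - W)).trace ≤ (n : ℝ) / 2 * (hT n S U 0 - hT n S U 2) := by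
    have e : ((Y - W).transpose * (Y - W)).trace
        = hT n S U 0 - 2 * (U * T * U.transpose * T).trace + hT n S U n := by
      rw [Matrix.transpose_sub, Matrix.sub_mul, Matrix.mul_sub, Matrix.mul_sub, Matrix.trace_sub,
        Matrix.trace_sub, Matrix.trace_sub, nY, nW, nWY, nYW]
      ring
    rw [e]
    linarith
  have nCT : ((C * T).transpose * (C * T)).trace = (C * C * S ^ n).trace := by
    rw [Matrix.transpose_mul, hTt, hCt, ← hTT]
    calc (T * C * (C * T)).trace = (T * (C * C * T)).trace := by simp only [Matrix.mul_assoc]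
      _ = (C * C * T * T).trace := Matrix.trace_mul_comm _ _
      _ = (C * C * (T * T)).trace := by simp only [Matrix.mul_assoc]
  have nT : (T.transpose * T).trace = (S ^ n).trace := by
    rw [hTt, hTT]
  have hCU : C * U.transpose = U.transpose * C + U.transpose := by
    have h := congrArg Matrix.transpose hU
    rw [Matrix.transpose_sub, Matrix.transpose_mul, Matrix.transpose_mul, hCt,
      Matrix.transpose_neg] at h
    rw [sub_eq_iff_eq_add.1 h]
    abel
  set c := Real.sqrt ((C * C * S ^ n).trace) with hc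
  set z := Real.sqrt ((S ^ n).trace) with hz
  have bCY : Real.sqrt (((C * Y).transpose * (C * Y)).trace) ≤ K * (c + z) := by
    have e1 : C * Y = U.transpose * (C * T + T) := by
      rw [hY, ← Matrix.mul_assoc, hCU, Matrix.add_mul, Matrix.mul_add, Matrix.mul_assoc]
    have e2 : ((C * Y).transpose * (C * Y)).trace
        = ((C * T + T).transpose * (U * U.transpose) * (C * T + T)).trace := by
      rw [e1, Matrix.transpose_mul, Matrix.transpose_transpose]
      simp only [Matrix.mul_assoc]
    rw [e2]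
    have e3 := h1 (C * T + T)
    have e4 : Real.sqrt (K ^ 2 * ((C * T + T).transpose * (C * T + T)).trace)
        = K * Real.sqrt (((C * T + T).transpose * (C * T + T)).trace) := by
      rw [Real.sqrt_mul (sq_nonneg K), Real.sqrt_sq hK]
    refine (Real.sqrt_le_sqrt e3).trans ?_
    rw [e4]
    refine mul_le_mul_of_nonneg_left ?_ hK
    have := bza_tri (C * T) T
    rwa [nCT, nT] at this
  have bCW : Real.sqrt (((C * W).transpose * (C * W)).trace) ≤ K * c := by
    have e1 : ((C * W).transpose * (C * W)).trace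
        = ((T * C).transpose * (U.transpose * U) * (T * C)).trace := by
      rw [Matrix.trace_mul_comm, hW, Matrix.transpose_mul, Matrix.transpose_mul,
        Matrix.transpose_mul, Matrix.transpose_transpose, hTt, hCt]
      simp only [Matrix.mul_assoc]
    rw [e1]
    have e3 := h2 (T * C)
    have e4 : ((T * C).transpose * (T * C)).trace = (C * C * S ^ n).trace := by
      rw [← nCT, hCT]
    rw [e4] at e3
    refine (Real.sqrt_le_sqrt e3).trans ?_
    rw [Real.sqrt_mul (sq_nonneg K), Real.sqrt_sq hK]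
  have key : hT n S U 0 = (((C * Y).transpose * (Y - W)).trace + ((Y - W).transpose * (C * W)).trace)
      - ((U * U.transpose - U.transpose * U) * (C * S ^ n)).trace := by
    have e1 : ((C * Y).transpose * (Y - W)).trace = (C * Y * Y.transpose).trace
        - (C * W * Y.transpose).trace := by
      rw [Matrix.transpose_mul, hCt, Matrix.mul_sub, Matrix.trace_sub]
      congr 1
      · rw [Matrix.mul_assoc, Matrix.trace_mul_comm]
      · rw [Matrix.mul_assoc, Matrix.trace_mul_comm]
    have e2 : ((Y - W).transpose * (C * W)).trace = (C * W * Y.transpose).trace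
        - (C * W * W.transpose).trace := by
      rw [Matrix.transpose_sub, Matrix.sub_mul, Matrix.trace_sub, Matrix.trace_mul_comm,
        Matrix.trace_mul_comm W.transpose]
    have e3 : (C * Y * Y.transpose).trace = (U * U.transpose * (C * S ^ n)).trace
        + hT n S U 0 := by
      unfold hT
      rw [pow_zero, Matrix.mul_one, Nat.sub_zero, hYt, hY]
      have : C * (U.transpose * T) * (T * U)
          = (U.transpose * C + U.transpose) * (T * T) * U := by
        rw [← hCU]
        simp only [Matrix.mul_assoc]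
      rw [this, hTT, Matrix.trace_mul_comm, Matrix.add_mul, Matrix.mul_add, Matrix.trace_add]
      simp only [Matrix.mul_assoc]
    have e4 : (C * W * W.transpose).trace = (U.transpose * U * (C * S ^ n)).trace := by
      rw [hWt, hW, ← hTT]
      calc (C * (T * U.transpose) * (U * T)).trace = (C * T * (U.transpose * U * T)).trace := by
            simp only [Matrix.mul_assoc]
        _ = (U.transpose * U * T * (C * T)).trace := Matrix.trace_mul_comm _ _
        _ = (U.transpose * U * (T * C * T)).trace := by simp only [Matrix.mul_assoc]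
        _ = (U.transpose * U * (C * (T * T))).trace := by
            rw [← hCT]
            simp only [Matrix.mul_assoc]
    rw [e1, e2, e3, e4, Matrix.sub_mul, Matrix.trace_sub]
    ring
  have c1 := bza_cs (C * Y) (Y - W)
  have c2 := bza_cs (Y - W) (C * W)
  have hd : Real.sqrt (((Y - W).transpose * (Y - W)).trace)
      ≤ Real.sqrt ((n : ℝ) / 2 * (hT n S U 0 - hT n S U 2)) := Real.sqrt_le_sqrt nD
  set δ := Real.sqrt (((Y - W).transpose * (Y - W)).trace) with hδ
  set Δ := Real.sqrt ((n : ℝ) / 2 * (hT n S U 0 - hT n S U 2)) with hΔ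
  have hδ0 : 0 ≤ δ := Real.sqrt_nonneg _
  have hc0 : 0 ≤ c := Real.sqrt_nonneg _
  have hz0 : 0 ≤ z := Real.sqrt_nonneg _
  have c3 : Real.sqrt (((C * Y).transpose * (C * Y)).trace) * δ ≤ K * (c + z) * δ :=
    mul_le_mul_of_nonneg_right bCY hδ0
  have c4 : δ * Real.sqrt (((C * W).transpose * (C * W)).trace) ≤ δ * (K * c) :=
    mul_le_mul_of_nonneg_left bCW hδ0
  have c5 : δ * (K * (2 * c + z)) ≤ Δ * (K * (2 * c + z)) :=
    mul_le_mul_of_nonneg_right hd (mul_nonneg hK (by positivity))
  have c6 := le_abs_self (((C * Y).transpose * (Y - W)).trace)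
  have c7 := le_abs_self (((Y - W).transpose * (C * W)).trace)
  have c8 := neg_abs_le (((U * U.transpose - U.transpose * U) * (C * S ^ n)).trace)
  have c9 : hT n S U 0 ≤ δ * (K * (2 * c + z))
      + |((U * U.transpose - U.transpose * U) * (C * S ^ n)).trace| := by
    have e : δ * (K * (2 * c + z)) = K * (c + z) * δ + δ * (K * c) := by ring
    rw [e]
    linarith
  linarith

end LibDim
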