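import Pool.Agent.LibDimB.BZeroA
import Pool.Agent.LibDimB.BSp
import Pool.Agent.LibDimB.BVertB
import Pool.Agent.LibDimB.BContB

/-! Row ZEROB: fluctuations of the conserved charge and the zero mode. -/

namespace LibDim

open Finset Matrix

variable {d n : ℕ}

theorem bzb_sgn_sum [NeZero n] (hd : 0 < d) (he : Even n) : ∑ y : Vtx d n, sgnV y = 0 := by
  have h := MainA_shift (fun y : Vtx d n => sgnV y) ⟨0, hd⟩
  have h2 : ∑ x : Vtx d n, sgnV (x + stp ⟨0, hd⟩) = - ∑ x : Vtx d n, sgnV x := by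
    rw [← Finset.sum_neg_distrib]
    exact Finset.sum_congr rfl fun x _ => MainA_sgn_step he x ⟨0, hd⟩
  linarith

theorem bzb_ok [NeZero n] (hd : 0 < d) (hn : 4 ≤ n) (he : Even n) (a b : Vtx d n → Bool)
    (η : Vtx d n × Fin d → Bool) (h : okL (layG d n hn) a η b) :
    ∑ y, sgnV y * ((a y).toNat : ℝ) + ∑ y, sgnV y * ((b y).toNat : ℝ) = 0 := by
  have h1 : ∀ y : Vtx d n, sgnV y * ((a y).toNat : ℝ) + sgnV y * ((b y).toNat : ℝ)
      + ∑ e : Vtx d n × Fin d, sgnV y * (if (layG d n hn).src e = y ∨ (layG d n hn).tgt e = y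
          then ((η e).toNat : ℝ) else 0) = sgnV y := by
    intro y
    have h2 := h y
    have h3 : ((a y).toNat : ℝ) + ((b y).toNat : ℝ)
        + ∑ e : Vtx d n × Fin d, (if (layG d n hn).src e = y ∨ (layG d n hn).tgt e = y
          then ((η e).toNat : ℝ) else 0) = 1 := by
      have h4 := congrArg (fun m : ℕ => (m : ℝ)) h2
      push_cast at h4
      rw [← h4]
    rw [← Finset.mul_sum, ← mul_add, ← mul_add, h3, mul_one]
  have h5 : ∑ y : Vtx d n, ∑ e : Vtx d n × Fin d, sgnV y * (if (layG d n hn).src e = y ∨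
      (layG d n hn).tgt e = y then ((η e).toNat : ℝ) else 0) = 0 := by
    rw [Finset.sum_comm]
    refine Finset.sum_eq_zero fun e _ => ?_
    have hs : (layG d n hn).src e = e.1 := rfl
    have ht : (layG d n hn).tgt e = e.1 + stp e.2 := rfl
    have hne := (layG d n hn).ne e
    rw [hs, ht] at hne
    have h6 : ∀ y : Vtx d n, sgnV y * (if (layG d n hn).src e = y ∨ (layG d n hn).tgt e = y
        then ((η e).toNat : ℝ) else 0)
        = (if e.1 = y then sgnV y * ((η e).toNat : ℝ) else 0)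
          + (if e.1 + stp e.2 = y then sgnV y * ((η e).toNat : ℝ) else 0) := by
      intro y
      rw [hs, ht]
      by_cases ha : e.1 = y
      · have hb : ¬ e.1 + stp e.2 = y := fun hb => hne (ha.trans hb.symm)
        rw [if_pos (Or.inl ha), if_pos ha, if_neg hb, add_zero]
      · by_cases hb : e.1 + stp e.2 = y
        · rw [if_pos (Or.inr hb), if_neg ha, if_pos hb, zero_add]
        · rw [if_neg (not_or.2 ⟨ha, hb⟩), if_neg ha, if_neg hb, mul_zero, add_zero]
    simp only [h6]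
    rw [Finset.sum_add_distrib, Finset.sum_ite_eq, Finset.sum_ite_eq, if_pos (mem_univ _),
      if_pos (mem_univ _), MainA_sgn_step he]
    ring
  have h7 : ∑ y : Vtx d n, (sgnV y * ((a y).toNat : ℝ) + sgnV y * ((b y).toNat : ℝ)
      + ∑ e : Vtx d n × Fin d, sgnV y * (if (layG d n hn).src e = y ∨ (layG d n hn).tgt e = y
          then ((η e).toNat : ℝ) else 0)) = 0 := by
    rw [Finset.sum_congr rfl fun y _ => h1 y, bzb_sgn_sum hd he]
  rw [Finset.sum_add_distrib, Finset.sum_add_distrib, h5, add_zero] at h7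
  exact h7

/-- charge conservation: if `S(a,b) ≠ 0` multiply the covering equations by `sgnV` and sum over the layer -/
theorem charge_comm [NeZero n] (hd : 0 < d) (hn : 4 ≤ n) (he : Even n) :
    (DM (sgnV (d := d) (n := n)) : Matrix (Vtx d n → Bool) (Vtx d n → Bool) ℝ) * lS (layG d n hn)
      = -(lS (layG d n hn) * DM (sgnV (d := d) (n := n))) := by
  ext a b
  rw [Matrix.neg_apply]
  unfold DM
  rw [Matrix.diagonal_mul, Matrix.mul_diagonal]
  unfold lS opL
  rw [Finset.mul_sum, Finset.sum_mul, ← Finset.sum_neg_distrib]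
  refine Finset.sum_congr rfl fun η _ => ?_
  unfold wgt
  split_ifs with h
  · have h1 := bzb_ok hd hn he a b η h
    linarith
  · simp

theorem bzb_card [NeZero n] : ((Fintype.card (Vtx d n) : ℕ) : ℝ) = (n : ℝ) ^ d := by
  rw [Fintype.card_fun, ZMod.card, Fintype.card_fin]
  push_cast
  rfl

theorem bzb_npos [NeZero n] : (0 : ℝ) < (n : ℝ) ^ d := by
  have : (0 : ℝ) < n := by exact_mod_cast Nat.pos_of_ne_zero (NeZero.ne n)
  positivity

theorem bzb_sub [NeZero n] (u : Vtx d n → ℝ) (h0 : ∀ y, 0 ≤ u y) (h1 : ∀ y, u y ≤ 1) :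
    comm_sub (UM (fun y => (1 / (n : ℝ) ^ d) * u y)) := by
  have hN := bzb_npos (d := d) (n := n)
  have hpos : 0 < Fintype.card (Vtx d n) := Fintype.card_pos
  have h := UM_avg_sub (V := Vtx d n) hpos
  rw [bzb_card] at h
  have hent : ∀ (y : Vtx d n) (a b : Vtx d n → Bool), 0 ≤ upM y a b := by
    intro y a b
    unfold upM
    split_ifs
    · exact zero_le_one
    · exact le_refl _
  have hle : ∀ a b, UM (fun y => (1 / (n : ℝ) ^ d) * u y) a b
      ≤ UM (fun _ : Vtx d n => (1 : ℝ) / (n : ℝ) ^ d) a b := by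
    intro a b
    unfold UM
    simp only [Matrix.sum_apply, Matrix.smul_apply, smul_eq_mul]
    refine Finset.sum_le_sum fun y _ => mul_le_mul_of_nonneg_right ?_ (hent y a b)
    have : (0 : ℝ) ≤ 1 / (n : ℝ) ^ d := by positivity
    calc (1 / (n : ℝ) ^ d) * u y ≤ (1 / (n : ℝ) ^ d) * 1 := mul_le_mul_of_nonneg_left (h1 y) this
      _ = 1 / (n : ℝ) ^ d := mul_one _
  refine ⟨fun a b => ?_, fun a => ?_, fun b => ?_⟩
  · unfold UM
    simp only [Matrix.sum_apply, Matrix.smul_apply, smul_eq_mul]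
    exact Finset.sum_nonneg fun y _ => mul_nonneg (mul_nonneg (by positivity) (h0 y)) (hent y a b)
  · exact (Finset.sum_le_sum fun b _ => hle a b).trans (h.2.1 a)
  · exact (Finset.sum_le_sum fun a _ => hle a b).trans (h.2.2 b)

/-- operator bound: `UM u / n^d` is substochastic if `0 ≤ u ≤ 1` -/
theorem UM_bound (u : Vtx d n → ℝ) [NeZero n] (h0 : ∀ y, 0 ≤ u y) (h1 : ∀ y, u y ≤ 1)
    (X : Matrix (Vtx d n → Bool) (Vtx d n → Bool) ℝ) :
    (X.transpose * (UM u * (UM u).transpose) * X).trace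
        ≤ ((n : ℝ) ^ d) ^ 2 * (X.transpose * X).trace ∧
      (X.transpose * ((UM u).transpose * UM u) * X).trace
        ≤ ((n : ℝ) ^ d) ^ 2 * (X.transpose * X).trace := by
  have hN := bzb_npos (d := d) (n := n)
  set N : ℝ := (n : ℝ) ^ d with hNd
  have hs := bzb_sub u h0 h1
  rw [← hNd] at hs
  set R := UM (fun y => (1 / N) * u y) with hR
  have hUR : UM u = N • R := by
    rw [hR, UM_smul, smul_smul]
    rw [show N * (1 / N) = 1 by field_simp, one_smul]
  have ht : ∀ A : Matrix (Vtx d n → Bool) (Vtx d n → Bool) ℝ, comm_sub A →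
      (X.transpose * ((N ^ 2) • A) * X).trace ≤ N ^ 2 * (X.transpose * X).trace := by
    intro A hA
    have h2 := sub_tr_le A X hA
    have e1 : (X.transpose * ((N ^ 2) • A) * X).trace = N ^ 2 * (A * (X * X.transpose)).trace := by
      rw [Matrix.mul_smul, Matrix.smul_mul, Matrix.trace_smul, smul_eq_mul]
      congr 1
      rw [Matrix.mul_assoc, Matrix.trace_mul_comm, Matrix.mul_assoc]
    rw [e1, Matrix.trace_mul_comm X.transpose X]
    exact mul_le_mul_of_nonneg_left h2 (sq_nonneg _)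
  constructor
  · have e : UM u * (UM u).transpose = (N ^ 2) • (R * R.transpose) := by
      rw [hUR, Matrix.transpose_smul, Matrix.smul_mul, Matrix.mul_smul, smul_smul, sq]
    rw [e]
    exact ht _ (comm_sub_mul hs (comm_sub_transpose hs))
  · have e : (UM u).transpose * UM u = (N ^ 2) • (R.transpose * R) := by
      rw [hUR, Matrix.transpose_smul, Matrix.smul_mul, Matrix.mul_smul, smul_smul, sq]
    rw [e]
    exact ht _ (comm_sub_mul (comm_sub_transpose hs) hs)

/-- commutator term: `|∑_y u² (1 - 2 a)| ≤ n^d` and `tr (|C| S^n) ≤ √(Z tr (C² S^n))` -/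
theorem comm_bound [NeZero n] (hn : 4 ≤ n) (he : Even n) (u w : Vtx d n → ℝ)
    (h0 : ∀ y, 0 ≤ u y) (h1 : ∀ y, u y ≤ 1) :
    |((UM u * (UM u).transpose - (UM u).transpose * UM u) * (DM w * lS (layG d n hn) ^ n)).trace|
      ≤ (n : ℝ) ^ d * Real.sqrt ((lS (layG d n hn) ^ n).trace
        * (DM w * DM w * lS (layG d n hn) ^ n).trace) := by
  set P := lS (layG d n hn) ^ n with hP
  have hP0 : ∀ a, 0 ≤ P a a := fun a => comm_pow_nonneg (layG d n hn) n a a
  set f : (Vtx d n → Bool) → ℝ := fun a => ∑ y, u y * u y * (1 - 2 * ((a y).toNat : ℝ)) with hf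
  set W : (Vtx d n → Bool) → ℝ := fun a => ∑ y, w y * ((a y).toNat : ℝ) with hW
  have hfb : ∀ a, |f a| ≤ (n : ℝ) ^ d := by
    intro a
    rw [← bzb_card (d := d) (n := n)]
    calc |f a| ≤ ∑ y, |u y * u y * (1 - 2 * ((a y).toNat : ℝ))| := Finset.abs_sum_le_sum_abs _ _
      _ ≤ ∑ _y : Vtx d n, (1 : ℝ) := by
          refine Finset.sum_le_sum fun y _ => ?_
          rw [abs_mul, abs_mul, abs_of_nonneg (h0 y)]
          have e1 : |1 - 2 * ((a y).toNat : ℝ)| = 1 := by
            cases a y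
            · simp
            · simp
              norm_num
          rw [e1, mul_one]
          exact mul_le_one₀ (h1 y) (h0 y) (h1 y)
      _ = _ := by simp
  have e1 : ((UM u * (UM u).transpose - (UM u).transpose * UM u) * (DM w * P)).trace
      = ∑ a, f a * (W a * P a a) := by
    rw [UM_comm]
    unfold Matrix.trace DM
    refine Finset.sum_congr rfl fun a _ => ?_
    rw [Matrix.diag_apply, Matrix.diagonal_mul, Matrix.diagonal_mul]
  have e2 : (DM w * DM w * P).trace = ∑ a, W a ^ 2 * P a a := by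
    unfold Matrix.trace DM
    refine Finset.sum_congr rfl fun a _ => ?_
    rw [Matrix.diag_apply, Matrix.mul_assoc, Matrix.diagonal_mul, Matrix.diagonal_mul]
    rw [sq, mul_assoc]
  have e3 : P.trace = ∑ a, P a a := rfl
  have hcs : (∑ a, |W a| * P a a) ^ 2 ≤ (∑ a, P a a) * ∑ a, W a ^ 2 * P a a := by
    have h2 := Finset.sum_mul_sq_le_sq_mul_sq (Finset.univ : Finset (Vtx d n → Bool))
      (fun a => Real.sqrt (P a a)) (fun a => |W a| * Real.sqrt (P a a))
    have e4 : ∀ a, Real.sqrt (P a a) * (|W a| * Real.sqrt (P a a)) = |W a| * P a a := by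
      intro a
      calc Real.sqrt (P a a) * (|W a| * Real.sqrt (P a a))
          = |W a| * (Real.sqrt (P a a) * Real.sqrt (P a a)) := by ring
        _ = _ := by rw [Real.mul_self_sqrt (hP0 a)]
    have e5 : ∀ a, Real.sqrt (P a a) ^ 2 = P a a := fun a => Real.sq_sqrt (hP0 a)
    have e6 : ∀ a, (|W a| * Real.sqrt (P a a)) ^ 2 = W a ^ 2 * P a a := by
      intro a
      rw [mul_pow, sq_abs, e5]
    simp only [e4, e5, e6] at h2
    exact h2
  have hN := bzb_npos (d := d) (n := n)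
  rw [e1, e2, e3]
  calc |∑ a, f a * (W a * P a a)| ≤ ∑ a, |f a * (W a * P a a)| := Finset.abs_sum_le_sum_abs _ _
    _ ≤ ∑ a, (n : ℝ) ^ d * (|W a| * P a a) := by
        refine Finset.sum_le_sum fun a _ => ?_
        rw [abs_mul, abs_mul, abs_of_nonneg (hP0 a)]
        exact mul_le_mul_of_nonneg_right (hfb a) (mul_nonneg (abs_nonneg _) (hP0 a))
    _ = (n : ℝ) ^ d * ∑ a, |W a| * P a a := by rw [Finset.mul_sum]
    _ ≤ _ := by
        refine mul_le_mul_of_nonneg_left ?_ hN.le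
        exact Real.le_sqrt_of_sq_le hcs

/-- the even and the odd part: `fN 1 1 0 = fN e e 0 + fN o o 0`, `e = (1 + sgnV)/2`, `o = (1 - sgnV)/2` (from `F_sgn`) -/
theorem f11_split [NeZero n] (hn : 4 ≤ n) (he : Even n) :
    fN (layG d n hn) n (fun _ => 1) (fun _ => 1) 0
      = fN (layG d n hn) n (fun y => (1 + sgnV y) / 2) (fun y => (1 + sgnV y) / 2) 0
        + fN (layG d n hn) n (fun y => (1 - sgnV y) / 2) (fun y => (1 - sgnV y) / 2) 0 := by
  have h := F_sgn hn he (fun _ : Vtx d n => (1 : ℝ))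
  simp only [mul_one] at h
  rw [fN_expand, fN_expand] at h
  rw [fN_expand, fN_expand, fN_expand, ← Finset.sum_add_distrib]
  have e : ∀ y : Vtx d n, (∑ y', (1 + sgnV y) / 2 * ((1 + sgnV y') / 2)
        * (upM y * lS (layG d n hn) ^ 0 * (upM y').transpose * lS (layG d n hn) ^ (n - 0)).trace
      + ∑ y', (1 - sgnV y) / 2 * ((1 - sgnV y') / 2)
        * (upM y * lS (layG d n hn) ^ 0 * (upM y').transpose * lS (layG d n hn) ^ (n - 0)).trace)
      = (∑ y', 1 * 1
        * (upM y * lS (layG d n hn) ^ 0 * (upM y').transpose * lS (layG d n hn) ^ (n - 0)).trace) / 2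
        + (∑ y', sgnV y * sgnV y'
        * (upM y * lS (layG d n hn) ^ 0 * (upM y').transpose
          * lS (layG d n hn) ^ (n - 0)).trace) / 2 := by
    intro y
    rw [← Finset.sum_add_distrib, Finset.sum_div, Finset.sum_div, ← Finset.sum_add_distrib]
    refine Finset.sum_congr rfl fun y' _ => ?_
    ring
  rw [Finset.sum_congr rfl fun y _ => e y, Finset.sum_add_distrib, ← Finset.sum_div,
    ← Finset.sum_div, h]
  ring

theorem bzb_symm (w : Vtx d n → ℝ) [NeZero n] : (DM w).transpose = DM w := by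
  unfold DM
  rw [Matrix.diagonal_transpose]

theorem bzb_DM_neg (w : Vtx d n → ℝ) [NeZero n] : DM (fun y => -w y) = -DM w := by
  unfold DM
  ext a b
  rw [Matrix.neg_apply, Matrix.diagonal_apply, Matrix.diagonal_apply]
  split_ifs with h
  · rw [← Finset.sum_neg_distrib]
    exact Finset.sum_congr rfl fun y _ => by ring
  · simp

/-- the numerical conclusion for one sign -/
theorem bzb_num (n : ℕ) (hn : 1600000000 ≤ n) (Z P X D : ℝ) (hZ : 0 < Z) (hP : 0 ≤ P)
    (h0 : (n : ℝ) ^ 4 * Z / 20000 ≤ X) (hD : D ≤ (n : ℝ) ^ 2 * Z)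
    (hX : X ≤ Real.sqrt ((n : ℝ) / 2 * D) * ((n : ℝ) ^ 2 * (2 * Real.sqrt P + Real.sqrt Z))
      + (n : ℝ) ^ 2 * Real.sqrt (Z * P)) :
    1 / 100000000000 * n * Z ≤ P := by
  have hnR : (1600000000 : ℝ) ≤ n := by exact_mod_cast hn
  have hn0 : (0 : ℝ) < n := by linarith
  set s := Real.sqrt n with hs
  have hs2 : s ^ 2 = n := Real.sq_sqrt hn0.le
  have hs4 : 40000 ≤ s := by
    rw [hs]
    refine Real.le_sqrt_of_sq_le ?_
    norm_num
    linarith
  have hs0 : 0 < s := by linarith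
  set z := Real.sqrt Z with hz
  set p := Real.sqrt P with hp
  have hz2 : z ^ 2 = Z := Real.sq_sqrt hZ.le
  have hp2 : p ^ 2 = P := Real.sq_sqrt hP
  have hz0 : 0 < z := Real.sqrt_pos.2 hZ
  have hp0 : 0 ≤ p := Real.sqrt_nonneg _
  have h1 : Real.sqrt ((n : ℝ) / 2 * D) ≤ s * n * z := by
    refine Real.sqrt_le_iff.2 ⟨by positivity, ?_⟩
    have e : (s * n * z) ^ 2 = n * ((n : ℝ) ^ 2 * Z) := by
      rw [mul_pow, mul_pow, hs2, hz2]
      ring
    rw [e]
    have h2 : (n : ℝ) / 2 * D ≤ (n : ℝ) / 2 * ((n : ℝ) ^ 2 * Z) :=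
      mul_le_mul_of_nonneg_left hD (by positivity)
    have h3 : (n : ℝ) / 2 * ((n : ℝ) ^ 2 * Z) ≤ n * ((n : ℝ) ^ 2 * Z) :=
      mul_le_mul_of_nonneg_right (by linarith) (by positivity)
    linarith
  have h2 : Real.sqrt (Z * P) = z * p := Real.sqrt_mul hZ.le P
  rw [h2] at hX
  have h3 : Real.sqrt ((n : ℝ) / 2 * D) * ((n : ℝ) ^ 2 * (2 * p + z))
      ≤ s * n * z * ((n : ℝ) ^ 2 * (2 * p + z)) :=
    mul_le_mul_of_nonneg_right h1 (by positivity)
  have h4 : (n : ℝ) ^ 2 * (z * p) ≤ s * n ^ 3 * z * p := by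
    have : (1 : ℝ) ≤ s * n := by nlinarith
    have h5 : (n : ℝ) ^ 2 * (z * p) * 1 ≤ (n : ℝ) ^ 2 * (z * p) * (s * n) :=
      mul_le_mul_of_nonneg_left this (by positivity)
    calc (n : ℝ) ^ 2 * (z * p) = (n : ℝ) ^ 2 * (z * p) * 1 := by ring
      _ ≤ _ := h5
      _ = _ := by ring
  have h5 : (s * n ^ 3 * z) * (s * z / 20000) ≤ (s * n ^ 3 * z) * (3 * p + z) := by
    have e1 : (s * n ^ 3 * z) * (s * z / 20000) = (n : ℝ) ^ 4 * Z / 20000 := by
      rw [← hz2]
      calc (s * n ^ 3 * z) * (s * z / 20000) = s ^ 2 * n ^ 3 * z ^ 2 / 20000 := by ring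
        _ = _ := by rw [hs2]; ring
    have e2 : (s * n ^ 3 * z) * (3 * p + z)
        = s * n * z * ((n : ℝ) ^ 2 * (2 * p + z)) + s * n ^ 3 * z * p := by ring
    rw [e1, e2]
    linarith
  have h6 : s * z / 20000 ≤ 3 * p + z := le_of_mul_le_mul_left h5 (by positivity)
  have h7 : z ≤ s * z / 40000 := by
    have := mul_le_mul_of_nonneg_right hs4 hz0.le
    linarith
  have h8 : s * z / 120000 ≤ p := by linarith
  have h9 : (s * z / 120000) ^ 2 ≤ p ^ 2 := pow_le_pow_left₀ (by positivity) h8 2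
  rw [hp2, div_pow, mul_pow, hs2, hz2] at h9
  have h10 : 0 ≤ (n : ℝ) * Z := by positivity
  have h11 : (n : ℝ) * Z / 120000 ^ 2 = 1 / 14400000000 * (n * Z) := by norm_num; ring
  rw [h11] at h9
  have h12 : 1 / 100000000000 * n * Z ≤ 1 / 14400000000 * ((n : ℝ) * Z) := by
    rw [mul_assoc]
    exact mul_le_mul_of_nonneg_right (by norm_num) h10
  linarith

/-- one sign -/
theorem bzb_one {n : ℕ} [NeZero n] (hn : 4 ≤ n) (hN : 1600000000 ≤ n) (he : Even n)
    (u w : Vtx 2 n → ℝ) (h0 : ∀ y, 0 ≤ u y) (h1 : ∀ y, u y ≤ 1) (hwu : ∀ y, w y * u y = u y)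
    (hC : DM w * lS (layG 2 n hn) = -(lS (layG 2 n hn) * DM w))
    (hX : (n : ℝ) ^ 4 * ZP 3 n / 20000 ≤ fN (layG 2 n hn) n u u 0) :
    1 / 100000000000 * n * ZP 3 n ≤ (DM w * DM w * lS (layG 2 n hn) ^ n).trace := by
  have hZ : 0 < ZP 3 n := ZP_pos (by norm_num) hn he
  have hZe : (lS (layG 2 n hn) ^ n).trace = ZP 3 n := ZN_eq (d := 2) hn
  have hDM := DM_UM w u
  have hwu' : (fun y => w y * u y) = u := funext hwu
  rw [hwu'] at hDM
  have hz := zero_unc n hn he (lS (layG 2 n hn)) (DM w) (UM u) (lS_symm _) (bzb_symm w) hC hDM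
    ((n : ℝ) ^ 2) (by positivity) (fun X => (UM_bound u h0 h1 X).1)
    (fun X => (UM_bound u h0 h1 X).2)
    (by rw [← fN_hT, ← fN_hT]; exact fN_end hn u)
  have hcb := comm_bound hn he u w h0 h1
  rw [← fN_hT, ← fN_hT, hZe] at hz
  rw [hZe] at hcb
  have hPnn : 0 ≤ (DM w * DM w * lS (layG 2 n hn) ^ n).trace := by
    unfold Matrix.trace DM
    refine Finset.sum_nonneg fun a _ => ?_
    rw [Matrix.diag_apply, Matrix.mul_assoc, Matrix.diagonal_mul, Matrix.diagonal_mul, ← mul_assoc]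
    exact mul_nonneg (mul_self_nonneg _) (comm_pow_nonneg (layG 2 n hn) n a a)
  refine bzb_num n hN (ZP 3 n) _ (fN (layG 2 n hn) n u u 0)
    (fN (layG 2 n hn) n u u 0 - fN (layG 2 n hn) n u u 2) hZ hPnn hX ?_ (hz.trans ?_)
  · have h2 := fN_refl (layG 2 n hn) n u u 2 (le_refl _) (by omega)
    rw [Nat.add_sub_cancel] at h2
    rw [h2]
    have h3 := fN_kappa (d := 2) hn u
    rw [h3]
    have h4 : ∑ y : Vtx 2 n, u y ^ 2 ≤ (n : ℝ) ^ 2 := by
      rw [← bzb_card (d := 2) (n := n)]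
      calc ∑ y : Vtx 2 n, u y ^ 2 ≤ ∑ _y : Vtx 2 n, (1 : ℝ) :=
            Finset.sum_le_sum fun y _ => pow_le_one₀ (h0 y) (h1 y)
        _ = _ := by simp
    have h5 : 0 ≤ ∑ y : Vtx 2 n, u y ^ 2 := Finset.sum_nonneg fun y _ => sq_nonneg _
    have e1 : (1 - 1 / (((2 : ℕ) : ℝ) + 1)) = 2 / 3 := by norm_num
    rw [e1]
    have hZ' : 0 < ZP (2 + 1) n := hZ
    have h6 : ZP (2 + 1) n * ∑ y : Vtx 2 n, u y ^ 2 ≤ ZP (2 + 1) n * (n : ℝ) ^ 2 :=
      mul_le_mul_of_nonneg_left h4 hZ'.le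
    have h7 : 0 ≤ ZP (2 + 1) n * ∑ y : Vtx 2 n, u y ^ 2 := mul_nonneg hZ'.le h5
    calc 2 / 3 * ZP (2 + 1) n * ∑ y : Vtx 2 n, u y ^ 2
        = 2 / 3 * (ZP (2 + 1) n * ∑ y : Vtx 2 n, u y ^ 2) := by ring
      _ ≤ ZP (2 + 1) n * ∑ y : Vtx 2 n, u y ^ 2 := by linarith
      _ ≤ ZP (2 + 1) n * (n : ℝ) ^ 2 := h6
      _ = (n : ℝ) ^ 2 * ZP 3 n := by ring
  · exact add_le_add (le_refl _) hcb

/-- Charge fluctuations, `d = 3`: apply `zero_unc` to `S = lS`, `C = ± DM sgnV`, `U = UM u`, `u = (1 ± sgnV)/2`, `K = n²`; one of the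
two has `fN u u 0 ≥ 10⁻⁴ n⁴ Z / 2` (`f11_3`, `f11_split`), `hT 0 - hT 2 = hT 0 - hT n = (2/3) Z ∑ u² ≤ n² Z` (`fN_refl`,
`fN_kappa`). So with `q = √(tr(C² S^n)/Z)`: `10⁻⁴ n⁴/2 ≤ n^(3/2) n² (2 q + 1) + n² q`. -/
theorem charge_low : ∃ c : ℝ, 0 < c ∧ ∃ N0 : ℕ, ∀ (n : ℕ) [NeZero n] (hn : 4 ≤ n), N0 ≤ n → Even n →
    c * n * ZP 3 n ≤ (DM (sgnV (d := 2) (n := n)) * DM (sgnV (d := 2) (n := n))
      * lS (layG 2 n hn) ^ n).trace := by
  refine ⟨1 / 100000000000, by norm_num, 1600000000, ?_⟩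
  intro n _ hn hN he
  have hZ : 0 < ZP 3 n := ZP_pos (by norm_num) hn he
  have hs := f11_split (d := 2) hn he
  have h3 := f11_3 hn (by omega) he
  have hσ : ∀ y : Vtx 2 n, sgnV y = 1 ∨ sgnV y = -1 := by
    intro y
    have := MainA_sgn_sq y
    have h : (sgnV y - 1) * (sgnV y + 1) = 0 := by linear_combination this
    rcases mul_eq_zero.1 h with h | h
    · left; linarith
    · right; linarith
  have hC := charge_comm (d := 2) (n := n) (by norm_num) hn he
  rcases le_total (fN (layG 2 n hn) n (fun y => (1 - sgnV y) / 2) (fun y => (1 - sgnV y) / 2) 0)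
    (fN (layG 2 n hn) n (fun y => (1 + sgnV y) / 2) (fun y => (1 + sgnV y) / 2) 0) with h | h
  · refine bzb_one hn hN he (fun y => (1 + sgnV y) / 2) sgnV ?_ ?_ ?_ hC ?_
    · intro y
      rcases hσ y with h1 | h1 <;> rw [h1] <;> norm_num
    · intro y
      rcases hσ y with h1 | h1 <;> rw [h1] <;> norm_num
    · intro y
      rcases hσ y with h1 | h1 <;> rw [h1] <;> norm_num
    · linarith
  · have e : DM (fun y : Vtx 2 n => -sgnV y) = -DM (sgnV (d := 2) (n := n)) := bzb_DM_neg sgnV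
    have h5 := bzb_one hn hN he (fun y => (1 - sgnV y) / 2) (fun y => -sgnV y) ?_ ?_ ?_ ?_ ?_
    · rw [e, neg_mul_neg] at h5
      exact h5
    · intro y
      rcases hσ y with h1 | h1 <;> rw [h1] <;> norm_num
    · intro y
      rcases hσ y with h1 | h1 <;> rw [h1] <;> norm_num
    · intro y
      rcases hσ y with h1 | h1 <;> rw [h1] <;> norm_num
    · rw [e, Matrix.neg_mul, Matrix.mul_neg, hC]
    · linarith

/-- the zero mode: `vert_mode` with `κ = 0`, `p = 0`, `charge_comm` -/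
theorem zero_mode [NeZero n] (hd : 0 < d) (hn : 4 ≤ n) (he : Even n) (j : Fin (d + 1)) :
    EE (Pi.single j 1) (0 : Vtx (d + 1) n)
      = (n : ℝ) ^ 2 * (DM (sgnV (d := d) (n := n)) * DM (sgnV (d := d) (n := n))
        * lS (layG d n hn) ^ n).trace := by
  have hC := charge_comm (d := d) (n := n) hd hn he
  set S := lS (layG d n hn) with hS
  have hCk : ∀ k : ℕ, DM (sgnV (d := d) (n := n)) * S ^ k
      = ((-1 : ℝ) ^ k) • (S ^ k * DM (sgnV (d := d) (n := n))) := by
    intro k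
    induction k with
    | zero => simp
    | succ k ih =>
      rw [pow_succ, ← Matrix.mul_assoc, ih, Matrix.smul_mul, Matrix.mul_assoc (S ^ k), hC,
        Matrix.mul_neg, smul_neg, ← Matrix.mul_assoc, pow_succ, mul_neg, mul_one, neg_smul]
  have h1 := vert_mode hn he j (0 : ZMod n) (0 : Vtx d n)
  have h2 : insV j (0 : ZMod n) (0 : Vtx d n) = 0 := by
    refine insV_ext j ?_ fun k => ?_
    · rw [insV_same]; rfl
    · rw [insV_succ]; rfl
  rw [h2] at h1
  rw [EE_single, h1]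
  have h3 : (fun y : Vtx d n => sgnV y * cosV 0 y) = sgnV := by
    funext y
    unfold cosV
    rw [chr_zero_left, Complex.one_re, mul_one]
  have h4 : (fun y : Vtx d n => sgnV y * sinV 0 y) = fun _ => 0 := by
    funext y
    unfold sinV
    rw [chr_zero_left, Complex.one_im, mul_zero]
  rw [h3, h4]
  have h5 : psiN (layG d n hn) n (fun _ : Vtx d n => (0 : ℝ)) 0 = 0 := by
    unfold psiN
    refine Finset.sum_eq_zero fun r _ => ?_
    have : DM (fun _ : Vtx d n => (0 : ℝ)) = 0 := by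
      unfold DM
      simp
    rw [this, Matrix.zero_mul, Matrix.zero_mul, Matrix.zero_mul, Matrix.trace_zero, mul_zero]
  have h6 : psiN (layG d n hn) n (sgnV (d := d)) 0
      = n * (DM (sgnV (d := d) (n := n)) * DM (sgnV (d := d) (n := n)) * S ^ n).trace := by
    unfold psiN
    rw [← hS]
    have h7 : ∀ r : ZMod n, (-1) ^ r.val * cr (0 * r)
        * (DM (sgnV (d := d) (n := n)) * S ^ r.val * DM (sgnV (d := d) (n := n))
          * S ^ (n - r.val)).trace
        = (DM (sgnV (d := d) (n := n)) * DM (sgnV (d := d) (n := n)) * S ^ n).trace := by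
      intro r
      have hr : r.val ≤ n := (ZMod.val_lt r).le
      have hcr : cr (0 * r) = 1 := by
        unfold cr
        rw [zero_mul, AddChar.map_zero_eq_one]
        simp
      rw [hcr, mul_one, hCk, Matrix.smul_mul, Matrix.smul_mul, Matrix.trace_smul, smul_eq_mul,
        ← mul_assoc, ← pow_add]
      have hev : (-1 : ℝ) ^ (r.val + r.val) = 1 := Even.neg_one_pow ⟨r.val, rfl⟩
      rw [hev, one_mul]
      have hn' : S ^ n = S ^ (n - r.val) * S ^ r.val := by
        rw [← pow_add]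
        congr 1
        omega
      rw [hn']
      calc (S ^ r.val * DM (sgnV (d := d) (n := n)) * DM (sgnV (d := d) (n := n))
            * S ^ (n - r.val)).trace
          = (S ^ r.val * (DM (sgnV (d := d) (n := n)) * DM (sgnV (d := d) (n := n))
            * S ^ (n - r.val))).trace := by simp only [Matrix.mul_assoc]
        _ = (DM (sgnV (d := d) (n := n)) * DM (sgnV (d := d) (n := n))
            * S ^ (n - r.val) * S ^ r.val).trace := Matrix.trace_mul_comm _ _
        _ = _ := by simp only [Matrix.mul_assoc]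
    rw [Finset.sum_congr rfl fun r _ => h7 r, Finset.sum_const, Finset.card_univ, ZMod.card,
      nsmul_eq_mul]
  rw [h5, h6, add_zero]
  ring

/-- lower bound for the zero mode: `refl_le` twice gives `‖b_j‖² EE (e_j) 0 ≤ EE b 0` for each `j` -/
theorem zero_low : ∃ c : ℝ, 0 < c ∧ ∃ N0 : ℕ, ∀ (n : ℕ) [NeZero n], N0 ≤ n → Even n →
    ∀ b : Fin 3 → ℂ, c * (n : ℝ) ^ 3 * ZP 3 n * ∑ i, ‖b i‖ ^ 2 ≤ EE b (0 : Vtx 3 n) := by
  obtain ⟨c, hc, N0, h⟩ := charge_low
  refine ⟨c / 3, by positivity, max N0 4, ?_⟩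
  intro n _ hN he b
  have hn : 4 ≤ n := le_trans (le_max_right _ _) hN
  have hN0 : N0 ≤ n := le_trans (le_max_left _ _) hN
  have h1 := h n hn hN0 he
  have hsing : ∀ j : Fin 3, c * (n : ℝ) ^ 3 * ZP 3 n ≤ EE (Pi.single j 1) (0 : Vtx 3 n) := by
    intro j
    have h2 := zero_mode (d := 2) (n := n) (by norm_num) hn he j
    have h3 : EE (Pi.single j 1) (0 : Vtx 3 n) = EE (Pi.single j 1) (0 : Vtx (2 + 1) n) := rfl
    rw [h3, h2]
    have h4 := mul_le_mul_of_nonneg_left h1 (sq_nonneg (n : ℝ))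
    calc c * (n : ℝ) ^ 3 * ZP 3 n = (n : ℝ) ^ 2 * (c * n * ZP 3 n) := by ring
      _ ≤ _ := h4
  have hz : ∀ i : Fin 3, (0 : Vtx 3 n) i = 0 := fun i => rfl
  have key : ∀ j : Fin 3, ‖b j‖ ^ 2 * EE (Pi.single j 1) (0 : Vtx 3 n) ≤ EE b (0 : Vtx 3 n) := by
    intro j
    rw [← EE_smul]
    have hgen : ∀ i1 i2 : Fin 3, i1 ≠ j → i2 ≠ j → (∀ i, i = j ∨ i = i1 ∨ i = i2) →
        EE (fun i => b j * (Pi.single j 1 : Fin 3 → ℂ) i) (0 : Vtx 3 n) ≤ EE b (0 : Vtx 3 n) := by
      intro i1 i2 h1 h2 hall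
      have e : (fun i => b j * (Pi.single j 1 : Fin 3 → ℂ) i)
          = Function.update (Function.update b i1 0) i2 0 := by
        funext i
        rcases hall i with hi | hi | hi
        · subst hi
          rw [Pi.single_eq_same, mul_one, Function.update_of_ne h2.symm,
            Function.update_of_ne h1.symm]
        · subst hi
          rw [Pi.single_eq_of_ne h1, mul_zero]
          by_cases h12 : i = i2
          · subst h12
            rw [Function.update_self]
          · rw [Function.update_of_ne h12, Function.update_self]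
        · subst hi
          rw [Pi.single_eq_of_ne h2, mul_zero, Function.update_self]
      rw [e]
      exact (refl_le hn he 0 i2 (hz i2) _).trans (refl_le hn he 0 i1 (hz i1) _)
    fin_cases j
    · exact hgen 1 2 (by decide) (by decide) (by decide)
    · exact hgen 0 2 (by decide) (by decide) (by decide)
    · exact hgen 0 1 (by decide) (by decide) (by decide)
  have hsum : ∑ j : Fin 3, ‖b j‖ ^ 2 * (c * (n : ℝ) ^ 3 * ZP 3 n)
      ≤ ∑ _j : Fin 3, EE b (0 : Vtx 3 n) := by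
    refine Finset.sum_le_sum fun j _ => ?_
    exact (mul_le_mul_of_nonneg_left (hsing j) (sq_nonneg _)).trans (key j)
  rw [← Finset.sum_mul, Finset.sum_const, Finset.card_univ, Fintype.card_fin, nsmul_eq_mul] at hsum
  push_cast at hsum
  have e : c / 3 * (n : ℝ) ^ 3 * ZP 3 n * ∑ i, ‖b i‖ ^ 2
      = ((∑ i, ‖b i‖ ^ 2) * (c * (n : ℝ) ^ 3 * ZP 3 n)) / 3 := by ring
  rw [e]
  linarith

end LibDim
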