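import Pool.Agent.LibDimB.CLroB
import Pool.Agent.LibDimB.BConvB
import Pool.Agent.LibDimB.BUnc

/-! Row CSP: lower bound for the equal layer charge fluctuations, `D = d + 1 ≥ 3`. -/

namespace LibDim

open Finset Matrix

/-- `lro_gen` and `f11_low` -/
theorem f11_gen (d : ℕ) (hd : 2 ≤ d) : ∃ m : ℝ, 0 < m ∧ ∃ N0 : ℕ, ∀ (n : ℕ) [NeZero n]
    (hn : 4 ≤ n), N0 ≤ n → Even n → m * (n : ℝ) ^ (2 * d) * ZP (d + 1) n
      ≤ fN (layG d n hn) n (fun _ => 1) (fun _ => 1) 0 := by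
  obtain ⟨m, hm, N0, h⟩ := lro_gen d hd
  refine ⟨m, hm, N0, fun n _ hn hN he => ?_⟩
  have h1 := f11_low (d := d) hn he
  have h2 := h n hN he
  have hn0 : (0 : ℝ) < n := by
    have : 0 < n := by omega
    exact_mod_cast this
  have hZ : (0 : ℝ) ≤ ZP (d + 1) n := by
    unfold ZP
    positivity
  have h3 : (n : ℝ) ^ d * ZP (d + 1) n * (m * (n : ℝ) ^ (d + 1))
      ≤ (n : ℝ) ^ d * ZP (d + 1) n * Gh (0 : Vtx (d + 1) n) :=
    mul_le_mul_of_nonneg_left h2 (by positivity)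
  have h4 : (n : ℝ) * (m * (n : ℝ) ^ (2 * d) * ZP (d + 1) n)
      ≤ n * fN (layG d n hn) n (fun _ => 1) (fun _ => 1) 0 := by
    calc (n : ℝ) * (m * (n : ℝ) ^ (2 * d) * ZP (d + 1) n)
        = (n : ℝ) ^ d * ZP (d + 1) n * (m * (n : ℝ) ^ (d + 1)) := by
          rw [two_mul, pow_add, pow_succ]
          ring
      _ ≤ (n : ℝ) ^ d * ZP (d + 1) n * Gh (0 : Vtx (d + 1) n) := h3
      _ ≤ _ := h1
  exact le_of_mul_le_mul_left h4 hn0

theorem csp_scal (N P Z F f r S m : ℝ) (hm : 0 < m) (hN : 1 ≤ N) (hNm : 2 ≤ N * m)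
    (hP : N ^ 2 ≤ P) (hZ : 0 < Z) (hr : 0 < r) (hr1 : r ≤ 1)
    (hr4 : 4 ≤ N * r) (hF0 : 0 ≤ F) (hF : F ≤ 3 * P * Z / r) (hf : m * P ^ 2 * Z ≤ f)
    (hu : ((f - F) / P) ^ 2 ≤ S * (8 * F + 4 * Z)) :
    m ^ 2 / 112 * P * r * Z ≤ S := by
  have hN0 : (0 : ℝ) < N := by linarith
  have hP0 : (0 : ℝ) < P := lt_of_lt_of_le (by positivity) hP
  have hF' : F * r ≤ 3 * P * Z := by
    rwa [le_div_iff₀ hr] at hF
  -- F ≤ (3/4) N P Z
  have h1 : F * 4 ≤ 3 * N * P * Z := by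
    have a1 : F * 4 ≤ F * (N * r) := mul_le_mul_of_nonneg_left hr4 hF0
    have a2 : F * (N * r) = N * (F * r) := by ring
    have a3 : N * (F * r) ≤ N * (3 * P * Z) := mul_le_mul_of_nonneg_left hF' hN0.le
    calc F * 4 ≤ F * (N * r) := a1
      _ = N * (F * r) := a2
      _ ≤ N * (3 * P * Z) := a3
      _ = 3 * N * P * Z := by ring
  have h2 : F ≤ m / 2 * P ^ 2 * Z := by
    have a1 : 2 * N ≤ m * P := by
      calc 2 * N ≤ (N * m) * N := mul_le_mul_of_nonneg_right hNm hN0.le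
        _ = m * N ^ 2 := by ring
        _ ≤ m * P := mul_le_mul_of_nonneg_left hP hm.le
    have a2 : 2 * N * (P * Z) ≤ m * P * (P * Z) :=
      mul_le_mul_of_nonneg_right a1 (by positivity)
    nlinarith [mul_pos (mul_pos hN0 hP0) hZ]
  have h3 : m / 2 * P * Z ≤ (f - F) / P := by
    rw [le_div_iff₀ hP0]
    have : m / 2 * P * Z * P = m / 2 * P ^ 2 * Z := by ring
    rw [this]
    linarith
  have h4 : (m / 2 * P * Z) ^ 2 ≤ S * (8 * F + 4 * Z) := by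
    refine le_trans ?_ hu
    exact pow_le_pow_left₀ (by positivity) h3 2
  have hP1 : 1 ≤ P := le_trans (by nlinarith) hP
  -- (8F + 4Z) r ≤ 28 P Z
  have h5 : (8 * F + 4 * Z) * r ≤ 28 * P * Z := by
    have a1 : Z * r ≤ Z * 1 := mul_le_mul_of_nonneg_left hr1 hZ.le
    have a2 : 1 * Z ≤ P * Z := mul_le_mul_of_nonneg_right hP1 hZ.le
    nlinarith
  have hS : 0 ≤ S := by
    by_contra hneg
    push Not at hneg
    have : S * (8 * F + 4 * Z) ≤ 0 := by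
      have : 0 ≤ 8 * F + 4 * Z := by positivity
      exact mul_nonpos_of_nonpos_of_nonneg hneg.le this
    have h6 : 0 < (m / 2 * P * Z) ^ 2 := by positivity
    linarith
  have h6 : (m / 2 * P * Z) ^ 2 * r ≤ S * (28 * P * Z) := by
    calc (m / 2 * P * Z) ^ 2 * r ≤ S * (8 * F + 4 * Z) * r :=
          mul_le_mul_of_nonneg_right h4 hr.le
      _ = S * ((8 * F + 4 * Z) * r) := by ring
      _ ≤ S * (28 * P * Z) := mul_le_mul_of_nonneg_left h5 hS
  have h7 : (28 * P * Z) * (m ^ 2 / 112 * P * r * Z) ≤ (28 * P * Z) * S := by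
    have e1 : (m / 2 * P * Z) ^ 2 * r = (28 * P * Z) * (m ^ 2 / 112 * P * r * Z) := by
      ring
    rw [e1] at h6
    linarith
  exact le_of_mul_le_mul_left h7 (by positivity)

/-- `unc_ineq` with `σ = sgnV`, `c = cosV p`, `s = sinV p`; `F_bound`, `F_sgn`, `f11_gen` (compare `Sp_low`) -/
theorem Sp_gen (d : ℕ) (hd : 2 ≤ d) : ∃ c : ℝ, 0 < c ∧ ∃ N0 : ℕ, ∀ (n : ℕ) [NeZero n]
    (hn : 4 ≤ n), N0 ≤ n → Even n → ∀ p : Vtx d n, p ≠ 0 → EL p ≤ 1 →
      c * (n : ℝ) ^ d * Real.sqrt (EL p) * ZP (d + 1) n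
      ≤ (DM (fun y => sgnV y * cosV p y) * DM (fun y => sgnV y * cosV p y)
            * lS (layG d n hn) ^ n).trace
        + (DM (fun y => sgnV y * sinV p y) * DM (fun y => sgnV y * sinV p y)
            * lS (layG d n hn) ^ n).trace := by
  obtain ⟨m, hm, N0, hm11⟩ := f11_gen d hd
  refine ⟨m ^ 2 / 112, by positivity, max N0 (⌈2 / m⌉₊), ?_⟩
  intro n _ hn hN he p hp hp1
  have hN1 : N0 ≤ n := le_trans (le_max_left _ _) hN
  have hN2 : ⌈2 / m⌉₊ ≤ n := le_trans (le_max_right _ _) hN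
  have hNm : 2 ≤ (n : ℝ) * m := by
    have h1 : 2 / m ≤ (n : ℝ) := (Nat.le_ceil _).trans (by exact_mod_cast hN2)
    rwa [div_le_iff₀ hm] at h1
  have hZ : 0 < ZP (d + 1) n := ZP_pos (Nat.succ_pos d) hn he
  have hcard : Fintype.card (Vtx d n) = n ^ d := by
    rw [Fintype.card_fun, ZMod.card, Fintype.card_fin]
  have hV : 0 < Fintype.card (Vtx d n) := by
    rw [hcard]
    have : 0 < n := by omega
    positivity
  have hu := unc_ineq (layG d n hn) n he hV (sgnV (d := d) (n := n)) (cosV p) (sinV p)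
    (fun y => MainA_sgn_sq y) (fun y => cosV_sinV p y)
    (fN_end hn _) (fN_end hn _)
  rw [F_sgn hn he (cosV p), F_sgn hn he (sinV p), ZN_eq hn, hcard] at hu
  have hF := F_bound (d := d) hn he p hp hp1
  have hgap := EL_gap p hp
  have hN0 : (0 : ℝ) < n := by
    have : 0 < n := by omega
    exact_mod_cast this
  have hN1' : (1 : ℝ) ≤ n := by
    have : 1 ≤ n := by omega
    exact_mod_cast this
  have hE0 : 0 < EL p := lt_of_lt_of_le (by positivity) hgap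
  have hr : 0 < Real.sqrt (EL p) := Real.sqrt_pos.mpr hE0
  have hr1 : Real.sqrt (EL p) ≤ 1 := by
    exact Real.sqrt_le_one.mpr hp1
  have hr4 : (4 : ℝ) ≤ n * Real.sqrt (EL p) := by
    have h1 : (4 / (n : ℝ)) ≤ Real.sqrt (EL p) := by
      apply Real.le_sqrt_of_sq_le
      have : (4 / (n : ℝ)) ^ 2 = 16 / (n : ℝ) ^ 2 := by
        rw [div_pow]; norm_num
      rw [this]
      exact hgap
    rw [div_le_iff₀ hN0] at h1
    linarith
  have hF0 : 0 ≤ fN (layG d n hn) n (cosV p) (cosV p) 0 + fN (layG d n hn) n (sinV p) (sinV p) 0 := by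
    have h0 : ∀ u : Vtx d n → ℝ, 0 ≤ fN (layG d n hn) n u u 0 := by
      intro u
      rw [fN_hT]
      exact hT_nonneg n he _ _ (lS_symm _) 0 (by norm_num) (by omega)
    exact add_nonneg (h0 _) (h0 _)
  have hf := hm11 n hn hN1 he
  have hP : (n : ℝ) ^ 2 ≤ (n : ℝ) ^ d := pow_le_pow_right₀ hN1' hd
  have e3 : ((n ^ d : ℕ) : ℝ) = (n : ℝ) ^ d := by push_cast; ring
  rw [e3] at hu
  have e4 : (n : ℝ) ^ (2 * d) = ((n : ℝ) ^ d) ^ 2 := by
    rw [mul_comm 2 d, pow_mul]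
  rw [e4] at hf
  exact csp_scal (n : ℝ) ((n : ℝ) ^ d) (ZP (d + 1) n) _ _ (Real.sqrt (EL p)) _ m hm hN1' hNm hP
    hZ hr hr1 hr4 hF0 hF hf hu

end LibDim
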