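import Pool.Agent.LibDimB.BZeroB
import Pool.Agent.LibDimB.CSp

/-! Row CZERO: the zero mode, `D ≥ 3`. -/

namespace LibDim

open Finset Matrix

/-- the weighted charge of an updated state -/
theorem czero_upd {d n : ℕ} [NeZero n] (w : Vtx d n → ℝ) (a : Vtx d n → Bool) (y : Vtx d n)
    (h : a y = false) :
    ∑ z, w z * ((Function.update a y true z).toNat : ℝ) = ∑ z, w z * ((a z).toNat : ℝ) + w y := by
  have h1 : ∀ z, w z * ((Function.update a y true z).toNat : ℝ)
      = w z * ((a z).toNat : ℝ) + (if z = y then w y else 0) := by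
    intro z
    by_cases hz : z = y
    · subst hz
      rw [Function.update_self, h, if_pos rfl]
      simp
    · rw [Function.update_of_ne hz, if_neg hz, add_zero]
  rw [Finset.sum_congr rfl (fun z _ => h1 z), Finset.sum_add_distrib, Finset.sum_ite_eq']
  simp

/-- raising operators change the charge -/
theorem czero_comm {d n : ℕ} [NeZero n] (u w : Vtx d n → ℝ) (h : ∀ y, u y * w y = u y) :
    (DM w * UM u - UM u * DM w : Matrix (Vtx d n → Bool) (Vtx d n → Bool) ℝ) = -UM u := by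
  ext a a'
  rw [Matrix.sub_apply, Matrix.neg_apply]
  unfold DM
  rw [Matrix.diagonal_mul, Matrix.mul_diagonal]
  unfold UM
  rw [Matrix.sum_apply]
  simp only [Matrix.smul_apply, smul_eq_mul]
  rw [Finset.mul_sum, Finset.sum_mul, ← Finset.sum_sub_distrib, ← Finset.sum_neg_distrib]
  apply Finset.sum_congr rfl
  intro y _
  unfold upM
  split_ifs with hc
  · obtain ⟨h1, h2⟩ := hc
    subst h2
    rw [czero_upd w a y h1]
    have h3 := h y
    linear_combination (-1 : ℝ) * h3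
  · ring

/-- the uncertainty relation for one of the two sublattices -/
theorem czero_unc {d n : ℕ} [NeZero n] (hn : 4 ≤ n) (he : Even n) (u w : Vtx d n → ℝ)
    (h0 : ∀ y, 0 ≤ u y) (h1 : ∀ y, u y ≤ 1) (huw : ∀ y, u y * w y = u y)
    (hw : (DM w : Matrix (Vtx d n → Bool) (Vtx d n → Bool) ℝ) * lS (layG d n hn)
      = -(lS (layG d n hn) * DM w)) :
    fN (layG d n hn) n u u 0
      ≤ Real.sqrt ((n : ℝ) * (ZP (d + 1) n * (n : ℝ) ^ d))
          * ((n : ℝ) ^ d * (2 * Real.sqrt ((DM w * DM w * lS (layG d n hn) ^ n).trace)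
            + Real.sqrt (ZP (d + 1) n)))
        + (n : ℝ) ^ d * Real.sqrt (ZP (d + 1) n * (DM w * DM w * lS (layG d n hn) ^ n).trace) := by
  have hZe : (lS (layG d n hn) ^ n).trace = ZP (d + 1) n := ZN_eq hn
  have hZ : 0 < ZP (d + 1) n := ZP_pos (Nat.succ_pos d) hn he
  have hn0 : (0 : ℝ) < n := by
    have : 0 < n := by omega
    exact_mod_cast this
  have hC : (DM w : Matrix (Vtx d n → Bool) (Vtx d n → Bool) ℝ).IsSymm := by
    unfold DM
    exact Matrix.isSymm_diagonal _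
  have hU := czero_comm u w huw
  have hend : hT n (lS (layG d n hn)) (UM u) n ≤ hT n (lS (layG d n hn)) (UM u) 0 := by
    rw [← fN_hT, ← fN_hT]
    exact fN_end hn u
  have hz := zero_unc n hn he (lS (layG d n hn)) (DM w) (UM u) (lS_symm _) hC hw hU ((n : ℝ) ^ d)
    (by positivity) (fun X => (UM_bound u h0 h1 X).1) (fun X => (UM_bound u h0 h1 X).2) hend
  have hcb := comm_bound hn he u w h0 h1
  rw [hZe] at hcb
  rw [hZe, ← fN_hT, ← fN_hT] at hz
  have h2 : fN (layG d n hn) n u u 0 - fN (layG d n hn) n u u 2 ≤ ZP (d + 1) n * (n : ℝ) ^ d := by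
    have e1 := fN_refl (layG d n hn) n u u 2 le_rfl (by omega)
    rw [show n + 2 - 2 = n by omega] at e1
    rw [e1, fN_kappa hn u]
    have hsum : ∑ y, u y ^ 2 ≤ (n : ℝ) ^ d := by
      calc ∑ y, u y ^ 2 ≤ ∑ _y : Vtx d n, (1 : ℝ) :=
            Finset.sum_le_sum fun y _ => pow_le_one₀ (h0 y) (h1 y)
        _ = (n : ℝ) ^ d := by
            rw [Finset.sum_const, Finset.card_univ, Fintype.card_fun, ZMod.card, Fintype.card_fin]
            simp
    have h3 : (0 : ℝ) ≤ ∑ y, u y ^ 2 := Finset.sum_nonneg fun y _ => sq_nonneg _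
    have h4 : (1 - 1 / ((d : ℝ) + 1)) ≤ 1 := by
      have : (0 : ℝ) ≤ 1 / ((d : ℝ) + 1) := by positivity
      linarith
    calc (1 - 1 / ((d : ℝ) + 1)) * ZP (d + 1) n * ∑ y, u y ^ 2
        ≤ 1 * ZP (d + 1) n * ∑ y, u y ^ 2 := by gcongr
      _ ≤ 1 * ZP (d + 1) n * (n : ℝ) ^ d := by gcongr
      _ = ZP (d + 1) n * (n : ℝ) ^ d := by ring
  have h5 : (n : ℝ) / 2 * (fN (layG d n hn) n u u 0 - fN (layG d n hn) n u u 2)
      ≤ (n : ℝ) * (ZP (d + 1) n * (n : ℝ) ^ d) := by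
    have h6 : (n : ℝ) / 2 * (fN (layG d n hn) n u u 0 - fN (layG d n hn) n u u 2)
        ≤ (n : ℝ) / 2 * (ZP (d + 1) n * (n : ℝ) ^ d) := mul_le_mul_of_nonneg_left h2 (by positivity)
    have h7 : 0 ≤ (n : ℝ) / 2 * (ZP (d + 1) n * (n : ℝ) ^ d) := by positivity
    linarith
  refine hz.trans (add_le_add ?_ hcb)
  apply mul_le_mul_of_nonneg_right (Real.sqrt_le_sqrt h5)
  exact mul_nonneg (pow_nonneg hn0.le d) (add_nonneg (mul_nonneg (by norm_num) (Real.sqrt_nonneg _))
    (Real.sqrt_nonneg _))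

theorem czero_scal (m n s z w f W : ℝ) (hm : 0 < m) (hn : 1 ≤ n) (hs : 1 ≤ s) (hz : 0 < z)
    (hw0 : 0 ≤ w) (hW : ∀ x, 0 < x → x ≤ w → x ^ 2 ≤ W) (hsm : 4 ≤ m * s)
    (hf : m / 2 * (n * s ^ 2) ^ 2 * z ^ 2 ≤ f)
    (hu : f ≤ (n * s * z) * ((n * s ^ 2) * (2 * w + z)) + (n * s ^ 2) * (z * w)) :
    m ^ 2 / 144 * s ^ 2 * z ^ 2 ≤ W := by
  have hn0 : 0 < n := by linarith
  have hs0 : 0 < s := by linarith
  have h1 : (n * s ^ 2 * z) * (m / 2 * (n * s ^ 2) * z)
      ≤ (n * s ^ 2 * z) * (n * s * (2 * w + z) + w) := by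
    calc (n * s ^ 2 * z) * (m / 2 * (n * s ^ 2) * z) = m / 2 * (n * s ^ 2) ^ 2 * z ^ 2 := by ring
      _ ≤ f := hf
      _ ≤ _ := hu
      _ = _ := by ring
  have h2 : m / 2 * (n * s ^ 2) * z ≤ n * s * (2 * w + z) + w :=
    le_of_mul_le_mul_left h1 (by positivity)
  have h3 : w ≤ n * s * w := by
    have : 1 ≤ n * s := by nlinarith
    nlinarith
  have h4 : (n * s) * (m / 2 * s * z) ≤ (n * s) * (3 * w + z) := by
    calc (n * s) * (m / 2 * s * z) = m / 2 * (n * s ^ 2) * z := by ring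
      _ ≤ n * s * (2 * w + z) + w := h2
      _ ≤ n * s * (2 * w + z) + n * s * w := by linarith
      _ = (n * s) * (3 * w + z) := by ring
  have h5 : m / 2 * s * z ≤ 3 * w + z := le_of_mul_le_mul_left h4 (by positivity)
  have h6 : z ≤ m / 4 * s * z := by
    have : 4 * z ≤ m * s * z := mul_le_mul_of_nonneg_right hsm hz.le
    linarith
  have h7 : m / 12 * s * z ≤ w := by linarith
  have h8 := hW (m / 12 * s * z) (by positivity) h7
  calc m ^ 2 / 144 * s ^ 2 * z ^ 2 = (m / 12 * s * z) ^ 2 := by ring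
    _ ≤ W := h8

theorem czero_neg {d n : ℕ} [NeZero n] :
    (DM (fun y : Vtx d n => -sgnV y) : Matrix (Vtx d n → Bool) (Vtx d n → Bool) ℝ)
      = -DM (sgnV (d := d) (n := n)) := by
  unfold DM
  rw [Matrix.diagonal_neg]
  congr 1
  funext a
  rw [← Finset.sum_neg_distrib]
  exact Finset.sum_congr rfl fun y _ => by ring

/-- charge fluctuations (compare `charge_low`): with `q = √(tr(C² S^n)/Z)`:
`m n^(2d)/2 ≤ √(n · n^d) n^d (2 q + 1) + n^d q` -/
theorem charge_gen (d : ℕ) (hd : 2 ≤ d) : ∃ c : ℝ, 0 < c ∧ ∃ N0 : ℕ, ∀ (n : ℕ) [NeZero n]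
    (hn : 4 ≤ n), N0 ≤ n → Even n →
    c * (n : ℝ) ^ (d - 1) * ZP (d + 1) n ≤ (DM (sgnV (d := d) (n := n))
      * DM (sgnV (d := d) (n := n)) * lS (layG d n hn) ^ n).trace := by
  obtain ⟨m, hm, N0, hf⟩ := f11_gen d hd
  refine ⟨m ^ 2 / 144, by positivity, max N0 ⌈16 / m ^ 2⌉₊, fun n _ hn hN he => ?_⟩
  have hf1 := hf n hn (le_trans (le_max_left _ _) hN) he
  have hN2 : 16 / m ^ 2 ≤ (n : ℝ) :=
    (Nat.le_ceil _).trans (by exact_mod_cast le_trans (le_max_right _ _) hN)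
  have hn1 : (1 : ℝ) ≤ n := by
    have : 1 ≤ n := by omega
    exact_mod_cast this
  have hZ : 0 < ZP (d + 1) n := ZP_pos (Nat.succ_pos d) hn he
  have hsg : ∀ y : Vtx d n, sgnV y = 1 ∨ sgnV y = -1 := by
    intro y
    have h := MainA_sgn_sq y
    have h2 : (sgnV y - 1) * (sgnV y + 1) = 0 := by linear_combination h
    rcases mul_eq_zero.1 h2 with h3 | h3
    · left; linarith
    · right; linarith
  have hcc := charge_comm (d := d) (n := n) (by omega) hn he
  -- one of the two sublattices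
  obtain ⟨u, w, hu0, hu1, huw, hw, hDD, hfu⟩ : ∃ u w : Vtx d n → ℝ, (∀ y, 0 ≤ u y) ∧ (∀ y, u y ≤ 1) ∧
      (∀ y, u y * w y = u y) ∧
      ((DM w : Matrix (Vtx d n → Bool) (Vtx d n → Bool) ℝ) * lS (layG d n hn)
        = -(lS (layG d n hn) * DM w)) ∧
      (DM w * DM w : Matrix (Vtx d n → Bool) (Vtx d n → Bool) ℝ)
        = DM (sgnV (d := d) (n := n)) * DM (sgnV (d := d) (n := n)) ∧
      m / 2 * (n : ℝ) ^ (2 * d) * ZP (d + 1) n ≤ fN (layG d n hn) n u u 0 := by
    have hsp := f11_split (d := d) hn he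
    by_cases hc : m / 2 * (n : ℝ) ^ (2 * d) * ZP (d + 1) n
        ≤ fN (layG d n hn) n (fun y => (1 + sgnV y) / 2) (fun y => (1 + sgnV y) / 2) 0
    · refine ⟨fun y => (1 + sgnV y) / 2, fun y => sgnV y, ?_, ?_, ?_, hcc, rfl, hc⟩
      · intro y
        rcases hsg y with h | h <;> simp only [h] <;> norm_num
      · intro y
        rcases hsg y with h | h <;> simp only [h] <;> norm_num
      · intro y
        rcases hsg y with h | h <;> simp only [h] <;> norm_num
    · refine ⟨fun y => (1 - sgnV y) / 2, fun y => -sgnV y, ?_, ?_, ?_, ?_, ?_, ?_⟩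
      · intro y
        rcases hsg y with h | h <;> simp only [h] <;> norm_num
      · intro y
        rcases hsg y with h | h <;> simp only [h] <;> norm_num
      · intro y
        rcases hsg y with h | h <;> simp only [h] <;> norm_num
      · rw [czero_neg, neg_mul, hcc, mul_neg]
      · rw [czero_neg, neg_mul_neg]
      · rw [not_le] at hc
        linarith
  have hunc := czero_unc hn he u w hu0 hu1 huw hw
  rw [hDD] at hunc
  set W : ℝ := (DM (sgnV (d := d) (n := n)) * DM (sgnV (d := d) (n := n))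
      * lS (layG d n hn) ^ n).trace with hWdef
  set s : ℝ := Real.sqrt ((n : ℝ) ^ (d - 1)) with hs_def
  have hs2 : s ^ 2 = (n : ℝ) ^ (d - 1) := Real.sq_sqrt (by positivity)
  have hnd : (n : ℝ) ^ d = n * s ^ 2 := by
    rw [hs2, ← pow_succ']
    congr 1
    omega
  have hpow1 : (n : ℝ) ≤ (n : ℝ) ^ (d - 1) := by
    calc (n : ℝ) = (n : ℝ) ^ 1 := (pow_one _).symm
      _ ≤ (n : ℝ) ^ (d - 1) := pow_le_pow_right₀ hn1 (by omega)
  have hs1 : 1 ≤ s := by
    rw [hs_def, Real.one_le_sqrt]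
    linarith
  have hs4 : 4 ≤ m * s := by
    have h1 : 4 / m ≤ s := by
      apply Real.le_sqrt_of_sq_le
      rw [div_pow]
      have h16 : (4 : ℝ) ^ 2 = 16 := by norm_num
      rw [h16]
      exact hN2.trans hpow1
    rw [div_le_iff₀ hm] at h1
    linarith
  have hz : 0 < Real.sqrt (ZP (d + 1) n) := Real.sqrt_pos.2 hZ
  have hz2 : Real.sqrt (ZP (d + 1) n) ^ 2 = ZP (d + 1) n := Real.sq_sqrt hZ.le
  have hsqrt1 : Real.sqrt ((n : ℝ) * (ZP (d + 1) n * (n : ℝ) ^ d))
      ≤ n * s * Real.sqrt (ZP (d + 1) n) := by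
    rw [Real.sqrt_le_iff]
    refine ⟨by positivity, le_of_eq ?_⟩
    rw [mul_pow, mul_pow, hz2, hnd]
    ring
  have hsqrt2 : Real.sqrt (ZP (d + 1) n * W) = Real.sqrt (ZP (d + 1) n) * Real.sqrt W :=
    Real.sqrt_mul hZ.le W
  have hW0 := Real.sqrt_nonneg W
  have hu' : fN (layG d n hn) n u u 0 ≤ (n * s * Real.sqrt (ZP (d + 1) n))
      * ((n * s ^ 2) * (2 * Real.sqrt W + Real.sqrt (ZP (d + 1) n)))
      + (n * s ^ 2) * (Real.sqrt (ZP (d + 1) n) * Real.sqrt W) := by
    rw [hsqrt2] at hunc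
    rw [← hnd]
    refine hunc.trans (add_le_add (mul_le_mul_of_nonneg_right hsqrt1 ?_) le_rfl)
    exact mul_nonneg (by positivity) (add_nonneg (mul_nonneg (by norm_num) (Real.sqrt_nonneg _))
      (Real.sqrt_nonneg _))
  have hf' : m / 2 * ((n : ℝ) * s ^ 2) ^ 2 * Real.sqrt (ZP (d + 1) n) ^ 2
      ≤ fN (layG d n hn) n u u 0 := by
    rw [← hnd, hz2, ← pow_mul, mul_comm d 2]
    exact hfu
  have hfin := czero_scal m n s (Real.sqrt (ZP (d + 1) n)) (Real.sqrt W) _ W hm hn1 hs1 hz hW0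
    (fun x hx hxW => (Real.le_sqrt' hx).1 hxW) hs4 hf' hu'
  rw [hs2, hz2] at hfin
  exact hfin

/-- all directions but those outside `T` can be dropped -/
theorem czero_iter {D n : ℕ} [NeZero n] (hn : 4 ≤ n) (he : Even n) (b : Fin D → ℂ)
    (T : Finset (Fin D)) :
    EE (fun i => if i ∈ T then 0 else b i) (0 : Vtx D n) ≤ EE b (0 : Vtx D n) := by
  classical
  induction T using Finset.induction_on with
  | empty => simp
  | insert i T hi ih =>
    have e : (fun k => if k ∈ insert i T then 0 else b k)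
        = Function.update (fun k => if k ∈ T then 0 else b k) i 0 := by
      funext k
      by_cases hk : k = i
      · subst hk
        rw [Function.update_self, if_pos (Finset.mem_insert_self _ _)]
      · rw [Function.update_of_ne hk]
        by_cases hT : k ∈ T
        · rw [if_pos hT, if_pos (Finset.mem_insert_of_mem hT)]
        · rw [if_neg hT, if_neg]
          intro h
          rcases Finset.mem_insert.1 h with h | h
          · exact hk h
          · exact hT h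
    rw [e]
    exact (refl_le hn he (0 : Vtx D n) i rfl _).trans ih

/-- lower bound for the zero mode: `refl_le` for all directions but `j` gives `‖b_j‖² EE (e_j) 0 ≤ EE b 0` -/
theorem zero_gen (D : ℕ) (hD : 3 ≤ D) : ∃ c : ℝ, 0 < c ∧ ∃ N0 : ℕ, ∀ (n : ℕ) [NeZero n],
    N0 ≤ n → Even n → ∀ b : Fin D → ℂ,
      c * (n : ℝ) ^ D * ZP D n * ∑ i, ‖b i‖ ^ 2 ≤ EE b (0 : Vtx D n) := by
  classical
  obtain ⟨d, rfl⟩ : ∃ d, D = d + 1 := ⟨D - 1, by omega⟩
  obtain ⟨c, hc, N0, h⟩ := charge_gen d (by omega)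
  refine ⟨c / ((d + 1 : ℕ) : ℝ), by positivity, max N0 4, fun n _ hN he b => ?_⟩
  have hn : 4 ≤ n := le_trans (le_max_right _ _) hN
  have hch := h n hn (le_trans (le_max_left _ _) hN) he
  have hone : ∀ j : Fin (d + 1), ‖b j‖ ^ 2 * (c * (n : ℝ) ^ (d + 1) * ZP (d + 1) n)
      ≤ EE b (0 : Vtx (d + 1) n) := by
    intro j
    have h1 := czero_iter (n := n) hn he b (univ.erase j)
    have e : (fun i => if i ∈ univ.erase j then 0 else b i)
        = fun i => b j * (Pi.single j (1 : ℂ) : Fin (d + 1) → ℂ) i := by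
      funext i
      by_cases hi : i = j
      · subst hi
        rw [if_neg (Finset.notMem_erase _ _), Pi.single_eq_same, mul_one]
      · rw [if_pos (Finset.mem_erase.2 ⟨hi, Finset.mem_univ _⟩), Pi.single_eq_of_ne hi, mul_zero]
    rw [e, EE_smul, zero_mode (by omega) hn he j] at h1
    refine le_trans ?_ h1
    apply mul_le_mul_of_nonneg_left _ (by positivity)
    calc c * (n : ℝ) ^ (d + 1) * ZP (d + 1) n
        = (n : ℝ) ^ 2 * (c * (n : ℝ) ^ (d - 1) * ZP (d + 1) n) := by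
          have : (n : ℝ) ^ (d + 1) = (n : ℝ) ^ 2 * (n : ℝ) ^ (d - 1) := by
            rw [← pow_add]
            congr 1
            omega
          rw [this]
          ring
      _ ≤ _ := mul_le_mul_of_nonneg_left hch (by positivity)
  have hsum : ∑ j, ‖b j‖ ^ 2 * (c * (n : ℝ) ^ (d + 1) * ZP (d + 1) n)
      ≤ ((d + 1 : ℕ) : ℝ) * EE b (0 : Vtx (d + 1) n) := by
    refine (Finset.sum_le_sum fun j _ => hone j).trans (le_of_eq ?_)
    rw [Finset.sum_const, Finset.card_univ, Fintype.card_fin, nsmul_eq_mul]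
  have hpos : (0 : ℝ) < ((d + 1 : ℕ) : ℝ) := by positivity
  rw [← Finset.sum_mul] at hsum
  have h2 : (c / ((d + 1 : ℕ) : ℝ)) * (n : ℝ) ^ (d + 1) * ZP (d + 1) n * ∑ i, ‖b i‖ ^ 2
      = ((∑ i, ‖b i‖ ^ 2) * (c * (n : ℝ) ^ (d + 1) * ZP (d + 1) n)) / ((d + 1 : ℕ) : ℝ) := by
    field_simp
  rw [h2, div_le_iff₀ hpos]
  linarith

end LibDim
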