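import Pool.Agent.LibDimB.CModeB
import Pool.Agent.LibDimB.CZero

/-! Row CDISC: the discrete lower bound, `D ≥ 3`. -/

namespace LibDim

open Finset Matrix

/-- Lagrange identity for complex vectors -/
theorem lagrange_gen {D : ℕ} (b E : Fin D → ℂ) :
    2 * ((∑ i, ‖b i‖ ^ 2) * ∑ i, ‖E i‖ ^ 2)
      = 2 * ‖∑ i, b i * (starRingEnd ℂ) (E i)‖ ^ 2
        + ∑ i, ∑ l, ‖b i * E l - b l * E i‖ ^ 2 := by
  have hc : ∀ z : ℂ, ((‖z‖ ^ 2 : ℝ) : ℂ) = z * (starRingEnd ℂ) z := by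
    intro z
    rw [Complex.mul_conj']
    push_cast
    rfl
  have h : ∑ i, ∑ l, (b i * E l - b l * E i) * (starRingEnd ℂ) (b i * E l - b l * E i) =
      2 * ((∑ i, b i * (starRingEnd ℂ) (b i)) * ∑ i, E i * (starRingEnd ℂ) (E i)) -
      2 * ((∑ i, b i * (starRingEnd ℂ) (E i)) * (∑ i, (starRingEnd ℂ) (b i) * E i)) := by
    have e : ∀ i l, (b i * E l - b l * E i) * (starRingEnd ℂ) (b i * E l - b l * E i) =
        (b i * (starRingEnd ℂ) (b i)) * (E l * (starRingEnd ℂ) (E l)) +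
        (E i * (starRingEnd ℂ) (E i)) * (b l * (starRingEnd ℂ) (b l)) -
        (b i * (starRingEnd ℂ) (E i)) * ((starRingEnd ℂ) (b l) * E l) -
        ((starRingEnd ℂ) (b i) * E i) * (b l * (starRingEnd ℂ) (E l)) := by
      intro i l
      simp only [map_sub, map_mul]
      ring
    simp only [e, Finset.sum_sub_distrib, Finset.sum_add_distrib, ← Finset.sum_mul_sum]
    ring
  have h2 : (starRingEnd ℂ) (∑ i, b i * (starRingEnd ℂ) (E i)) =
      ∑ i, (starRingEnd ℂ) (b i) * E i := by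
    rw [map_sum]
    refine Finset.sum_congr rfl fun i _ => ?_
    rw [map_mul, Complex.conj_conj]
  apply Complex.ofReal_injective
  simp only [Complex.ofReal_mul, Complex.ofReal_add, Complex.ofReal_sum, hc]
  rw [h, h2]
  push_cast
  ring

/-- the transform of the divergence -/
theorem cdisc_div {D n : ℕ} [NeZero n] (w : Fin D → Vtx D n → ℝ) (k : Vtx D n) :
    FT (fun x => ((∑ i, (w i x - w i (x - stp i)) : ℝ) : ℂ)) k =
      ∑ i, (1 - chr k (stp i)) * FT (fun x => (w i x : ℂ)) k := by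
  have h1 : ∀ i, (1 - chr k (stp i)) * FT (fun x => (w i x : ℂ)) k =
      ∑ x, ((w i x : ℂ) - (w i (x - stp i) : ℂ)) * chr k x := by
    intro i
    have h2 := FT_shift (fun x => (w i x : ℂ)) (stp i) k
    unfold FT at h2
    simp only [sub_mul, Finset.sum_sub_distrib, one_mul]
    unfold FT
    rw [h2]
  simp only [h1]
  rw [Finset.sum_comm]
  unfold FT
  refine Finset.sum_congr rfl fun x _ => ?_
  rw [← Finset.sum_mul]
  congr 1
  push_cast
  rfl

/-- one mode -/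
theorem cdisc_mode {D n : ℕ} [NeZero n] (hn : 0 < n) (b : Fin D → ℂ) (k : Vtx D n)
    (c1 c2 δ Z c : ℝ) (hZ : 0 ≤ Z) (hδ : 0 < δ) (hc0 : 0 ≤ c)
    (hc1 : c * (D : ℝ) ^ 2 ≤ 2 * c1) (hc2 : c ≤ c2)
    (hm : k ≠ 0 → EL k ≤ δ → ∀ i l : Fin D, i ≠ l →
      c1 * Z * ‖b i * (1 - chr k (stp l)) - b l * (1 - chr k (stp i))‖ ^ 2 ≤ EL k * EE b k)
    (hz : k = 0 → c2 * Z * ∑ i, ‖b i‖ ^ 2 ≤ EE b k) :
    c * Z * ((∑ i, ‖b i‖ ^ 2) - 1 / δ * (EL k * ∑ i, ‖b i‖ ^ 2)
      - (n : ℝ) ^ 2 / 16 * ‖∑ i, b i * (starRingEnd ℂ) (1 - chr k (stp i))‖ ^ 2) ≤ EE b k := by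
  have hA : 0 ≤ ∑ i, ‖b i‖ ^ 2 := Finset.sum_nonneg fun i _ => by positivity
  have hE := EE_nonneg b k
  have hL := EL_nonneg k
  have hn2 : (0 : ℝ) ≤ (n : ℝ) ^ 2 / 16 := by positivity
  set A : ℝ := ∑ i, ‖b i‖ ^ 2 with hAdef
  set T : ℝ := ‖∑ i, b i * (starRingEnd ℂ) (1 - chr k (stp i))‖ ^ 2 with hT
  have hT0 : 0 ≤ T := by
    rw [hT]
    positivity
  have hcZ : 0 ≤ c * Z := mul_nonneg hc0 hZ
  have hδA : 0 ≤ 1 / δ * (EL k * A) := by positivity
  have hnT : 0 ≤ (n : ℝ) ^ 2 / 16 * T := mul_nonneg hn2 hT0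
  by_cases hk : k = 0
  · have h1 := hz hk
    have h2 : c * Z * (A - 1 / δ * (EL k * A) - (n : ℝ) ^ 2 / 16 * T) ≤ c * Z * A :=
      mul_le_mul_of_nonneg_left (by linarith) hcZ
    have h3 : c * Z * A ≤ c2 * Z * A :=
      mul_le_mul_of_nonneg_right (mul_le_mul_of_nonneg_right hc2 hZ) hA
    linarith
  · by_cases hs : EL k ≤ δ
    · have hgap := EL_gap k hk
      have hnpos : (0 : ℝ) < (n : ℝ) ^ 2 := by
        have : (0 : ℝ) < n := by exact_mod_cast hn
        positivity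
      have hLpos : 0 < EL k := lt_of_lt_of_le (by positivity) hgap
      have h1 : ∀ i l : Fin D,
          c1 * Z * ‖b i * (1 - chr k (stp l)) - b l * (1 - chr k (stp i))‖ ^ 2 ≤
            EL k * EE b k := by
        intro i l
        by_cases hil : i = l
        · subst hil
          rw [sub_self, norm_zero]
          have : 0 ≤ EL k * EE b k := mul_nonneg hL hE
          simpa using this
        · exact hm hk hs i l hil
      have h2 : ∑ i : Fin D, ∑ l : Fin D,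
          c1 * Z * ‖b i * (1 - chr k (stp l)) - b l * (1 - chr k (stp i))‖ ^ 2 ≤
          (D : ℝ) ^ 2 * (EL k * EE b k) := by
        refine (Finset.sum_le_sum fun i _ => Finset.sum_le_sum fun l _ => h1 i l).trans ?_
        simp only [Finset.sum_const, Finset.card_univ, Fintype.card_fin, nsmul_eq_mul]
        apply le_of_eq
        ring
      simp only [← Finset.mul_sum] at h2
      have h3 := lagrange_gen b (fun i => 1 - chr k (stp i))
      rw [← EL_norm k, ← hAdef, ← hT] at h3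
      have h4 : ∑ i : Fin D, ∑ l : Fin D,
          ‖b i * (1 - chr k (stp l)) - b l * (1 - chr k (stp i))‖ ^ 2 = 2 * (A * EL k) - 2 * T := by
        linarith
      rw [h4] at h2
      -- `c D² ≤ 2 c1`
      have h6 : T ≤ EL k * ((n : ℝ) ^ 2 / 16 * T) := by
        have : 1 ≤ EL k * ((n : ℝ) ^ 2 / 16) := by
          rw [div_le_iff₀ hnpos] at hgap
          linarith
        nlinarith
      have h9 : 0 ≤ A * EL k - T := by
        have : 0 ≤ ∑ i : Fin D, ∑ l : Fin D,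
            ‖b i * (1 - chr k (stp l)) - b l * (1 - chr k (stp i))‖ ^ 2 :=
          Finset.sum_nonneg fun i _ => Finset.sum_nonneg fun l _ => by positivity
        linarith
      rcases Nat.eq_zero_or_pos D with hD | hD
      · exfalso
        subst hD
        apply hk
        funext i
        exact i.elim0
      have hDpos : (0 : ℝ) < (D : ℝ) ^ 2 := by
        have : (0 : ℝ) < D := by exact_mod_cast hD
        positivity
      have h10 : c * Z * (A * EL k - T) ≤ EL k * EE b k := by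
        have h11 : c * (D : ℝ) ^ 2 * (Z * (A * EL k - T)) ≤ 2 * c1 * (Z * (A * EL k - T)) :=
          mul_le_mul_of_nonneg_right hc1 (mul_nonneg hZ h9)
        have h12 : (D : ℝ) ^ 2 * (c * Z * (A * EL k - T)) ≤ (D : ℝ) ^ 2 * (EL k * EE b k) := by
          calc (D : ℝ) ^ 2 * (c * Z * (A * EL k - T))
              = c * (D : ℝ) ^ 2 * (Z * (A * EL k - T)) := by ring
            _ ≤ 2 * c1 * (Z * (A * EL k - T)) := h11
            _ = c1 * Z * (2 * (A * EL k) - 2 * T) := by ring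
            _ ≤ _ := h2
        exact le_of_mul_le_mul_left h12 hDpos
      have h13 : EL k * (c * Z * (A - 1 / δ * (EL k * A) - (n : ℝ) ^ 2 / 16 * T)) ≤
          EL k * EE b k := by
        refine le_trans ?_ h10
        have h14 : EL k * (A - 1 / δ * (EL k * A) - (n : ℝ) ^ 2 / 16 * T) ≤ A * EL k - T := by
          have : 0 ≤ EL k * (1 / δ * (EL k * A)) := mul_nonneg hL hδA
          nlinarith
        calc EL k * (c * Z * (A - 1 / δ * (EL k * A) - (n : ℝ) ^ 2 / 16 * T))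
            = c * Z * (EL k * (A - 1 / δ * (EL k * A) - (n : ℝ) ^ 2 / 16 * T)) := by ring
          _ ≤ c * Z * (A * EL k - T) := mul_le_mul_of_nonneg_left h14 hcZ
      exact le_of_mul_le_mul_left h13 hLpos
    · have h1 : A ≤ 1 / δ * (EL k * A) := by
        have h2 : δ * A ≤ EL k * A := mul_le_mul_of_nonneg_right (not_le.1 hs).le hA
        rw [one_div, le_inv_mul_iff₀ hδ]
        exact h2
      have h3 : c * Z * (A - 1 / δ * (EL k * A) - (n : ℝ) ^ 2 / 16 * T) ≤ 0 :=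
        mul_nonpos_of_nonneg_of_nonpos hcZ (by linarith)
      linarith

/-- The discrete lower bound. From `EE_disc`, `mode_gen` (`k ≠ 0`, `EL k ≤ δ`; the sum over the pairs and `lagrange_gen`), `zero_gen`
(`k = 0`), `EE_nonneg` (`EL k > δ`), `FT_parseval`, `FT_grad`, `EL_gap`; `∑_i (1 - ζ_i) FT w_i = FT (div w)`. -/
theorem disc_gen (D : ℕ) (hD : 3 ≤ D) : ∃ c δ : ℝ, 0 < c ∧ 0 < δ ∧ ∃ N0 : ℕ,
    ∀ (n : ℕ) [NeZero n], N0 ≤ n → Even n → ∀ w : Fin D → Vtx D n → ℝ,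
      c * ((∑ i, ∑ x, w i x ^ 2)
          - 1 / δ * (∑ i, ∑ j, ∑ x, (w i (x + stp j) - w i x) ^ 2)
          - (n : ℝ) ^ 2 / 16 * ∑ x, (∑ i, (w i x - w i (x - stp i))) ^ 2) * ZP D n
        ≤ ∑ τ ∈ PMs D n, (∑ i, edgeSum i (w i) τ) ^ 2 := by
  obtain ⟨c1, δ, hc1, hδ, N1, H1⟩ := mode_gen D hD
  obtain ⟨c2, hc2, N2, H2⟩ := zero_gen D hD
  have hDpos : (0 : ℝ) < (D : ℝ) ^ 2 := by
    have : (0 : ℝ) < D := by exact_mod_cast (by omega : 0 < D)
    positivity
  set c : ℝ := min (2 * c1 / (D : ℝ) ^ 2) c2 with hc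
  have hcpos : 0 < c := lt_min (by positivity) hc2
  refine ⟨c, δ, hcpos, hδ, max (max N1 N2) 4, ?_⟩
  intro n _ hn he w
  have hn1 : N1 ≤ n := (le_max_left _ _).trans ((le_max_left _ _).trans hn)
  have hn2 : N2 ≤ n := (le_max_right _ _).trans ((le_max_left _ _).trans hn)
  have hn4 : 4 ≤ n := (le_max_right _ _).trans hn
  have hZ : 0 ≤ ZP D n := by
    unfold ZP
    exact Nat.cast_nonneg _
  have hnD : (0 : ℝ) < (n : ℝ) ^ D := by
    have : (0 : ℝ) < n := by exact_mod_cast (by omega : 0 < n)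
    positivity
  set b : Vtx D n → Fin D → ℂ :=
    fun k i => (starRingEnd ℂ) (FT (fun x => (w i x : ℂ)) k) with hb
  have key : ∀ k : Vtx D n, c * ((n : ℝ) ^ D * ZP D n) * ((∑ i, ‖b k i‖ ^ 2)
      - 1 / δ * (EL k * ∑ i, ‖b k i‖ ^ 2)
      - (n : ℝ) ^ 2 / 16 * ‖∑ i, b k i * (starRingEnd ℂ) (1 - chr k (stp i))‖ ^ 2) ≤
      EE (b k) k := by
    intro k
    refine cdisc_mode (by omega) (b k) k c1 c2 δ ((n : ℝ) ^ D * ZP D n) c (by positivity) hδ
      hcpos.le ?_ (min_le_right _ _) ?_ ?_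
    · have h1 : c ≤ 2 * c1 / (D : ℝ) ^ 2 := min_le_left _ _
      rwa [le_div_iff₀ hDpos] at h1
    · intro hk hs i l hil
      have := H1 n hn1 he k hk hs (b k) i l hil
      rw [← mul_assoc]
      exact this
    · intro hk
      subst hk
      have := H2 n hn2 he (b 0)
      rw [← mul_assoc]
      exact this
  have s1 : ∑ k, ∑ i, ‖b k i‖ ^ 2 = (n : ℝ) ^ D * ∑ i, ∑ x, w i x ^ 2 := by
    rw [Finset.sum_comm, Finset.mul_sum]
    refine Finset.sum_congr rfl fun i _ => ?_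
    have h1 := FT_parseval (fun x => (w i x : ℂ))
    have h2 : ∀ x, ‖(w i x : ℂ)‖ ^ 2 = w i x ^ 2 := by
      intro x
      rw [Complex.norm_real, Real.norm_eq_abs, sq_abs]
    simp only [h2] at h1
    rw [h1]
    refine Finset.sum_congr rfl fun k _ => ?_
    rw [hb]
    change ‖(starRingEnd ℂ) _‖ ^ 2 = _
    rw [Complex.norm_conj]
  have s2 : ∑ k, EL k * ∑ i, ‖b k i‖ ^ 2 =
      (n : ℝ) ^ D * ∑ i, ∑ j, ∑ x, (w i (x + stp j) - w i x) ^ 2 := by
    simp only [Finset.mul_sum]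
    rw [Finset.sum_comm]
    refine Finset.sum_congr rfl fun i _ => ?_
    have h1 := FT_grad (w i)
    simp only [Finset.mul_sum] at h1
    rw [h1]
    refine Finset.sum_congr rfl fun k _ => ?_
    rw [hb]
    change _ * ‖(starRingEnd ℂ) _‖ ^ 2 = _
    rw [Complex.norm_conj]
  have s3 : ∑ k, ‖∑ i, b k i * (starRingEnd ℂ) (1 - chr k (stp i))‖ ^ 2 =
      (n : ℝ) ^ D * ∑ x, (∑ i, (w i x - w i (x - stp i))) ^ 2 := by
    have h1 := FT_parseval (fun x => ((∑ i, (w i x - w i (x - stp i)) : ℝ) : ℂ))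
    have h2 : ∀ x, ‖((∑ i, (w i x - w i (x - stp i)) : ℝ) : ℂ)‖ ^ 2 =
        (∑ i, (w i x - w i (x - stp i))) ^ 2 := by
      intro x
      rw [Complex.norm_real, Real.norm_eq_abs, sq_abs]
    simp only [h2] at h1
    rw [h1]
    refine Finset.sum_congr rfl fun k _ => ?_
    rw [cdisc_div, ← Complex.norm_conj (∑ i, (1 - chr k (stp i)) * _), map_sum]
    congr 2
    refine Finset.sum_congr rfl fun i _ => ?_
    rw [map_mul, mul_comm]
  have tot := Finset.sum_le_sum fun k (_ : k ∈ (univ : Finset (Vtx D n))) => key k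
  rw [← Finset.mul_sum, Finset.sum_sub_distrib, Finset.sum_sub_distrib, ← Finset.mul_sum,
    ← Finset.mul_sum, s1, s2, s3] at tot
  have hd := EE_disc hn4 he w
  have hd2 : ∑ k, EE (b k) k =
      ((n : ℝ) ^ D) ^ 2 * ∑ τ ∈ PMs D n, (∑ i, edgeSum i (w i) τ) ^ 2 := by
    rw [hd]
  rw [hd2] at tot
  refine le_of_mul_le_mul_left (le_trans (le_of_eq ?_) tot) (pow_pos hnD 2)
  ring

end LibDim
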