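import Pool.Agent.LibDimB.BFlB

/-! Row CFLOW: flows in all dimensions `D ≥ 3` by averaging over coordinate hyperplanes. -/

namespace LibDim

open Finset

variable {D n : ℕ}

/-- the source in dimension `D`: `4 D / 3` at the origin, `1` at the neighbours -/
noncomputable def vD (x : Vtx D n) : ℝ :=
  (4 * (D : ℝ) / 3) * (if x = 0 then 1 else 0)
    + ∑ i : Fin D, ((if x = stp i then 1 else 0) + (if x = -stp i then 1 else 0))

/-- a good flow: divergence `vD - μ` with `0 ≤ μ ≤ C / n³`, small energy, bounded energy of the edges on the axes -/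
def FlowP (D n : ℕ) [NeZero n] (C : ℝ) : Prop :=
  ∃ (θ : Fin D → Vtx D n → ℝ) (μ : Vtx D n → ℝ),
    (∀ x, ∑ i, (θ i x - θ i (x - stp i)) = vD x - μ x) ∧ (∀ x, 0 ≤ μ x) ∧
    (∀ x, μ x ≤ C / (n : ℝ) ^ 3) ∧
    (∑ i, ∑ x, θ i x ^ 2 ≤ (D : ℝ) / ((D : ℝ) - 1) * (8 * (D : ℝ) / 3 - 8 / 100)) ∧
    (∑ i, ∑ x ∈ univ.filter (fun x : Vtx D n => ∀ j, j ≠ i → x j = 0), θ i x ^ 2
      ≤ 8 * (D : ℝ) / 3)

theorem cflow_na0 {n : ℕ} [NeZero n] (a : ZMod n) : na a = 0 ↔ a = 0 := by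
  unfold na
  rw [Int.natAbs_eq_zero, ZMod.valMinAbs_eq_zero]

theorem cflow_na_neg {n : ℕ} [NeZero n] (a : ZMod n) : na (-a) = na a := by
  unfold na
  exact ZMod.natAbs_valMinAbs_neg a

theorem cflow_na_one {n : ℕ} [NeZero n] (hn : 4 ≤ n) : na (1 : ZMod n) = 1 := by
  unfold na
  have h1 : ((1 : ℕ) : ZMod n).valMinAbs = (1 : ℕ) :=
    ZMod.valMinAbs_natCast_of_le_half (by omega)
  rw [Nat.cast_one] at h1
  rw [h1]
  rfl

theorem cflow_na1 {n : ℕ} [NeZero n] (hn : 4 ≤ n) (a : ZMod n) : na a = 1 ↔ a = 1 ∨ a = -1 := by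
  constructor
  · intro h
    unfold na at h
    have h1 := ZMod.coe_valMinAbs a
    rcases Int.natAbs_eq a.valMinAbs with h2 | h2
    · left
      rw [h] at h2
      rw [← h1, h2]
      simp
    · right
      rw [h] at h2
      rw [← h1, h2]
      simp
  · rintro (rfl | rfl)
    · exact cflow_na_one hn
    · rw [cflow_na_neg]; exact cflow_na_one hn

theorem cflow_one_ne {n : ℕ} [NeZero n] (hn : 4 ≤ n) : (1 : ZMod n) ≠ 0 := by
  intro h
  have h1 := cflow_na_one hn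
  rw [h, (cflow_na0 (0 : ZMod n)).2 rfl] at h1
  omega

theorem cflow_neg_ne {n : ℕ} [NeZero n] (hn : 4 ≤ n) : (1 : ZMod n) ≠ -1 := by
  intro h
  have h2 : ((2 : ℕ) : ZMod n) = 0 := by
    push_cast
    have : (1 : ZMod n) + 1 = 0 := by
      nth_rewrite 1 [h]
      exact neg_add_cancel 1
    rw [← this]; norm_num
  rw [ZMod.natCast_eq_zero_iff] at h2
  have := Nat.le_of_dvd (by norm_num) h2
  omega

/-- The source as a sum of point masses. -/
theorem cflow_vT {n : ℕ} [NeZero n] (hn : 4 ≤ n) (x : Vtx 3 n) :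
    (vT x : ℝ) = 4 * (if x = 0 then 1 else 0) +
      ∑ i, ((if x = stp i then 1 else 0) + (if x = -stp i then (1 : ℝ) else 0)) := by
  have h10 := cflow_one_ne hn
  have h11 := cflow_neg_ne hn
  have hn0 : (-1 : ZMod n) ≠ 0 := neg_ne_zero.2 h10
  have e0 : x = 0 ↔ x 0 = 0 ∧ x 1 = 0 ∧ x 2 = 0 := by
    rw [funext_iff]
    simp [Fin.forall_fin_succ]
  have es : ∀ (v : Vtx 3 n), x = v ↔ x 0 = v 0 ∧ x 1 = v 1 ∧ x 2 = v 2 := by
    intro v
    rw [funext_iff]
    simp [Fin.forall_fin_succ]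
  rw [Fin.sum_univ_three]
  simp only [es, stp, Pi.neg_apply, Pi.zero_apply]
  simp only [Pi.single_apply]
  simp only [show ((1 : Fin 3) = 0) = False by simp, show ((2 : Fin 3) = 0) = False by simp,
    show ((0 : Fin 3) = 1) = False by simp, show ((2 : Fin 3) = 1) = False by simp,
    show ((0 : Fin 3) = 2) = False by simp, show ((1 : Fin 3) = 2) = False by simp,
    if_true, if_false, neg_zero]
  unfold vT vSrc
  by_cases a0 : x 0 = 0
  · by_cases b0 : x 1 = 0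
    · by_cases c0 : x 2 = 0
      · have q1 := (cflow_na0 (x 0)).2 a0
        have q2 := (cflow_na0 (x 1)).2 b0
        have q3 := (cflow_na0 (x 2)).2 c0
        rw [q1, q2, q3]
        simp [a0, b0, c0, h10.symm, hn0.symm]
      · have q1 := (cflow_na0 (x 0)).2 a0
        have q2 := (cflow_na0 (x 1)).2 b0
        have q3 : na (x 2) ≠ 0 := fun h => c0 ((cflow_na0 (x 2)).1 h)
        rw [q1, q2]
        by_cases c1 : x 2 = 1
        · have q4 := (cflow_na1 hn (x 2)).2 (Or.inl c1)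
          rw [q4]
          simp [a0, b0, c1, h10, h10.symm, hn0.symm, h11]
        · by_cases c2 : x 2 = -1
          · have q4 := (cflow_na1 hn (x 2)).2 (Or.inr c2)
            rw [q4]
            simp [a0, b0, c2, h10, h10.symm, hn0.symm, hn0, h11, h11.symm]
          · have q4 : na (x 2) ≠ 1 := fun h => by
              rcases (cflow_na1 hn (x 2)).1 h with h | h
              · exact c1 h
              · exact c2 h
            rw [if_neg (by omega), if_neg (by omega)]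
            simp [c0, c1, c2]
    · have q2 : na (x 1) ≠ 0 := fun h => b0 ((cflow_na0 (x 1)).1 h)
      by_cases c0 : x 2 = 0
      · have q1 := (cflow_na0 (x 0)).2 a0
        have q3 := (cflow_na0 (x 2)).2 c0
        rw [q1, q3]
        by_cases c1 : x 1 = 1
        · have q4 := (cflow_na1 hn (x 1)).2 (Or.inl c1)
          rw [q4]
          simp [a0, c0, c1, h10, h10.symm, hn0.symm, h11]
        · by_cases c2 : x 1 = -1
          · have q4 := (cflow_na1 hn (x 1)).2 (Or.inr c2)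
            rw [q4]
            simp [a0, c0, c2, h10, h10.symm, hn0.symm, hn0, h11, h11.symm]
          · have q4 : na (x 1) ≠ 1 := fun h => by
              rcases (cflow_na1 hn (x 1)).1 h with h | h
              · exact c1 h
              · exact c2 h
            rw [if_neg (by omega), if_neg (by omega)]
            simp [b0, c1, c2]
      · have q3 : na (x 2) ≠ 0 := fun h => c0 ((cflow_na0 (x 2)).1 h)
        rw [if_neg (by omega), if_neg (by omega)]
        simp [b0, c0]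
  · have q1 : na (x 0) ≠ 0 := fun h => a0 ((cflow_na0 (x 0)).1 h)
    by_cases b0 : x 1 = 0
    · by_cases c0 : x 2 = 0
      · have q2 := (cflow_na0 (x 1)).2 b0
        have q3 := (cflow_na0 (x 2)).2 c0
        rw [q2, q3]
        by_cases c1 : x 0 = 1
        · have q4 := (cflow_na1 hn (x 0)).2 (Or.inl c1)
          rw [q4]
          simp [b0, c0, c1, h10, h10.symm, hn0.symm, h11]
        · by_cases c2 : x 0 = -1
          · have q4 := (cflow_na1 hn (x 0)).2 (Or.inr c2)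
            rw [q4]
            simp [b0, c0, c2, h10, h10.symm, hn0.symm, hn0, h11, h11.symm]
          · have q4 : na (x 0) ≠ 1 := fun h => by
              rcases (cflow_na1 hn (x 0)).1 h with h | h
              · exact c1 h
              · exact c2 h
            rw [if_neg (by omega), if_neg (by omega)]
            simp [a0, c1, c2]
      · have q3 : na (x 2) ≠ 0 := fun h => c0 ((cflow_na0 (x 2)).1 h)
        rw [if_neg (by omega), if_neg (by omega)]
        simp [a0, c0]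
    · have q2 : na (x 1) ≠ 0 := fun h => b0 ((cflow_na0 (x 1)).1 h)
      rw [if_neg (by omega), if_neg (by omega)]
      simp [a0, b0]

theorem cflow_mu_nonneg {n : ℕ} (M : ℕ) (x : Vtx 3 n) : 0 ≤ muT M x := by
  unfold muT muSnk fR
  split_ifs <;> positivity

theorem cflow_weight {n : ℕ} (y : Vtx 3 n) (s : Finset ℕ) :
    ∑ M ∈ s, (2 * (M : ℝ) + 1) ^ 2 * muT M y ≤ 5 := by
  have h1 : ∀ M ∈ s, (2 * (M : ℝ) + 1) ^ 2 * muT M y ≤
      5 / 3 * ((if na (y 0) = M then 1 else 0) + (if na (y 1) = M then 1 else 0) +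
        (if na (y 2) = M then 1 else 0)) := by
    intro M _
    unfold muT muSnk fR
    have hp : (0 : ℝ) < (2 * (M : ℝ) + 1) ^ 2 := by positivity
    have hq : (0 : ℝ) ≤ (if na (y 0) = M then 1 else 0) + (if na (y 1) = M then 1 else 0) +
        (if na (y 2) = M then 1 else 0) := by
      split_ifs <;> norm_num
    set S : ℝ := (if na (y 0) = M then 1 else 0) + (if na (y 1) = M then 1 else 0) +
        (if na (y 2) = M then 1 else 0) with hS
    by_cases hc : na (y 0) ≤ M ∧ na (y 1) ≤ M ∧ na (y 2) ≤ M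
    · rw [if_pos hc]
      apply le_of_eq
      field_simp
    · rw [if_neg hc, mul_zero]
      positivity
  have h2 : ∀ a : ℕ, ∑ M ∈ s, (if a = M then (1 : ℝ) else 0) ≤ 1 := by
    intro a
    rw [Finset.sum_ite_eq]
    split_ifs <;> norm_num
  refine (Finset.sum_le_sum h1).trans ?_
  rw [← Finset.mul_sum, Finset.sum_add_distrib, Finset.sum_add_distrib]
  have a1 := h2 (na (y 0))
  have a2 := h2 (na (y 1))
  have a3 := h2 (na (y 2))
  linarith

theorem cflow_sum (h : ℕ) (hh : 4 ≤ h) :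
    ((2 * h : ℕ) : ℝ) ^ 3 / 8 ≤ ∑ M ∈ Finset.Ico 2 h, (2 * (M : ℝ) + 1) ^ 2 := by
  have h1 : ∀ k : ℕ, ∑ M ∈ Finset.range k, (2 * (M : ℝ) + 1) ^ 2 = k * (4 * (k : ℝ) ^ 2 - 1) / 3 := by
    intro k
    induction k with
    | zero => simp
    | succ k ih =>
      rw [Finset.sum_range_succ, ih]
      push_cast
      ring
  have h2 : ∑ M ∈ Finset.Ico 2 h, (2 * (M : ℝ) + 1) ^ 2 =
      h * (4 * (h : ℝ) ^ 2 - 1) / 3 - 10 := by
    rw [Finset.sum_Ico_eq_sub _ (by omega), h1, h1]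
    norm_num
  rw [h2]
  push_cast
  have h3 : (4 : ℝ) ≤ h := by exact_mod_cast hh
  nlinarith [mul_nonneg (sub_nonneg.2 h3) (mul_self_nonneg ((h : ℝ) + 4))]


/-- convexity, for sums over edges -/
theorem cflow_jensen {n : ℕ} [NeZero n] (s : Finset ℕ) (w : ℕ → ℝ) (hw : ∀ M ∈ s, 0 ≤ w M)
    (hw1 : ∑ M ∈ s, w M = 1) (F : Fin 3 → Finset (Vtx 3 n)) (t : ℕ → Fin 3 → Vtx 3 n → ℝ) (B : ℝ)
    (hB : ∀ M ∈ s, ∑ i, ∑ x ∈ F i, t M i x ^ 2 ≤ B) :
    ∑ i, ∑ x ∈ F i, (∑ M ∈ s, w M * t M i x) ^ 2 ≤ B := by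
  have h1 : ∑ i, ∑ x ∈ F i, (∑ M ∈ s, w M * t M i x) ^ 2 ≤
      ∑ i, ∑ x ∈ F i, ∑ M ∈ s, w M * t M i x ^ 2 :=
    Finset.sum_le_sum fun i _ => Finset.sum_le_sum fun x _ =>
      Real.pow_arith_mean_le_arith_mean_pow_of_even s w (fun M => t M i x) hw hw1 even_two
  have h2 : ∑ i, ∑ x ∈ F i, ∑ M ∈ s, w M * t M i x ^ 2 =
      ∑ M ∈ s, w M * ∑ i, ∑ x ∈ F i, t M i x ^ 2 := by
    simp_rw [Finset.mul_sum]
    rw [Finset.sum_comm]
    refine Finset.sum_congr rfl fun i _ => ?_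
    rw [Finset.sum_comm]
  have h3 : ∑ M ∈ s, w M * ∑ i, ∑ x ∈ F i, t M i x ^ 2 ≤ ∑ M ∈ s, w M * B :=
    Finset.sum_le_sum fun M hM => mul_le_mul_of_nonneg_left (hB M hM) (hw M hM)
  rw [← Finset.sum_mul, hw1, one_mul] at h3
  exact h1.trans (h2.le.trans h3)

theorem cflow_ax_inc (x : ℝ) (hx : 2 ≤ x) :
    (5 / (3 * (2 * x + 1) ^ 2)) ^ 2 ≤ 1 / x - 1 / (x + 1) := by
  have h1 : 0 < x := by linarith
  have h2 : 0 < x + 1 := by linarith
  have h3 : 0 < 2 * x + 1 := by linarith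
  have e1 : (5 / (3 * (2 * x + 1) ^ 2)) ^ 2 = 25 / (9 * (2 * x + 1) ^ 4) := by
    rw [div_pow]
    congr 1
    · norm_num
    · ring
  have e2 : 1 / x - 1 / (x + 1) = 1 / (x * (x + 1)) := by
    field_simp
    ring
  rw [e1, e2, div_le_div_iff₀ (by positivity) (by positivity)]
  have h5 : x * (x + 1) ≤ (2 * x + 1) ^ 2 := by nlinarith
  have h6 : 25 ≤ (2 * x + 1) ^ 2 := by nlinarith
  have h7 : (2 * x + 1) ^ 4 = (2 * x + 1) ^ 2 * (2 * x + 1) ^ 2 := by ring
  have h8 : 25 * (x * (x + 1)) ≤ (2 * x + 1) ^ 2 * (2 * x + 1) ^ 2 :=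
    mul_le_mul h6 h5 (by positivity) (by positivity)
  rw [h7]
  nlinarith [h8]

/-- the values of the flow on an axis -/
theorem cflow_ax_sum (k : ℕ) : ∑ m ∈ range (k + 2), fT m 0 0 ^ 2 ≤
    4 / 9 + 25 / 144 + (1 / 2 - 1 / ((k : ℝ) + 2)) := by
  induction k with
  | zero =>
    rw [zero_add, sum_range_succ, sum_range_succ, range_zero, sum_empty]
    have e0 : fT 0 0 0 = 2 / 3 := by norm_num [fT, fNear]
    have e1 : fT 1 0 0 = 5 / 12 := by norm_num [fT, fNear]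
    rw [e0, e1]
    norm_num
  | succ k ih =>
    rw [show k + 1 + 2 = k + 2 + 1 by ring, sum_range_succ]
    have e : fT (k + 2) 0 0 = fR (k + 2) := bfla_rad (k + 2) 0 0 (by omega) (by omega) (by omega)
    have hx : (2 : ℝ) ≤ (k : ℝ) + 2 := by
      have : (0 : ℝ) ≤ k := Nat.cast_nonneg k
      linarith
    have h1 := cflow_ax_inc ((k : ℝ) + 2) hx
    rw [e]
    unfold fR
    push_cast
    have e2 : (k : ℝ) + 1 + 2 = (k : ℝ) + 2 + 1 := by ring
    rw [e2]
    linarith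

theorem cflow_ax_sum' (M : ℕ) : ∑ m ∈ range M, fT m 0 0 ^ 2 ≤ 4 / 3 := by
  have h1 : ∑ m ∈ range M, fT m 0 0 ^ 2 ≤ ∑ m ∈ range (M + 2), fT m 0 0 ^ 2 :=
    Finset.sum_le_sum_of_subset_of_nonneg (Finset.range_mono (by omega))
      (fun _ _ _ => sq_nonneg _)
  have h2 := cflow_ax_sum M
  have h3 : (0 : ℝ) < 1 / ((M : ℝ) + 2) := by positivity
  linarith

/-- sum over an axis -/
theorem cflow_ax_eq {n : ℕ} [NeZero n] (i : Fin 3) (G : Vtx 3 n → ℝ) :
    ∑ x ∈ univ.filter (fun x : Vtx 3 n => ∀ j, j ≠ i → x j = 0), G x =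
      ∑ a : ZMod n, G (Pi.single i a) := by
  symm
  refine Finset.sum_bij (fun a _ => (Pi.single i a : Vtx 3 n)) ?_ ?_ ?_ ?_
  · intro a _
    rw [Finset.mem_filter]
    exact ⟨Finset.mem_univ _, fun j hj => Pi.single_eq_of_ne hj _⟩
  · intro a _ b _ hab
    have := congrFun hab i
    simpa using this
  · intro x hx
    rw [Finset.mem_filter] at hx
    refine ⟨x i, Finset.mem_univ _, ?_⟩
    funext j
    by_cases hj : j = i
    · subst hj
      simp
    · rw [Pi.single_eq_of_ne hj, hx.2 j hj]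
  · intro a _
    rfl

theorem cflow_na_zero {n : ℕ} [NeZero n] : na (0 : ZMod n) = 0 := (cflow_na0 0).2 rfl

/-- energy of one direction on its axis -/
theorem cflow_ax_one {n : ℕ} [NeZero n] (hn : 4 ≤ n) (he : Even n) (M : ℕ) (hM : M < n / 2)
    (i : Fin 3) :
    ∑ x ∈ univ.filter (fun x : Vtx 3 n => ∀ j, j ≠ i → x j = 0), thT M i x ^ 2 ≤ 8 / 3 := by
  rw [cflow_ax_eq]
  have h1 : ∀ a : ZMod n, thT M i (Pi.single i a : Vtx 3 n) ^ 2 = fTM M (lo a) 0 0 ^ 2 := by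
    intro a
    have hz := cflow_na_zero (n := n)
    unfold thT
    fin_cases i
    · simp [mul_pow, bflb_sg_sq, hz]
    · simp [mul_pow, bflb_sg_sq, hz]
    · simp [mul_pow, bflb_sg_sq, hz]
  rw [Finset.sum_congr rfl fun a _ => h1 a,
    sum_lo hn he M hM (fun m => fTM M m 0 0 ^ 2) ?_]
  · have h2 : ∑ m ∈ range M, fTM M m 0 0 ^ 2 = ∑ m ∈ range M, fT m 0 0 ^ 2 := by
      refine Finset.sum_congr rfl fun m hm => ?_
      rw [mem_range] at hm
      unfold fTM
      rw [if_pos ⟨hm, by omega, by omega⟩]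
    rw [h2]
    have := cflow_ax_sum' M
    linarith
  · intro m hm
    unfold fTM
    rw [if_neg (by omega)]
    norm_num

theorem cflow_ax {n : ℕ} [NeZero n] (hn : 4 ≤ n) (he : Even n) (M : ℕ) (hM : M < n / 2) :
    ∑ i : Fin 3, ∑ x ∈ univ.filter (fun x : Vtx 3 n => ∀ j, j ≠ i → x j = 0),
      thT M i x ^ 2 ≤ 8 := by
  rw [Fin.sum_univ_three]
  have h0 := cflow_ax_one hn he M hM 0
  have h1 := cflow_ax_one hn he M hM 1
  have h2 := cflow_ax_one hn he M hM 2
  linarith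

theorem cflow_v {n : ℕ} [NeZero n] (hn : 4 ≤ n) (x : Vtx 3 n) : (vD x : ℝ) = vT x := by
  rw [cflow_vT hn]
  unfold vD
  congr 1
  norm_num

/-- Base case `D = 3`: `θ = ∑_M w_M thT M`, `μ = ∑_M w_M muT M`, `2 ≤ M < n/2`, `w_M = (2M+1)² / ∑ (2M'+1)²`
(`div_torus`, `energy_torus` and convexity; `(2M+1)² muT M y ≤ 5 [M = max |y_i|]`, so `μ ≤ 5 / ∑ (2M+1)² ≤ C / n³`; the axes carry
`6 ∑_{m < M} fT m 0 0² ≤ 8`: `fT 0 0 0 = 2/3`, `fT 1 0 0 = 5/12`, `fT m 0 0 = 5/(3 (2m+1)²)` for `m ≥ 2`). -/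
theorem flow_base : ∃ C : ℝ, 0 ≤ C ∧ ∀ (n : ℕ) [NeZero n], 8 ≤ n → Even n → FlowP 3 n C := by
  refine ⟨40, by norm_num, ?_⟩
  intro n _ hn he
  obtain ⟨h, hh⟩ := he
  have hn4 : 4 ≤ n := by omega
  have he' : Even n := ⟨h, hh⟩
  have hn2 : n / 2 = h := by omega
  have k5 := cflow_sum h (by omega)
  set W : ℝ := ∑ M ∈ Finset.Ico 2 h, (2 * (M : ℝ) + 1) ^ 2 with hW
  have hnn : ((2 * h : ℕ) : ℝ) = (n : ℝ) := by
    rw [hh, two_mul]
  rw [hnn] at k5
  have hnpos : (0 : ℝ) < (n : ℝ) ^ 3 := by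
    have : (0 : ℝ) < n := by exact_mod_cast (by omega : 0 < n)
    positivity
  have hWpos : 0 < W := by linarith
  set w : ℕ → ℝ := fun M => (2 * (M : ℝ) + 1) ^ 2 / W with hw
  have hw0 : ∀ M ∈ Finset.Ico 2 h, 0 ≤ w M := by
    intro M _
    rw [hw]
    positivity
  have hw1 : ∑ M ∈ Finset.Ico 2 h, w M = 1 := by
    rw [hw, ← Finset.sum_div, ← hW, div_self hWpos.ne']
  have hmem : ∀ M ∈ Finset.Ico 2 h, 2 ≤ M ∧ M < n / 2 := by
    intro M hM
    rw [Finset.mem_Ico] at hM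
    omega
  refine ⟨fun i x => ∑ M ∈ Finset.Ico 2 h, w M * thT M i x,
    fun x => ∑ M ∈ Finset.Ico 2 h, w M * muT M x, ?_, ?_, ?_, ?_, ?_⟩
  · intro x
    have e1 : ∀ i : Fin 3, ∑ M ∈ Finset.Ico 2 h, w M * thT M i x -
        ∑ M ∈ Finset.Ico 2 h, w M * thT M i (x - stp i) =
        ∑ M ∈ Finset.Ico 2 h, w M * (thT M i x - thT M i (x - stp i)) := by
      intro i
      rw [← Finset.sum_sub_distrib]
      exact Finset.sum_congr rfl fun M _ => by ring
    simp only [e1]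
    rw [Finset.sum_comm]
    have e2 : ∀ M ∈ Finset.Ico 2 h, ∑ i, w M * (thT M i x - thT M i (x - stp i)) =
        w M * vT x - w M * muT M x := by
      intro M hM
      rw [← Finset.mul_sum, div_torus hn4 he' M (hmem M hM).1 (hmem M hM).2]
      ring
    rw [Finset.sum_congr rfl e2, Finset.sum_sub_distrib, ← Finset.sum_mul, hw1, one_mul,
      cflow_v hn4]
  · intro x
    exact Finset.sum_nonneg fun M hM => mul_nonneg (hw0 M hM) (cflow_mu_nonneg M x)
  · intro x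
    have e1 : ∑ M ∈ Finset.Ico 2 h, w M * muT M x =
        (∑ M ∈ Finset.Ico 2 h, (2 * (M : ℝ) + 1) ^ 2 * muT M x) / W := by
      rw [Finset.sum_div]
      refine Finset.sum_congr rfl fun M _ => ?_
      rw [hw]
      ring
    change ∑ M ∈ Finset.Ico 2 h, w M * muT M x ≤ 40 / (n : ℝ) ^ 3
    rw [e1, div_le_div_iff₀ hWpos hnpos]
    have h5 := cflow_weight x (Finset.Ico 2 h)
    have h6 : (∑ M ∈ Finset.Ico 2 h, (2 * (M : ℝ) + 1) ^ 2 * muT M x) * (n : ℝ) ^ 3 ≤
        5 * (n : ℝ) ^ 3 := mul_le_mul_of_nonneg_right h5 hnpos.le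
    linarith
  · have := cflow_jensen (n := n) (Finset.Ico 2 h) w hw0 hw1 (fun _ => univ)
      (fun M i x => thT M i x) (1188 / 100)
      (fun M hM => energy_torus hn4 he' M (hmem M hM).1 (hmem M hM).2)
    refine this.trans ?_
    norm_num
  · have := cflow_jensen (n := n) (Finset.Ico 2 h) w hw0 hw1
      (fun i => univ.filter (fun x : Vtx 3 n => ∀ j, j ≠ i → x j = 0))
      (fun M i x => thT M i x) 8
      (fun M hM => cflow_ax hn4 he' M (hmem M hM).2)
    refine this.trans ?_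
    norm_num

end LibDim
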