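import Pool.Agent.LibDimB.CFlow

/-! Row CFLOWB: induction over the dimension for the flows. -/

namespace LibDim

open Finset

variable {D n : ℕ}

theorem cflowb_iff (j : Fin (D + 1)) (x : Vtx (D + 1) n) (z : Vtx D n) :
    (x j = 0 ∧ (fun l => x (j.succAbove l)) = z) ↔ x = insV j 0 z := by
  constructor
  · rintro ⟨h1, rfl⟩
    refine insV_ext j ?_ fun k => ?_
    · rw [h1, insV_same]
    · rw [insV_succ]
  · rintro rfl
    refine ⟨insV_same _ _ _, ?_⟩
    funext l
    exact insV_succ _ _ _ _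

theorem cflowb_zero (j : Fin (D + 1)) : insV j 0 (0 : Vtx D n) = 0 := by
  refine insV_ext j ?_ fun k => ?_
  · rw [insV_same, Pi.zero_apply]
  · rw [insV_succ, Pi.zero_apply, Pi.zero_apply]

theorem cflowb_single (j : Fin (D + 1)) (k l : Fin D) :
    (stp (j.succAbove k) : Vtx (D + 1) n) (j.succAbove l) = (stp k : Vtx D n) l := by
  unfold stp
  by_cases h : l = k
  · subst h
    rw [Pi.single_eq_same, Pi.single_eq_same]
  · rw [Pi.single_eq_of_ne h, Pi.single_eq_of_ne]
    intro h2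
    exact h (Fin.succAbove_right_injective h2)

theorem cflowb_single0 (j : Fin (D + 1)) (k : Fin D) :
    (stp (j.succAbove k) : Vtx (D + 1) n) j = 0 := by
  unfold stp
  rw [Pi.single_eq_of_ne (Fin.succAbove_ne j k).symm]

theorem cflowb_stp (j : Fin (D + 1)) (k : Fin D) :
    insV j 0 (stp k : Vtx D n) = stp (j.succAbove k) := by
  refine insV_ext j ?_ fun l => ?_
  · rw [insV_same, cflowb_single0]
  · rw [insV_succ, cflowb_single]

theorem cflowb_neg (j : Fin (D + 1)) (k : Fin D) :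
    insV j 0 (-stp k : Vtx D n) = -stp (j.succAbove k) := by
  refine insV_ext j ?_ fun l => ?_
  · rw [insV_same, Pi.neg_apply, cflowb_single0, neg_zero]
  · rw [insV_succ, Pi.neg_apply, Pi.neg_apply, cflowb_single]

/-- the flow pushed to the hyperplane `x j = 0` -/
noncomputable def cflowb_push (θ : Fin D → Vtx D n → ℝ) (j i : Fin (D + 1))
    (x : Vtx (D + 1) n) : ℝ :=
  j.insertNth (α := fun _ => ℝ) 0
    (fun k => if x j = 0 then θ k (fun l => x (j.succAbove l)) else 0) i

theorem cflowb_push_same (θ : Fin D → Vtx D n → ℝ) (j : Fin (D + 1)) (x : Vtx (D + 1) n) :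
    cflowb_push θ j j x = 0 := by
  simp [cflowb_push]

theorem cflowb_push_succ (θ : Fin D → Vtx D n → ℝ) (j : Fin (D + 1)) (k : Fin D)
    (x : Vtx (D + 1) n) : cflowb_push θ j (j.succAbove k) x =
      if x j = 0 then θ k (fun l => x (j.succAbove l)) else 0 := by
  simp [cflowb_push]

theorem cflowb_div (θ : Fin D → Vtx D n → ℝ) (j : Fin (D + 1)) (x : Vtx (D + 1) n) :
    ∑ i, (cflowb_push θ j i x - cflowb_push θ j i (x - stp i)) =
      if x j = 0 then ∑ k, (θ k (fun l => x (j.succAbove l)) -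
        θ k ((fun l => x (j.succAbove l)) - stp k)) else 0 := by
  rw [Fin.sum_univ_succAbove _ j, cflowb_push_same, cflowb_push_same, sub_zero, zero_add]
  have h1 : ∀ k : Fin D, (x - stp (j.succAbove k) : Vtx (D + 1) n) j = x j := by
    intro k
    rw [Pi.sub_apply, cflowb_single0, sub_zero]
  have h2 : ∀ k : Fin D,
      (fun l => (x - stp (j.succAbove k) : Vtx (D + 1) n) (j.succAbove l)) =
      (fun l => x (j.succAbove l)) - stp k := by
    intro k
    funext l
    rw [Pi.sub_apply, Pi.sub_apply, cflowb_single]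
  split_ifs with h
  · refine sum_congr rfl fun k _ => ?_
    rw [cflowb_push_succ, cflowb_push_succ, h1, h2, if_pos h, if_pos h]
  · refine sum_eq_zero fun k _ => ?_
    rw [cflowb_push_succ, cflowb_push_succ, h1, if_neg h, if_neg h, sub_zero]

theorem cflowb_vD (j : Fin (D + 1)) (x : Vtx (D + 1) n) :
    (if x j = 0 then vD (fun l => x (j.succAbove l)) else 0) =
      (4 * (D : ℝ) / 3) * (if x = 0 then 1 else 0) +
        ∑ k : Fin D, ((if x = stp (j.succAbove k) then 1 else 0) +
          (if x = -stp (j.succAbove k) then 1 else 0)) := by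
  have e0 := cflowb_iff j x 0
  rw [cflowb_zero] at e0
  have e1 := fun k => cflowb_iff j x (stp k)
  simp only [cflowb_stp] at e1
  have e2 := fun k => cflowb_iff j x (-stp k)
  simp only [cflowb_neg] at e2
  simp only [← e0, ← e1, ← e2]
  by_cases h : x j = 0
  · simp only [h, true_and, if_true]
    rfl
  · simp only [h, false_and, if_false, mul_zero, add_zero, sum_const_zero]

theorem cflowb_vD_sum (x : Vtx (D + 1) n) :
    ∑ j : Fin (D + 1), (if x j = 0 then vD (fun l => x (j.succAbove l)) else 0) = D * vD x := by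
  simp only [cflowb_vD]
  rw [sum_add_distrib, sum_const, card_univ, Fintype.card_fin, nsmul_eq_mul]
  have h1 : ∀ j : Fin (D + 1), ∑ k : Fin D, ((if x = stp (j.succAbove k) then (1 : ℝ) else 0) +
      (if x = -stp (j.succAbove k) then 1 else 0)) =
      ∑ i : Fin (D + 1), ((if x = stp i then (1 : ℝ) else 0) + (if x = -stp i then 1 else 0)) -
        ((if x = stp j then 1 else 0) + (if x = -stp j then 1 else 0)) := by
    intro j
    rw [Fin.sum_univ_succAbove
      (fun i => (if x = stp i then (1 : ℝ) else 0) + (if x = -stp i then 1 else 0)) j]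
    ring
  simp only [h1]
  rw [sum_sub_distrib, sum_const, card_univ, Fintype.card_fin, nsmul_eq_mul]
  unfold vD
  push_cast
  ring

/-- multiplicities -/
theorem cflowb_cs (θ : Fin D → Vtx D n → ℝ) (i : Fin (D + 1)) (x : Vtx (D + 1) n) (hD : 1 ≤ D) :
    (∑ j, cflowb_push θ j i x) ^ 2 ≤
      ((D : ℝ) - 1 + if (∀ l, l ≠ i → x l = 0) then 1 else 0) *
        ∑ j, cflowb_push θ j i x ^ 2 := by
  set S : Finset (Fin (D + 1)) := univ.filter (fun j => j ≠ i ∧ x j = 0) with hS
  have h0 : ∀ j, j ∉ S → cflowb_push θ j i x = 0 := by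
    intro j hj
    by_cases hji : j = i
    · subst hji
      exact cflowb_push_same θ j x
    · obtain ⟨k, rfl⟩ := Fin.exists_succAbove_eq (Ne.symm hji)
      rw [cflowb_push_succ, if_neg]
      intro hx
      exact hj (by rw [hS, mem_filter]; exact ⟨mem_univ _, hji, hx⟩)
  have h1 : ∑ j, cflowb_push θ j i x = ∑ j ∈ S, cflowb_push θ j i x :=
    (sum_subset (subset_univ S) fun j _ hj => h0 j hj).symm
  have h2 : ∑ j, cflowb_push θ j i x ^ 2 = ∑ j ∈ S, cflowb_push θ j i x ^ 2 :=
    (sum_subset (subset_univ S) fun j _ hj => by rw [h0 j hj]; ring).symm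
  rw [h1, h2]
  refine (sq_sum_le_card_mul_sum_sq).trans ?_
  refine mul_le_mul_of_nonneg_right ?_ (sum_nonneg fun j _ => sq_nonneg _)
  split_ifs with h
  · have h3 : S.card ≤ D := by
      have h4 : S ⊆ univ.erase i := by
        intro j hj
        rw [hS, mem_filter] at hj
        exact mem_erase.2 ⟨hj.2.1, mem_univ _⟩
      have h5 := card_le_card h4
      rwa [card_erase_of_mem (mem_univ _), card_univ, Fintype.card_fin,
        Nat.add_sub_cancel] at h5
    have h6 : (S.card : ℝ) ≤ D := by exact_mod_cast h3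
    linarith
  · obtain ⟨l, hl⟩ := not_forall.1 h
    obtain ⟨hl1, hl2⟩ := Classical.not_imp.1 hl
    have h3 : S.card ≤ D - 1 := by
      have h4 : S ⊆ (univ.erase i).erase l := by
        intro j hj
        rw [hS, mem_filter] at hj
        refine mem_erase.2 ⟨?_, mem_erase.2 ⟨hj.2.1, mem_univ _⟩⟩
        rintro rfl
        exact hl2 hj.2.2
      have h5 := card_le_card h4
      rwa [card_erase_of_mem (mem_erase.2 ⟨hl1, mem_univ _⟩), card_erase_of_mem (mem_univ _),
        card_univ, Fintype.card_fin, Nat.add_sub_cancel] at h5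
    have h6 : (S.card : ℝ) ≤ ((D - 1 : ℕ) : ℝ) := by exact_mod_cast h3
    rw [Nat.cast_sub hD] at h6
    push_cast at h6
    linarith

theorem cflowb_sum [NeZero n] (j : Fin (D + 1)) (f : Vtx (D + 1) n → ℝ) :
    ∑ x, f x = ∑ t : ZMod n, ∑ y : Vtx D n, f (insV j t y) := by
  rw [← Fintype.sum_prod_type']
  exact (Fintype.sum_equiv (Fin.insertNthEquiv (fun _ => ZMod n) j)
    (fun p : ZMod n × Vtx D n => f (insV j p.1 p.2)) f (fun p => rfl)).symm

theorem cflowb_res (j : Fin (D + 1)) (t : ZMod n) (y : Vtx D n) :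
    (fun l => insV j t y (j.succAbove l)) = y := by
  funext l
  exact insV_succ _ _ _ _

theorem cflowb_energy [NeZero n] (θ : Fin D → Vtx D n → ℝ) (j : Fin (D + 1)) :
    ∑ i, ∑ x, cflowb_push θ j i x ^ 2 = ∑ k, ∑ y, θ k y ^ 2 := by
  rw [Fin.sum_univ_succAbove _ j]
  have h0 : ∑ x, cflowb_push θ j j x ^ 2 = 0 := by
    refine sum_eq_zero fun x _ => ?_
    rw [cflowb_push_same]
    ring
  rw [h0, zero_add]
  refine sum_congr rfl fun k _ => ?_
  rw [cflowb_sum j, sum_eq_single (0 : ZMod n)]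
  · refine sum_congr rfl fun y _ => ?_
    rw [cflowb_push_succ, insV_same, if_pos rfl, cflowb_res]
  · intro t _ ht
    refine sum_eq_zero fun y _ => ?_
    rw [cflowb_push_succ, insV_same, if_neg ht]
    ring
  · intro h
    exact absurd (mem_univ _) h

theorem cflowb_axis [NeZero n] (θ : Fin D → Vtx D n → ℝ) (j : Fin (D + 1)) :
    ∑ i, ∑ x ∈ univ.filter (fun x : Vtx (D + 1) n => ∀ l, l ≠ i → x l = 0),
      cflowb_push θ j i x ^ 2 =
    ∑ k, ∑ y ∈ univ.filter (fun x : Vtx D n => ∀ l, l ≠ k → x l = 0), θ k y ^ 2 := by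
  rw [Fin.sum_univ_succAbove _ j]
  have h0 : ∑ x ∈ univ.filter (fun x : Vtx (D + 1) n => ∀ l, l ≠ j → x l = 0),
      cflowb_push θ j j x ^ 2 = 0 := by
    refine sum_eq_zero fun x _ => ?_
    rw [cflowb_push_same]
    ring
  rw [h0, zero_add]
  refine sum_congr rfl fun k _ => ?_
  rw [sum_filter, sum_filter, cflowb_sum j, sum_eq_single (0 : ZMod n)]
  · refine sum_congr rfl fun y _ => ?_
    rw [cflowb_push_succ, insV_same, if_pos rfl, cflowb_res]
    have h1 : (∀ l, l ≠ j.succAbove k → insV j 0 y l = 0) ↔ ∀ l, l ≠ k → y l = 0 := by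
      constructor
      · intro h l hl
        have := h (j.succAbove l) fun h2 => hl (Fin.succAbove_right_injective h2)
        rwa [insV_succ] at this
      · intro h l hl
        rcases Fin.eq_self_or_eq_succAbove j l with rfl | ⟨m, rfl⟩
        · exact insV_same _ _ _
        · rw [insV_succ]
          exact h m fun h2 => hl (by rw [h2])
    by_cases h2 : ∀ l, l ≠ k → y l = 0
    · rw [if_pos h2, if_pos (h1.2 h2)]
    · rw [if_neg h2, if_neg (fun h3 => h2 (h1.1 h3))]
  · intro t _ ht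
    refine sum_eq_zero fun y _ => ?_
    rw [cflowb_push_succ, insV_same, if_neg ht]
    split_ifs
    · ring
    · rfl
  · intro h
    exact absurd (mem_univ _) h

/-- Induction step: for `j : Fin (D + 1)` push the flow to the hyperplane `x j = 0` (`insV j 0 y`), and take `1 / D` times the sum over
`j`; each neighbour `± e_i` of the origin lies in `D` of the `D + 1` hyperplanes. An edge in direction `i` at `x` lies in the
hyperplanes `j ≠ i`, `x j = 0`: at most `D`, and at most `D - 1` if it is not on the axis. Cauchy-Schwarz: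
`E' ≤ (1/D²) (D + 1) ((D - 1) (E - A) + D A)`, `A' ≤ ((D+1)/D) A` (`A` the energy on the axes). With
`E ≤ D/(D-1) (8D/3 - .08)`, `A ≤ 8D/3`: `E' ≤ ((D+1)/D) (8 (D+1)/3 - .08)`. -/
theorem flow_step (D n : ℕ) [NeZero n] (hn : 4 ≤ n) (hD : 3 ≤ D) (C : ℝ) (hC : 0 ≤ C)
    (h : FlowP D n C) : FlowP (D + 1) n (2 * C) := by
  obtain ⟨θ, μ, hdiv, hμ0, hμ, hE, hA⟩ := h
  have hD0 : (0 : ℝ) < D := by
    have : 0 < D := by omega
    exact_mod_cast this
  have hD3 : (3 : ℝ) ≤ D := by exact_mod_cast hD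
  have hn0 : (0 : ℝ) < n := by
    have : 0 < n := by omega
    exact_mod_cast this
  refine ⟨fun i x => (1 / (D : ℝ)) * ∑ j, cflowb_push θ j i x,
    fun x => (1 / (D : ℝ)) * ∑ j : Fin (D + 1),
      if x j = 0 then μ (fun l => x (j.succAbove l)) else 0, ?_, ?_, ?_, ?_, ?_⟩
  · -- the divergence
    intro x
    have h1 : ∑ i, ((1 / (D : ℝ)) * ∑ j, cflowb_push θ j i x -
        (1 / (D : ℝ)) * ∑ j, cflowb_push θ j i (x - stp i)) =
        (1 / (D : ℝ)) * ∑ j, ∑ i, (cflowb_push θ j i x - cflowb_push θ j i (x - stp i)) := by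
      rw [sum_comm, mul_sum]
      refine sum_congr rfl fun i _ => ?_
      rw [← mul_sub, ← sum_sub_distrib]
    rw [h1]
    have h2 : ∀ j : Fin (D + 1),
        ∑ i, (cflowb_push θ j i x - cflowb_push θ j i (x - stp i)) =
        (if x j = 0 then vD (fun l => x (j.succAbove l)) else 0) -
          (if x j = 0 then μ (fun l => x (j.succAbove l)) else 0) := by
      intro j
      rw [cflowb_div]
      split_ifs with h3
      · exact hdiv _
      · ring
    simp only [h2]
    rw [sum_sub_distrib, cflowb_vD_sum, mul_sub]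
    congr 1
    field_simp
  · intro x
    refine mul_nonneg (by positivity) (sum_nonneg fun j _ => ?_)
    split_ifs
    · exact hμ0 _
    · exact le_rfl
  · intro x
    have h1 : ∀ j : Fin (D + 1), (if x j = 0 then μ (fun l => x (j.succAbove l)) else 0) ≤
        C / (n : ℝ) ^ 3 := by
      intro j
      split_ifs
      · exact hμ _
      · positivity
    have h2 := sum_le_card_nsmul univ _ _ fun j _ => h1 j
    rw [card_univ, Fintype.card_fin, nsmul_eq_mul] at h2
    push_cast at h2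
    have h3 : (1 / (D : ℝ)) * ((D + 1) * (C / (n : ℝ) ^ 3)) ≤ 2 * C / (n : ℝ) ^ 3 := by
      have h4 : (1 / (D : ℝ)) * (D + 1) ≤ 2 := by
        rw [one_div, inv_mul_le_iff₀ hD0]
        linarith
      calc (1 / (D : ℝ)) * ((D + 1) * (C / (n : ℝ) ^ 3))
          = ((1 / (D : ℝ)) * (D + 1)) * (C / (n : ℝ) ^ 3) := by ring
        _ ≤ 2 * (C / (n : ℝ) ^ 3) := mul_le_mul_of_nonneg_right h4 (by positivity)
        _ = 2 * C / (n : ℝ) ^ 3 := by ring
    exact (mul_le_mul_of_nonneg_left h2 (by positivity)).trans h3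
  · -- the energy
    have h1 : ∑ i, ∑ x, ((1 / (D : ℝ)) * ∑ j, cflowb_push θ j i x) ^ 2 ≤
        (1 / (D : ℝ)) ^ 2 * ∑ i, ∑ x : Vtx (D + 1) n,
          ((D : ℝ) - 1 + if (∀ l, l ≠ i → x l = 0) then 1 else 0) *
            ∑ j, cflowb_push θ j i x ^ 2 := by
      rw [mul_sum]
      refine sum_le_sum fun i _ => ?_
      rw [mul_sum]
      refine sum_le_sum fun x _ => ?_
      rw [mul_pow]
      exact mul_le_mul_of_nonneg_left (cflowb_cs θ i x (by omega)) (by positivity)
    have h2 : ∑ i, ∑ x : Vtx (D + 1) n,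
          ((D : ℝ) - 1 + if (∀ l, l ≠ i → x l = 0) then 1 else 0) *
            ∑ j, cflowb_push θ j i x ^ 2 =
        ∑ j, (((D : ℝ) - 1) * ∑ i, ∑ x, cflowb_push θ j i x ^ 2 +
          ∑ i, ∑ x ∈ univ.filter (fun x : Vtx (D + 1) n => ∀ l, l ≠ i → x l = 0),
            cflowb_push θ j i x ^ 2) := by
      rw [sum_add_distrib, ← mul_sum, sum_comm (s := univ) (t := univ)
        (f := fun j i => ∑ x, cflowb_push θ j i x ^ 2),
        sum_comm (s := univ) (t := univ)
        (f := fun j i => ∑ x ∈ univ.filter (fun x : Vtx (D + 1) n => ∀ l, l ≠ i → x l = 0),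
            cflowb_push θ j i x ^ 2), mul_sum, ← sum_add_distrib]
      refine sum_congr rfl fun i _ => ?_
      rw [sum_comm (f := fun j x => cflowb_push θ j i x ^ 2)]
      have h3 : ∑ j : Fin (D + 1), ∑ x ∈ univ.filter
          (fun x : Vtx (D + 1) n => ∀ l, l ≠ i → x l = 0), cflowb_push θ j i x ^ 2 =
          ∑ x : Vtx (D + 1) n, if (∀ l, l ≠ i → x l = 0) then
            ∑ j, cflowb_push θ j i x ^ 2 else 0 := by
        rw [sum_comm, sum_filter]
      rw [h3, mul_sum, ← sum_add_distrib]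
      refine sum_congr rfl fun x _ => ?_
      split_ifs <;> ring
    refine h1.trans ?_
    rw [h2]
    simp only [cflowb_energy, cflowb_axis]
    rw [sum_const, card_univ, Fintype.card_fin, nsmul_eq_mul]
    set E := ∑ i, ∑ x, θ i x ^ 2
    set A := ∑ i, ∑ x ∈ univ.filter (fun x : Vtx D n => ∀ j, j ≠ i → x j = 0), θ i x ^ 2
    have hD1 : (0 : ℝ) < (D : ℝ) - 1 := by linarith
    have hE2 : ((D : ℝ) - 1) * E ≤ D * (8 * (D : ℝ) / 3 - 8 / 100) := by
      calc ((D : ℝ) - 1) * E ≤ ((D : ℝ) - 1) *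
          ((D : ℝ) / ((D : ℝ) - 1) * (8 * (D : ℝ) / 3 - 8 / 100)) :=
            mul_le_mul_of_nonneg_left hE hD1.le
        _ = D * (8 * (D : ℝ) / 3 - 8 / 100) := by
            field_simp
    have h4 : ((D : ℝ) - 1) * E + A ≤ D * (8 * ((D : ℝ) + 1) / 3 - 8 / 100) := by
      linarith
    push_cast
    have h5 : ((D : ℝ) + 1) / ((D : ℝ) + 1 - 1) * (8 * ((D : ℝ) + 1) / 3 - 8 / 100) =
        (1 / (D : ℝ)) ^ 2 * (((D : ℝ) + 1) * (D * (8 * ((D : ℝ) + 1) / 3 - 8 / 100))) := by
      rw [add_sub_cancel_right]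
      field_simp
    rw [h5]
    refine mul_le_mul_of_nonneg_left ?_ (by positivity)
    exact mul_le_mul_of_nonneg_left h4 (by positivity)
  · -- the energy on the axes
    have h1 : ∑ i, ∑ x ∈ univ.filter (fun x : Vtx (D + 1) n => ∀ j, j ≠ i → x j = 0),
        ((1 / (D : ℝ)) * ∑ j, cflowb_push θ j i x) ^ 2 ≤
        (1 / (D : ℝ)) ^ 2 * ∑ i, ∑ x ∈ univ.filter
          (fun x : Vtx (D + 1) n => ∀ j, j ≠ i → x j = 0),
          (D : ℝ) * ∑ j, cflowb_push θ j i x ^ 2 := by
      rw [mul_sum]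
      refine sum_le_sum fun i _ => ?_
      rw [mul_sum]
      refine sum_le_sum fun x hx => ?_
      rw [mul_pow]
      refine mul_le_mul_of_nonneg_left ?_ (by positivity)
      have h2 := cflowb_cs θ i x (by omega)
      rw [if_pos (mem_filter.1 hx).2, sub_add_cancel] at h2
      exact h2
    refine h1.trans ?_
    have h2 : ∑ i, ∑ x ∈ univ.filter (fun x : Vtx (D + 1) n => ∀ j, j ≠ i → x j = 0),
          (D : ℝ) * ∑ j, cflowb_push θ j i x ^ 2 =
        (D : ℝ) * ∑ j : Fin (D + 1), ∑ i, ∑ x ∈ univ.filter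
          (fun x : Vtx (D + 1) n => ∀ j, j ≠ i → x j = 0), cflowb_push θ j i x ^ 2 := by
      rw [sum_comm (s := univ) (t := univ)
        (f := fun j i => ∑ x ∈ univ.filter (fun x : Vtx (D + 1) n => ∀ l, l ≠ i → x l = 0),
            cflowb_push θ j i x ^ 2), mul_sum]
      refine sum_congr rfl fun i _ => ?_
      rw [sum_comm, mul_sum]
    rw [h2]
    simp only [cflowb_axis]
    rw [sum_const, card_univ, Fintype.card_fin, nsmul_eq_mul]
    set A := ∑ i, ∑ x ∈ univ.filter (fun x : Vtx D n => ∀ j, j ≠ i → x j = 0), θ i x ^ 2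
    push_cast
    have h5 : 8 * ((D : ℝ) + 1) / 3 =
        (1 / (D : ℝ)) ^ 2 * (D * (((D : ℝ) + 1) * (8 * (D : ℝ) / 3))) := by
      field_simp
    rw [h5]
    refine mul_le_mul_of_nonneg_left ?_ (by positivity)
    refine mul_le_mul_of_nonneg_left ?_ hD0.le
    exact mul_le_mul_of_nonneg_left hA (by positivity)

theorem flow_all (D : ℕ) (hD : 3 ≤ D) :
    ∃ C : ℝ, 0 ≤ C ∧ ∀ (n : ℕ) [NeZero n], 8 ≤ n → Even n → FlowP D n C := by
  obtain ⟨k, rfl⟩ : ∃ k, D = 3 + k := ⟨D - 3, by omega⟩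
  clear hD
  induction k with
  | zero => exact flow_base
  | succ k ih =>
    obtain ⟨C, hC, h⟩ := ih
    exact ⟨2 * C, by positivity, fun n _ h8 he =>
      flow_step (3 + k) n (by omega) (by omega) C hC (h n h8 he)⟩

end LibDim
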