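import Pool.Agent.LibDimB.CFlow
import Pool.Agent.LibDimB.BIrU

/-! Row CLRO: the `H^{-1}` norm on the torus and the source. -/

namespace LibDim

open Finset

variable {D n : ℕ}

/-- the `H^{-1}` norm -/
noncomputable def Hm [NeZero n] (f : Vtx D n → ℝ) : ℝ :=
  (∑ k ∈ univ.erase (0 : Vtx D n), ‖FT (fun x => (f x : ℂ)) k‖ ^ 2 / EL k) / (n : ℝ) ^ D

theorem clro_npos [NeZero n] : (0 : ℝ) < (n : ℝ) ^ D := by
  have : (0 : ℝ) < (n : ℝ) := by exact_mod_cast Nat.pos_of_ne_zero (NeZero.ne n)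
  positivity

theorem clro_ELpos [NeZero n] (k : Vtx D n) (h : k ≠ 0) : 0 < EL k := by
  have h1 := EL_gap k h
  have : (0 : ℝ) < (n : ℝ) := by exact_mod_cast Nat.pos_of_ne_zero (NeZero.ne n)
  have h2 : 0 < 16 / (n : ℝ) ^ 2 := by positivity
  linarith

theorem clro_FT0 [NeZero n] (f : Vtx D n → ℝ) :
    FT (fun x => (f x : ℂ)) (0 : Vtx D n) = ((∑ x, f x : ℝ) : ℂ) := by
  unfold FT
  push_cast
  exact Finset.sum_congr rfl fun x _ => by rw [chr_zero_left, mul_one]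

/-- `FT_quad`, `ir_bound` -/
theorem Hm_ir {d : ℕ} [NeZero n] (hn : 4 ≤ n) (he : Even n) (f : Vtx (d + 1) n → ℝ)
    (hf : ∑ x, f x = 0) :
    ∑ x, ∑ y, f x * f y * Gm x y ≤ (1 - 1 / ((d : ℝ) + 1)) * Hm f := by
  have hN : (0 : ℝ) < (n : ℝ) ^ (d + 1) := clro_npos
  have hc : ∀ x : Vtx (d + 1) n, Gm 0 (-x) = Gm 0 x := by
    intro x
    have h1 := Gm_shift (0 : Vtx (d + 1) n) (-x) x
    rw [zero_add, neg_add_cancel, Gm_comm] at h1
    exact h1.symm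
  have h1 := FT_quad (fun x => Gm (0 : Vtx (d + 1) n) x) hc f
  have h2 : ∑ x, ∑ y, f x * f y * Gm x y = ∑ x, ∑ y, f x * f y * Gm 0 (y - x) :=
    Finset.sum_congr rfl fun x _ => Finset.sum_congr rfl fun y _ => by rw [Gm_zero x y]
  rw [← h2] at h1
  have h3 : ∑ k : Vtx (d + 1) n, (∑ x, Gm 0 x * (chr k x).re) * ‖FT (fun x => (f x : ℂ)) k‖ ^ 2
      ≤ (1 - 1 / ((d : ℝ) + 1)) * ∑ k ∈ univ.erase (0 : Vtx (d + 1) n),
        ‖FT (fun x => (f x : ℂ)) k‖ ^ 2 / EL k := by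
    rw [← Finset.add_sum_erase _ _ (Finset.mem_univ (0 : Vtx (d + 1) n)), clro_FT0, hf,
      Finset.mul_sum]
    simp only [Complex.ofReal_zero, norm_zero, ne_eq, OfNat.ofNat_ne_zero, not_false_eq_true,
      zero_pow, mul_zero, zero_add]
    refine Finset.sum_le_sum fun k hk => ?_
    have hk0 : k ≠ 0 := (Finset.mem_erase.1 hk).1
    have hE := clro_ELpos k hk0
    have hb := ir_bound hn he k
    have h5 : Gh k ≤ (1 - 1 / ((d : ℝ) + 1)) / EL k := by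
      rw [le_div_iff₀ hE]
      have : EL k * (Gh k * EL k) ≤ EL k * (1 - 1 / ((d : ℝ) + 1)) := by nlinarith
      exact le_of_mul_le_mul_left this hE
    have h6 : (∑ x, Gm 0 x * (chr k x).re) = Gh k := rfl
    rw [h6]
    calc Gh k * ‖FT (fun x => (f x : ℂ)) k‖ ^ 2
        ≤ (1 - 1 / ((d : ℝ) + 1)) / EL k * ‖FT (fun x => (f x : ℂ)) k‖ ^ 2 :=
          mul_le_mul_of_nonneg_right h5 (by positivity)
      _ = (1 - 1 / ((d : ℝ) + 1)) * (‖FT (fun x => (f x : ℂ)) k‖ ^ 2 / EL k) := by ring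
  unfold Hm
  rw [← mul_div_assoc, le_div_iff₀ hN]
  linarith

/-- `‖∑_i (1 - ζ_i) FT θ_i‖² ≤ EL k ∑_i ‖FT θ_i‖²` and Parseval -/
theorem Hm_div [NeZero n] (θ : Fin D → Vtx D n → ℝ) (f : Vtx D n → ℝ)
    (hf : ∀ x, f x = ∑ i, (θ i x - θ i (x - stp i))) : Hm f ≤ ∑ i, ∑ x, θ i x ^ 2 := by
  have hN : (0 : ℝ) < (n : ℝ) ^ D := clro_npos
  have h1 : ∀ k : Vtx D n, FT (fun x => (f x : ℂ)) k
      = ∑ i, (1 - chr k (stp i)) * FT (fun x => (θ i x : ℂ)) k := by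
    intro k
    have h2 : ∀ i, (1 - chr k (stp i)) * FT (fun x => (θ i x : ℂ)) k
        = FT (fun x => (θ i x : ℂ) - (θ i (x - stp i) : ℂ)) k := by
      intro i
      have h3 := FT_shift (fun x => (θ i x : ℂ)) (stp i) k
      rw [sub_mul, one_mul, ← h3]
      unfold FT
      rw [← Finset.sum_sub_distrib]
      exact Finset.sum_congr rfl fun x _ => by ring
    simp_rw [h2]
    unfold FT
    rw [Finset.sum_comm]
    refine Finset.sum_congr rfl fun x _ => ?_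
    show (f x : ℂ) * chr k x = ∑ i, ((θ i x : ℂ) - (θ i (x - stp i) : ℂ)) * chr k x
    rw [hf x, ← Finset.sum_mul]
    push_cast
    rfl
  have h4 : ∀ k : Vtx D n, ‖FT (fun x => (f x : ℂ)) k‖ ^ 2
      ≤ EL k * ∑ i, ‖FT (fun x => (θ i x : ℂ)) k‖ ^ 2 := by
    intro k
    rw [h1 k, EL_norm k]
    have h5 : ‖∑ i, (1 - chr k (stp i)) * FT (fun x => (θ i x : ℂ)) k‖
        ≤ ∑ i, ‖1 - chr k (stp i)‖ * ‖FT (fun x => (θ i x : ℂ)) k‖ := by
      refine (norm_sum_le _ _).trans (le_of_eq ?_)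
      exact Finset.sum_congr rfl fun i _ => norm_mul _ _
    have h6 := Finset.sum_mul_sq_le_sq_mul_sq univ (fun i => ‖1 - chr k (stp i)‖)
      (fun i => ‖FT (fun x => (θ i x : ℂ)) k‖)
    refine le_trans ?_ h6
    exact pow_le_pow_left₀ (norm_nonneg _) h5 2
  unfold Hm
  rw [div_le_iff₀ hN]
  have h7 : ∑ k ∈ univ.erase (0 : Vtx D n), ‖FT (fun x => (f x : ℂ)) k‖ ^ 2 / EL k
      ≤ ∑ k ∈ univ.erase (0 : Vtx D n), ∑ i, ‖FT (fun x => (θ i x : ℂ)) k‖ ^ 2 := by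
    refine Finset.sum_le_sum fun k hk => ?_
    have hE := clro_ELpos k (Finset.mem_erase.1 hk).1
    rw [div_le_iff₀ hE, mul_comm]
    exact h4 k
  refine h7.trans ?_
  have h8 : ∑ k ∈ univ.erase (0 : Vtx D n), ∑ i, ‖FT (fun x => (θ i x : ℂ)) k‖ ^ 2
      ≤ ∑ k : Vtx D n, ∑ i, ‖FT (fun x => (θ i x : ℂ)) k‖ ^ 2 :=
    Finset.sum_le_sum_of_subset_of_nonneg (Finset.erase_subset _ _)
      fun k _ _ => Finset.sum_nonneg fun i _ => by positivity
  refine h8.trans (le_of_eq ?_)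
  rw [Finset.sum_comm, Finset.sum_mul]
  refine Finset.sum_congr rfl fun i _ => ?_
  rw [← FT_parseval, mul_comm]
  congr 1
  refine Finset.sum_congr rfl fun x _ => ?_
  rw [Complex.norm_real, Real.norm_eq_abs, sq_abs]

theorem Hm_add [NeZero n] (f g : Vtx D n → ℝ) (t : ℝ) (ht : 0 < t) :
    Hm (fun x => f x + g x) ≤ (1 + t) * Hm f + (1 + 1 / t) * Hm g := by
  have hN : (0 : ℝ) < (n : ℝ) ^ D := clro_npos
  unfold Hm
  rw [← mul_div_assoc, ← mul_div_assoc, ← add_div, Finset.mul_sum, Finset.mul_sum,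
    ← Finset.sum_add_distrib]
  refine div_le_div_of_nonneg_right ?_ hN.le
  refine Finset.sum_le_sum fun k hk => ?_
  have hE := clro_ELpos k (Finset.mem_erase.1 hk).1
  rw [← mul_div_assoc, ← mul_div_assoc, ← add_div]
  refine div_le_div_of_nonneg_right ?_ hE.le
  have h1 : FT (fun x => ((f x + g x : ℝ) : ℂ)) k
      = FT (fun x => (f x : ℂ)) k + FT (fun x => (g x : ℂ)) k := by
    unfold FT
    rw [← Finset.sum_add_distrib]
    exact Finset.sum_congr rfl fun x _ => by push_cast; ring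
  rw [h1]
  have h2 := norm_add_le (FT (fun x => (f x : ℂ)) k) (FT (fun x => (g x : ℂ)) k)
  have h3 : ‖FT (fun x => (f x : ℂ)) k + FT (fun x => (g x : ℂ)) k‖ ^ 2
      ≤ (‖FT (fun x => (f x : ℂ)) k‖ + ‖FT (fun x => (g x : ℂ)) k‖) ^ 2 :=
    pow_le_pow_left₀ (norm_nonneg _) h2 2
  refine h3.trans ?_
  generalize ‖FT (fun x => (f x : ℂ)) k‖ = a
  generalize ‖FT (fun x => (g x : ℂ)) k‖ = b
  have h4 : 0 ≤ (t * a - b) ^ 2 / t := by positivity
  have h5 : (t * a - b) ^ 2 / t = t * a ^ 2 - 2 * a * b + 1 / t * b ^ 2 := by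
    field_simp
    ring
  nlinarith

/-- `EL_gap` and Parseval -/
theorem Hm_gap [NeZero n] (f : Vtx D n → ℝ) : Hm f ≤ (n : ℝ) ^ 2 / 16 * ∑ x, f x ^ 2 := by
  have hN : (0 : ℝ) < (n : ℝ) ^ D := clro_npos
  have hn : (0 : ℝ) < (n : ℝ) := by exact_mod_cast Nat.pos_of_ne_zero (NeZero.ne n)
  unfold Hm
  rw [div_le_iff₀ hN]
  have h1 : ∑ k ∈ univ.erase (0 : Vtx D n), ‖FT (fun x => (f x : ℂ)) k‖ ^ 2 / EL k
      ≤ ∑ k ∈ univ.erase (0 : Vtx D n), (n : ℝ) ^ 2 / 16 * ‖FT (fun x => (f x : ℂ)) k‖ ^ 2 := by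
    refine Finset.sum_le_sum fun k hk => ?_
    have hk0 := (Finset.mem_erase.1 hk).1
    have hE := clro_ELpos k hk0
    have hg := EL_gap k hk0
    rw [div_le_iff₀ hE]
    have h2 : 1 ≤ (n : ℝ) ^ 2 / 16 * EL k := by
      have h3 : (n : ℝ) ^ 2 / 16 * (16 / (n : ℝ) ^ 2) = 1 := by
        field_simp
      rw [← h3]
      exact mul_le_mul_of_nonneg_left hg (by positivity)
    have h4 : 0 ≤ ‖FT (fun x => (f x : ℂ)) k‖ ^ 2 := by positivity
    nlinarith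
  refine h1.trans ?_
  have h5 : ∑ k ∈ univ.erase (0 : Vtx D n), (n : ℝ) ^ 2 / 16 * ‖FT (fun x => (f x : ℂ)) k‖ ^ 2
      ≤ ∑ k : Vtx D n, (n : ℝ) ^ 2 / 16 * ‖FT (fun x => (f x : ℂ)) k‖ ^ 2 :=
    Finset.sum_le_sum_of_subset_of_nonneg (Finset.erase_subset _ _)
      fun k _ _ => by positivity
  refine h5.trans (le_of_eq ?_)
  rw [← Finset.mul_sum, ← FT_parseval, mul_assoc]
  congr 1
  rw [mul_comm]
  congr 1
  refine Finset.sum_congr rfl fun x _ => ?_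
  rw [Complex.norm_real, Real.norm_eq_abs, sq_abs]

/-- sums against the source -/
theorem clro_vD [NeZero n] (f : Vtx D n → ℝ) :
    ∑ x, vD x * f x = (4 * (D : ℝ) / 3) * f 0 + ∑ i, (f (stp i) + f (-stp i)) := by
  unfold vD
  simp_rw [add_mul, Finset.sum_mul, Finset.sum_add_distrib, add_mul]
  rw [Finset.sum_comm]
  simp_rw [Finset.sum_add_distrib]
  simp [Finset.sum_ite_eq', ite_mul]

theorem clro_G1 [NeZero n] (hD : 0 < D) (hn : 4 ≤ n) (he : Even n) (i : Fin D) :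
    Gm (0 : Vtx D n) (stp i) = 1 / (2 * D) := by
  have := Gm_nbr hD hn he (0 : Vtx D n) i
  rw [zero_add] at this
  exact this

theorem clro_G2 [NeZero n] (hD : 0 < D) (hn : 4 ≤ n) (he : Even n) (i : Fin D) :
    Gm (0 : Vtx D n) (-stp i) = 1 / (2 * D) := by
  have h1 := Gm_shift (0 : Vtx D n) (-stp i) (stp i)
  rw [zero_add, neg_add_cancel, Gm_comm, clro_G1 hD hn he] at h1
  exact h1.symm

theorem clro_val_neg_one [NeZero n] (hn : 4 ≤ n) : (-1 : ZMod n).val = n - 1 := by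
  obtain ⟨m, rfl⟩ : ∃ m, n = m + 1 := ⟨n - 1, by omega⟩
  rw [ZMod.val_neg_one]
  rfl

theorem clro_sgn [NeZero n] (hn : 4 ≤ n) (i : Fin D) :
    sgnV (stp i : Vtx D n) = -1 := by
  unfold sgnV stp
  have : Fact (1 < n) := ⟨by omega⟩
  have h1 : ∑ j, ((Pi.single i (1 : ZMod n) : Vtx D n) j).val = 1 := by
    rw [Finset.sum_eq_single i]
    · rw [Pi.single_eq_same, ZMod.val_one]
    · intro j _ hj
      rw [Pi.single_eq_of_ne hj, ZMod.val_zero]
    · intro h; exact absurd (Finset.mem_univ _) h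
  rw [h1, pow_one]

theorem clro_sgn' [NeZero n] (hn : 4 ≤ n) (he : Even n) (i : Fin D) :
    sgnV (-stp i : Vtx D n) = -1 := by
  unfold sgnV stp
  have h1 : ∑ j, ((-Pi.single i (1 : ZMod n) : Vtx D n) j).val = n - 1 := by
    rw [Finset.sum_eq_single i]
    · rw [Pi.neg_apply, Pi.single_eq_same, clro_val_neg_one hn]
    · intro j _ hj
      rw [Pi.neg_apply, Pi.single_eq_of_ne hj, neg_zero, ZMod.val_zero]
    · intro h; exact absurd (Finset.mem_univ _) h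
  rw [h1]
  obtain ⟨k, hk⟩ := he
  exact Odd.neg_one_pow ⟨k - 1, by omega⟩

/-- `⟨v, G v⟩ = 2 α`, `α = 4 D / 3` (parity and the sum rule `Gm_nbr`) -/
theorem vDGvD [NeZero n] (hD : 0 < D) (hn : 4 ≤ n) (he : Even n) :
    ∑ x : Vtx D n, ∑ y, vD x * vD y * Gm x y = 8 * (D : ℝ) / 3 := by
  have h1 : ∀ x : Vtx D n, ∑ y, vD x * vD y * Gm x y =
      vD x * ((4 * (D : ℝ) / 3) * Gm x 0 + ∑ i, (Gm x (stp i) + Gm x (-stp i))) := by
    intro x
    rw [← clro_vD (fun y => Gm x y), Finset.mul_sum]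
    exact Finset.sum_congr rfl fun y _ => by ring
  simp_rw [h1]
  rw [clro_vD]
  have g0 : Gm (0 : Vtx D n) 0 = 0 := Gm_parity hD hn he 0 0 rfl
  have p1 : ∀ i j : Fin D, Gm (stp i : Vtx D n) (stp j) = 0 := fun i j =>
    Gm_parity hD hn he _ _ (by rw [clro_sgn hn, clro_sgn hn])
  have p2 : ∀ i j : Fin D, Gm (stp i : Vtx D n) (-stp j) = 0 := fun i j =>
    Gm_parity hD hn he _ _ (by rw [clro_sgn hn, clro_sgn' hn he])
  have p3 : ∀ i j : Fin D, Gm (-stp i : Vtx D n) (stp j) = 0 := fun i j =>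
    Gm_parity hD hn he _ _ (by rw [clro_sgn hn, clro_sgn' hn he])
  have p4 : ∀ i j : Fin D, Gm (-stp i : Vtx D n) (-stp j) = 0 := fun i j =>
    Gm_parity hD hn he _ _ (by rw [clro_sgn' hn he, clro_sgn' hn he])
  have c1 : ∀ i : Fin D, Gm (stp i : Vtx D n) 0 = 1 / (2 * D) := fun i => by
    rw [Gm_comm, clro_G1 hD hn he]
  have c2 : ∀ i : Fin D, Gm (-stp i : Vtx D n) 0 = 1 / (2 * D) := fun i => by
    rw [Gm_comm, clro_G2 hD hn he]
  simp only [g0, p1, p2, p3, p4, c1, c2, clro_G1 hD hn he, clro_G2 hD hn he]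
  simp only [Finset.sum_const, Finset.card_univ, Fintype.card_fin, nsmul_eq_mul]
  have hD' : (D : ℝ) ≠ 0 := by exact_mod_cast hD.ne'
  field_simp
  ring

theorem vD_sum [NeZero n] (hn : 4 ≤ n) : ∑ x : Vtx D n, vD x = 10 * (D : ℝ) / 3 := by
  have h1 := clro_vD (D := D) (n := n) (fun _ => (1 : ℝ))
  simp only [mul_one] at h1
  rw [h1]
  simp only [Finset.sum_const, Finset.card_univ, Fintype.card_fin, nsmul_eq_mul]
  ring

end LibDim
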