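import Pool.Agent.LibDimB.CLro
import Pool.Agent.LibDimB.CFlowB

/-! Row CLROB: long range order of the monomer correlation in all dimensions `D ≥ 3`. -/

namespace LibDim

open Finset

variable {D n : ℕ}

theorem clrob_Gh [NeZero n] (x : Vtx D n) : ∑ y, Gm x y = Gh (0 : Vtx D n) := by
  unfold Gh chr
  simp only [Pi.zero_apply, zero_mul, AddChar.map_zero_eq_one, Finset.prod_const_one,
    Complex.one_re, mul_one]
  rw [← Equiv.sum_comp (Equiv.addRight x)]
  refine Finset.sum_congr rfl fun y _ => ?_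
  rw [Equiv.coe_addRight]
  have := Gm_shift (0 : Vtx D n) y x
  rw [zero_add] at this
  exact this

theorem clrob_Gh' [NeZero n] (y : Vtx D n) : ∑ x, Gm x y = Gh (0 : Vtx D n) := by
  rw [← clrob_Gh y]
  exact Finset.sum_congr rfl fun x _ => Gm_comm x y

/-- the quadratic form of the monomer correlation on `v - c` -/
theorem clrob_quad [NeZero n] (v : Vtx D n → ℝ) (c : ℝ) :
    ∑ x, ∑ y, (v x - c) * (v y - c) * Gm x y
      = ∑ x, ∑ y, v x * v y * Gm x y - 2 * c * (∑ x, v x) * Gh (0 : Vtx D n)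
        + c ^ 2 * (n : ℝ) ^ D * Gh (0 : Vtx D n) := by
  have h1 : ∑ x, ∑ y, (v x - c) * (v y - c) * Gm x y
      = ∑ x, ∑ y, v x * v y * Gm x y - c * ∑ x, v x * ∑ y, Gm x y
        - c * ∑ y, v y * ∑ x, Gm x y + c ^ 2 * ∑ x : Vtx D n, ∑ y : Vtx D n, Gm x y := by
    have e1 : ∑ y : Vtx D n, v y * ∑ x : Vtx D n, Gm x y
        = ∑ x : Vtx D n, ∑ y : Vtx D n, v y * Gm x y := by
      rw [Finset.sum_comm]
      exact Finset.sum_congr rfl fun y _ => by rw [Finset.mul_sum]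
    rw [e1]
    simp only [Finset.mul_sum]
    rw [← Finset.sum_sub_distrib, ← Finset.sum_sub_distrib, ← Finset.sum_add_distrib]
    refine Finset.sum_congr rfl fun x _ => ?_
    rw [← Finset.sum_sub_distrib, ← Finset.sum_sub_distrib, ← Finset.sum_add_distrib]
    exact Finset.sum_congr rfl fun y _ => by ring
  rw [h1]
  have e2 : ∑ x : Vtx D n, v x * ∑ y, Gm x y = (∑ x, v x) * Gh (0 : Vtx D n) := by
    rw [Finset.sum_mul]
    exact Finset.sum_congr rfl fun x _ => by rw [clrob_Gh]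
  have e3 : ∑ y : Vtx D n, v y * ∑ x, Gm x y = (∑ x, v x) * Gh (0 : Vtx D n) := by
    rw [Finset.sum_mul]
    exact Finset.sum_congr rfl fun x _ => by rw [clrob_Gh']
  have e4 : ∑ x : Vtx D n, ∑ y, Gm x y = (n : ℝ) ^ D * Gh (0 : Vtx D n) := by
    rw [Finset.sum_congr rfl fun x _ => clrob_Gh x, Finset.sum_const, Finset.card_univ,
      nsmul_eq_mul]
    congr 1
    unfold Vtx
    rw [Fintype.card_fun, ZMod.card, Fintype.card_fin]
    push_cast
    rfl
  rw [e2, e3, e4]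
  ring

theorem clrob_div_sum [NeZero n] (θ : Fin D → Vtx D n → ℝ) (f : Vtx D n → ℝ)
    (hf : ∀ x, ∑ i, (θ i x - θ i (x - stp i)) = f x) : ∑ x, f x = 0 := by
  simp_rw [← hf]
  rw [Finset.sum_comm]
  refine Finset.sum_eq_zero fun i _ => ?_
  rw [Finset.sum_sub_distrib, sub_eq_zero]
  exact (Equiv.sum_comp (Equiv.subRight (stp i : Vtx D n)) (θ i)).symm

/-- Long range order. `q = 10 D / 3`, `f = vD - q / n^D = (vD - μ) + (μ - q / n^D)` with `θ, μ` from `flow_all`: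
`⟨f, G f⟩ = 8 D / 3 - q² Gh 0 / n^D`, and `⟨f, G f⟩ ≤ κ ((1 + t) E + (1 + 1/t) (n²/16) ∑ μ²)`,
`κ E ≤ 8 D / 3 - .08`, `∑ μ² ≤ (C / n³) q`. -/
theorem lro_gen (d : ℕ) (hd : 2 ≤ d) : ∃ m : ℝ, 0 < m ∧ ∃ N0 : ℕ, ∀ (n : ℕ) [NeZero n],
    N0 ≤ n → Even n → m * (n : ℝ) ^ (d + 1) ≤ Gh (0 : Vtx (d + 1) n) := by
  obtain ⟨C, hC, hflow⟩ := flow_all (d + 1) (by omega)
  set D : ℝ := ((d + 1 : ℕ) : ℝ) with hDdef
  have hD3 : (3 : ℝ) ≤ D := by
    rw [hDdef]
    exact_mod_cast (by omega : 3 ≤ d + 1)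
  set q : ℝ := 10 * D / 3 with hq
  have hq0 : 0 < q := by positivity
  refine ⟨2 / 100 / q ^ 2, by positivity, max 8 ⌈10 * ((1 + 100 * D) * C * q)⌉₊, ?_⟩
  intro n _ hn he
  have hn8 : 8 ≤ n := le_trans (le_max_left _ _) hn
  have hnC : 10 * ((1 + 100 * D) * C * q) ≤ (n : ℝ) := by
    refine (Nat.le_ceil _).trans ?_
    exact_mod_cast le_trans (le_max_right _ _) hn
  have hn4 : 4 ≤ n := by omega
  have hn0 : (0 : ℝ) < (n : ℝ) := by exact_mod_cast (by omega : 0 < n)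
  have hN : (0 : ℝ) < (n : ℝ) ^ (d + 1) := by positivity
  obtain ⟨θ, μ, h1, h2, h3, h4, -⟩ := hflow n hn8 he
  have hvs : ∑ x : Vtx (d + 1) n, vD x = q := vD_sum hn4
  have hμs : ∑ x, μ x = q := by
    have h5 := clrob_div_sum θ (fun x => vD x - μ x) h1
    rw [Finset.sum_sub_distrib, hvs] at h5
    linarith
  have hcard : ∑ _x : Vtx (d + 1) n, (1 : ℝ) = (n : ℝ) ^ (d + 1) := by
    rw [Finset.sum_const, Finset.card_univ, nsmul_eq_mul, mul_one]
    unfold Vtx
    rw [Fintype.card_fun, ZMod.card, Fintype.card_fin]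
    push_cast
    rfl
  set c : ℝ := q / (n : ℝ) ^ (d + 1) with hc
  have hcN : c * (n : ℝ) ^ (d + 1) = q := by
    rw [hc]
    field_simp
  -- the function of mean zero
  have hf0 : ∑ x : Vtx (d + 1) n, (vD x - c) = 0 := by
    have : ∑ x : Vtx (d + 1) n, (vD x - c) = ∑ x : Vtx (d + 1) n, vD x - c * ∑ _x : Vtx (d + 1) n, (1 : ℝ) := by
      rw [Finset.mul_sum, ← Finset.sum_sub_distrib]
      exact Finset.sum_congr rfl fun x _ => by ring
    rw [this, hcard, hvs, hcN, sub_self]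
  have hir := Hm_ir hn4 he (fun x : Vtx (d + 1) n => vD x - c) hf0
  have hquad := clrob_quad (D := d + 1) (n := n) vD c
  rw [vDGvD (by omega) hn4 he, hvs] at hquad
  have hquad2 : ∑ x : Vtx (d + 1) n, ∑ y, (vD x - c) * (vD y - c) * Gm x y
      = 8 * D / 3 - c * q * Gh (0 : Vtx (d + 1) n) := by
    rw [hquad, ← hDdef]
    have : c ^ 2 * (n : ℝ) ^ (d + 1) = c * q := by
      rw [← hcN]
      ring
    rw [this]
    ring
  -- the bound on the norm
  set t : ℝ := 1 / (100 * D) with ht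
  have htp : 0 < t := by positivity
  have hadd := Hm_add (fun x : Vtx (d + 1) n => vD x - μ x) (fun x => μ x - c) t htp
  have hfe : (fun x : Vtx (d + 1) n => (vD x - μ x) + (μ x - c)) = fun x => vD x - c := by
    funext x
    ring
  rw [hfe] at hadd
  have hE := Hm_div θ (fun x => vD x - μ x) (fun x => (h1 x).symm)
  have hgap := Hm_gap (fun x : Vtx (d + 1) n => μ x - c)
  have hvar : ∑ x : Vtx (d + 1) n, (μ x - c) ^ 2 ≤ C / (n : ℝ) ^ 3 * q := by
    have e1 : ∑ x : Vtx (d + 1) n, (μ x - c) ^ 2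
        = ∑ x, μ x ^ 2 - 2 * c * ∑ x, μ x + c ^ 2 * ∑ _x : Vtx (d + 1) n, (1 : ℝ) := by
      rw [Finset.mul_sum, Finset.mul_sum, ← Finset.sum_sub_distrib, ← Finset.sum_add_distrib]
      exact Finset.sum_congr rfl fun x _ => by ring
    have e2 : ∑ x, μ x ^ 2 ≤ C / (n : ℝ) ^ 3 * q := by
      rw [← hμs, Finset.mul_sum]
      refine Finset.sum_le_sum fun x _ => ?_
      have := h2 x
      have := h3 x
      nlinarith
    rw [e1, hμs, hcard]
    have e3 : c ^ 2 * (n : ℝ) ^ (d + 1) = c * q := by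
      rw [← hcN]
      ring
    rw [e3]
    have : 0 ≤ c * q := by positivity
    linarith
  have hgap2 : Hm (fun x : Vtx (d + 1) n => μ x - c) ≤ C * q / (16 * n) := by
    refine hgap.trans ?_
    calc (n : ℝ) ^ 2 / 16 * ∑ x : Vtx (d + 1) n, (μ x - c) ^ 2
        ≤ (n : ℝ) ^ 2 / 16 * (C / (n : ℝ) ^ 3 * q) :=
          mul_le_mul_of_nonneg_left hvar (by positivity)
      _ = C * q / (16 * n) := by
          field_simp
  have hκ : (1 : ℝ) - 1 / ((d : ℝ) + 1) = (D - 1) / D := by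
    rw [hDdef]
    push_cast
    field_simp
  have hκ1 : (0 : ℝ) ≤ (D - 1) / D := by
    apply div_nonneg <;> linarith
  have hκ2 : (D - 1) / D ≤ 1 := by
    rw [div_le_one (by linarith)]
    linarith
  have hkE : (D - 1) / D * ∑ i, ∑ x, θ i x ^ 2 ≤ 8 * D / 3 - 8 / 100 := by
    have h6 := mul_le_mul_of_nonneg_left h4 hκ1
    have h7 : (D - 1) / D * (D / (D - 1) * (8 * D / 3 - 8 / 100)) = 8 * D / 3 - 8 / 100 := by
      have a1 : D ≠ 0 := by positivity
      have a2 : D - 1 ≠ 0 := by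
        have : 0 < D - 1 := by linarith
        exact this.ne'
      field_simp
    rw [← hDdef, h7] at h6
    exact h6
  have hmain : Hm (fun x : Vtx (d + 1) n => vD x - c)
      ≤ (1 + t) * (∑ i, ∑ x, θ i x ^ 2) + (1 + 1 / t) * (C * q / (16 * n)) := by
    refine hadd.trans ?_
    have a1 : 0 ≤ 1 + t := by linarith
    have a2 : 0 ≤ 1 + 1 / t := by positivity
    have := mul_le_mul_of_nonneg_left hE a1
    have := mul_le_mul_of_nonneg_left hgap2 a2
    linarith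
  have h1t : 1 / t = 100 * D := by
    rw [ht]
    field_simp
  have hsmall : (1 + 1 / t) * (C * q / (16 * n)) ≤ 1 / 160 := by
    rw [h1t]
    have : (1 + 100 * D) * (C * q / (16 * n)) = ((1 + 100 * D) * C * q) / n / 16 := by
      field_simp
    rw [this]
    have h8 : ((1 + 100 * D) * C * q) / n ≤ 1 / 10 := by
      rw [div_le_iff₀ hn0]
      linarith
    linarith
  have hsum0 : 0 ≤ ∑ i, ∑ x, θ i x ^ 2 :=
    Finset.sum_nonneg fun i _ => Finset.sum_nonneg fun x _ => by positivity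
  rw [hκ] at hir
  rw [hquad2] at hir
  have hfin : 8 * D / 3 - c * q * Gh (0 : Vtx (d + 1) n)
      ≤ (1 + t) * (8 * D / 3 - 8 / 100) + 1 / 160 := by
    refine hir.trans ?_
    have b1 := mul_le_mul_of_nonneg_left hmain hκ1
    have b2 : (D - 1) / D * ((1 + t) * (∑ i, ∑ x, θ i x ^ 2) + (1 + 1 / t) * (C * q / (16 * n)))
        = (1 + t) * ((D - 1) / D * ∑ i, ∑ x, θ i x ^ 2)
          + (D - 1) / D * ((1 + 1 / t) * (C * q / (16 * n))) := by ring
    rw [b2] at b1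
    have b3 : (1 + t) * ((D - 1) / D * ∑ i, ∑ x, θ i x ^ 2) ≤ (1 + t) * (8 * D / 3 - 8 / 100) :=
      mul_le_mul_of_nonneg_left hkE (by linarith)
    have b4 : (D - 1) / D * ((1 + 1 / t) * (C * q / (16 * n))) ≤ 1 * (1 / 160) := by
      have c1 : 0 ≤ (1 + 1 / t) * (C * q / (16 * n)) := by positivity
      exact mul_le_mul hκ2 hsmall c1 (by norm_num)
    linarith
  have ht2 : t * (8 * D / 3) = 8 / 300 := by
    rw [ht]
    field_simp
    norm_num
  have hG : 2 / 100 ≤ c * q * Gh (0 : Vtx (d + 1) n) := by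
    nlinarith
  have hG2 : c * q * Gh (0 : Vtx (d + 1) n) = q ^ 2 / (n : ℝ) ^ (d + 1) * Gh (0 : Vtx (d + 1) n) := by
    rw [hc]
    ring
  rw [hG2, div_mul_eq_mul_div, le_div_iff₀ hN] at hG
  have hq2 : 0 < q ^ 2 := by positivity
  rw [div_mul_eq_mul_div, div_le_iff₀ hq2]
  linarith

end LibDim
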