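import Pool.Agent.LibDimB.BPsi
import Pool.Agent.LibDimB.CDisc

/-! Row CMAIN: the continuum statement, `D ≥ 3`. -/

namespace LibDim

open Finset Filter MeasureTheory
open scoped ContDiff

theorem cmain_riem {d : ℕ} (f : (Fin d → ℝ) → ℝ) (hf : Continuous f) (F : ℕ → (Fin d → ℝ) → ℝ)
    (C : ℝ) (h : ∀ n : ℕ, 1 ≤ n → ∀ z, |F n z - f z| ≤ C * (1 / n)) :
    Tendsto (fun k : ℕ => (∑ x : Vtx d (k + 1), F (k + 1) (fun i => ((x i).val : ℝ)
      / ((k + 1 : ℕ) : ℝ))) / ((k + 1 : ℕ) : ℝ) ^ d) atTop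
      (nhds (∫ x in Set.Icc (0 : Fin d → ℝ) 1, f x)) := by
  have h1 := riemann_torus d f hf
  have h2 : Tendsto (fun k : ℕ => C * (1 / ((k + 1 : ℕ) : ℝ))) atTop (nhds 0) := by
    have h3 := (tendsto_one_div_add_atTop_nhds_zero_nat (𝕜 := ℝ)).const_mul C
    rw [mul_zero] at h3
    refine h3.congr (fun k => ?_)
    push_cast
    rfl
  have h4 : Tendsto (fun k : ℕ => (∑ x : Vtx d (k + 1), F (k + 1) (fun i => ((x i).val : ℝ)
      / ((k + 1 : ℕ) : ℝ))) / ((k + 1 : ℕ) : ℝ) ^ d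
      - (∑ x : Vtx d (k + 1), f (fun i => ((x i).val : ℝ) / ((k + 1 : ℕ) : ℝ)))
      / ((k + 1 : ℕ) : ℝ) ^ d) atTop (nhds 0) := by
    refine squeeze_zero_norm (fun k => ?_) h2
    have hk : (0 : ℝ) < ((k + 1 : ℕ) : ℝ) := by positivity
    have hkd : (0 : ℝ) < ((k + 1 : ℕ) : ℝ) ^ d := by positivity
    rw [← sub_div, ← Finset.sum_sub_distrib, Real.norm_eq_abs, abs_div, abs_of_pos hkd,
      div_le_iff₀ hkd]
    refine (Finset.abs_sum_le_sum_abs _ _).trans ?_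
    refine (Finset.sum_le_sum (fun x _ => h (k + 1) (by omega) _)).trans ?_
    rw [Finset.sum_const, Finset.card_univ, Fintype.card_fun, ZMod.card, Fintype.card_fin,
      nsmul_eq_mul]
    push_cast
    exact le_of_eq (mul_comm _ _)
  have h5 := h4.add h1
  rw [zero_add] at h5
  refine h5.congr (fun k => ?_)
  ring

/-- the field `ψ + ∇G` is smooth and periodic -/
theorem cmain_field {D : ℕ} (ψ : (Fin D → ℝ) → (Fin D → ℝ)) (G : (Fin D → ℝ) → ℝ)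
    (hψ : ContDiff ℝ ∞ ψ) (hψp : Per ψ) (hG : ContDiff ℝ ∞ G) (hGp : Per G) :
    ContDiff ℝ ∞ (fun x : Fin D → ℝ => (fun i => ψ x i + pd i G x : Fin D → ℝ)) ∧
      Per (fun x : Fin D → ℝ => (fun i => ψ x i + pd i G x : Fin D → ℝ)) := by
  refine ⟨?_, ?_⟩
  · rw [contDiff_pi]
    intro i
    exact (comp_smooth ψ hψ i).add (pd_smooth i G hG)
  · intro x k
    funext i
    have e1 := hψp x k
    have e2 := pd_per i G hGp x k
    simp only [e1, e2]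

/-- Riemann sums of the sampled weights (compare `psi_riem`) -/
theorem psi_riem_gen {D : ℕ} (ψ : (Fin D → ℝ) → (Fin D → ℝ)) (G : (Fin D → ℝ) → ℝ)
    (hψ : ContDiff ℝ ∞ ψ) (hψp : Per ψ) (hG : ContDiff ℝ ∞ G) (hGp : Per G) (ε : ℝ) (hε : 0 < ε) :
    ∃ N : ℕ, ∀ n : ℕ, [NeZero n] → N ≤ n →
      (∫ x in Set.Icc (0 : Fin D → ℝ) 1, ∑ i, ψ x i ^ 2) - ε
        ≤ (∑ i, ∑ x : Vtx D n, psi (fun x i => ψ x i + pd i G x) G i n
              (fun k => ((x k).val : ℝ) / n) ^ 2) / (n : ℝ) ^ D := by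
  obtain ⟨hφ, hφp⟩ := cmain_field ψ G hψ hψp hG hGp
  choose C hC0 hC using fun i : Fin D => psi_approx _ G hφ hφp hG hGp i
  have hC' : ∀ (i : Fin D) (n : ℕ), 1 ≤ n → ∀ z,
      |psi (fun x i => ψ x i + pd i G x) G i n z - ψ z i| ≤ C i * (1 / n) := by
    intro i n hn z
    have h := hC i n hn z
    have e : ψ z i + pd i G z - pd i G z = ψ z i := by ring
    rw [e] at h
    exact h
  have hcont : ∀ i : Fin D, Continuous (fun z => ψ z i) := fun i => (comp_smooth ψ hψ i).continuous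
  have hB : ∀ i : Fin D, ∃ B, ∀ z, |ψ z i| ≤ B := fun i =>
    per_bdd (fun z => ψ z i) (hcont i) (comp_per ψ hψp i)
  choose B hB using hB
  have hsq : ∀ (i : Fin D) (n : ℕ), 1 ≤ n → ∀ z,
      |psi (fun x i => ψ x i + pd i G x) G i n z ^ 2 - ψ z i ^ 2|
        ≤ (C i * (C i + 2 * B i)) * (1 / n) := by
    intro i n hn z
    have hn0 : (0 : ℝ) < n := by exact_mod_cast hn
    have hinv : (1 : ℝ) / n ≤ 1 := by
      rw [div_le_one hn0]
      exact_mod_cast hn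
    have h1 := hC' i n hn z
    have h2 := hB i z
    set p := psi (fun x i => ψ x i + pd i G x) G i n z with hp
    have e : p ^ 2 - ψ z i ^ 2 = (p - ψ z i) * ((p - ψ z i) + 2 * ψ z i) := by ring
    rw [e, abs_mul]
    have h3 : |(p - ψ z i) + 2 * ψ z i| ≤ C i + 2 * B i := by
      refine (abs_add_le _ _).trans ?_
      rw [abs_mul, abs_of_pos (by norm_num : (0 : ℝ) < 2)]
      have h4 : C i * (1 / n) ≤ C i := by
        have := mul_le_mul_of_nonneg_left hinv (hC0 i)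
        linarith
      linarith
    calc |p - ψ z i| * |(p - ψ z i) + 2 * ψ z i|
        ≤ (C i * (1 / n)) * (C i + 2 * B i) :=
          mul_le_mul h1 h3 (abs_nonneg _) (mul_nonneg (hC0 i) (by positivity))
      _ = (C i * (C i + 2 * B i)) * (1 / n) := by ring
  have t2 : ∀ i : Fin D, Tendsto (fun k : ℕ => (∑ x : Vtx D (k + 1),
      psi (fun x i => ψ x i + pd i G x) G i (k + 1) (fun j => ((x j).val : ℝ)
      / ((k + 1 : ℕ) : ℝ)) ^ 2) / ((k + 1 : ℕ) : ℝ) ^ D) atTop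
      (nhds (∫ x in Set.Icc (0 : Fin D → ℝ) 1, ψ x i ^ 2)) := fun i =>
    cmain_riem (fun z => ψ z i ^ 2) ((hcont i).pow 2)
      (fun n z => psi (fun x i => ψ x i + pd i G x) G i n z ^ 2) _ (hsq i)
  have hint : ∫ x in Set.Icc (0 : Fin D → ℝ) 1, ∑ i, ψ x i ^ 2
      = ∑ i, ∫ x in Set.Icc (0 : Fin D → ℝ) 1, ψ x i ^ 2 := by
    rw [integral_finsetSum]
    intro i _
    exact ((hcont i).pow 2).continuousOn.integrableOn_compact isCompact_Icc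
  have t3 := tendsto_finsetSum (univ : Finset (Fin D)) (fun i _ => t2 i)
  rw [← hint] at t3
  obtain ⟨N, hN⟩ := (Metric.tendsto_atTop.mp t3) ε hε
  refine ⟨N + 1, fun n inst hn => ?_⟩
  obtain ⟨k, rfl⟩ : ∃ k, n = k + 1 := ⟨n - 1, by omega⟩
  have h6 := hN k (by omega)
  rw [Real.dist_eq] at h6
  have h7 := (abs_lt.mp h6).1
  have e1 : (∑ i, ∑ x : Vtx D (k + 1), psi (fun x i => ψ x i + pd i G x) G i (k + 1)
              (fun j => ((x j).val : ℝ) / ((k + 1 : ℕ) : ℝ)) ^ 2) / (((k + 1 : ℕ) : ℝ)) ^ D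
      = ∑ i, (∑ x : Vtx D (k + 1), psi (fun x i => ψ x i + pd i G x) G i (k + 1)
              (fun j => ((x j).val : ℝ) / ((k + 1 : ℕ) : ℝ)) ^ 2) / (((k + 1 : ℕ) : ℝ)) ^ D :=
    Finset.sum_div _ _ _
  have h8 : (∫ x in Set.Icc (0 : Fin D → ℝ) 1, ∑ i, ψ x i ^ 2) - ε
      ≤ (∑ i, ∑ x : Vtx D (k + 1), psi (fun x i => ψ x i + pd i G x) G i (k + 1)
              (fun j => ((x j).val : ℝ) / ((k + 1 : ℕ) : ℝ)) ^ 2) / (((k + 1 : ℕ) : ℝ)) ^ D := by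
    rw [e1]
    linarith
  exact h8

/-- the bound for a fixed `n` -/
theorem cmain_fixed (D n : ℕ) [NeZero n] (hD : 3 ≤ D) (hn : 4 ≤ n) (he : Even n)
    (φ : (Fin D → ℝ) → (Fin D → ℝ)) (hφp : Per φ) (G : (Fin D → ℝ) → ℝ) (hGp : Per G)
    (c δ : ℝ) (hc : 0 < c) (hδ : 0 < δ)
    (hdisc : ∀ w : Fin D → Vtx D n → ℝ,
      c * ((∑ i, ∑ x, w i x ^ 2)
          - 1 / δ * (∑ i, ∑ j, ∑ x, (w i (x + stp j) - w i x) ^ 2)
          - (n : ℝ) ^ 2 / 16 * ∑ x, (∑ i, (w i x - w i (x - stp i))) ^ 2) * ZP D n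
        ≤ ∑ τ ∈ PMs D n, (∑ i, edgeSum i (w i) τ) ^ 2)
    (C1 C2 C3 : ℝ)
    (h1 : ∀ i j : Fin D, ∀ z, |(dfs j (1 / n))^[D] (psi φ G i n) z| ≤ C1 * (1 / n) ^ D)
    (h2 : ∀ i j : Fin D, ∀ z, |(dfs j (1 / n))^[1] (psi φ G i n) z| ≤ C2 * (1 / n) ^ 1)
    (h3 : ∀ z, |∑ i, (psi φ G i n z - psi φ G i n (z - Pi.single i (1 / (n : ℝ))))|
        ≤ C3 * (1 / n) ^ 2) :
    c / 2 * ((∑ i, ∑ x : Vtx D n, psi φ G i n (fun k => ((x k).val : ℝ) / n) ^ 2) / (n : ℝ) ^ D)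
        - (c / 2 * (D ^ 2 * C2 ^ 2 / δ + C3 ^ 2 / 16) + C1 ^ 2 / 4) * (1 / n)
      ≤ expect D n (fun τ => fld D n φ τ ^ 2) := by
  have hn0 : (0 : ℝ) < n := by exact_mod_cast (by omega : 0 < n)
  have hcard := pm_pos D n (by omega) hn he
  have hcard' : (0 : ℝ) < (PMs D n).card := by exact_mod_cast hcard
  have hDpos : (0 : ℝ) < D := by exact_mod_cast (by omega : 0 < D)
  have hnD : (0 : ℝ) < (n : ℝ) ^ D := by positivity
  have hinv : (1 : ℝ) / n ≤ 1 := by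
    rw [div_le_one hn0]
    exact_mod_cast (by omega : 1 ≤ n)
  have hinv0 : (0 : ℝ) < 1 / n := by positivity
  have hcN : ((Finset.univ : Finset (Vtx D n)).card : ℝ) = (n : ℝ) ^ D := by
    rw [Finset.card_univ, Fintype.card_fun, ZMod.card, Fintype.card_fin]
    push_cast
    rfl
  -- the weights
  set w : Fin D → Vtx D n → ℝ := fun i x => psi φ G i n (fun k => ((x k).val : ℝ) / n) with hw
  have hweq : ∀ i, ∀ x : Vtx D n, φ (midp x i 1) i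
      - n * dfs i (1 / n) G (fun k => ((x k).val : ℝ) / n) = w i x := by
    intro i x
    simp only [hw, psi]
    rw [midp_eq]
  -- alternating sums
  have halt : ∀ i, (∑ x, sgnV x * w i x) ^ 2 ≤ C1 ^ 2 := by
    intro i
    have e1 := alt_sum D n hn he i (w i) D
    have e2 := difV_sample D n i (psi φ G i n) (psi_per φ G hφp hGp i n) D
    have e3 : ∀ x : Vtx D n, ((difV i)^[D] (w i) x) ^ 2 ≤ (C1 * (1 / n) ^ D) ^ 2 := by
      intro x
      have e4 : (difV i)^[D] (w i) x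
          = (dfs i (1 / n))^[D] (psi φ G i n) (fun k => ((x k).val : ℝ) / n) := by
        rw [hw, e2]
      rw [e4, ← sq_abs]
      exact pow_le_pow_left₀ (abs_nonneg _) (h1 i i _) 2
    have e5 : ∑ x, ((difV i)^[D] (w i) x) ^ 2 ≤ (n : ℝ) ^ D * (C1 * (1 / n) ^ D) ^ 2 := by
      refine (Finset.sum_le_sum (fun x _ => e3 x)).trans ?_
      rw [Finset.sum_const, nsmul_eq_mul, hcN]
    calc (∑ x, sgnV x * w i x) ^ 2 ≤ (n : ℝ) ^ D * ∑ x, ((difV i)^[D] (w i) x) ^ 2 := e1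
      _ ≤ (n : ℝ) ^ D * ((n : ℝ) ^ D * (C1 * (1 / n) ^ D) ^ 2) :=
          mul_le_mul_of_nonneg_left e5 hnD.le
      _ = C1 ^ 2 * (((n : ℝ) * (1 / n)) ^ D) ^ 2 := by
          rw [mul_pow (n : ℝ) (1 / (n : ℝ)) D]
          ring
      _ = C1 ^ 2 := by
          rw [mul_one_div_cancel hn0.ne', one_pow, one_pow, mul_one]
  -- differences
  have hdif : ∑ i, ∑ j, ∑ x, (w i (x + stp j) - w i x) ^ 2
      ≤ (n : ℝ) ^ D * (D ^ 2 * C2 ^ 2 * (1 / n)) := by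
    have e1 : ∀ i j : Fin D, ∀ x : Vtx D n, (w i (x + stp j) - w i x) ^ 2 ≤ C2 ^ 2 * (1 / n) := by
      intro i j x
      have e2 := difV_sample D n j (psi φ G i n) (psi_per φ G hφp hGp i n) 1
      have e3 : (difV j)^[1] (w i) x
          = (dfs j (1 / n))^[1] (psi φ G i n) (fun k => ((x k).val : ℝ) / n) := by
        rw [hw, e2]
      have e4 : (difV j)^[1] (w i) x = w i (x + stp j) - w i x := rfl
      rw [← e4, e3, ← sq_abs]
      calc |(dfs j (1 / n))^[1] (psi φ G i n) (fun k => ((x k).val : ℝ) / n)| ^ 2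
          ≤ (C2 * (1 / n) ^ 1) ^ 2 := pow_le_pow_left₀ (abs_nonneg _) (h2 i j _) 2
        _ = C2 ^ 2 * ((1 / n) * (1 / n)) := by ring
        _ ≤ C2 ^ 2 * (1 * (1 / n)) :=
            mul_le_mul_of_nonneg_left (mul_le_mul_of_nonneg_right hinv hinv0.le) (sq_nonneg _)
        _ = C2 ^ 2 * (1 / n) := by rw [one_mul]
    calc ∑ i, ∑ j, ∑ x, (w i (x + stp j) - w i x) ^ 2
        ≤ ∑ i : Fin D, ∑ j : Fin D, ∑ x : Vtx D n, C2 ^ 2 * (1 / n) :=
          Finset.sum_le_sum (fun i _ => Finset.sum_le_sum (fun j _ =>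
            Finset.sum_le_sum (fun x _ => e1 i j x)))
      _ = (n : ℝ) ^ D * (D ^ 2 * C2 ^ 2 * (1 / n)) := by
          simp only [Finset.sum_const, nsmul_eq_mul, hcN, Finset.card_univ (α := Fin D),
            Fintype.card_fin]
          ring
  -- divergence
  have hdv : (n : ℝ) ^ 2 / 16 * ∑ x, (∑ i, (w i x - w i (x - stp i))) ^ 2
      ≤ (n : ℝ) ^ D * (C3 ^ 2 / 16 * (1 / n)) := by
    have e1 : ∀ x : Vtx D n, (∑ i, (w i x - w i (x - stp i))) ^ 2 ≤ (C3 * (1 / n) ^ 2) ^ 2 := by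
      intro x
      have e2 : ∀ i : Fin D, w i (x - stp i)
          = psi φ G i n ((fun k => ((x k).val : ℝ) / n) - Pi.single i (1 / (n : ℝ))) := by
        intro i
        have hper : Per (fun z => psi φ G i n (z - Pi.single i (1 / (n : ℝ)))) := by
          intro z k
          have e3 : z + Pi.single k 1 - Pi.single i (1 / (n : ℝ))
              = z - Pi.single i (1 / (n : ℝ)) + Pi.single k 1 := by abel
          show psi φ G i n (z + Pi.single k 1 - Pi.single i (1 / (n : ℝ))) = _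
          rw [e3, psi_per φ G hφp hGp i n]
        have e4 := MainA_samp_step (fun z => psi φ G i n (z - Pi.single i (1 / (n : ℝ)))) hper
          (x - stp i) i
        rw [sub_add_cancel] at e4
        simp only [add_sub_cancel_right] at e4
        exact e4.symm
      have e5 : ∑ i, (w i x - w i (x - stp i))
          = ∑ i, (psi φ G i n (fun k => ((x k).val : ℝ) / n)
            - psi φ G i n ((fun k => ((x k).val : ℝ) / n) - Pi.single i (1 / (n : ℝ)))) :=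
        Finset.sum_congr rfl (fun i _ => by rw [e2 i])
      rw [e5, ← sq_abs]
      exact pow_le_pow_left₀ (abs_nonneg _) (h3 _) 2
    have e6 : ∑ x, (∑ i, (w i x - w i (x - stp i))) ^ 2
        ≤ (n : ℝ) ^ D * (C3 * (1 / n) ^ 2) ^ 2 := by
      refine (Finset.sum_le_sum (fun x _ => e1 x)).trans ?_
      rw [Finset.sum_const, nsmul_eq_mul, hcN]
    calc (n : ℝ) ^ 2 / 16 * ∑ x, (∑ i, (w i x - w i (x - stp i))) ^ 2
        ≤ (n : ℝ) ^ 2 / 16 * ((n : ℝ) ^ D * (C3 * (1 / n) ^ 2) ^ 2) :=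
          mul_le_mul_of_nonneg_left e6 (by positivity)
      _ = (n : ℝ) ^ D * (C3 ^ 2 / 16 * (((n : ℝ) * (1 / n)) ^ 2 * (1 / n) ^ 2)) := by ring
      _ = (n : ℝ) ^ D * (C3 ^ 2 / 16 * ((1 / n) * (1 / n))) := by
          rw [mul_one_div_cancel hn0.ne']
          ring
      _ ≤ (n : ℝ) ^ D * (C3 ^ 2 / 16 * (1 * (1 / n))) := by
          refine mul_le_mul_of_nonneg_left (mul_le_mul_of_nonneg_left
            (mul_le_mul_of_nonneg_right hinv hinv0.le) (by positivity)) hnD.le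
      _ = (n : ℝ) ^ D * (C3 ^ 2 / 16 * (1 / n)) := by rw [one_mul]
  -- the alternating part
  set A := ∑ i, 1 / (2 * (D : ℝ)) * ∑ x, sgnV x * w i x with hA
  have hA2 : A ^ 2 ≤ C1 ^ 2 / 4 := by
    have e1 := sq_sum_le_card_mul_sum_sq (s := (univ : Finset (Fin D)))
      (f := fun i => 1 / (2 * (D : ℝ)) * ∑ x, sgnV x * w i x)
    rw [Finset.card_univ, Fintype.card_fin] at e1
    have e2 : ∑ i, (1 / (2 * (D : ℝ)) * ∑ x, sgnV x * w i x) ^ 2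
        ≤ ∑ i : Fin D, 1 / (4 * (D : ℝ) ^ 2) * C1 ^ 2 := by
      refine Finset.sum_le_sum (fun i _ => ?_)
      have e3 : (1 / (2 * (D : ℝ)) * ∑ x, sgnV x * w i x) ^ 2
          = 1 / (4 * (D : ℝ) ^ 2) * (∑ x, sgnV x * w i x) ^ 2 := by
        field_simp
        ring
      rw [e3]
      exact mul_le_mul_of_nonneg_left (halt i) (by positivity)
    rw [Finset.sum_const, Finset.card_univ, Fintype.card_fin, nsmul_eq_mul] at e2
    calc A ^ 2 ≤ (D : ℝ) * ∑ i, (1 / (2 * (D : ℝ)) * ∑ x, sgnV x * w i x) ^ 2 := e1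
      _ ≤ (D : ℝ) * (D * (1 / (4 * (D : ℝ) ^ 2) * C1 ^ 2)) :=
          mul_le_mul_of_nonneg_left e2 hDpos.le
      _ = C1 ^ 2 / 4 := by
          field_simp
  -- pointwise bound of fld^2
  have hrpow : ((n : ℝ) ^ (-(D : ℝ) / 2)) ^ 2 = 1 / (n : ℝ) ^ D := by
    rw [← Real.rpow_natCast, ← Real.rpow_mul hn0.le]
    have : -(D : ℝ) / 2 * ((2 : ℕ) : ℝ) = -(D : ℝ) := by push_cast; ring
    rw [this, Real.rpow_neg hn0.le, Real.rpow_natCast, one_div]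
  have hpt : ∀ τ ∈ PMs D n, 1 / (n : ℝ) ^ D * (1 / 2 * (∑ i, edgeSum i (w i) τ) ^ 2
      - C1 ^ 2 / 4) ≤ fld D n φ τ ^ 2 := by
    intro τ hτ
    have hτ' : IsPM τ := by
      simpa [PMs] using hτ
    rw [fld_eq D n hn he φ hφp G hGp τ hτ', mul_pow, hrpow]
    refine mul_le_mul_of_nonneg_left ?_ (by positivity)
    simp only [hweq]
    rw [Finset.sum_sub_distrib]
    set X := ∑ i, edgeSum i (w i) τ
    have e1 : 0 ≤ (X - 2 * A) ^ 2 := sq_nonneg _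
    have e2 : (X - A) ^ 2 = 1 / 2 * X ^ 2 - A ^ 2 + 1 / 2 * (X - 2 * A) ^ 2 := by ring
    show 1 / 2 * X ^ 2 - C1 ^ 2 / 4 ≤ (X - A) ^ 2
    rw [e2]
    linarith
  -- sum over matchings
  have hsum : 1 / (n : ℝ) ^ D * (1 / 2 * (∑ τ ∈ PMs D n, (∑ i, edgeSum i (w i) τ) ^ 2)
      - C1 ^ 2 / 4 * (PMs D n).card) ≤ ∑ τ ∈ PMs D n, fld D n φ τ ^ 2 := by
    refine le_trans (le_of_eq ?_) (Finset.sum_le_sum hpt)
    rw [← Finset.mul_sum, Finset.sum_sub_distrib, ← Finset.mul_sum, Finset.sum_const, nsmul_eq_mul]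
    ring
  unfold expect
  rw [le_div_iff₀ hcard']
  refine le_trans ?_ hsum
  have hd1 := hdisc w
  have hZ : ZP D n = ((PMs D n).card : ℝ) := rfl
  rw [hZ] at hd1
  set S := ∑ i, ∑ x, w i x ^ 2 with hS
  set P := ∑ i, ∑ j, ∑ x, (w i (x + stp j) - w i x) ^ 2 with hP
  set Q := (n : ℝ) ^ 2 / 16 * ∑ x, (∑ i, (w i x - w i (x - stp i))) ^ 2 with hQ
  set T := ∑ τ ∈ PMs D n, (∑ i, edgeSum i (w i) τ) ^ 2 with hT
  set Z := ((PMs D n).card : ℝ) with hZ'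
  have e1 : 1 / (n : ℝ) ^ D * (1 / 2 * (c * (S - 1 / δ * P - Q) * Z) - C1 ^ 2 / 4 * Z)
      ≤ 1 / (n : ℝ) ^ D * (1 / 2 * T - C1 ^ 2 / 4 * Z) :=
    mul_le_mul_of_nonneg_left (by linarith) (by positivity)
  refine le_trans ?_ e1
  have e2 : 1 / (n : ℝ) ^ D * (1 / 2 * (c * (S - 1 / δ * P - Q) * Z) - C1 ^ 2 / 4 * Z)
      = (c / 2 * (S / (n : ℝ) ^ D - 1 / δ * (P / (n : ℝ) ^ D) - Q / (n : ℝ) ^ D)
        - C1 ^ 2 / 4 * (1 / (n : ℝ) ^ D)) * Z := by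
    ring
  rw [e2]
  refine mul_le_mul_of_nonneg_right ?_ hcard'.le
  have e3 : P / (n : ℝ) ^ D ≤ D ^ 2 * C2 ^ 2 * (1 / n) := by
    rw [div_le_iff₀ hnD]
    calc P ≤ (n : ℝ) ^ D * (D ^ 2 * C2 ^ 2 * (1 / n)) := hdif
      _ = _ := by ring
  have e4 : Q / (n : ℝ) ^ D ≤ C3 ^ 2 / 16 * (1 / n) := by
    rw [div_le_iff₀ hnD]
    calc Q ≤ (n : ℝ) ^ D * (C3 ^ 2 / 16 * (1 / n)) := hdv
      _ = _ := by ring
  have e5 : 1 / (n : ℝ) ^ D ≤ 1 / n := by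
    have e6 : (1 / (n : ℝ)) ^ D ≤ (1 / (n : ℝ)) ^ 1 :=
      pow_le_pow_of_le_one (by positivity) hinv (by omega)
    rw [pow_one, one_div_pow] at e6
    exact e6
  have e7 : 1 / δ * (P / (n : ℝ) ^ D) ≤ 1 / δ * (D ^ 2 * C2 ^ 2 * (1 / n)) :=
    mul_le_mul_of_nonneg_left e3 (by positivity)
  have e8 : C1 ^ 2 / 4 * (1 / (n : ℝ) ^ D) ≤ C1 ^ 2 / 4 * (1 / n) :=
    mul_le_mul_of_nonneg_left e5 (by positivity)
  have e9 : c / 2 * (S / (n : ℝ) ^ D - 1 / δ * (D ^ 2 * C2 ^ 2 * (1 / n)) - C3 ^ 2 / 16 * (1 / n))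
      ≤ c / 2 * (S / (n : ℝ) ^ D - 1 / δ * (P / (n : ℝ) ^ D) - Q / (n : ℝ) ^ D) :=
    mul_le_mul_of_nonneg_left (by linarith) (by positivity)
  have e10 : c / 2 * (S / (n : ℝ) ^ D) - (c / 2 * (D ^ 2 * C2 ^ 2 / δ + C3 ^ 2 / 16) + C1 ^ 2 / 4)
        * (1 / n)
      = c / 2 * (S / (n : ℝ) ^ D - 1 / δ * (D ^ 2 * C2 ^ 2 * (1 / n)) - C3 ^ 2 / 16 * (1 / n))
        - C1 ^ 2 / 4 * (1 / n) := by
    ring
  rw [e10]
  linarith

/-- The main theorem: nondegeneracy of the fluctuations on divergence free fields (compare `main_low`). -/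
theorem main_gen (D : ℕ) (hD : 3 ≤ D) : ∃ c : ℝ, 0 < c ∧ ∀ ψ : (Fin D → ℝ) → (Fin D → ℝ),
    ContDiff ℝ ∞ ψ → Per ψ → (∀ x, ∑ i, pd i (fun z => ψ z i) x = 0) →
    ∀ G : (Fin D → ℝ) → ℝ, ContDiff ℝ ∞ G → Per G →
    ∀ ε : ℝ, 0 < ε → ∃ N : ℕ, ∀ n : ℕ, ∀ [NeZero n], N ≤ n → Even n →
      c * (∫ x in Set.Icc (0 : Fin D → ℝ) 1, ∑ i, ψ x i ^ 2) - ε
        ≤ expect D n (fun τ => fld D n (fun x i => ψ x i + pd i G x) τ ^ 2) := by
  obtain ⟨c, δ, hc, hδ, N0, hdisc⟩ := disc_gen D hD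
  refine ⟨c / 2, by positivity, fun ψ hψ hψp hdiv G hG hGp ε hε => ?_⟩
  obtain ⟨hφ, hφp⟩ := cmain_field ψ G hψ hψp hG hGp
  have hC : ∀ m : ℕ, ∃ C, 0 ≤ C ∧ ∀ i j : Fin D, ∀ n : ℕ, 1 ≤ n → ∀ z,
      |(dfs j (1 / n))^[m] (psi (fun x i => ψ x i + pd i G x) G i n) z| ≤ C * (1 / n) ^ m := by
    intro m
    choose C hC using fun p : Fin D × Fin D => psi_diff _ G hφ hφp hG hGp p.1 p.2 m
    refine ⟨∑ p, C p, Finset.sum_nonneg (fun p _ => (hC p).1), fun i j n hn z => ?_⟩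
    refine ((hC (i, j)).2 n hn z).trans (mul_le_mul_of_nonneg_right ?_ (by positivity))
    exact Finset.single_le_sum (fun p _ => (hC p).1) (Finset.mem_univ (i, j))
  obtain ⟨C1, hC10, hC1⟩ := hC D
  obtain ⟨C2, hC20, hC2⟩ := hC 1
  obtain ⟨C3, hC30, hC3⟩ := psi_div ψ G hψ hψp hG hGp hdiv
  obtain ⟨N1, hN1⟩ := psi_riem_gen ψ G hψ hψp hG hGp (ε / c) (by positivity)
  obtain ⟨K, hK⟩ : ∃ K, K = c / 2 * ((D : ℝ) ^ 2 * C2 ^ 2 / δ + C3 ^ 2 / 16) + C1 ^ 2 / 4 :=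
    ⟨_, rfl⟩
  obtain ⟨N2, hN2⟩ := exists_nat_gt (2 * K / ε)
  refine ⟨max (max N0 N1) (max N2 4), fun n inst hn he => ?_⟩
  have hn1 : N0 ≤ n := ((le_max_left _ _).trans (le_max_left _ _)).trans hn
  have hn2 : N1 ≤ n := ((le_max_right _ _).trans (le_max_left _ _)).trans hn
  have hn3 : N2 ≤ n := ((le_max_left _ _).trans (le_max_right _ _)).trans hn
  have hn4 : 4 ≤ n := ((le_max_right _ _).trans (le_max_right _ _)).trans hn
  have hn0 : (0 : ℝ) < n := by exact_mod_cast (by omega : 0 < n)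
  have h1 := cmain_fixed D n hD hn4 he _ hφp G hGp c δ hc hδ (hdisc n hn1 he) C1 C2 C3
    (fun i j z => hC1 i j n (by omega) z) (fun i j z => hC2 i j n (by omega) z)
    (fun z => hC3 n (by omega) z)
  have h2 := hN1 n hn2
  rw [← hK] at h1
  have h3 : K * (1 / n) ≤ ε / 2 := by
    have h4 : 2 * K / ε < n := hN2.trans_le (by exact_mod_cast hn3)
    rw [div_lt_iff₀ hε] at h4
    rw [mul_one_div, div_le_iff₀ hn0]
    linarith
  have h5 : c / 2 * ((∫ x in Set.Icc (0 : Fin D → ℝ) 1, ∑ i, ψ x i ^ 2) - ε / c)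
      ≤ c / 2 * ((∑ i, ∑ x : Vtx D n, psi (fun x i => ψ x i + pd i G x) G i n
              (fun k => ((x k).val : ℝ) / n) ^ 2) / (n : ℝ) ^ D) :=
    mul_le_mul_of_nonneg_left h2 (by positivity)
  have h6 : c / 2 * ((∫ x in Set.Icc (0 : Fin D → ℝ) 1, ∑ i, ψ x i ^ 2) - ε / c)
      = c / 2 * (∫ x in Set.Icc (0 : Fin D → ℝ) 1, ∑ i, ψ x i ^ 2) - ε / 2 := by
    field_simp
  rw [h6] at h5
  linarith

end LibDim
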