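import Pool.Agent.LibDimB.CSp
import Pool.Agent.LibDimB.BVertB
import Pool.Agent.LibDimB.BContB
import Pool.Agent.LibDimB.BWinB

/-! Row CMODE: lower bound for the modes static in all directions but two, `D ≥ 3`. -/

namespace LibDim

open Finset Matrix

/-- the momentum `a e_i + b e_l` -/
def cmode_k {d n : ℕ} (i l : Fin d) (a b : ZMod n) : Vtx d n :=
  fun m => if m = i then a else if m = l then b else 0

theorem cmode_k_symm {d n : ℕ} (i l : Fin d) (h : i ≠ l) (a b : ZMod n) :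
    cmode_k i l a b = cmode_k l i b a := by
  funext m
  unfold cmode_k
  by_cases h1 : m = i
  · have h2 : m ≠ l := fun h3 => h (h1.symm.trans h3)
    simp [h1, h]
  · by_cases h2 : m = l
    · simp [h2, h.symm]
    · simp [h1, h2]

/-- the momentum of the layer -/
def cmode_p {d n : ℕ} (i l : Fin (d + 1)) (b : ZMod n) : Vtx d n :=
  fun m => if i.succAbove m = l then b else 0

theorem cmode_ins {d n : ℕ} (i l : Fin (d + 1)) (a b : ZMod n) :
    cmode_k i l a b = insV i a (cmode_p i l b) := by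
  have h := insV_self i (cmode_k i l a b)
  rw [← h]
  have h1 : cmode_k i l a b i = a := by simp [cmode_k]
  have h2 : (fun k => cmode_k i l a b (i.succAbove k)) = cmode_p i l b := by
    funext m
    simp [cmode_k, cmode_p, Fin.succAbove_ne]
  rw [h1, h2]

theorem cmode_EL_p {d n : ℕ} [NeZero n] (i l : Fin (d + 1)) (h : i ≠ l) (b : ZMod n) :
    EL (cmode_p i l b) = eps b := by
  obtain ⟨m₀, hm₀⟩ := Fin.exists_succAbove_eq h.symm
  unfold EL
  rw [Finset.sum_eq_single m₀]
  · simp [cmode_p, hm₀]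
  · intro m _ hm
    have h1 : i.succAbove m ≠ l := fun h2 => hm (Fin.succAbove_right_injective (h2.trans hm₀.symm))
    simp [cmode_p, h1, eps_zero]
  · intro h1
    exact absurd (Finset.mem_univ _) h1

theorem cmode_EL {d n : ℕ} [NeZero n] (i l : Fin (d + 1)) (h : i ≠ l) (a b : ZMod n) :
    EL (cmode_k i l a b) = eps a + eps b := by
  rw [cmode_ins, EL_insV, cmode_EL_p i l h]

/-- a third direction -/
theorem cmode_third {d : ℕ} (hd : 2 ≤ d) (i l : Fin (d + 1)) :
    ∃ j : Fin (d + 1), j ≠ i ∧ j ≠ l := by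
  by_contra hcon
  have h1 : ∀ j : Fin (d + 1), j ∈ ({i, l} : Finset (Fin (d + 1))) := by
    intro j
    rw [Finset.mem_insert, Finset.mem_singleton]
    by_contra h2
    rw [not_or] at h2
    exact hcon ⟨j, h2.1, h2.2⟩
  have h2 : (Finset.univ : Finset (Fin (d + 1))).card ≤ ({i, l} : Finset (Fin (d + 1))).card :=
    Finset.card_le_card fun j _ => h1 j
  rw [Finset.card_univ, Fintype.card_fin] at h2
  have h3 := Finset.card_le_two (a := i) (b := l)
  omega

theorem cmode_upper {d n : ℕ} [NeZero n] (hd : 2 ≤ d) (hn : 4 ≤ n) (he : Even n)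
    (i l : Fin (d + 1)) (a b : ZMod n) :
    EE (Pi.single i 1) (cmode_k i l a b) ≤ 15 / 2 * (n : ℝ) ^ (d + 1) * ZP (d + 1) n := by
  obtain ⟨j, hj1, hj2⟩ := cmode_third hd i l
  exact mode_upper hn he _ i j hj1.symm (by simp [cmode_k, hj1, hj2])

theorem cmode_mono {d n : ℕ} [NeZero n] (hn : 4 ≤ n) (he : Even n) (i l : Fin (d + 1))
    (a a' b : ZMod n) (h : eps a ≤ eps a') :
    EE (Pi.single i 1) (cmode_k i l a' b) - EE (Pi.single i 1) (cmode_k i l ((n / 2 : ℕ) : ZMod n) b)
      ≤ EE (Pi.single i 1) (cmode_k i l a b) := by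
  rw [cmode_ins, cmode_ins, cmode_ins]
  exact vert_mono hn he i a a' (cmode_p i l b) h

theorem cmode_p_ne {d n : ℕ} (i l : Fin (d + 1)) (h : i ≠ l) (b : ZMod n) (hb : b ≠ 0) :
    cmode_p i l b ≠ 0 := by
  obtain ⟨m₀, hm₀⟩ := Fin.exists_succAbove_eq h.symm
  intro h2
  have h3 := congrFun h2 m₀
  simp [cmode_p, hm₀] at h3
  exact hb h3

theorem cmode_pair {d n : ℕ} [NeZero n] (hd : 2 ≤ d) (hn : 4 ≤ n) (he : Even n)
    (i l : Fin (d + 1)) (h : i ≠ l) (a b : ZMod n) :
    eps a * EE (Pi.single i 1) (cmode_k i l a b) = eps b * EE (Pi.single l 1) (cmode_k i l a b) := by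
  obtain ⟨j, hj1, hj2⟩ := cmode_third hd i l
  have hhalf : (((n / 2 : ℕ) : ℕ) : ZMod n) ≠ 0 := by
    intro h1
    rw [ZMod.natCast_eq_zero_iff] at h1
    have h2 := Nat.le_of_dvd (by omega) h1
    omega
  have h1 := EE_pair hn he (cmode_k i l a b) i l h
    (fun m hm1 hm2 => by simp [cmode_k, hm1, hm2]) j
    (by
      have : cmode_k i l a b j = 0 := by simp [cmode_k, hj1, hj2]
      rw [this]
      exact hhalf.symm)
    (Pi.single i 1) (fun m hm1 _ => by rw [Pi.single_eq_of_ne hm1])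
  have h2 : cmode_k i l a b i = a := by simp [cmode_k]
  have h3 : cmode_k i l a b l = b := by simp [cmode_k, h.symm]
  rw [chr_stp, chr_stp, h2, h3, Pi.single_eq_of_ne h.symm, Pi.single_eq_same, zero_mul, one_mul, zero_sub,
    norm_neg, ← eps_norm, ← eps_norm] at h1
  exact h1

/-- modes static in all directions but two (compare `win3`; `D ≥ 3` is used for `mode_upper` and for `contin`) -/
theorem win_gen (D : ℕ) (hD : 3 ≤ D) : ∃ c δ : ℝ, 0 < c ∧ 0 < δ ∧ ∃ N0 : ℕ,
    ∀ (n : ℕ) [NeZero n], N0 ≤ n → Even n → ∀ i l : Fin D, i ≠ l →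
    ∀ k : Vtx D n, (∀ m, m ≠ i → m ≠ l → k m = 0) → k ≠ 0 → EL k ≤ δ →
      (eps (k i) ≤ eps (k l) → c * (n : ℝ) ^ D * ZP D n ≤ EE (Pi.single i 1) k) ∧
      (eps (k l) ≤ eps (k i) → c * (n : ℝ) ^ D * ZP D n ≤ EE (Pi.single l 1) k) := by
  obtain ⟨d, rfl⟩ : ∃ d, D = d + 1 := ⟨D - 1, by omega⟩
  have hd : 2 ≤ d := by omega
  obtain ⟨c1, hc1, N1, hS⟩ := Sp_gen d hd
  obtain ⟨c, δ, hc, hδ, H⟩ := bwin (15 / 2) c1 (by norm_num) hc1
  refine ⟨c, δ, hc, hδ, max N1 4, ?_⟩
  intro n _ hN he i l hil k hk hk0 hEL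
  have hn : 4 ≤ n := le_trans (le_max_right _ _) hN
  have hn1 : N1 ≤ n := le_trans (le_max_left _ _) hN
  by_cases hZ : ZP (d + 1) n = 0
  · rw [hZ, mul_zero]
    exact ⟨fun _ => EE_nonneg _ _, fun _ => EE_nonneg _ _⟩
  have hZ0 : 0 ≤ ZP (d + 1) n := Nat.cast_nonneg _
  have hZpos : 0 < ZP (d + 1) n := lt_of_le_of_ne hZ0 (Ne.symm hZ)
  have hnR : (0 : ℝ) < n := by
    have : 0 < n := by omega
    exact_mod_cast this
  have hW : 0 < (n : ℝ) ^ (d + 1) * ZP (d + 1) n := by positivity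
  have hkk : k = cmode_k i l (k i) (k l) := by
    funext m
    by_cases h1 : m = i
    · rw [h1]; simp [cmode_k]
    · by_cases h2 : m = l
      · rw [h2]; simp [cmode_k, hil.symm]
      · rw [hk m h1 h2]; simp [cmode_k, h1, h2]
  have hsum : ∀ i l : Fin (d + 1), i ≠ l → ∀ b : ZMod n, b ≠ 0 → eps b ≤ 1 →
      n * c1 * Real.sqrt (eps b) ≤
        ∑ a, EE (Pi.single i 1) (cmode_k i l a b) / ((n : ℝ) ^ (d + 1) * ZP (d + 1) n) := by
    intro i l h b hb hb1
    rw [← Finset.sum_div, le_div_iff₀ hW]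
    have h1 := vert_sum hn he i (cmode_p i l b)
    have h2 := hS n hn hn1 he (cmode_p i l b) (cmode_p_ne i l h b hb)
      (by rw [cmode_EL_p i l h]; exact hb1)
    rw [cmode_EL_p i l h] at h2
    have h3 : ∑ a, EE (Pi.single i 1) (cmode_k i l a b)
        = ∑ a, EE (Pi.single i 1) (insV i a (cmode_p i l b)) :=
      Finset.sum_congr rfl fun a _ => by rw [cmode_ins]
    rw [h3, h1]
    refine le_trans (le_of_eq ?_) (mul_le_mul_of_nonneg_left h2 (by positivity : (0 : ℝ) ≤ (n : ℝ) ^ 2))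
    ring
  have key := H n hn he (fun a b => EE (Pi.single i 1) (cmode_k i l a b) / ((n : ℝ) ^ (d + 1) * ZP (d + 1) n))
    (fun a b => EE (Pi.single l 1) (cmode_k i l a b) / ((n : ℝ) ^ (d + 1) * ZP (d + 1) n))
    (fun a b => div_nonneg (EE_nonneg _ _) hW.le)
    (fun a b => by
      rw [div_le_iff₀ hW, ← mul_assoc]
      exact cmode_upper hd hn he i l a b)
    (fun a b => div_nonneg (EE_nonneg _ _) hW.le)
    (fun a b => by
      rw [div_le_iff₀ hW, ← mul_assoc, cmode_k_symm i l hil]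
      exact cmode_upper hd hn he l i b a)
    (fun a b => by
      rw [mul_div_assoc', mul_div_assoc', cmode_pair hd hn he i l hil a b])
    (fun a a' b h => by
      rw [← sub_div]
      exact div_le_div_of_nonneg_right (cmode_mono hn he i l a a' b h) hW.le)
    (fun a b b' h => by
      rw [← sub_div, cmode_k_symm i l hil, cmode_k_symm i l hil, cmode_k_symm i l hil]
      exact div_le_div_of_nonneg_right (cmode_mono hn he l i b b' a h) hW.le)
    (fun b hb hb1 => hsum i l hil b hb hb1)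
    (fun a ha ha1 => by
      refine (hsum l i hil.symm a ha ha1).trans (le_of_eq ?_)
      refine Finset.sum_congr rfl fun b _ => ?_
      rw [cmode_k_symm i l hil])
    (k i) (k l)
    (by
      by_contra hcon
      rw [not_or, not_not, not_not] at hcon
      apply hk0
      funext m
      by_cases h1 : m = i
      · rw [h1, hcon.1]; rfl
      · by_cases h2 : m = l
        · rw [h2, hcon.2]; rfl
        · exact hk m h1 h2)
    (by rw [← cmode_EL i l hil, ← hkk]; exact hEL)
  rw [← hkk] at key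
  constructor
  · intro h
    have h1 := key.1 h
    rw [le_div_iff₀ hW, ← mul_assoc] at h1
    exact h1
  · intro h
    have h1 := key.2 h
    rw [le_div_iff₀ hW, ← mul_assoc] at h1
    exact h1

end LibDim
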