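import Pool.Agent.LibDimB.CMode
import Pool.Agent.LibDimB.BInpB

/-! Row CMODEB: lower bound for the general mode, `D ≥ 3`. -/

namespace LibDim

open Finset Matrix

theorem CModeB_eps_half {n : ℕ} [NeZero n] (hn : 2 ≤ n) (he : Even n) :
    eps ((n / 2 : ℕ) : ZMod n) = 4 := by
  have h := cr_half he (1 : ZMod n)
  rw [mul_one] at h
  have h1 : (1 : ZMod n).val = 1 := by
    have : Fact (1 < n) := ⟨by omega⟩
    exact ZMod.val_one n
  rw [h1, pow_one] at h
  unfold eps
  rw [h]
  norm_num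

theorem CModeB_norm {d n : ℕ} [NeZero n] (k : Vtx d n) (i : Fin d) :
    ‖1 - chr k (stp i)‖ ^ 2 = eps (k i) := by
  rw [chr_stp, eps_norm]

theorem CModeB_half_ne {n : ℕ} [NeZero n] (hn : 2 ≤ n) (he : Even n) (a : ZMod n)
    (h : eps a ≤ 1) : a ≠ ((n / 2 : ℕ) : ZMod n) := by
  intro h1
  rw [h1, CModeB_eps_half hn he] at h
  norm_num at h

theorem CModeB_eps_le {d n : ℕ} [NeZero n] (k : Vtx d n) (i : Fin d) : eps (k i) ≤ EL k := by
  unfold EL
  exact Finset.single_le_sum (f := fun i => eps (k i)) (fun m _ => eps_nonneg (k m))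
    (Finset.mem_univ i)

theorem CModeB_chr_zero {d n : ℕ} [NeZero n] (k : Vtx d n) (i : Fin d) (h : k i = 0) :
    chr k (stp i) = 1 := by
  rw [chr_stp, h, AddChar.map_zero_eq_one]

/-- the reduction to coefficients without the component `j` -/
theorem CModeB_red {d n : ℕ} [NeZero n] (hn : 4 ≤ n) (he : Even n) (k : Vtx d n) (j : Fin d)
    (hk : EL k ≤ 1) (b : Fin d → ℂ) :
    ∃ b' : Fin d → ℂ, b' j = 0 ∧ EE b' k ≤ EE b k ∧
      (∀ m, m ≠ j → k m = 0 → b' m = b m) ∧ ∀ i l : Fin d, i ≠ j → l ≠ j →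
      b' i * (1 - chr k (stp l)) - b' l * (1 - chr k (stp i))
        = b i * (1 - chr k (stp l)) - b l * (1 - chr k (stp i)) := by
  by_cases h : k j = 0
  · refine ⟨Function.update b j 0, Function.update_self _ _ _, refl_le hn he k j h b, ?_, ?_⟩
    · intro m hm _
      rw [Function.update_of_ne hm]
    · intro i l hi hl
      rw [Function.update_of_ne hi, Function.update_of_ne hl]
  · have hD : 1 - chr k (stp j) ≠ 0 := by
      intro h0
      have h1 := CModeB_norm k j
      rw [h0, norm_zero] at h1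
      have h2 := eps_gap (k j) h
      have h3 : (0 : ℝ) < 16 / (n : ℝ) ^ 2 := by
        have : (0 : ℝ) < n := by
          have := Nat.pos_of_ne_zero (NeZero.ne n)
          exact_mod_cast this
        positivity
      norm_num at h1
      linarith
    refine ⟨fun i => b i - b j / (1 - chr k (stp j)) * (1 - chr k (stp i)), ?_, ?_, ?_, ?_⟩
    · show b j - b j / (1 - chr k (stp j)) * (1 - chr k (stp j)) = 0
      rw [div_mul_cancel₀ _ hD, sub_self]
    · rw [EE_sub hn he k j (CModeB_half_ne (by omega) he _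
        (le_trans (CModeB_eps_le k j) hk)) b]
    · intro m _ hm
      show b m - b j / (1 - chr k (stp j)) * (1 - chr k (stp m)) = b m
      rw [CModeB_chr_zero k m hm, sub_self, mul_zero, sub_zero]
    · intro i l _ _
      show (b i - b j / (1 - chr k (stp j)) * (1 - chr k (stp i))) * (1 - chr k (stp l))
          - (b l - b j / (1 - chr k (stp j)) * (1 - chr k (stp l))) * (1 - chr k (stp i)) = _
      ring

/-- removal of all directions of a set -/
theorem CModeB_all {d n : ℕ} [NeZero n] (hn : 4 ≤ n) (he : Even n) (i l : Fin (d + 1))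
    (k : Vtx (d + 1) n) (hk : EL k ≤ 1) (b : Fin (d + 1) → ℂ) (S : Finset (Fin (d + 1))) :
    i ∉ S → l ∉ S → ∃ (k' : Vtx (d + 1) n) (b' : Fin (d + 1) → ℂ),
      (∀ m ∈ S, k' m = 0 ∧ b' m = 0) ∧ k' i = k i ∧ k' l = k l ∧ EL k' ≤ EL k ∧
      EE b' k' ≤ EE b k ∧
      b' i * (1 - chr k (stp l)) - b' l * (1 - chr k (stp i))
        = b i * (1 - chr k (stp l)) - b l * (1 - chr k (stp i)) := by
  classical
  refine Finset.induction_on S ?_ ?_
  · intro _ _
    exact ⟨k, b, fun m hm => absurd hm (Finset.notMem_empty m), rfl, rfl, le_refl _, le_refl _,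
      rfl⟩
  · intro j S hj ih hi hl
    have hij : i ≠ j := fun h => hi (by rw [h]; exact Finset.mem_insert_self _ _)
    have hlj : l ≠ j := fun h => hl (by rw [h]; exact Finset.mem_insert_self _ _)
    obtain ⟨k', b', h0, hki, hkl, hEL, hEE, hb⟩ := ih
      (fun h => hi (Finset.mem_insert_of_mem h)) (fun h => hl (Finset.mem_insert_of_mem h))
    obtain ⟨b'', hb0, hbE, hbz, hbd⟩ := CModeB_red hn he k' j (le_trans hEL hk) b'
    refine ⟨Function.update k' j 0, b'', ?_, ?_, ?_, ?_, ?_, ?_⟩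
    · intro m hm
      rcases Finset.mem_insert.1 hm with h | h
      · rw [h]
        exact ⟨Function.update_self _ _ _, hb0⟩
      · have hmj : m ≠ j := fun h' => hj (by rw [← h']; exact h)
        rw [Function.update_of_ne hmj, hbz m hmj (h0 m h).1]
        exact h0 m h
    · rw [Function.update_of_ne hij, hki]
    · rw [Function.update_of_ne hlj, hkl]
    · refine le_trans ?_ hEL
      unfold EL
      refine Finset.sum_le_sum fun m _ => ?_
      by_cases hmj : m = j
      · rw [hmj, Function.update_self, eps_zero]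
        exact eps_nonneg _
      · rw [Function.update_of_ne hmj]
    · exact le_trans (plane_mono hn he j k' b'' hb0) (le_trans hbE hEE)
    · have e := hbd i l hij hlj
      have e1 : chr k' (stp i) = chr k (stp i) := by rw [chr_stp, chr_stp, hki]
      have e2 : chr k' (stp l) = chr k (stp l) := by rw [chr_stp, chr_stp, hkl]
      rw [e1, e2] at e
      rw [e, hb]

/-- The general mode. Remove the directions `m ≠ i, l` one after the other: if `k m ≠ 0` subtract a multiple of `1 - ζ` from `b` so that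
`b m = 0` (`EE_sub`; this changes neither `b_i D_l - b_l D_i` nor the components `m'` with `k m' = 0`), then `plane_mono`; if
`k m = 0` use `refl_le`. At the end `EE_pair`, `win_gen` (compare `mode_low`). -/
theorem mode_gen (D : ℕ) (hD : 3 ≤ D) : ∃ c δ : ℝ, 0 < c ∧ 0 < δ ∧ ∃ N0 : ℕ,
    ∀ (n : ℕ) [NeZero n], N0 ≤ n → Even n → ∀ k : Vtx D n, k ≠ 0 → EL k ≤ δ →
    ∀ b : Fin D → ℂ, ∀ i l : Fin D, i ≠ l →
      c * (n : ℝ) ^ D * ZP D n * ‖b i * (1 - chr k (stp l)) - b l * (1 - chr k (stp i))‖ ^ 2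
        ≤ EL k * EE b k := by
  obtain ⟨d, rfl⟩ : ∃ d, D = d + 1 := ⟨D - 1, by omega⟩
  obtain ⟨c, δ, hc, hδ, N0, H⟩ := win_gen (d + 1) hD
  refine ⟨c, min δ 1, hc, lt_min hδ one_pos, max N0 4, ?_⟩
  intro n _ hN he k hk hE b i l hil
  have hn4 : 4 ≤ n := le_trans (le_max_right _ _) hN
  have hn0 : N0 ≤ n := le_trans (le_max_left _ _) hN
  have hE1 : EL k ≤ 1 := le_trans hE (min_le_right _ _)
  have hEδ : EL k ≤ δ := le_trans hE (min_le_left _ _)
  have hEL0 : 0 ≤ EL k := Finset.sum_nonneg fun m _ => eps_nonneg (k m)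
  obtain ⟨k', b', hz, hk'i, hk'l, hELk', hEE, hbil⟩ := CModeB_all hn4 he i l k hE1 b
    (Finset.univ.filter fun m => m ≠ i ∧ m ≠ l) (by simp) (by simp)
  have hst : ∀ m, m ≠ i → m ≠ l → k' m = 0 := fun m h1 h2 =>
    (hz m (Finset.mem_filter.2 ⟨Finset.mem_univ _, h1, h2⟩)).1
  have hbst : ∀ m, m ≠ i → m ≠ l → b' m = 0 := fun m h1 h2 =>
    (hz m (Finset.mem_filter.2 ⟨Finset.mem_univ _, h1, h2⟩)).2
  have hDi : chr k' (stp i) = chr k (stp i) := by rw [chr_stp, chr_stp, hk'i]
  have hDl : chr k' (stp l) = chr k (stp l) := by rw [chr_stp, chr_stp, hk'l]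
  by_cases h0 : k' = 0
  · have hi0 : k i = 0 := by rw [← hk'i, h0]; rfl
    have hl0 : k l = 0 := by rw [← hk'l, h0]; rfl
    rw [CModeB_chr_zero k i hi0, CModeB_chr_zero k l hl0]
    have : 0 ≤ EL k * EE b k := mul_nonneg hEL0 (EE_nonneg b k)
    simpa using this
  · have hhalf : k' i ≠ ((n / 2 : ℕ) : ZMod n) := by
      refine CModeB_half_ne (by omega) he _ ?_
      exact le_trans (CModeB_eps_le k' i) (le_trans hELk' hE1)
    have hW := H n hn0 he i l hil k' hst h0 (le_trans hELk' hEδ)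
    have hpair1 := EE_pair hn4 he k' i l hil hst i hhalf b' hbst
    have hpair2 := EE_pair hn4 he k' l i (Ne.symm hil)
      (fun m h1 h2 => hst m h2 h1) i hhalf b' (fun m h1 h2 => hbst m h2 h1)
    rw [CModeB_norm, hk'i, hDi, hDl] at hpair1
    rw [CModeB_norm, hk'l, hDi, hDl] at hpair2
    have hEE0 : 0 ≤ EE b' k' := EE_nonneg _ _
    rcases le_total (eps (k i)) (eps (k l)) with hle | hle
    · have h1 := hW.1 (by rw [hk'i, hk'l]; exact hle)
      calc c * (n : ℝ) ^ (d + 1) * ZP (d + 1) n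
            * ‖b i * (1 - chr k (stp l)) - b l * (1 - chr k (stp i))‖ ^ 2
          ≤ EE (Pi.single i 1) k'
            * ‖b i * (1 - chr k (stp l)) - b l * (1 - chr k (stp i))‖ ^ 2 :=
            mul_le_mul_of_nonneg_right h1 (sq_nonneg _)
        _ = eps (k l) * EE b' k' := by
            rw [hpair2, hbil]
            ring
        _ ≤ EL k * EE b' k' := mul_le_mul_of_nonneg_right (CModeB_eps_le k l) hEE0
        _ ≤ EL k * EE b k := mul_le_mul_of_nonneg_left hEE hEL0
    · have h1 := hW.2 (by rw [hk'i, hk'l]; exact hle)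
      have hsw : ‖b' l * (1 - chr k (stp i)) - b' i * (1 - chr k (stp l))‖
          = ‖b i * (1 - chr k (stp l)) - b l * (1 - chr k (stp i))‖ := by
        rw [← hbil, norm_sub_rev]
      calc c * (n : ℝ) ^ (d + 1) * ZP (d + 1) n
            * ‖b i * (1 - chr k (stp l)) - b l * (1 - chr k (stp i))‖ ^ 2
          ≤ EE (Pi.single l 1) k'
            * ‖b i * (1 - chr k (stp l)) - b l * (1 - chr k (stp i))‖ ^ 2 :=
            mul_le_mul_of_nonneg_right h1 (sq_nonneg _)
        _ = eps (k i) * EE b' k' := by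
            rw [hpair1, hsw]
            ring
        _ ≤ EL k * EE b' k' := mul_le_mul_of_nonneg_right (CModeB_eps_le k i) hEE0
        _ ≤ EL k * EE b k := mul_le_mul_of_nonneg_left hEE hEL0

end LibDim
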